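import Pool.Agent.Y102.SP.Wt

set_option autoImplicit false

open Module

namespace Pool.Agent.Y102.SP

variable {U : Type} [AddCommGroup U] [Module ℂ U]

theorem bil_comm (v w : Module.End ℂ U) : bil v w = bil w v := by
  unfold bil
  rw [add_comm]

theorem bil_add_left (v v' w : Module.End ℂ U) : bil (v + v') w = bil v w + bil v' w := by
  unfold bil
  rw [← add_div, ← map_add]
  have e : (v + v') * w + w * (v + v') = v * w + w * v + (v' * w + w * v') := by
    rw [add_mul, mul_add]; abel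
  rw [e]

theorem bil_smul_left (c : ℂ) (v w : Module.End ℂ U) : bil (c • v) w = c * bil v w := by
  unfold bil
  rw [smul_mul_assoc, mul_smul_comm, ← smul_add, map_smul, smul_eq_mul, mul_div_assoc]

theorem bil_add_right (v w w' : Module.End ℂ U) : bil v (w + w') = bil v w + bil v w' := by
  rw [bil_comm, bil_add_left, bil_comm w, bil_comm w']

theorem bil_smul_right (c : ℂ) (v w : Module.End ℂ U) : bil v (c • w) = c * bil v w := by
  rw [bil_comm, bil_smul_left, bil_comm w]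

/-- The form is invariant. -/
theorem bil_inv (x v w : Module.End ℂ U) : bil (x * v - v * x) w + bil v (x * w - w * x) = 0 := by
  unfold bil
  rw [← add_div, ← map_add]
  have e : (x * v - v * x) * w + w * (x * v - v * x) + (v * (x * w - w * x) + (x * w - w * x) * v)
      = (x * (v * w) - v * w * x) + (x * (w * v) - w * v * x) := by
    simp only [sub_mul, mul_sub, mul_assoc]; abel
  rw [e, map_add, map_sub, map_sub, LinearMap.trace_mul_comm ℂ x (v * w),
    LinearMap.trace_mul_comm ℂ x (w * v), sub_self, sub_self, add_zero, zero_div]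

/-- The form as a bilinear map. -/
noncomputable def BilB : Module.End ℂ U →ₗ[ℂ] Module.End ℂ U →ₗ[ℂ] ℂ :=
  LinearMap.mk₂ ℂ bil bil_add_left (fun c v w => by rw [bil_smul_left, smul_eq_mul])
    bil_add_right (fun c v w => by rw [bil_smul_right, smul_eq_mul])

theorem BilB_apply (v w : Module.End ℂ U) : BilB v w = bil v w := rfl

variable [FiniteDimensional ℂ U] [Nontrivial U]
  {T : Type} [AddCommGroup T] [Module ℂ T] {V 𝔥 : Submodule ℂ (Module.End ℂ U)} (S : Sys V 𝔥 T)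

namespace Sys

/-- Weight spaces are orthogonal unless the weights are opposite. -/
theorem orth {χ ψ : Module.Dual ℂ T} {x y : Module.End ℂ U} (hx : x ∈ S.vw χ) (hy : y ∈ S.vw ψ)
    (h : χ + ψ ≠ 0) : bil x y = 0 := by
  obtain ⟨t, ht⟩ : ∃ t, (χ + ψ) t ≠ 0 := by
    by_contra hn
    push Not at hn
    exact h (LinearMap.ext fun t => by rw [hn t]; rfl)
  have h1 := bil_inv (S.ι t) x y
  rw [hx.2 t, hy.2 t, bil_smul_left, bil_smul_right, ← add_mul] at h1
  rcases mul_eq_zero.1 h1 with h2 | h2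
  · exact absurd h2 ht
  · exact h2

/-- The product of two vectors whose weights are not opposite is alternating. -/
theorem anti {χ ψ : Module.Dual ℂ T} {x y : Module.End ℂ U} (hx : x ∈ S.vw χ) (hy : y ∈ S.vw ψ)
    (h : χ + ψ ≠ 0) : x * y = -(y * x) := by
  have h1 := S.clif.anti x hx.1 y hy.1
  rw [S.orth hx hy h, zero_smul] at h1
  exact eq_neg_of_add_eq_zero_left h1

theorem sq_zero {χ : Module.Dual ℂ T} {x : Module.End ℂ U} (hx : x ∈ S.vw χ) (h : χ ≠ 0) :
    x * x = 0 := by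
  have h2 : χ + χ ≠ 0 := by
    intro h3
    apply h
    rw [← two_smul ℂ χ] at h3
    exact (smul_eq_zero.1 h3).resolve_left two_ne_zero
  have h1 := S.clif.anti x hx.1 x hx.1
  rw [S.orth hx hx h2, zero_smul, ← two_smul ℂ (x * x)] at h1
  exact (smul_eq_zero.1 h1).resolve_left two_ne_zero

/-- Opposite weight spaces are in duality. -/
theorem dual {χ : Module.Dual ℂ T} {x : Module.End ℂ U} (hx : x ∈ S.vw χ) (hx0 : x ≠ 0) :
    ∃ y ∈ S.vw (-χ), bil x y = 1 := by
  by_cases h : ∃ y ∈ S.vw (-χ), bil x y ≠ 0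
  · obtain ⟨y, hy, h⟩ := h
    refine ⟨(bil x y)⁻¹ • y, Submodule.smul_mem _ _ hy, ?_⟩
    rw [bil_smul_right, inv_mul_cancel₀ h]
  · exfalso
    push Not at h
    apply hx0
    refine S.clif.nondeg x hx.1 ?_
    have h1 : (⨆ ψ, V ⊓ wsp S.ι ψ) ≤ LinearMap.ker (BilB x) := by
      refine iSup_le fun ψ y hy => ?_
      rw [LinearMap.mem_ker, BilB_apply]
      by_cases h2 : χ + ψ = 0
      · have h3 : ψ = -χ := (neg_eq_of_add_eq_zero_right h2).symm
        rw [h3] at hy
        exact h y hy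
      · exact S.orth hx hy h2
    intro w hw
    exact LinearMap.mem_ker.1 (h1 (S.vspan hw))

theorem neg_mem {χ : Module.Dual ℂ T} (h : χ ∈ S.Om) : -χ ∈ S.Om := by
  obtain ⟨x, hx, hx0⟩ := Submodule.exists_mem_ne_zero_of_ne_bot h
  obtain ⟨y, hy, h1⟩ := S.dual hx hx0
  intro h2
  rw [h2, Submodule.mem_bot] at hy
  rw [hy, ← BilB_apply, map_zero] at h1
  exact zero_ne_one h1

theorem wts' : Wts S.R S.Om := S.wts fun _ h => S.neg_mem h

theorem Bil_finrank_le (χ : Module.Dual ℂ T) : finrank ℂ (S.vw (-χ)) ≤ finrank ℂ (S.vw χ) := by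
  rw [← Subspace.dual_finrank_eq (K := ℂ) (V := S.vw χ)]
  refine LinearMap.finrank_le_finrank_of_injective
    (f := ((BilB (U := U)).compl₁₂ (S.vw χ).subtype (S.vw (-χ)).subtype).flip) ?_
  rw [← LinearMap.ker_eq_bot, Submodule.eq_bot_iff]
  rintro ⟨y, hy⟩ h
  by_contra hne
  have hy0 : y ≠ 0 := fun h0 => hne (Subtype.ext h0)
  obtain ⟨x, hx, h1⟩ := S.dual hy hy0
  rw [neg_neg] at hx
  have h2 := LinearMap.congr_fun (LinearMap.mem_ker.1 h) ⟨x, hx⟩
  have h3 : bil x y = 0 := h2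
  rw [bil_comm, h3] at h1
  exact zero_ne_one h1

/-- The dimensions of opposite weight spaces are equal. -/
theorem finrank_neg (χ : Module.Dual ℂ T) : finrank ℂ (S.vw (-χ)) = finrank ℂ (S.vw χ) := by
  refine le_antisymm (S.Bil_finrank_le χ) ?_
  have h := S.Bil_finrank_le (-χ)
  rw [neg_neg] at h
  exact h

theorem Bil_proj {ι' : Type} {M : Type} [AddCommGroup M] [Module ℂ M] {P W : ι' → Submodule ℂ M}
    (hP : iSupIndep P) (hW : ∀ i, W i ≤ P i) {i : ι'} {x : M} (hx : x ∈ P i) (hx' : x ∈ ⨆ j, W j) :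
    x ∈ W i := by
  classical
  rw [iSup_split_single W i] at hx'
  obtain ⟨a, ha, b, hb, rfl⟩ := Submodule.mem_sup.1 hx'
  have h1 : (⨆ (j) (_ : j ≠ i), W j) ≤ ⨆ (j) (_ : j ≠ i), P j :=
    iSup₂_mono fun j _ => hW j
  have h2 : b ∈ P i := by
    have h3 := Submodule.sub_mem _ hx (hW i ha)
    rwa [add_sub_cancel_left] at h3
  have h3 : b = 0 := (Submodule.disjoint_def.1 (hP i)) b h2 (h1 hb)
  rw [h3, add_zero]
  exact ha

/-- the part of weight `γ` of `so (V)` -/
def BilW (γ : Module.Dual ℂ T) : Submodule ℂ (Module.End ℂ U) :=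
  Submodule.span ℂ {z | ∃ c d, c + d = γ ∧ ∃ v ∈ S.vw c, ∃ w ∈ S.vw d, z = v * w - w * v}

theorem BilW_le (γ : Module.Dual ℂ T) : S.BilW γ ≤ wsp S.ι γ := by
  refine Submodule.span_le.2 ?_
  rintro _ ⟨c, d, rfl, v, hv, w, hw, rfl⟩ t
  have h1 := hv.2 t
  have h2 := hw.2 t
  have e : S.ι t * (v * w - w * v) - (v * w - w * v) * S.ι t =
      ((S.ι t * v - v * S.ι t) * w - w * (S.ι t * v - v * S.ι t)) +
        (v * (S.ι t * w - w * S.ι t) - (S.ι t * w - w * S.ι t) * v) := by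
    simp only [sub_mul, mul_sub, mul_assoc]; abel
  rw [e, h1, h2, LinearMap.add_apply, add_smul]
  simp only [smul_mul_assoc, mul_smul_comm, smul_sub]

/-- commutators of vectors are sums of commutators of weight vectors -/
theorem Bil_mem {v w : Module.End ℂ U} (hv : v ∈ V) (hw : w ∈ V) :
    v * w - w * v ∈ ⨆ γ, S.BilW γ := by
  have h1 : ∀ c, ∀ v' ∈ S.vw c, V ≤ (⨆ γ, S.BilW γ).comap
      (LinearMap.mulLeft ℂ v' - LinearMap.mulRight ℂ v') := by
    intro c v' hv'
    refine S.vspan.trans (iSup_le fun d w' hw' => ?_)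
    rw [Submodule.mem_comap]
    exact Submodule.mem_iSup_of_mem (c + d)
      (Submodule.subset_span ⟨c, d, rfl, v', hv', w', hw', rfl⟩)
  have h2 : V ≤ (⨆ γ, S.BilW γ).comap (LinearMap.mulRight ℂ w - LinearMap.mulLeft ℂ w) := by
    refine S.vspan.trans (iSup_le fun c v' hv' => ?_)
    rw [Submodule.mem_comap]
    exact h1 c v' hv' hw
  exact h2 hv

/-- An element of `so(V)` of weight `β ≠ 0` is a sum of products of weight vectors. -/
theorem so_wt {β : Module.Dual ℂ T} (hβ : β ≠ 0) {x : Module.End ℂ U} (hx : x ∈ 𝔥)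
    (hw : x ∈ wsp S.ι β) :
    x ∈ Submodule.span ℂ {z | ∃ c d, c + d = β ∧ ∃ v ∈ S.vw c, ∃ w ∈ S.vw d, z = v * w} := by
  have h1 : x ∈ ⨆ γ, S.BilW γ := by
    have h2 : Submodule.span ℂ {x | ∃ v ∈ V, ∃ w ∈ V, x = v * w - w * v} ≤ ⨆ γ, S.BilW γ := by
      refine Submodule.span_le.2 ?_
      rintro _ ⟨v, hv, w, hw', rfl⟩
      exact S.Bil_mem hv hw'
    exact h2 (S.le hx)
  have h2 : x ∈ S.BilW β := Bil_proj S.wsp_indep S.BilW_le hw h1
  have h3 : S.BilW β ≤
      Submodule.span ℂ {z | ∃ c d, c + d = β ∧ ∃ v ∈ S.vw c, ∃ w ∈ S.vw d, z = v * w} := by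
    refine Submodule.span_le.2 ?_
    rintro _ ⟨c, d, hcd, v, hv, w, hw', rfl⟩
    have h4 : v * w = -(w * v) := S.anti hv hw' (by rw [hcd]; exact hβ)
    have h5 : v * w - w * v = (2 : ℂ) • (v * w) := by
      rw [two_smul, sub_eq_add_neg, ← h4]
    rw [h5]
    exact Submodule.smul_mem _ _ (Submodule.subset_span ⟨c, d, hcd, v, hv, w, hw', rfl⟩)
  exact h3 h2

end Sys

end Pool.Agent.Y102.SP
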