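import Pool.Agent.Y102.SP.Cl

set_option autoImplicit false

open Module

namespace Pool.Agent.Y102.SP

variable {U : Type} [AddCommGroup U] [Module ℂ U]

/-- The Lie algebra of a coloured Clifford system. -/
def soC {N k : ℕ} (E : Fin N → Module.End ℂ U) (c : Fin N → Fin k) :
    Submodule ℂ (Module.End ℂ U) :=
  Submodule.span ℂ {x | ∃ i j, i ≠ j ∧ c i = c j ∧ x = E i * E j}

/-- The part of colour `σ`. -/
def soS {N k : ℕ} (E : Fin N → Module.End ℂ U) (c : Fin N → Fin k) (σ : Fin k) :
    Submodule ℂ (Module.End ℂ U) :=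
  Submodule.span ℂ {x | ∃ i j, i ≠ j ∧ c i = σ ∧ c j = σ ∧ x = E i * E j}

/-- The projection to the part of colour `σ`. -/
noncomputable def pS {N k : ℕ} (E : Fin N → Module.End ℂ U) (c : Fin N → Fin k) (σ : Fin k) :
    Module.End ℂ U →ₗ[ℂ] Module.End ℂ U :=
  (4⁻¹ : ℂ) • ∑ i, if c i = σ then
    (LinearMap.mulRight ℂ (E i) ∘ₗ (LinearMap.mulRight ℂ (E i) - LinearMap.mulLeft ℂ (E i))) else 0

variable {N k : ℕ} {E : Fin N → Module.End ℂ U} {c : Fin N → Fin k}

theorem Col_apply (σ : Fin k) (x : Module.End ℂ U) :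
    pS E c σ x = (4⁻¹ : ℂ) • ∑ i, if c i = σ then (x * E i - E i * x) * E i else 0 := by
  unfold pS
  rw [LinearMap.smul_apply, LinearMap.sum_apply]
  congr 1
  refine Finset.sum_congr rfl fun i _ => ?_
  split_ifs
  · rfl
  · rfl

theorem Col_basis (hE : CE E) (σ : Fin k) {a b : Fin N} (h : a ≠ b) (hc : c a = c b) :
    pS E c σ (E a * E b) = if c a = σ then E a * E b else 0 := by
  rw [Col_apply]
  by_cases hs : c a = σ
  · rw [if_pos hs]
    have h1 : ∀ i, (if c i = σ then (E a * E b * E i - E i * (E a * E b)) * E i else 0) =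
        (if i = b then (2 : ℂ) • (E a * E b) else 0) +
          (if i = a then (2 : ℂ) • (E a * E b) else 0) := by
      intro i
      rw [Cl_br hE h]
      by_cases h1 : i = b
      · subst h1
        rw [if_pos (hc ▸ hs), if_pos rfl, if_neg (Ne.symm h), if_pos rfl, if_neg (Ne.symm h),
          sub_zero, add_zero, smul_mul_assoc]
      · by_cases h2 : i = a
        · subst h2
          rw [if_pos hs, if_neg h1, if_pos rfl, if_neg h1, if_pos rfl, zero_sub, zero_add,
            neg_mul, smul_mul_assoc, hE.anti b i (Ne.symm h), smul_neg, neg_neg]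
        · rw [if_neg h1, if_neg h2, if_neg h1, if_neg h2, sub_zero, zero_mul, add_zero]
          split_ifs <;> rfl
    rw [Finset.sum_congr rfl fun i _ => h1 i, Finset.sum_add_distrib, Finset.sum_ite_eq',
      Finset.sum_ite_eq', if_pos (Finset.mem_univ _), if_pos (Finset.mem_univ _), ← add_smul,
      smul_smul]
    norm_num
  · rw [if_neg hs]
    have h1 : ∀ i, (if c i = σ then (E a * E b * E i - E i * (E a * E b)) * E i else 0) = 0 := by
      intro i
      split_ifs with hi
      · have ha : i ≠ a := by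
          rintro rfl
          exact hs hi
        have hb : i ≠ b := by
          rintro rfl
          exact hs (hc.trans hi)
        rw [Cl_br hE h, if_neg hb, if_neg ha, sub_zero, zero_mul]
      · rfl
    rw [Finset.sum_congr rfl fun i _ => h1 i, Finset.sum_const_zero, smul_zero]

theorem pS_same (hE : CE E) {σ : Fin k} {x : Module.End ℂ U} (hx : x ∈ soS E c σ) :
    pS E c σ x = x := by
  refine Submodule.span_induction (p := fun x _ => pS E c σ x = x) ?_ ?_ ?_ ?_ hx
  · rintro _ ⟨i, j, h, hi, hj, rfl⟩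
    rw [Col_basis hE σ h (hi.trans hj.symm), if_pos hi]
  · exact map_zero _
  · intro x y _ _ hx hy
    rw [map_add, hx, hy]
  · intro a x _ hx
    rw [map_smul, hx]

theorem pS_other (hE : CE E) {σ τ : Fin k} (h : σ ≠ τ) {x : Module.End ℂ U}
    (hx : x ∈ soS E c τ) : pS E c σ x = 0 := by
  refine Submodule.span_induction (p := fun x _ => pS E c σ x = 0) ?_ ?_ ?_ ?_ hx
  · rintro _ ⟨i, j, hij, hi, hj, rfl⟩
    rw [Col_basis hE σ hij (hi.trans hj.symm), if_neg]
    rw [hi]
    exact Ne.symm h
  · exact map_zero _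
  · intro x y _ _ hx hy
    rw [map_add, hx, hy, add_zero]
  · intro a x _ hx
    rw [map_smul, hx, smul_zero]

theorem pS_mem (hE : CE E) {σ : Fin k} {x : Module.End ℂ U} (hx : x ∈ soC E c) :
    pS E c σ x ∈ soS E c σ := by
  refine Submodule.span_induction (p := fun x _ => pS E c σ x ∈ soS E c σ) ?_ ?_ ?_ ?_ hx
  · rintro _ ⟨i, j, hij, hc, rfl⟩
    rw [Col_basis hE σ hij hc]
    split_ifs with hi
    · exact Submodule.subset_span ⟨i, j, hij, hi, hc ▸ hi, rfl⟩
    · exact zero_mem _
  · rw [map_zero]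
    exact zero_mem _
  · intro x y _ _ hx hy
    rw [map_add]
    exact add_mem hx hy
  · intro a x _ hx
    rw [map_smul]
    exact Submodule.smul_mem _ _ hx

theorem pS_sum (hE : CE E) {x : Module.End ℂ U} (hx : x ∈ soC E c) :
    x = ∑ σ, pS E c σ x := by
  refine Submodule.span_induction (p := fun x _ => x = ∑ σ, pS E c σ x) ?_ ?_ ?_ ?_ hx
  · rintro _ ⟨i, j, hij, hc, rfl⟩
    rw [Finset.sum_congr rfl fun σ _ => Col_basis hE σ hij hc, Finset.sum_ite_eq,
      if_pos (Finset.mem_univ _)]
  · rw [Finset.sum_congr rfl fun σ _ => map_zero (pS E c σ), Finset.sum_const_zero]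
  · intro x y _ _ hx hy
    rw [Finset.sum_congr rfl fun σ _ => map_add (pS E c σ) x y, Finset.sum_add_distrib, ← hx, ← hy]
  · intro a x _ hx
    rw [Finset.sum_congr rfl fun σ _ => map_smul (pS E c σ) a x, ← Finset.smul_sum, ← hx]

theorem Col_comm (hE : CE E) {a b i j : Fin N} (h : a ≠ b) (h1 : i ≠ a) (h2 : i ≠ b) (h3 : j ≠ a)
    (h4 : j ≠ b) : E a * E b * (E i * E j) = E i * E j * (E a * E b) := by
  have e1 := Cl_br hE h i
  rw [if_neg h2, if_neg h1, sub_zero, sub_eq_zero] at e1
  have e2 := Cl_br hE h j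
  rw [if_neg h4, if_neg h3, sub_zero, sub_eq_zero] at e2
  rw [← mul_assoc, e1, mul_assoc (E i), e2, ← mul_assoc (E i)]

theorem soS_comm (hE : CE E) {σ τ : Fin k} (h : σ ≠ τ) {x y : Module.End ℂ U}
    (hx : x ∈ soS E c σ) (hy : y ∈ soS E c τ) : x * y = y * x := by
  refine Submodule.span_induction (p := fun x _ => x * y = y * x) ?_ ?_ ?_ ?_ hx
  · rintro _ ⟨a, b, hab, ha, hb, rfl⟩
    refine Submodule.span_induction (p := fun y _ => E a * E b * y = y * (E a * E b))
      ?_ ?_ ?_ ?_ hy
    · rintro _ ⟨i, j, hij, hi, hj, rfl⟩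
      apply Col_comm hE hab
      · rintro rfl
        exact h (ha.symm.trans hi)
      · rintro rfl
        exact h (hb.symm.trans hi)
      · rintro rfl
        exact h (ha.symm.trans hj)
      · rintro rfl
        exact h (hb.symm.trans hj)
    · rw [mul_zero, zero_mul]
    · intro x y _ _ hx hy
      rw [mul_add, add_mul, hx, hy]
    · intro r x _ hx
      rw [mul_smul_comm, smul_mul_assoc, hx]
  · rw [mul_zero, zero_mul]
  · intro x y _ _ hx hy
    rw [mul_add, add_mul, hx, hy]
  · intro r x _ hx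
    rw [mul_smul_comm, smul_mul_assoc, hx]

theorem Col_br_basis (hE : CE E) {σ : Fin k} {a b i j : Fin N} (hab : a ≠ b) (ha : c a = σ)
    (hb : c b = σ) (hij : i ≠ j) (hi : c i = σ) (hj : c j = σ) :
    E a * E b * (E i * E j) - E i * E j * (E a * E b) ∈ soS E c σ := by
  have e : E a * E b * (E i * E j) - E i * E j * (E a * E b) =
      (E a * E b * E i - E i * (E a * E b)) * E j + E i * (E a * E b * E j - E j * (E a * E b)) := by
    simp only [mul_sub, sub_mul, mul_assoc]
    abel
  rw [e, Cl_br hE hab, Cl_br hE hab]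
  have hm : ∀ u v : Fin N, u ≠ v → c u = σ → c v = σ → E u * E v ∈ soS E c σ :=
    fun u v h hu hv => Submodule.subset_span ⟨u, v, h, hu, hv, rfl⟩
  by_cases h1 : i = b
  · subst h1
    rw [if_pos rfl, if_neg (Ne.symm hab), if_neg (Ne.symm hij), sub_zero, zero_sub]
    by_cases h2 : j = a
    · subst h2
      rw [if_pos rfl, smul_mul_assoc, hE.sq, mul_neg, mul_smul_comm, hE.sq, add_neg_cancel]
      exact zero_mem _
    · rw [if_neg h2, neg_zero, mul_zero, add_zero, smul_mul_assoc]
      exact Submodule.smul_mem _ _ (hm a j (Ne.symm h2) ha hj)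
  · by_cases h2 : i = a
    · subst h2
      rw [if_neg h1, if_pos rfl, if_neg (Ne.symm hij), zero_sub, sub_zero]
      by_cases h3 : j = b
      · subst h3
        rw [if_pos rfl, neg_mul, smul_mul_assoc, hE.sq, mul_smul_comm, hE.sq, neg_add_cancel]
        exact zero_mem _
      · rw [if_neg h3, mul_zero, add_zero, neg_mul, smul_mul_assoc]
        exact neg_mem (Submodule.smul_mem _ _ (hm b j (Ne.symm h3) hb hj))
    · rw [if_neg h1, if_neg h2, sub_zero, zero_mul, zero_add, mul_sub]
      refine sub_mem ?_ ?_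
      · split_ifs
        · rw [mul_smul_comm]
          exact Submodule.smul_mem _ _ (hm i a h2 hi ha)
        · rw [mul_zero]
          exact zero_mem _
      · split_ifs
        · rw [mul_smul_comm]
          exact Submodule.smul_mem _ _ (hm i b h1 hi hb)
        · rw [mul_zero]
          exact zero_mem _

theorem soS_br (hE : CE E) {σ : Fin k} {x y : Module.End ℂ U}
    (hx : x ∈ soS E c σ) (hy : y ∈ soS E c σ) : x * y - y * x ∈ soS E c σ := by
  refine Submodule.span_induction (p := fun x _ => x * y - y * x ∈ soS E c σ) ?_ ?_ ?_ ?_ hx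
  · rintro _ ⟨a, b, hab, ha, hb, rfl⟩
    refine Submodule.span_induction (p := fun y _ => E a * E b * y - y * (E a * E b) ∈ soS E c σ)
      ?_ ?_ ?_ ?_ hy
    · rintro _ ⟨i, j, hij, hi, hj, rfl⟩
      exact Col_br_basis hE hab ha hb hij hi hj
    · rw [mul_zero, zero_mul, sub_zero]
      exact zero_mem _
    · intro x y _ _ hx hy
      rw [mul_add, add_mul, add_sub_add_comm]
      exact add_mem hx hy
    · intro r x _ hx
      rw [mul_smul_comm, smul_mul_assoc, ← smul_sub]
      exact Submodule.smul_mem _ _ hx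
  · rw [mul_zero, zero_mul, sub_zero]
    exact zero_mem _
  · intro x z _ _ hx hz
    rw [mul_add, add_mul, add_sub_add_comm]
    exact add_mem hx hz
  · intro r x _ hx
    rw [mul_smul_comm, smul_mul_assoc, ← smul_sub]
    exact Submodule.smul_mem _ _ hx

theorem soS_le (σ : Fin k) : soS E c σ ≤ soC E c := by
  refine Submodule.span_mono ?_
  rintro _ ⟨i, j, hij, hi, hj, rfl⟩
  exact ⟨i, j, hij, hi.trans hj.symm, rfl⟩

theorem pS_br (hE : CE E) {σ : Fin k} {x y : Module.End ℂ U} (hx : x ∈ soC E c)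
    (hy : y ∈ soC E c) :
    pS E c σ (x * y - y * x) = pS E c σ x * pS E c σ y - pS E c σ y * pS E c σ x := by
  have h1 : x * y - y * x =
      ∑ s, (pS E c s x * pS E c s y - pS E c s y * pS E c s x) := by
    have hx' := pS_sum hE hx
    have hy' := pS_sum hE hy
    have e1 : x * y = ∑ s, ∑ t, pS E c s x * pS E c t y := by
      conv_lhs => rw [hx', hy']
      exact Finset.sum_mul_sum _ _ _ _
    have e2 : y * x = ∑ s, ∑ t, pS E c t y * pS E c s x := by
      conv_lhs => rw [hx', hy']
      rw [Finset.sum_mul_sum, Finset.sum_comm]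
    rw [e1, e2, ← Finset.sum_sub_distrib]
    refine Finset.sum_congr rfl fun s _ => ?_
    rw [← Finset.sum_sub_distrib]
    refine Finset.sum_eq_single s ?_ ?_
    · intro t _ hts
      rw [soS_comm hE (Ne.symm hts) (pS_mem hE hx) (pS_mem hE hy), sub_self]
    · intro h
      exact absurd (Finset.mem_univ s) h
  rw [h1, map_sum]
  rw [Finset.sum_eq_single σ]
  · exact pS_same hE (soS_br hE (pS_mem hE hx) (pS_mem hE hy))
  · intro s _ hs
    exact pS_other hE (Ne.symm hs) (soS_br hE (pS_mem hE hx) (pS_mem hE hy))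
  · intro h
    exact absurd (Finset.mem_univ σ) h

end Pool.Agent.Y102.SP
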