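import Pool.Agent.Y102.SP.Col

set_option autoImplicit false

open Module

namespace Pool.Agent.Y102.SP

section ColGenAux

variable {U : Type} [AddCommGroup U] [Module ℂ U] {N k : ℕ} {E : Fin N → Module.End ℂ U}
  {c : Fin N → Fin k}

/-- the product of the generators in a word -/
noncomputable def ColGenW (E : Fin N → Module.End ℂ U) (w : List (Fin N)) : Module.End ℂ U :=
  (w.map E).prod

/-- the sign which appears when a generator is moved through a word -/
noncomputable def ColGenS (l : Fin N) (w : List (Fin N)) : ℂ :=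
  (w.map fun a => if a = l then (1 : ℂ) else -1).prod

theorem ColGenW_nil : ColGenW E [] = 1 := rfl

theorem ColGenW_cons (a : Fin N) (w : List (Fin N)) :
    ColGenW E (a :: w) = E a * ColGenW E w := by
  simp [ColGenW]

theorem ColGenW_append (v w : List (Fin N)) :
    ColGenW E (v ++ w) = ColGenW E v * ColGenW E w := by
  simp [ColGenW]

theorem ColGenS_nil (l : Fin N) : ColGenS l [] = 1 := rfl

theorem ColGenS_cons (l a : Fin N) (w : List (Fin N)) :
    ColGenS l (a :: w) = (if a = l then (1 : ℂ) else -1) * ColGenS l w := by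
  simp [ColGenS]

theorem ColGenS_append (l : Fin N) (v w : List (Fin N)) :
    ColGenS l (v ++ w) = ColGenS l v * ColGenS l w := by
  simp [ColGenS]

theorem ColGenS_pm (l : Fin N) (w : List (Fin N)) : ColGenS l w = 1 ∨ ColGenS l w = -1 := by
  induction w with
  | nil => exact Or.inl rfl
  | cons a w ih =>
    rw [ColGenS_cons]
    by_cases h : a = l
    · rw [if_pos h, one_mul]
      exact ih
    · rw [if_neg h]
      rcases ih with h1 | h1
      · rw [h1]
        right
        ring
      · rw [h1]
        left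
        ring

theorem ColGenS_sq (l : Fin N) (w : List (Fin N)) : ColGenS l w * ColGenS l w = 1 := by
  rcases ColGenS_pm l w with h | h <;> rw [h] <;> ring

theorem ColGenS_notMem {l : Fin N} {w : List (Fin N)} (h : l ∉ w) :
    ColGenS l w = (-1) ^ w.length := by
  induction w with
  | nil => rfl
  | cons a w ih =>
    rw [List.mem_cons, not_or] at h
    rw [ColGenS_cons, if_neg (fun h' => h.1 h'.symm), ih h.2, List.length_cons, pow_succ]
    ring

theorem ColGen_move (hE : CE E) (l : Fin N) (w : List (Fin N)) :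
    E l * ColGenW E w = ColGenS l w • (ColGenW E w * E l) := by
  induction w with
  | nil => rw [ColGenW_nil, ColGenS_nil, one_smul, mul_one, one_mul]
  | cons a w ih =>
    rw [ColGenW_cons, ColGenS_cons]
    by_cases h : a = l
    · subst h
      rw [if_pos rfl, one_mul]
      nth_rewrite 1 [ih]
      rw [mul_smul_comm, mul_assoc]
    · rw [if_neg h, ← mul_assoc, hE.anti l a (fun h' => h h'.symm), neg_mul, mul_assoc, ih,
        mul_smul_comm, neg_one_mul, neg_smul, mul_assoc]

/-- a word with trivial signs is a scalar -/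
theorem ColGen_scal (hE : CE E) (n : ℕ) : ∀ w : List (Fin N), w.length = 2 * n →
    (∀ l ∈ w, ColGenS l w = 1) → ∃ z : ℂ, ColGenW E w = z • (1 : Module.End ℂ U) := by
  induction n with
  | zero =>
    intro w hw _
    have : w = [] := List.length_eq_zero_iff.1 (by omega)
    subst this
    exact ⟨1, by rw [ColGenW_nil, one_smul]⟩
  | succ n ih =>
    intro w hw hs
    cases w with
    | nil => simp at hw
    | cons a w =>
      rw [List.length_cons] at hw
      have h1 : a ∈ w := by
        by_contra hcon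
        have h2 := hs a (by simp)
        rw [ColGenS_cons, if_pos rfl, one_mul, ColGenS_notMem hcon] at h2
        have h3 : Odd w.length := ⟨n, by omega⟩
        rw [h3.neg_one_pow] at h2
        norm_num at h2
      obtain ⟨u, v, rfl⟩ := List.append_of_mem h1
      have h4 : (u ++ v).length = 2 * n := by
        simp only [List.length_append, List.length_cons] at hw ⊢
        omega
      have h5 : ∀ l ∈ u ++ v, ColGenS l (u ++ v) = 1 := by
        intro l hl
        have h6 := hs l (by
          simp only [List.mem_cons, List.mem_append] at hl ⊢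
          tauto)
        rw [ColGenS_cons, ColGenS_append, ColGenS_cons] at h6
        rw [ColGenS_append]
        have h7 : (if a = l then (1 : ℂ) else -1) * (if a = l then (1 : ℂ) else -1) = 1 := by
          split_ifs <;> ring
        linear_combination h6 - ColGenS l u * ColGenS l v * h7
      obtain ⟨z, hz⟩ := ih _ h4 h5
      refine ⟨ColGenS a u * z, ?_⟩
      rw [ColGenW_cons, ColGenW_append, ColGenW_cons, ← mul_assoc, ColGen_move hE, smul_mul_assoc,
        mul_assoc, ← mul_assoc (E a), hE.sq, one_mul, ← ColGenW_append, hz, smul_smul]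

/-- the average over the conjugation with a generator -/
noncomputable def ColGenP (E : Fin N → Module.End ℂ U) (l : Fin N) :
    Module.End ℂ U →ₗ[ℂ] Module.End ℂ U :=
  (2⁻¹ : ℂ) • (LinearMap.id + LinearMap.mulLeft ℂ (E l) ∘ₗ LinearMap.mulRight ℂ (E l))

theorem ColGenP_apply (l : Fin N) (x : Module.End ℂ U) :
    ColGenP E l x = (2⁻¹ : ℂ) • (x + E l * (x * E l)) := rfl

/-- the average over several conjugations -/
noncomputable def ColGenQ (E : Fin N → Module.End ℂ U) :
    List (Fin N) → (Module.End ℂ U →ₗ[ℂ] Module.End ℂ U)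
  | [] => LinearMap.id
  | l :: ls => ColGenP E l ∘ₗ ColGenQ E ls

theorem ColGenQ_mul (a x : Module.End ℂ U) (ls : List (Fin N))
    (ha : ∀ l ∈ ls, E l * a = a * E l) : ColGenQ E ls (a * x) = a * ColGenQ E ls x := by
  induction ls with
  | nil => rfl
  | cons l ls ih =>
    have h1 := ih fun m hm => ha m (List.mem_cons_of_mem _ hm)
    have h2 := ha l (by simp)
    have h3 : ∀ y, ColGenQ E (l :: ls) y = ColGenP E l (ColGenQ E ls y) := fun _ => rfl
    rw [h3, h3, h1, ColGenP_apply, ColGenP_apply, mul_smul_comm, mul_add]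
    congr 2
    rw [mul_assoc, ← mul_assoc, h2, mul_assoc]

theorem ColGenQ_word (hE : CE E) (ls w : List (Fin N)) :
    ((∀ l ∈ ls, ColGenS l w = 1) ∧ ColGenQ E ls (ColGenW E w) = ColGenW E w) ∨
      ColGenQ E ls (ColGenW E w) = 0 := by
  induction ls with
  | nil => exact Or.inl ⟨by simp, rfl⟩
  | cons l ls ih =>
    have h3 : ∀ y, ColGenQ E (l :: ls) y = ColGenP E l (ColGenQ E ls y) := fun _ => rfl
    rw [h3]
    rcases ih with ⟨h1, h2⟩ | h1
    · rw [h2, ColGenP_apply, ← mul_assoc, ColGen_move hE, smul_mul_assoc, mul_assoc, hE.sq, mul_one]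
      rcases ColGenS_pm l w with h4 | h4
      · left
        refine ⟨fun m hm => ?_, ?_⟩
        · rcases List.mem_cons.1 hm with rfl | hm
          · exact h4
          · exact h1 m hm
        · rw [h4, one_smul, ← two_smul ℂ, smul_smul]
          norm_num
      · right
        rw [h4, neg_one_smul, add_neg_cancel, smul_zero]
    · right
      rw [h1, map_zero]

theorem ColGenQ_one (hE : CE E) (ls : List (Fin N)) :
    ColGenQ E ls (1 : Module.End ℂ U) = 1 := by
  induction ls with
  | nil => rfl
  | cons l ls ih =>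
    have h3 : ∀ y, ColGenQ E (l :: ls) y = ColGenP E l (ColGenQ E ls y) := fun _ => rfl
    rw [h3, ih, ColGenP_apply, one_mul, hE.sq, ← two_smul ℂ, smul_smul]
    norm_num

/-- the products of generators of one colour commute with the other generators -/
theorem ColGen_comm2 (hE : CE E) {i j l : Fin N} (hi : l ≠ i) (hj : l ≠ j) :
    E l * (E i * E j) = (E i * E j) * E l := by
  rw [← mul_assoc, hE.anti l i hi, neg_mul, mul_assoc, hE.anti l j hj, mul_neg, neg_neg, mul_assoc]

theorem ColGen_commS (hE : CE E) {σ : Fin k} {l : Fin N} (hl : c l ≠ σ) {x : Module.End ℂ U}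
    (hx : x ∈ soS E c σ) : E l * x = x * E l := by
  refine Submodule.span_induction ?_ ?_ ?_ ?_ hx
  · rintro _ ⟨i, j, _, hi, hj, rfl⟩
    exact ColGen_comm2 hE (fun h => hl (h ▸ hi)) (fun h => hl (h ▸ hj))
  · rw [mul_zero, zero_mul]
  · intro a b _ _ ha hb
    rw [mul_add, add_mul, ha, hb]
  · intro a b _ hb
    rw [mul_smul_comm, smul_mul_assoc, hb]

end ColGenAux

variable {U : Type} [AddCommGroup U] [Module ℂ U] [FiniteDimensional ℂ U] [Nontrivial U]

/-- The projection of `𝔥` generates the products of the given colour. -/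
theorem gen_proj {N k : ℕ} {E : Fin N → Module.End ℂ U} {c : Fin N → Fin k} (hE : CE E)
    (𝔥 : Submodule ℂ (Module.End ℂ U)) (h𝔥 : 𝔥 ≤ soC E c)
    (gen : ∀ i j, c i = c j → E i * E j ∈ Algebra.adjoin ℂ (𝔥 : Set (Module.End ℂ U)))
    {σ : Fin k} {i j : Fin N} (hi : c i = σ) (hj : c j = σ) :
    E i * E j ∈ Algebra.adjoin ℂ (pS E c σ '' (𝔥 : Set (Module.End ℂ U))) := by
  classical
  set A := Algebra.adjoin ℂ (pS E c σ '' (𝔥 : Set (Module.End ℂ U))) with hA
  have hcA : ∀ l, c l ≠ σ → ∀ a ∈ A, E l * a = a * E l := by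
    intro l hl a ha
    refine Algebra.adjoin_induction ?_ ?_ ?_ ?_ ha
    · rintro _ ⟨x, hx, rfl⟩
      exact ColGen_commS hE hl (pS_mem hE (h𝔥 hx))
    · intro r
      exact (Algebra.commutes r (E l)).symm
    · intro x y _ _ h1 h2
      rw [mul_add, add_mul, h1, h2]
    · intro x y _ _ h1 h2
      rw [← mul_assoc, h1, mul_assoc, h2, mul_assoc]
  have hcW : ∀ w : List (Fin N), (∀ l ∈ w, c l ≠ σ) → ∀ a ∈ A,
      ColGenW E w * a = a * ColGenW E w := by
    intro w
    induction w with
    | nil =>
      intro _ a _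
      rw [ColGenW_nil, one_mul, mul_one]
    | cons b w ih =>
      intro hw a ha
      rw [ColGenW_cons, mul_assoc, ih (fun l hl => hw l (List.mem_cons_of_mem _ hl)) a ha,
        ← mul_assoc, hcA b (hw b (by simp)) a ha, mul_assoc]
  set M : Submodule ℂ (Module.End ℂ U) := Submodule.span ℂ {x | ∃ a ∈ A, ∃ w : List (Fin N),
    Even w.length ∧ (∀ l ∈ w, c l ≠ σ) ∧ x = a * ColGenW E w} with hM
  have hMmul : ∀ x ∈ M, ∀ y ∈ M, x * y ∈ M := by
    intro x hx
    refine Submodule.span_induction ?_ ?_ ?_ ?_ hx
    · rintro _ ⟨a, ha, v, hv1, hv2, rfl⟩ y hy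
      refine Submodule.span_induction ?_ ?_ ?_ ?_ hy
      · rintro _ ⟨b, hb, w, hw1, hw2, rfl⟩
        refine Submodule.subset_span ⟨a * b, A.mul_mem ha hb, v ++ w, ?_, ?_, ?_⟩
        · rw [List.length_append]
          exact hv1.add hw1
        · intro l hl
          rcases List.mem_append.1 hl with h | h
          · exact hv2 l h
          · exact hw2 l h
        · rw [ColGenW_append, mul_assoc, ← mul_assoc (ColGenW E v), hcW v hv2 b hb, mul_assoc,
            mul_assoc]
      · rw [mul_zero]
        exact M.zero_mem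
      · intro y z _ _ h1 h2
        rw [mul_add]
        exact M.add_mem h1 h2
      · intro r y _ h1
        rw [mul_smul_comm]
        exact M.smul_mem r h1
    · intro y _
      rw [zero_mul]
      exact M.zero_mem
    · intro y z _ _ h1 h2 t ht
      rw [add_mul]
      exact M.add_mem (h1 t ht) (h2 t ht)
    · intro r y _ h1 t ht
      rw [smul_mul_assoc]
      exact M.smul_mem r (h1 t ht)
  have hAM : ∀ a ∈ A, a ∈ M := fun a ha => Submodule.subset_span
    ⟨a, ha, [], by simp, by simp, by rw [ColGenW_nil, mul_one]⟩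
  have hSM : ∀ τ, τ ≠ σ → ∀ x ∈ soS E c τ, x ∈ M := by
    intro τ hτ x hx
    refine Submodule.span_induction ?_ M.zero_mem (fun _ _ _ _ h1 h2 => M.add_mem h1 h2)
      (fun r _ _ h1 => M.smul_mem r h1) hx
    rintro _ ⟨a, b, _, ha, hb, rfl⟩
    refine Submodule.subset_span ⟨1, A.one_mem, [a, b], by simp, ?_, ?_⟩
    · intro l hl
      simp only [List.mem_cons, List.not_mem_nil, or_false] at hl
      rcases hl with rfl | rfl
      · rw [ha]
        exact hτ
      · rw [hb]
        exact hτ
    · rw [one_mul, ColGenW_cons, ColGenW_cons, ColGenW_nil, mul_one]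
  have hle : ∀ x ∈ Algebra.adjoin ℂ (𝔥 : Set (Module.End ℂ U)), x ∈ M := by
    intro x hx
    refine Algebra.adjoin_induction ?_ ?_ ?_ ?_ hx
    · intro y hy
      rw [pS_sum hE (h𝔥 hy)]
      refine M.sum_mem fun τ _ => ?_
      by_cases hτ : τ = σ
      · subst hτ
        exact hAM _ (Algebra.subset_adjoin ⟨y, hy, rfl⟩)
      · exact hSM τ hτ _ (pS_mem hE (h𝔥 hy))
    · intro r
      exact hAM _ (A.algebraMap_mem r)
    · intro _ _ _ _ h1 h2
      exact M.add_mem h1 h2
    · intro _ _ _ _ h1 h2
      exact hMmul _ h1 _ h2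
  set ls : List (Fin N) := (Finset.univ.filter fun l => c l ≠ σ).toList with hls
  have hlsm : ∀ l, l ∈ ls ↔ c l ≠ σ := by
    intro l
    rw [hls, Finset.mem_toList, Finset.mem_filter]
    simp
  have hQM : ∀ x ∈ M, ColGenQ E ls x ∈ A := by
    intro x hx
    refine Submodule.span_induction ?_ ?_ ?_ ?_ hx
    · rintro _ ⟨a, ha, w, hw1, hw2, rfl⟩
      rw [ColGenQ_mul a _ ls fun l hl => hcA l ((hlsm l).1 hl) a ha]
      refine A.mul_mem ha ?_
      rcases ColGenQ_word hE ls w with ⟨h1, h2⟩ | h1
      · obtain ⟨n, hn⟩ := hw1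
        obtain ⟨z, hz⟩ := ColGen_scal hE n w (by omega)
          fun l hl => h1 l ((hlsm l).2 (hw2 l hl))
        rw [h2, hz]
        exact A.smul_mem A.one_mem z
      · rw [h1]
        exact A.zero_mem
    · rw [map_zero]
      exact A.zero_mem
    · intro _ _ _ _ h1 h2
      rw [map_add]
      exact A.add_mem h1 h2
    · intro r _ _ h1
      rw [map_smul]
      exact A.smul_mem h1 r
  have h1 := hQM _ (hle _ (gen i j (hi.trans hj.symm)))
  have h2 : ColGenQ E ls (E i * E j) = E i * E j := by
    have h3 := ColGenQ_mul (E := E) (E i * E j) 1 ls fun l hl =>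
      ColGen_comm2 hE (fun h => (hlsm l).1 hl (h ▸ hi)) (fun h => (hlsm l).1 hl (h ▸ hj))
    rw [ColGenQ_one hE, mul_one] at h3
    exact h3
  rw [h2] at h1
  exact h1

end Pool.Agent.Y102.SP
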