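import Pool.Agent.Y102.SP.Col

set_option autoImplicit false

open Module

namespace Pool.Agent.Y102.SP

section LinkAux

variable {U : Type} [AddCommGroup U] [Module ℂ U]
variable {N k : ℕ} {E : Fin N → Module.End ℂ U} {c : Fin N → Fin k}

/-- elements of colour `σ` commute with the generators of the other colours -/
theorem Link_gen (hE : CE E) {σ : Fin k} {x : Module.End ℂ U} (hx : x ∈ soS E c σ) (a : Fin N)
    (ha : c a ≠ σ) : x * E a = E a * x := by
  induction hx using Submodule.span_induction with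
  | mem x hx =>
    obtain ⟨i, j, hij, hi, hj, rfl⟩ := hx
    have h1 : j ≠ a := by
      rintro rfl
      exact ha hj
    have h2 : i ≠ a := by
      rintro rfl
      exact ha hi
    rw [mul_assoc, hE.anti j a h1, mul_neg, ← mul_assoc, hE.anti i a h2, neg_mul, neg_neg,
      mul_assoc]
  | zero => rw [zero_mul, mul_zero]
  | add x y _ _ hx hy => rw [add_mul, mul_add, hx, hy]
  | smul r x _ hx => rw [smul_mul_assoc, mul_smul_comm, hx]

/-- the bracket with an element of colour `ρ` only sees the part of colour `ρ` -/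
theorem Link_part (hE : CE E) {ρ : Fin k} {x y : Module.End ℂ U} (hx : x ∈ soS E c ρ)
    (hy : y ∈ soC E c) : y * x - x * y = pS E c ρ y * x - x * pS E c ρ y := by
  have h1 : y * x - x * y = ∑ ρ', (pS E c ρ' y * x - x * pS E c ρ' y) := by
    conv_lhs => rw [pS_sum hE hy]
    rw [Finset.sum_mul, Finset.mul_sum, ← Finset.sum_sub_distrib]
  rw [h1, Finset.sum_eq_single ρ]
  · intro ρ' _ hne
    rw [soS_comm hE hne (pS_mem hE hy) hx, sub_self]
  · intro h
    exact absurd (Finset.mem_univ ρ) h

/-- the matrix of the bracket with an element of colour `τ` -/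
theorem Link_mat (hE : CE E) {τ : Fin k} {x : Module.End ℂ U} (hx : x ∈ soS E c τ) :
    ∃ A : Fin N → Fin N → ℂ, (∀ i j, A i j = -A j i) ∧
      (∀ i j, ¬ (c i = τ ∧ c j = τ) → A i j = 0) ∧
      ∀ i, x * E i - E i * x = ∑ m, A m i • E m := by
  induction hx using Submodule.span_induction with
  | mem x hx =>
    obtain ⟨k', l, hkl, hk, hl, rfl⟩ := hx
    refine ⟨fun m i => (if m = k' ∧ i = l then 2 else 0) - (if m = l ∧ i = k' then 2 else 0),
      ?_, ?_, ?_⟩
    · intro i j
      by_cases h1 : i = k' ∧ j = l <;> by_cases h2 : i = l ∧ j = k' <;>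
        simp [h1, h2, and_comm]
    · intro i j hij
      have h1 : ¬ (i = k' ∧ j = l) := by
        rintro ⟨rfl, rfl⟩
        exact hij ⟨hk, hl⟩
      have h2 : ¬ (i = l ∧ j = k') := by
        rintro ⟨rfl, rfl⟩
        exact hij ⟨hl, hk⟩
      simp only [if_neg h1, if_neg h2, sub_self]
    · intro i
      have hs : ∑ m, (((if m = k' ∧ i = l then 2 else 0) - (if m = l ∧ i = k' then 2 else 0) : ℂ) •
          E m) = (if i = l then (2 : ℂ) • E k' else 0) - (if i = k' then (2 : ℂ) • E l else 0) := by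
        simp only [sub_smul, Finset.sum_sub_distrib]
        congr 1
        · by_cases h : i = l
          · simp [h]
          · simp [h]
        · by_cases h : i = k'
          · simp [h]
          · simp [h]
      rw [hs]
      by_cases h1 : i = l
      · subst h1
        have h2 : i ≠ k' := Ne.symm hkl
        rw [if_pos rfl, if_neg h2, sub_zero, mul_assoc, hE.sq, mul_one, ← mul_assoc,
          hE.anti i k' h2, neg_mul, mul_assoc, hE.sq, mul_one, sub_neg_eq_add, two_smul]
      · by_cases h2 : i = k'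
        · subst h2
          rw [if_neg h1, if_pos rfl, zero_sub, mul_assoc, hE.anti l i (Ne.symm hkl), mul_neg,
            ← mul_assoc, hE.sq, one_mul, two_smul]
          abel
        · rw [if_neg h1, if_neg h2, sub_zero, mul_assoc, hE.anti l i (Ne.symm h1), mul_neg,
            ← mul_assoc, hE.anti k' i (Ne.symm h2), neg_mul, neg_neg, mul_assoc, sub_self]
  | zero => exact ⟨fun _ _ => 0, fun _ _ => by simp, fun _ _ _ => rfl, fun i => by simp⟩
  | add x y _ _ hx hy =>
    obtain ⟨A, hA1, hA2, hA3⟩ := hx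
    obtain ⟨B, hB1, hB2, hB3⟩ := hy
    refine ⟨fun i j => A i j + B i j, ?_, ?_, ?_⟩
    · intro i j
      show A i j + B i j = -(A j i + B j i)
      rw [hA1 i j, hB1 i j]
      ring
    · intro i j hij
      show A i j + B i j = 0
      rw [hA2 i j hij, hB2 i j hij, add_zero]
    · intro i
      have h1 : (x + y) * E i - E i * (x + y) = (x * E i - E i * x) + (y * E i - E i * y) := by
        rw [add_mul, mul_add]
        abel
      rw [h1, hA3, hB3, ← Finset.sum_add_distrib]
      exact Finset.sum_congr rfl fun m _ => (add_smul _ _ _).symm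
  | smul r x _ hx =>
    obtain ⟨A, hA1, hA2, hA3⟩ := hx
    refine ⟨fun i j => r * A i j, ?_, ?_, ?_⟩
    · intro i j
      show r * A i j = -(r * A j i)
      rw [hA1 i j]
      ring
    · intro i j hij
      show r * A i j = 0
      rw [hA2 i j hij, mul_zero]
    · intro i
      have h1 : (r • x) * E i - E i * (r • x) = r • (x * E i - E i * x) := by
        rw [smul_mul_assoc, mul_smul_comm, smul_sub]
      rw [h1, hA3, Finset.smul_sum]
      exact Finset.sum_congr rfl fun m _ => smul_smul _ _ _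

theorem Link_swap1 {V : Type} [AddCommMonoid V] (f : Fin N → Fin N → Fin N → V) :
    ∑ i, ∑ j, ∑ m, f i j m = ∑ i, ∑ j, ∑ m, f m j i := by
  calc ∑ i, ∑ j, ∑ m, f i j m = ∑ j, ∑ i, ∑ m, f i j m := Finset.sum_comm
    _ = ∑ j, ∑ m, ∑ i, f i j m := Finset.sum_congr rfl fun j _ => Finset.sum_comm
    _ = ∑ m, ∑ j, ∑ i, f i j m := Finset.sum_comm

theorem Link_swap2 {V : Type} [AddCommMonoid V] (f : Fin N → Fin N → Fin N → V) :
    ∑ i, ∑ j, ∑ m, f i j m = ∑ i, ∑ j, ∑ m, f i m j :=
  Finset.sum_congr rfl fun _ _ => Finset.sum_comm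

/-- the cancellation in the bracket with the invariant element -/
theorem Link_cancel (A : Fin N → Fin N → ℂ) (hA : ∀ i j, A i j = -A j i)
    (W : Fin N → Fin N → Module.End ℂ U) :
    ∑ i, ∑ j, ∑ m, ((A m i • (E m * E j) + A m j • (E i * E m)) * W i j +
      E i * E j * (A m i • W m j + A m j • W i m)) = 0 := by
  have h1 : ∑ i, ∑ j, ∑ m, ((A m i • (E m * E j) + A m j • (E i * E m)) * W i j +
      E i * E j * (A m i • W m j + A m j • W i m)) =
      (∑ i, ∑ j, ∑ m, A m i • (E m * E j * W i j) + ∑ i, ∑ j, ∑ m, A m i • (E i * E j * W m j)) +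
      (∑ i, ∑ j, ∑ m, A m j • (E i * E m * W i j) +
        ∑ i, ∑ j, ∑ m, A m j • (E i * E j * W i m)) := by
    simp only [← Finset.sum_add_distrib]
    refine Finset.sum_congr rfl fun i _ => Finset.sum_congr rfl fun j _ =>
      Finset.sum_congr rfl fun m _ => ?_
    rw [add_mul, mul_add, smul_mul_assoc, smul_mul_assoc, mul_smul_comm, mul_smul_comm]
    abel
  have h2 : ∑ i, ∑ j, ∑ m, A m i • (E i * E j * W m j) =
      -∑ i, ∑ j, ∑ m, A m i • (E m * E j * W i j) := by
    rw [Link_swap1 fun i j m => A m i • (E i * E j * W m j)]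
    simp only [← Finset.sum_neg_distrib]
    refine Finset.sum_congr rfl fun i _ => Finset.sum_congr rfl fun j _ =>
      Finset.sum_congr rfl fun m _ => ?_
    rw [hA i m, neg_smul]
  have h3 : ∑ i, ∑ j, ∑ m, A m j • (E i * E j * W i m) =
      -∑ i, ∑ j, ∑ m, A m j • (E i * E m * W i j) := by
    rw [Link_swap2 fun i j m => A m j • (E i * E j * W i m)]
    simp only [← Finset.sum_neg_distrib]
    refine Finset.sum_congr rfl fun i _ => Finset.sum_congr rfl fun j _ =>
      Finset.sum_congr rfl fun m _ => ?_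
    rw [hA j m, neg_smul]
  rw [h1, h2, h3, add_neg_cancel, add_neg_cancel, add_zero]

/-- the sign of the conjugation -/
noncomputable def LinkSg (a i j : Fin N) : ℂ := if a = i ∨ a = j then -1 else 1

theorem Link_conj (hE : CE E) {σ τ : Fin k} (hne : σ ≠ τ) (a i j : Fin N) (ha : c a = τ)
    (hij : i ≠ j) {w : Module.End ℂ U} (hw : w ∈ soS E c σ) :
    E a * (E i * E j * w) * E a = LinkSg a i j • (E i * E j * w) := by
  have h1 : E a * (E i * E j * w) * E a = E a * E i * E j * E a * w := by
    have h2 := Link_gen hE hw a (by rw [ha]; exact Ne.symm hne)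
    calc E a * (E i * E j * w) * E a = E a * E i * E j * (w * E a) := by simp only [mul_assoc]
      _ = E a * E i * E j * (E a * w) := by rw [h2]
      _ = _ := by simp only [mul_assoc]
  rw [h1]
  unfold LinkSg
  by_cases hai : a = i
  · subst hai
    rw [if_pos (Or.inl rfl), hE.sq, one_mul, hE.anti j a (Ne.symm hij), neg_one_smul, neg_mul]
  · by_cases haj : a = j
    · subst haj
      rw [if_pos (Or.inr rfl), mul_assoc (E a * E i), hE.sq, mul_one, hE.anti a i hai,
        neg_one_smul, neg_mul]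
    · rw [if_neg (by rintro (h | h); exacts [hai h, haj h]), one_smul]
      congr 1
      calc E a * E i * E j * E a = E a * E i * (E j * E a) := by rw [mul_assoc]
        _ = -(E a * (E i * E a) * E j) := by
          rw [hE.anti j a (Ne.symm haj), mul_neg]
          simp only [mul_assoc]
        _ = (E a * E a) * E i * E j := by
          rw [hE.anti i a (Ne.symm hai)]
          simp only [mul_neg, neg_mul, neg_neg, mul_assoc]
        _ = E i * E j := by rw [hE.sq, one_mul]

end LinkAux

variable {U : Type} [AddCommGroup U] [Module ℂ U] [FiniteDimensional ℂ U] [Nontrivial U]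

/-- Two colours are not linked by an isomorphism. -/
theorem not_linked {N k : ℕ} {E : Fin N → Module.End ℂ U} {c : Fin N → Fin k} (hE : CE E)
    (𝔥 : Submodule ℂ (Module.End ℂ U)) (h𝔥 : 𝔥 ≤ soC E c)
    (hbr : ∀ x ∈ 𝔥, ∀ y ∈ 𝔥, x * y - y * x ∈ 𝔥)
    (gen : ∀ i j, c i = c j → E i * E j ∈ Algebra.adjoin ℂ (𝔥 : Set (Module.End ℂ U)))
    {σ τ : Fin k} (hne : σ ≠ τ)
    (hτ : ∀ x ∈ soS E c τ, ∃ y ∈ 𝔥, pS E c τ y = x)
    (hσ : ∀ x ∈ soS E c σ, ∃ y ∈ 𝔥, pS E c σ y = x)
    (h2 : ∃ i j, i ≠ j ∧ c i = σ ∧ c j = σ) (h3 : ∃ i j l, i ≠ j ∧ i ≠ l ∧ j ≠ l ∧ c i = τ ∧ c j = τ ∧ c l = τ)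
    (hlink : ∀ y ∈ 𝔥, pS E c τ y = 0 ↔ pS E c σ y = 0) : False := by
  classical
  obtain ⟨k0, l0, j0, hkl, hkj, hlj, hk0, hl0, hj0⟩ := h3
  -- the isomorphism of the two parts
  have hL : ∀ y ∈ 𝔥, ∀ y' ∈ 𝔥, pS E c τ y = pS E c τ y' → pS E c σ y = pS E c σ y' := by
    intro y hy y' hy' h
    have h1 := (hlink (y - y') (𝔥.sub_mem hy hy')).1 (by rw [map_sub, h, sub_self])
    rw [map_sub, sub_eq_zero] at h1
    exact h1
  obtain ⟨D, hD⟩ : ∃ D : Fin N → Fin N → Prop, D = fun i j => i ≠ j ∧ c i = τ ∧ c j = τ :=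
    ⟨_, rfl⟩
  have hD' : ∀ i j, D i j ↔ (i ≠ j ∧ c i = τ ∧ c j = τ) := by
    intro i j
    rw [hD]
  obtain ⟨F, hF⟩ : ∃ F : Fin N → Fin N → Module.End ℂ U,
    F = fun i j => if D i j then E i * E j else 0 := ⟨_, rfl⟩
  have hF1 : ∀ i j, D i j → F i j = E i * E j := by
    intro i j h
    rw [hF]
    exact if_pos h
  have hF0 : ∀ i j, ¬ D i j → F i j = 0 := by
    intro i j h
    rw [hF]
    exact if_neg h
  have hFmem : ∀ i j, F i j ∈ soS E c τ := by
    intro i j
    by_cases h : D i j
    · rw [hF1 i j h]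
      obtain ⟨h1, h2, h3⟩ := (hD' i j).1 h
      exact Submodule.subset_span ⟨i, j, h1, h2, h3, rfl⟩
    · rw [hF0 i j h]
      exact Submodule.zero_mem _
  choose yy hyy hyF using fun i j => hτ (F i j) (hFmem i j)
  obtain ⟨W, hW⟩ : ∃ W : Fin N → Fin N → Module.End ℂ U, W = fun i j => pS E c σ (yy i j) :=
    ⟨_, rfl⟩
  have hW' : ∀ i j, W i j = pS E c σ (yy i j) := by
    intro i j
    rw [hW]
  have hWmem : ∀ i j, W i j ∈ soS E c σ := by
    intro i j
    rw [hW']
    exact pS_mem hE (h𝔥 (hyy i j))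
  have hW0 : ∀ i j, ¬ D i j → W i j = 0 := by
    intro i j h
    rw [hW']
    exact (hlink _ (hyy i j)).1 (by rw [hyF, hF0 i j h])
  have hWanti : ∀ i j, W j i = -W i j := by
    intro i j
    rw [hW', hW', ← map_neg]
    refine hL _ (hyy j i) _ (𝔥.neg_mem (hyy i j)) ?_
    rw [map_neg, hyF, hyF]
    by_cases h : D i j
    · have h' : D j i := by
        obtain ⟨h1, h2, h3⟩ := (hD' i j).1 h
        exact (hD' j i).2 ⟨Ne.symm h1, h3, h2⟩
      rw [hF1 _ _ h, hF1 _ _ h', hE.anti j i ((hD' j i).1 h').1]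
    · have h' : ¬ D j i := by
        intro h'
        obtain ⟨h1, h2, h3⟩ := (hD' j i).1 h'
        exact h ((hD' i j).2 ⟨Ne.symm h1, h3, h2⟩)
      rw [hF0 _ _ h, hF0 _ _ h', neg_zero]
  -- the bracket on the side of `τ`
  have hbrτ : ∀ (x : Module.End ℂ U) (A : Fin N → Fin N → ℂ),
      (∀ i, x * E i - E i * x = ∑ m, A m i • E m) → ∀ i j,
      x * (E i * E j) - (E i * E j) * x = ∑ m, (A m i • (E m * E j) + A m j • (E i * E m)) := by
    intro x A hA i j
    have h1 : x * (E i * E j) - (E i * E j) * x =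
        (x * E i - E i * x) * E j + E i * (x * E j - E j * x) := by
      noncomm_ring
    rw [h1, hA, hA, Finset.sum_mul, Finset.mul_sum, ← Finset.sum_add_distrib]
    refine Finset.sum_congr rfl fun m _ => ?_
    rw [smul_mul_assoc, mul_smul_comm]
  -- the bracket on the side of `σ`
  have hWbr : ∀ y ∈ 𝔥, ∀ A : Fin N → Fin N → ℂ, (∀ i j, A i j = -A j i) →
      (∀ i j, ¬ (c i = τ ∧ c j = τ) → A i j = 0) →
      (∀ i, pS E c τ y * E i - E i * pS E c τ y = ∑ m, A m i • E m) → ∀ i j,
      pS E c σ y * W i j - W i j * pS E c σ y = ∑ m, (A m i • W m j + A m j • W i m) := by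
    intro y hy A hA1 hA2 hA3 i j
    by_cases h : D i j
    · obtain ⟨hij, hi, hj⟩ := (hD' i j).1 h
      have hz : ∑ m, (A m i • yy m j + A m j • yy i m) ∈ 𝔥 :=
        Submodule.sum_mem _ fun m _ => 𝔥.add_mem (𝔥.smul_mem _ (hyy _ _))
          (𝔥.smul_mem _ (hyy _ _))
      have h1 := hL _ (hbr y hy _ (hyy i j)) _ hz ?_
      · rw [pS_br hE (h𝔥 hy) (h𝔥 (hyy i j)), map_sum] at h1
        rw [hW' i j, h1]
        refine Finset.sum_congr rfl fun m _ => ?_
        rw [map_add, map_smul, map_smul, hW', hW']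
      · rw [pS_br hE (h𝔥 hy) (h𝔥 (hyy i j)), hyF, hF1 i j h, hbrτ _ A hA3, map_sum]
        have e1 : ∀ m, A m i • (E m * E j) + A m j • (E i * E m) =
            pS E c τ (A m i • yy m j + A m j • yy i m) +
              ((if m = j then A j i • (1 : Module.End ℂ U) else 0) +
                if m = i then A i j • (1 : Module.End ℂ U) else 0) := by
          intro m
          rw [map_add, map_smul, map_smul, hyF, hyF]
          have e2 : A m i • (E m * E j) = A m i • F m j +
              if m = j then A j i • (1 : Module.End ℂ U) else 0 := by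
            by_cases hmj : m = j
            · subst hmj
              rw [if_pos rfl, hE.sq, hF0 m m (fun h => ((hD' m m).1 h).1 rfl), smul_zero, zero_add]
            · rw [if_neg hmj, add_zero]
              by_cases hm : c m = τ
              · rw [hF1 m j ((hD' m j).2 ⟨hmj, hm, hj⟩)]
              · rw [hA2 m i (fun h => hm h.1), zero_smul, zero_smul]
          have e3 : A m j • (E i * E m) = A m j • F i m +
              if m = i then A i j • (1 : Module.End ℂ U) else 0 := by
            by_cases hmi : m = i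
            · subst hmi
              rw [if_pos rfl, hE.sq, hF0 m m (fun h => ((hD' m m).1 h).1 rfl), smul_zero, zero_add]
            · rw [if_neg hmi, add_zero]
              by_cases hm : c m = τ
              · rw [hF1 i m ((hD' i m).2 ⟨Ne.symm hmi, hi, hm⟩)]
              · rw [hA2 m j (fun h => hm h.1), zero_smul, zero_smul]
          rw [e2, e3]
          abel
        rw [Finset.sum_congr rfl fun m _ => e1 m, Finset.sum_add_distrib, Finset.sum_add_distrib,
          Finset.sum_ite_eq', Finset.sum_ite_eq', if_pos (Finset.mem_univ _),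
          if_pos (Finset.mem_univ _), hA1 i j, neg_smul, add_neg_cancel, add_zero]
    · rw [hW0 i j h, mul_zero, zero_mul, sub_zero]
      symm
      refine Finset.sum_eq_zero fun m _ => ?_
      by_cases hij : i = j
      · subst hij
        rw [hWanti i m, smul_neg, neg_add_cancel]
      · by_cases hi : c i = τ
        · have hj : c j ≠ τ := fun hj => h ((hD' i j).2 ⟨hij, hi, hj⟩)
          rw [hA2 m j (fun h => hj h.2), hW0 m j (fun h => hj ((hD' m j).1 h).2.2), smul_zero,
            zero_smul, add_zero]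
        · rw [hA2 m i (fun h => hi h.2), hW0 i m (fun h => hi ((hD' i m).1 h).2.1), smul_zero,
            zero_smul, add_zero]
  -- the invariant element
  obtain ⟨Om, hOm⟩ : ∃ Om : Module.End ℂ U, Om = ∑ i, ∑ j, E i * E j * W i j := ⟨_, rfl⟩
  have hcomm : ∀ y ∈ 𝔥, y * Om = Om * y := by
    intro y hy
    obtain ⟨A, hA1, hA2, hA3⟩ := Link_mat hE (pS_mem (σ := τ) hE (h𝔥 hy))
    rw [← sub_eq_zero, hOm, Finset.mul_sum, Finset.sum_mul, ← Finset.sum_sub_distrib,
      ← Link_cancel (E := E) A hA1 W]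
    refine Finset.sum_congr rfl fun i _ => ?_
    rw [Finset.mul_sum, Finset.sum_mul, ← Finset.sum_sub_distrib]
    refine Finset.sum_congr rfl fun j _ => ?_
    rw [Finset.sum_add_distrib, ← Finset.sum_mul, ← Finset.mul_sum, ← hWbr y hy A hA1 hA2 hA3 i j,
      ← hbrτ _ A hA3 i j]
    by_cases h : D i j
    · have hm : E i * E j ∈ soS E c τ := by
        rw [← hF1 i j h]
        exact hFmem i j
      rw [← Link_part hE hm (h𝔥 hy), ← Link_part hE (hWmem i j) (h𝔥 hy)]
      noncomm_ring
    · rw [hW0 i j h]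
      simp
  have hZ : ∀ x ∈ Algebra.adjoin ℂ (𝔥 : Set (Module.End ℂ U)), x * Om = Om * x := by
    intro x hx
    induction hx using Algebra.adjoin_induction with
    | mem x hx => exact hcomm x hx
    | algebraMap r => exact Algebra.commutes r Om
    | add x y _ _ hx hy => rw [add_mul, mul_add, hx, hy]
    | mul x y _ _ hx hy => rw [mul_assoc, hy, ← mul_assoc, hx, mul_assoc]
  -- conjugations
  obtain ⟨Cj, hCj⟩ : ∃ Cj : Fin N → (Module.End ℂ U →ₗ[ℂ] Module.End ℂ U),
    ∀ a x, Cj a x = E a * x * E a :=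
    ⟨fun a => LinearMap.mulRight ℂ (E a) ∘ₗ LinearMap.mulLeft ℂ (E a), fun a x => rfl⟩
  have hconj : ∀ a i j, c a = τ → Cj a (E i * E j * W i j) = LinkSg a i j • (E i * E j * W i j) := by
    intro a i j ha
    rw [hCj]
    by_cases h : D i j
    · exact Link_conj hE hne a i j ha ((hD' i j).1 h).1 (hWmem i j)
    · rw [hW0 i j h]
      simp
  have hinv : Cj k0 (Cj l0 Om) = Om := by
    rw [hCj, hCj]
    have h1 := hZ _ (gen k0 l0 (by rw [hk0, hl0]))
    calc E k0 * (E l0 * Om * E l0) * E k0 = (E k0 * E l0 * Om) * (E l0 * E k0) := by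
          simp only [mul_assoc]
      _ = Om * (E k0 * E l0) * (E l0 * E k0) := by rw [h1]
      _ = Om * (E k0 * (E l0 * E l0) * E k0) := by simp only [mul_assoc]
      _ = Om := by rw [hE.sq, mul_one, hE.sq, mul_one]
  have hinvol : ∀ a x, Cj a (Cj a x) = x := by
    intro a x
    rw [hCj, hCj]
    calc E a * (E a * x * E a) * E a = (E a * E a) * x * (E a * E a) := by simp only [mul_assoc]
      _ = x := by rw [hE.sq, one_mul, mul_one]
  have hkl' : Cj l0 Om = Cj k0 Om := by
    have h1 := congrArg (Cj k0) hinv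
    rw [hinvol] at h1
    exact h1
  -- the projection to one term
  have hR0 : (Om + Cj l0 Om) - Cj k0 (Om + Cj l0 Om) = 0 := by
    rw [map_add, hinv, hkl']
    abel
  have hlin : ∀ (f g : Module.End ℂ U →ₗ[ℂ] Module.End ℂ U), f = g → f Om = g Om :=
    fun f g h => by rw [h]
  obtain ⟨Rr, hRr⟩ : ∃ Rr : Module.End ℂ U →ₗ[ℂ] Module.End ℂ U,
      ∀ x, Rr x = ((x + Cj l0 x) - Cj k0 (x + Cj l0 x)) -
        Cj j0 ((x + Cj l0 x) - Cj k0 (x + Cj l0 x)) :=
    ⟨((LinearMap.id - Cj j0) ∘ₗ (LinearMap.id - Cj k0)) ∘ₗ (LinearMap.id + Cj l0),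
      fun x => by simp only [LinearMap.comp_apply, LinearMap.sub_apply, LinearMap.add_apply,
        LinearMap.id_apply]⟩
  have hROm : Rr Om = 0 := by
    rw [hRr, hR0, map_zero, sub_zero]
  have hRt : ∀ i j, Rr (E i * E j * W i j) =
      (if i = k0 ∧ j = j0 then (8 : ℂ) • (E k0 * E j0 * W k0 j0) else 0) +
        if i = j0 ∧ j = k0 then (8 : ℂ) • (E j0 * E k0 * W j0 k0) else 0 := by
    intro i j
    have e1 : Rr (E i * E j * W i j) = ((1 - LinkSg j0 i j) * (1 - LinkSg k0 i j) *
        (1 + LinkSg l0 i j)) • (E i * E j * W i j) := by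
      rw [hRr]
      simp only [map_add, map_sub, map_smul, hconj l0 i j hl0, hconj k0 i j hk0,
        hconj j0 i j hj0]
      module
    rw [e1]
    by_cases h : D i j
    · have hij := ((hD' i j).1 h).1
      unfold LinkSg
      by_cases h1 : j0 = i ∨ j0 = j
      · by_cases h2 : k0 = i ∨ k0 = j
        · rcases h1 with rfl | rfl
          · rcases h2 with h2 | rfl
            · exact absurd h2 hkj
            · have h4 : ¬ (l0 = j0 ∨ l0 = k0) := by
                rintro (h | h)
                · exact hlj h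
                · exact hkl h.symm
              rw [if_pos (Or.inl rfl), if_pos (Or.inr rfl), if_neg h4,
                if_neg (fun h => hkj h.1.symm), if_pos ⟨rfl, rfl⟩, zero_add]
              norm_num
          · rcases h2 with rfl | h2
            · have h4 : ¬ (l0 = k0 ∨ l0 = j0) := by
                rintro (h | h)
                · exact hkl h.symm
                · exact hlj h
              rw [if_pos (Or.inr rfl), if_pos (Or.inl rfl), if_neg h4, if_pos ⟨rfl, rfl⟩,
                if_neg (fun h => hkj h.1), add_zero]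
              norm_num
            · exact absurd h2 hkj
        · have n1 : ¬ (i = k0 ∧ j = j0) := fun h => h2 (Or.inl h.1.symm)
          have n2 : ¬ (i = j0 ∧ j = k0) := fun h => h2 (Or.inr h.2.symm)
          rw [if_neg h2, if_neg n1, if_neg n2]
          simp
      · have n1 : ¬ (i = k0 ∧ j = j0) := fun h => h1 (Or.inr h.2.symm)
        have n2 : ¬ (i = j0 ∧ j = k0) := fun h => h1 (Or.inl h.1.symm)
        rw [if_neg h1, if_neg n1, if_neg n2]
        simp
    · have h1 : ¬ (i = k0 ∧ j = j0) := by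
        rintro ⟨rfl, rfl⟩
        exact h ((hD' _ _).2 ⟨hkj, hk0, hj0⟩)
      have h2 : ¬ (i = j0 ∧ j = k0) := by
        rintro ⟨rfl, rfl⟩
        exact h ((hD' _ _).2 ⟨Ne.symm hkj, hj0, hk0⟩)
      rw [hW0 i j h, mul_zero, smul_zero, if_neg h1, if_neg h2, add_zero]
  have hsum : Rr Om = (8 : ℂ) • (E k0 * E j0 * W k0 j0) + (8 : ℂ) • (E j0 * E k0 * W j0 k0) := by
    rw [hOm, map_sum]
    simp only [map_sum, hRt, Finset.sum_add_distrib]
    congr 1
    · rw [Finset.sum_eq_single k0, Finset.sum_eq_single j0]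
      · rw [if_pos ⟨rfl, rfl⟩]
      · intro j _ hj
        rw [if_neg (fun h => hj h.2)]
      · intro h
        exact absurd (Finset.mem_univ _) h
      · intro i _ hi
        exact Finset.sum_eq_zero fun j _ => if_neg (fun h => hi h.1)
      · intro h
        exact absurd (Finset.mem_univ _) h
    · rw [Finset.sum_eq_single j0, Finset.sum_eq_single k0]
      · rw [if_pos ⟨rfl, rfl⟩]
      · intro j _ hj
        rw [if_neg (fun h => hj h.2)]
      · intro h
        exact absurd (Finset.mem_univ _) h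
      · intro i _ hi
        exact Finset.sum_eq_zero fun j _ => if_neg (fun h => hi h.1)
      · intro h
        exact absurd (Finset.mem_univ _) h
  have hterm : E k0 * E j0 * W k0 j0 = 0 := by
    rw [hROm, hWanti k0 j0, hE.anti j0 k0 (Ne.symm hkj), neg_mul_neg, ← add_smul] at hsum
    exact (smul_eq_zero.1 hsum.symm).resolve_left (by norm_num)
  have hWz : W k0 j0 = 0 := by
    calc W k0 j0 = E j0 * (E k0 * E k0) * E j0 * W k0 j0 := by rw [hE.sq, mul_one, hE.sq, one_mul]
      _ = E j0 * E k0 * (E k0 * E j0 * W k0 j0) := by simp only [mul_assoc]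
      _ = 0 := by rw [hterm, mul_zero]
  have hDk : D k0 j0 := (hD' _ _).2 ⟨hkj, hk0, hj0⟩
  have h5 := (hlink _ (hyy k0 j0)).2 (by rw [← hW', hWz])
  rw [hyF, hF1 _ _ hDk] at h5
  have h6 : (1 : Module.End ℂ U) = 0 := by
    calc (1 : Module.End ℂ U) = E j0 * (E k0 * E k0) * E j0 := by rw [hE.sq, mul_one, hE.sq]
      _ = E j0 * E k0 * (E k0 * E j0) := by simp only [mul_assoc]
      _ = 0 := by rw [h5, mul_zero]
  exact one_ne_zero h6

end Pool.Agent.Y102.SP
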