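import Pool.Agent.Y102.SP.Triple

set_option autoImplicit false

open Module

namespace Pool.Agent.Y102.SP

variable {X : Type} [AddCommGroup X] [Module ℚ X]

/-- The structure of the weights in the even case. -/
theorem comb_even {R : Root X} {Ω : Set X} (W : Wts R Ω) (h0 : (0 : X) ∉ Ω)
    (h2 : ∀ a ∈ Ω, (2 : ℚ) • a ∉ R.Φ)
    (H2 : ∀ φ, Gen R Ω φ → ∀ a b, First Ω φ a → Next Ω φ a b → b - a ∈ R.Φ ∧ b + a ∈ R.Φ)
    (H3 : ∀ φ a b c d, Quad R Ω φ a b c d → False)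
    {a b : X} (ha : a ∈ Ω) (hb : b ∈ Ω) (hne : b ≠ a) (hne' : b ≠ -a) :
    a + b ∈ R.Φ ∧ ∀ c ∈ Ω, ∀ d ∈ Ω, c + d = a + b → (c = a ∧ d = b) ∨ (c = b ∧ d = a) := by
  obtain ⟨⟨hr1, hr2⟩, ⟨p1, p2, p3, p4⟩, hW, hR, hind⟩ := plane_even W h0 h2 H2 ha hb hne hne'
  refine ⟨by rw [add_comm]; exact hr2, fun c hc d hd hcd => ?_⟩
  have val : ∀ x ∈ Ω, x = a ∨ x = b ∨ R.pr (b + a) x ≤ 0 := by
    intro x hx
    by_cases h3 : x = a
    · exact Or.inl h3
    by_cases h4 : x = b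
    · exact Or.inr (Or.inl h4)
    refine Or.inr (Or.inr ?_)
    by_cases h3' : x = -a
    · rw [h3', map_neg, p4]
      norm_num
    by_cases h4' : x = -b
    · rw [h4', map_neg, p3]
      norm_num
    exact (triple_even W h0 h2 H2 H3 ha hb hx hne hne' h3 h3' h4 h4').2.le
  have hsum : R.pr (b + a) c + R.pr (b + a) d = 2 := by
    rw [← map_add, hcd, map_add, p3, p4]
    norm_num
  rcases val c hc with h | h | h
  · refine Or.inl ⟨h, ?_⟩
    rw [h] at hcd
    exact add_left_cancel hcd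
  · refine Or.inr ⟨h, ?_⟩
    rw [h, add_comm a b] at hcd
    exact add_left_cancel hcd
  · exfalso
    rcases val d hd with h' | h' | h'
    · rw [h', p4] at hsum
      linarith
    · rw [h', p3] at hsum
      linarith
    · linarith

end Pool.Agent.Y102.SP
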