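import Pool.Agent.Y102.SP.PlaneO

set_option autoImplicit false

open Module

namespace Pool.Agent.Y102.SP

variable {X : Type} [AddCommGroup X] [Module ℚ X]

/-- The structure of the weights in the odd case. -/
theorem comb_odd {R : Root X} {Ω : Set X} (W : Wts R Ω) (h0 : (0 : X) ∈ Ω)
    (hex : ∀ a ∈ Ω, ∃ b ∈ Ω, ∀ q : ℚ, b ≠ q • a)
    (H1 : ∀ φ, Gen R Ω φ → ∀ a, First Ω φ a → a ∈ R.Φ)
    (H2 : ∀ φ a, Line3 R Ω φ a → False)
    (H3 : ∀ φ a b, TypeG R Ω φ a b → False)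
    (A1 : ∀ a ∈ R.Φ, ∀ b ∈ R.Φ, a ∈ Ω → b ∈ Ω → a + b ≠ 0 → R.pr a b < 0 → b - a ∉ Ω →
      b - a ∉ R.Φ → (3 : ℚ) • a ∉ Ω → (3 : ℚ) • b ∉ Ω → False)
    (A2 : ∀ a ∈ R.Φ, ∀ b ∈ R.Φ, a ∈ Ω → b ∈ Ω → R.pr a b = 0 → b - a ∉ R.Φ →
      (3 : ℚ) • a ∉ Ω → (3 : ℚ) • b ∉ Ω → a + b ∈ Ω)
    {a : X} (ha : a ∈ Ω) (ha0 : a ≠ 0) :
    a ∈ R.Φ ∧ ∀ c ∈ Ω, ∀ d ∈ Ω, c + d = a → (c = a ∧ d = 0) ∨ (c = 0 ∧ d = a) := by
  -- step 1: the nonzero weights are roots
  have key : ∀ a ∈ Ω, a ≠ 0 → a ∈ R.Φ := by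
    intro a ha ha0
    obtain ⟨φ, a', r, hg, hf, ha', hr, har⟩ := line_odd W H1 ha ha0
    rcases Nat.lt_or_ge r 2 with hr2 | hr2
    · have h1 : r = 1 := by omega
      subst h1
      rw [har, Nat.cast_one, one_smul]
      exact ha'
    · exfalso
      obtain ⟨b, hb, hba⟩ := hex a' hf.1
      have hb0 : b ≠ 0 := by
        have := hba 0
        rwa [zero_smul] at this
      obtain ⟨φ', b', s, hg', hf', hb', hs, hbs⟩ := line_odd W H1 hb hb0
      have hab : ∀ q : ℚ, b' ≠ q • a' := by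
        intro q hq
        apply hba ((s : ℚ) * q)
        rw [hbs, hq, smul_smul]
      have h2 := (plane_odd W h0 H1 H2 H3 A1 A2 ha' hf.1 hb' hf'.1 hab).1
      apply h2
      have h3 : R.pr a' a = (r : ℚ) * 2 := by
        rw [har, map_smul, R.two a' ha', smul_eq_mul]
      have h4 := W.str a' ha' a ha (r - 2) (by
        rw [h3, Nat.cast_sub hr2]
        have h5 : (0 : ℚ) ≤ r := Nat.cast_nonneg r
        push_cast
        linarith)
      have h6 : a - ((r - 2 : ℕ) : ℚ) • a' = (2 : ℚ) • a' := by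
        rw [har, ← sub_smul, Nat.cast_sub hr2]
        congr 1
        push_cast
        ring
      rwa [h6] at h4
  have haΦ := key a ha ha0
  refine ⟨haΦ, ?_⟩
  -- step 2: the pairings
  have hle : ∀ c ∈ Ω, c ≠ a → R.pr a c ≤ 0 := by
    intro c hc hca
    by_cases hc0 : c = 0
    · rw [hc0, map_zero]
    · by_cases hcn : c = -a
      · rw [hcn, map_neg, R.two a haΦ]
        norm_num
      · have hcΦ := key c hc hc0
        have hab : ∀ q : ℚ, c ≠ q • a := by
          intro q hq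
          rcases R.red a haΦ q (hq ▸ hcΦ) with h1 | h1
          · apply hca
            rw [hq, h1, one_smul]
          · apply hcn
            rw [hq, h1, neg_smul, one_smul]
        exact (plane_odd W h0 H1 H2 H3 A1 A2 haΦ ha hcΦ hc hab).2.le
  -- step 3
  intro c hc d hd hcd
  by_cases h1 : c = a
  · left
    refine ⟨h1, ?_⟩
    rw [h1] at hcd
    exact add_eq_left.1 hcd
  · by_cases h2 : d = a
    · right
      refine ⟨?_, h2⟩
      rw [h2] at hcd
      exact add_eq_right.1 hcd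
    · exfalso
      have h3 := hle c hc h1
      have h4 := hle d hd h2
      have h5 : R.pr a c + R.pr a d = 2 := by
        rw [← map_add, hcd, R.two a haΦ]
      linarith

end Pool.Agent.Y102.SP

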