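import Pool.Agent.Y102.SP.Wt

set_option autoImplicit false

open Module

namespace Pool.Agent.Y102.SP

variable {U : Type} [AddCommGroup U] [Module ℂ U] [FiniteDimensional ℂ U] [Nontrivial U]
  {T : Type} [AddCommGroup T] [Module ℂ T] {V 𝔥 : Submodule ℂ (Module.End ℂ U)} (S : Sys V 𝔥 T)

namespace Sys

omit [FiniteDimensional ℂ U] [Nontrivial U] in
theorem Pr_usp_mul {ω χ : Module.Dual ℂ T} {x : Module.End ℂ U} (hx : x ∈ wsp S.ι ω) {u : U}
    (hu : u ∈ usp S.ι χ) : x u ∈ usp S.ι (ω + χ) := by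
  intro t
  have h1 : S.ι t * x = x * S.ι t + ω t • x := by
    rw [← hx t]
    abel
  have h2 : S.ι t (x u) = (S.ι t * x) u := rfl
  rw [h2, h1, LinearMap.add_apply, LinearMap.smul_apply, Module.End.mul_apply, hu t, map_smul,
    LinearMap.add_apply, add_smul]
  abel

/-- A common eigenvector. -/
theorem Pr_common : ∃ χ : Module.Dual ℂ T, usp S.ι χ ≠ ⊥ := by
  classical
  have hex : ∃ n : ℕ, ∃ W : Submodule ℂ U, W ≠ ⊥ ∧ (∀ t, ∀ w ∈ W, S.ι t w ∈ W) ∧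
      finrank ℂ W = n := ⟨_, ⊤, top_ne_bot, fun _ _ _ => trivial, rfl⟩
  obtain ⟨W, hW, hst, hfin⟩ := Nat.find_spec hex
  have hmin : ∀ W' : Submodule ℂ U, W' ≤ W → W' ≠ ⊥ → (∀ t, ∀ w ∈ W', S.ι t w ∈ W') → W' = W := by
    intro W' hle hne hst'
    apply Submodule.eq_of_le_of_finrank_le hle
    rw [hfin]
    exact Nat.find_min' hex ⟨W', hne, hst', rfl⟩
  have hWn : Nontrivial W := Submodule.nontrivial_iff_ne_bot.2 hW
  have hscal : ∀ t, ∃ c : ℂ, ∀ w ∈ W, S.ι t w = c • w := by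
    intro t
    obtain ⟨c, hc⟩ := Module.End.exists_eigenvalue ((S.ι t).restrict (hst t))
    obtain ⟨w, hw⟩ := hc.exists_hasEigenvector
    refine ⟨c, ?_⟩
    have hW' := hmin (W ⊓ LinearMap.ker (S.ι t - c • (1 : Module.End ℂ U))) inf_le_left ?_ ?_
    · intro v hv
      rw [← hW'] at hv
      have h3 := LinearMap.mem_ker.1 hv.2
      rw [LinearMap.sub_apply, LinearMap.smul_apply, Module.End.one_apply, sub_eq_zero] at h3
      exact h3
    · intro hbot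
      have h4 : (w : U) ∈ W ⊓ LinearMap.ker (S.ι t - c • (1 : Module.End ℂ U)) := by
        refine ⟨w.2, ?_⟩
        rw [SetLike.mem_coe, LinearMap.mem_ker, LinearMap.sub_apply, LinearMap.smul_apply,
          Module.End.one_apply, sub_eq_zero]
        exact congrArg Subtype.val hw.apply_eq_smul
      rw [hbot, Submodule.mem_bot] at h4
      exact hw.2 (Subtype.ext h4)
    · rintro s v ⟨hv1, hv2⟩
      refine ⟨hst s v hv1, ?_⟩
      rw [SetLike.mem_coe, LinearMap.mem_ker, LinearMap.sub_apply, LinearMap.smul_apply,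
        Module.End.one_apply, sub_eq_zero] at hv2 ⊢
      have h5 : S.ι t (S.ι s v) = (S.ι t * S.ι s) v := rfl
      rw [h5, S.comm t s, Module.End.mul_apply, hv2, map_smul]
  choose c hc using hscal
  obtain ⟨w, hw⟩ := exists_ne (0 : W)
  have hw0 : (w : U) ≠ 0 := fun h => hw (Subtype.ext h)
  have hinj : ∀ a b : ℂ, a • (w : U) = b • (w : U) → a = b := fun a b h =>
    smul_left_injective ℂ hw0 h
  let χ : Module.Dual ℂ T :=
    { toFun := c
      map_add' := fun s t => by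
        apply hinj
        rw [add_smul, ← hc s w w.2, ← hc t w w.2, ← hc (s + t) w w.2, map_add, LinearMap.add_apply]
      map_smul' := fun a t => by
        apply hinj
        rw [RingHom.id_apply, smul_eq_mul, mul_smul, ← hc t w w.2, ← hc (a • t) w w.2, map_smul,
          LinearMap.smul_apply] }
  refine ⟨χ, fun hbot => ?_⟩
  have h6 : (w : U) ∈ usp S.ι χ := fun t => hc t w w.2
  rw [hbot, Submodule.mem_bot] at h6
  exact hw0 h6

/-- Existence of vectors of highest weight. -/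
theorem exists_top (φ : Module.Dual ℂ T →ₗ[ℚ] ℚ) : ∃ χ s, S.Top φ χ s := by
  classical
  have hfin : {χ : Module.Dual ℂ T | usp S.ι χ ≠ ⊥}.Finite :=
    WellFoundedGT.finite_ne_bot_of_iSupIndep S.usp_indep
  obtain ⟨χ₀, h₀⟩ := S.Pr_common
  obtain ⟨χ, hχ, hmax⟩ := Set.exists_max_image _ φ hfin ⟨χ₀, h₀⟩
  obtain ⟨s, hs, hs0⟩ := (Submodule.ne_bot_iff _).1 hχ
  refine ⟨χ, s, hs0, hs, fun ψ hψ => ?_⟩
  by_contra hne
  exact absurd (hmax ψ hne) (not_le.2 hψ)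

/-- Positive vectors kill the highest weight vectors. -/
theorem Top.kill {φ : Module.Dual ℂ T →ₗ[ℚ] ℚ} {χ : Module.Dual ℂ T} {s : U} (h : S.Top φ χ s)
    {ω : Module.Dual ℂ T} (hω : 0 < φ ω) {x : Module.End ℂ U} (hx : x ∈ wsp S.ι ω) : x s = 0 := by
  have h1 := S.Pr_usp_mul hx h.mem
  rw [h.max (ω + χ) (by rw [map_add]; linarith), Submodule.mem_bot] at h1
  exact h1

/-- Positive root vectors kill the highest weight vectors. -/
theorem Top.root {φ : Module.Dual ℂ T →ₗ[ℚ] ℚ} {χ : Module.Dual ℂ T} {s : U} (h : S.Top φ χ s)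
    {α : Module.Dual ℂ T} (hα : α ∈ S.R.Φ) (hp : 0 < φ α) : S.e α s = 0 :=
  Top.kill S h hp (fun t => S.wt α hα t)

theorem usp_mul {ω χ : Module.Dual ℂ T} {x : Module.End ℂ U} (hx : x ∈ wsp S.ι ω) {u : U}
    (hu : u ∈ usp S.ι χ) : x u ∈ usp S.ι (ω + χ) := S.Pr_usp_mul hx hu

/-- Brackets with root vectors stay in the Lie algebra. -/
theorem Pr_bracket {x : Module.End ℂ U} (hx : x ∈ 𝔥) {γ : Module.Dual ℂ T} (hγ : γ ∈ S.R.Φ) :
    x * S.e γ - S.e γ * x ∈ 𝔥 := by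
  let L : Module.End ℂ U →ₗ[ℂ] Module.End ℂ U :=
    LinearMap.mulRight ℂ (S.e γ) - LinearMap.mulLeft ℂ (S.e γ)
  have hL : ∀ y, L y = y * S.e γ - S.e γ * y := fun y => rfl
  have h1 : LinearMap.range S.ι ⊔ Submodule.span ℂ (S.e '' S.R.Φ) ≤ 𝔥.comap L := by
    rw [sup_le_iff]
    constructor
    · rintro _ ⟨t, rfl⟩
      rw [Submodule.mem_comap, hL, S.wt γ hγ t]
      exact 𝔥.smul_mem _ (S.emem γ hγ)
    · rw [Submodule.span_le]
      rintro _ ⟨β, hβ, rfl⟩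
      rw [SetLike.mem_coe, Submodule.mem_comap, hL]
      by_cases h0 : β + γ = 0
      · have h2 : γ = -β := (neg_eq_of_add_eq_zero_right h0).symm
        rw [h2, S.br β hβ]
        exact S.ιmem _
      · by_cases h3 : β + γ ∈ S.R.Φ
        · obtain ⟨c, hc⟩ := S.add1 β hβ γ hγ h3
          rw [hc]
          exact 𝔥.smul_mem _ (S.emem _ h3)
        · rw [S.add0 β hβ γ hγ h0 h3, sub_self]
          exact 𝔥.zero_mem
  have h2 := h1 (S.span hx)
  exact h2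

/-- The vectors generated by `u` under the negative root vectors. -/
def Pr_gen (u : U) (l : List (Module.Dual ℂ T)) : U := (l.map S.e).prod u

omit [FiniteDimensional ℂ U] [Nontrivial U] in
theorem Pr_gen_cons (u : U) (γ : Module.Dual ℂ T) (l : List (Module.Dual ℂ T)) :
    S.Pr_gen u (γ :: l) = S.e γ (S.Pr_gen u l) := by
  unfold Pr_gen
  rw [List.map_cons, List.prod_cons, Module.End.mul_apply]

/-- The span of these vectors. -/
def Pr_D (φ : Module.Dual ℂ T →ₗ[ℚ] ℚ) (u : U) : Submodule ℂ U :=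
  Submodule.span ℂ {v | ∃ l : List (Module.Dual ℂ T), (∀ γ ∈ l, γ ∈ S.R.Φ ∧ φ γ < 0) ∧
    v = S.Pr_gen u l}

theorem Pr_neg {φ : Module.Dual ℂ T →ₗ[ℚ] ℚ} {u : U} {γ : Module.Dual ℂ T} (hγ : γ ∈ S.R.Φ)
    (hn : φ γ < 0) : ∀ v ∈ S.Pr_D φ u, S.e γ v ∈ S.Pr_D φ u := by
  intro v hv
  have h1 : S.Pr_D φ u ≤ (S.Pr_D φ u).comap (S.e γ) := by
    conv_lhs => unfold Pr_D
    rw [Submodule.span_le]
    rintro _ ⟨l, hl, rfl⟩
    rw [SetLike.mem_coe, Submodule.mem_comap, ← Pr_gen_cons]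
    apply Submodule.subset_span
    refine ⟨γ :: l, ?_, rfl⟩
    intro β hβ
    rcases List.mem_cons.1 hβ with rfl | hβ
    · exact ⟨hγ, hn⟩
    · exact hl β hβ
  exact h1 hv

theorem Pr_stable {φ : Module.Dual ℂ T →ₗ[ℚ] ℚ} (hφ : ∀ α ∈ S.R.Φ, φ α ≠ 0) {χ : Module.Dual ℂ T}
    {u : U} (hu : u ∈ usp S.ι χ) (hk : ∀ α ∈ S.R.Φ, 0 < φ α → S.e α u = 0)
    (l : List (Module.Dual ℂ T)) : (∀ γ ∈ l, γ ∈ S.R.Φ ∧ φ γ < 0) → ∀ x ∈ 𝔥,
      x (S.Pr_gen u l) ∈ S.Pr_D φ u := by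
  induction l with
  | nil =>
    intro _ x hx
    have hg : S.Pr_gen u [] = u := by
      unfold Pr_gen
      simp
    have huD : u ∈ S.Pr_D φ u := Submodule.subset_span ⟨[], by simp, hg.symm⟩
    rw [hg]
    let L : Module.End ℂ U →ₗ[ℂ] U := LinearMap.applyₗ u
    have hL : ∀ y, L y = y u := fun y => rfl
    have h1 : LinearMap.range S.ι ⊔ Submodule.span ℂ (S.e '' S.R.Φ) ≤ (S.Pr_D φ u).comap L := by
      rw [sup_le_iff]
      constructor
      · rintro _ ⟨t, rfl⟩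
        rw [Submodule.mem_comap, hL, hu t]
        exact Submodule.smul_mem _ _ huD
      · rw [Submodule.span_le]
        rintro _ ⟨β, hβ, rfl⟩
        rw [SetLike.mem_coe, Submodule.mem_comap, hL]
        rcases lt_or_gt_of_ne (hφ β hβ) with h | h
        · exact S.Pr_neg hβ h u huD
        · rw [hk β hβ h]
          exact Submodule.zero_mem _
    exact h1 (S.span hx)
  | cons γ l ih =>
    intro hl x hx
    have hγ := hl γ List.mem_cons_self
    have ih' := ih (fun β hβ => hl β (List.mem_cons_of_mem _ hβ))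
    rw [Pr_gen_cons]
    have h1 : x (S.e γ (S.Pr_gen u l)) =
        (x * S.e γ - S.e γ * x) (S.Pr_gen u l) + S.e γ (x (S.Pr_gen u l)) := by
      rw [LinearMap.sub_apply, Module.End.mul_apply, Module.End.mul_apply, sub_add_cancel]
    rw [h1]
    exact Submodule.add_mem _ (ih' _ (S.Pr_bracket hx hγ.1)) (S.Pr_neg hγ.1 hγ.2 _ (ih' x hx))

theorem Pr_adjoin {φ : Module.Dual ℂ T →ₗ[ℚ] ℚ} (hφ : ∀ α ∈ S.R.Φ, φ α ≠ 0) {χ : Module.Dual ℂ T}
    {u : U} (hu : u ∈ usp S.ι χ) (hk : ∀ α ∈ S.R.Φ, 0 < φ α → S.e α u = 0)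
    {a : Module.End ℂ U} (ha : a ∈ Algebra.adjoin ℂ (𝔥 : Set (Module.End ℂ U))) :
    ∀ v ∈ S.Pr_D φ u, a v ∈ S.Pr_D φ u := by
  induction ha using Algebra.adjoin_induction with
  | mem x hx =>
    intro v hv
    have h1 : S.Pr_D φ u ≤ (S.Pr_D φ u).comap x := by
      conv_lhs => unfold Pr_D
      rw [Submodule.span_le]
      rintro _ ⟨l, hl, rfl⟩
      exact S.Pr_stable hφ hu hk l hl x hx
    exact h1 hv
  | algebraMap r =>
    intro v hv
    rw [Module.algebraMap_end_apply]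
    exact Submodule.smul_mem _ _ hv
  | add x y _ _ hx hy =>
    intro v hv
    rw [LinearMap.add_apply]
    exact Submodule.add_mem _ (hx v hv) (hy v hv)
  | mul x y _ _ hx hy =>
    intro v hv
    rw [Module.End.mul_apply]
    exact hx _ (hy v hv)

theorem Pr_weight {φ : Module.Dual ℂ T →ₗ[ℚ] ℚ} {χ : Module.Dual ℂ T}
    {u : U} (hu : u ∈ usp S.ι χ) (l : List (Module.Dual ℂ T)) :
    (∀ γ ∈ l, γ ∈ S.R.Φ ∧ φ γ < 0) → S.Pr_gen u l ∈ usp S.ι (l.sum + χ) ∧ (l ≠ [] → φ l.sum < 0) := by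
  induction l with
  | nil =>
    intro _
    refine ⟨?_, fun h => absurd rfl h⟩
    unfold Pr_gen
    simpa using hu
  | cons γ l ih =>
    intro hl
    have hγ := hl γ List.mem_cons_self
    obtain ⟨h1, h2⟩ := ih (fun β hβ => hl β (List.mem_cons_of_mem _ hβ))
    refine ⟨?_, fun _ => ?_⟩
    · rw [Pr_gen_cons, List.sum_cons, add_assoc]
      exact S.Pr_usp_mul (fun t => S.wt γ hγ.1 t) h1
    · rw [List.sum_cons, map_add]
      by_cases hl0 : l = []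
      · subst hl0
        simpa using hγ.2
      · have := h2 hl0
        have := hγ.2
        linarith

/-- The vectors generated by `u` are multiples of `u` up to smaller weights. -/
theorem Pr_low {φ : Module.Dual ℂ T →ₗ[ℚ] ℚ} {χ : Module.Dual ℂ T}
    {u : U} (hu : u ∈ usp S.ι χ) :
    S.Pr_D φ u ≤ Submodule.span ℂ {u} ⊔ ⨆ ψ : {ψ : Module.Dual ℂ T // φ ψ < φ χ}, usp S.ι ψ.1 := by
  unfold Pr_D
  rw [Submodule.span_le]
  rintro _ ⟨l, hl, rfl⟩
  obtain ⟨h1, h2⟩ := S.Pr_weight hu l hl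
  by_cases hl0 : l = []
  · subst hl0
    apply Submodule.mem_sup_left
    have hg : S.Pr_gen u [] = u := by
      unfold Pr_gen
      simp
    rw [hg]
    exact Submodule.mem_span_singleton_self u
  · apply Submodule.mem_sup_right
    have h3 := h2 hl0
    exact Submodule.mem_iSup_of_mem (p := fun ψ : {ψ : Module.Dual ℂ T // φ ψ < φ χ} => usp S.ι ψ.1)
      ⟨l.sum + χ, by rw [map_add]; linarith⟩ h1

theorem Pr_mem {φ : Module.Dual ℂ T →ₗ[ℚ] ℚ} (hφ : ∀ α ∈ S.R.Φ, φ α ≠ 0) {χ : Module.Dual ℂ T}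
    {u : U} (hu : u ∈ usp S.ι χ) (hk : ∀ α ∈ S.R.Φ, 0 < φ α → S.e α u = 0)
    {a : Module.End ℂ U} (ha : a ∈ Algebra.adjoin ℂ (𝔥 : Set (Module.End ℂ U))) :
    ∃ c : ℂ, ∃ r ∈ (⨆ ψ : {ψ : Module.Dual ℂ T // φ ψ < φ χ}, usp S.ι ψ.1), a u = c • u + r := by
  have huD : u ∈ S.Pr_D φ u := Submodule.subset_span ⟨[], by simp, by unfold Pr_gen; simp⟩
  have h1 := S.Pr_low (φ := φ) hu (S.Pr_adjoin hφ hu hk ha u huD)
  obtain ⟨y, hy, r, hr, hyr⟩ := Submodule.mem_sup.1 h1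
  obtain ⟨c, rfl⟩ := Submodule.mem_span_singleton.1 hy
  exact ⟨c, r, hr, hyr.symm⟩

/-- First principle for vectors killed by the positive root vectors. -/
theorem pr1 {φ : Module.Dual ℂ T →ₗ[ℚ] ℚ} (hφ : ∀ α ∈ S.R.Φ, φ α ≠ 0) {χ : Module.Dual ℂ T} {u : U}
    (hu : u ∈ usp S.ι χ) (hk : ∀ α ∈ S.R.Φ, 0 < φ α → S.e α u = 0) {μ : Module.Dual ℂ T}
    {a : Module.End ℂ U} (ha : a ∈ Algebra.adjoin ℂ (𝔥 : Set (Module.End ℂ U)))
    (hμ : a ∈ wsp S.ι μ) (hp : 0 < φ μ) : a u = 0 := by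
  obtain ⟨c, r, hr, har⟩ := S.Pr_mem hφ hu hk ha
  have h1 := S.Pr_usp_mul hμ hu
  have hne : χ ≠ μ + χ := by
    intro h
    have : φ χ = φ μ + φ χ := by
      conv_lhs => rw [h]
      rw [map_add]
    linarith
  have h2 : a u ∈ ⨆ ψ, ⨆ (_ : ψ ≠ μ + χ), usp S.ι ψ := by
    rw [har]
    refine Submodule.add_mem _ ?_ ?_
    · have h3 : usp S.ι χ ≤ ⨆ ψ, ⨆ (_ : ψ ≠ μ + χ), usp S.ι ψ :=
        le_iSup₂_of_le χ hne le_rfl
      exact h3 (Submodule.smul_mem _ _ hu)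
    · have h3 : (⨆ ψ : {ψ : Module.Dual ℂ T // φ ψ < φ χ}, usp S.ι ψ.1) ≤
          ⨆ ψ, ⨆ (_ : ψ ≠ μ + χ), usp S.ι ψ := by
        refine iSup_le fun ψ => le_iSup₂_of_le ψ.1 ?_ le_rfl
        intro h
        have h4 := ψ.2
        rw [h, map_add] at h4
        linarith
      exact h3 hr
  have h5 := (S.usp_indep (μ + χ)).le_bot ⟨h1, h2⟩
  exact (Submodule.mem_bot ℂ).1 h5

/-- Second principle for vectors killed by the positive root vectors. -/
theorem pr2 {φ : Module.Dual ℂ T →ₗ[ℚ] ℚ} (hφ : ∀ α ∈ S.R.Φ, φ α ≠ 0) {χ : Module.Dual ℂ T} {u : U}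
    (hu : u ∈ usp S.ι χ) (hk : ∀ α ∈ S.R.Φ, 0 < φ α → S.e α u = 0)
    {a : Module.End ℂ U} (ha : a ∈ Algebra.adjoin ℂ (𝔥 : Set (Module.End ℂ U)))
    (hμ : a ∈ wsp S.ι 0) : ∃ c : ℂ, a u = c • u := by
  obtain ⟨c, r, hr, har⟩ := S.Pr_mem hφ hu hk ha
  refine ⟨c, ?_⟩
  have h1 := S.Pr_usp_mul hμ hu
  rw [zero_add] at h1
  have hr1 : r ∈ usp S.ι χ := by
    have : r = a u - c • u := by rw [har]; abel
    rw [this]
    exact Submodule.sub_mem _ h1 (Submodule.smul_mem _ _ hu)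
  have hr2 : r ∈ ⨆ ψ, ⨆ (_ : ψ ≠ χ), usp S.ι ψ := by
    have h3 : (⨆ ψ : {ψ : Module.Dual ℂ T // φ ψ < φ χ}, usp S.ι ψ.1) ≤
        ⨆ ψ, ⨆ (_ : ψ ≠ χ), usp S.ι ψ := by
      refine iSup_le fun ψ => le_iSup₂_of_le ψ.1 ?_ le_rfl
      intro h
      have h4 := ψ.2
      rw [h] at h4
      exact lt_irrefl _ h4
    exact h3 hr
  have h5 := (S.usp_indep χ).le_bot ⟨hr1, hr2⟩
  rw [har, (Submodule.mem_bot ℂ).1 h5, add_zero]

end Sys

end Pool.Agent.Y102.SP
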