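import Pool.Agent.Y102.SP.Bil
import Pool.Agent.Y102.SP.Pr

set_option autoImplicit false

open Module

namespace Pool.Agent.Y102.SP

variable {U : Type} [AddCommGroup U] [Module ℂ U] [FiniteDimensional ℂ U] [Nontrivial U]
  {T : Type} [AddCommGroup T] [Module ℂ T] {V 𝔥 : Submodule ℂ (Module.End ℂ U)} (S : Sys V 𝔥 T)

namespace Sys

omit [FiniteDimensional ℂ U] [Nontrivial U] in
include S in
theorem se3_contr {v w : Module.End ℂ U} (hv : v ∈ V) (hw : w ∈ V) (s : U) :
    v (w s) = bil v w • s - w (v s) := by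
  have h := congrArg (fun f : Module.End ℂ U => f s) (S.clif.anti v hv w hw)
  simp only [LinearMap.add_apply, Module.End.mul_apply, LinearMap.smul_apply,
    Module.End.one_apply] at h
  rw [← h]
  abel

omit [FiniteDimensional ℂ U] [Nontrivial U] in
theorem se3_comm (x w : Module.End ℂ U) (s : U) : x (w s) = (x * w - w * x) s + w (x s) := by
  simp only [LinearMap.sub_apply, Module.End.mul_apply]
  abel

omit [FiniteDimensional ℂ U] [Nontrivial U] in
theorem se3_bot {χ : Module.Dual ℂ T} (h : χ ∉ S.Om) {x : Module.End ℂ U} (hx : x ∈ S.vw χ) :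
    x = 0 := by
  have h1 : S.vw χ = ⊥ := by
    by_contra h2
    exact h h2
  rw [h1] at hx
  exact (Submodule.mem_bot ℂ).1 hx

omit [FiniteDimensional ℂ U] [Nontrivial U] in
theorem se3_line (hd : ∀ ω ∈ S.Om, finrank ℂ (S.vw ω) = 1) {ω : Module.Dual ℂ T} (hω : ω ∈ S.Om)
    {w y : Module.End ℂ U} (hw : w ∈ S.vw ω) (hw0 : w ≠ 0) (hy : y ∈ S.vw ω) :
    ∃ k : ℂ, y = k • w := by
  have h := (finrank_eq_one_iff_of_nonzero' (⟨w, hw⟩ : S.vw ω)
    (fun h => hw0 (congrArg Subtype.val h))).1 (hd ω hω) ⟨y, hy⟩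
  obtain ⟨k, hk⟩ := h
  exact ⟨k, (congrArg Subtype.val hk).symm⟩

omit [FiniteDimensional ℂ U] [Nontrivial U] in
theorem se3_mul {μ ν : Module.Dual ℂ T} {x y : Module.End ℂ U} (hx : x ∈ wsp S.ι μ)
    (hy : y ∈ wsp S.ι ν) : x * y ∈ wsp S.ι (μ + ν) := by
  intro t
  have h1 := hx t
  have h2 := hy t
  have e : S.ι t * (x * y) - x * y * S.ι t =
      (S.ι t * x - x * S.ι t) * y + x * (S.ι t * y - y * S.ι t) := by
    noncomm_ring
  rw [e, h1, h2, LinearMap.add_apply, add_smul, smul_mul_assoc, mul_smul_comm]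

/-- the commutator of a root vector with a vector of weight `-i` -/
theorem se3_class (h0 : (0 : Module.Dual ℂ T) ∉ S.Om) {φ : Module.Dual ℂ T →ₗ[ℚ] ℚ}
    (hg : Gen S.R S.Om φ) {β i : Module.Dual ℂ T} (hβ : β ∈ S.R.Φ) {w : Module.End ℂ U}
    (hw : w ∈ S.vw (-i)) :
    S.e β * w - w * S.e β = 0 ∨ 0 < φ (β - i) ∨ (i - β ∈ S.Om ∧ 0 < φ (i - β)) := by
  by_cases hm : β - i ∈ S.Om
  · right
    rcases lt_trichotomy (φ (β - i)) 0 with h | h | h
    · right
      have h1 := S.neg_mem hm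
      rw [neg_sub] at h1
      refine ⟨h1, ?_⟩
      rw [← neg_sub, map_neg]
      linarith
    · exfalso
      have h1 := S.neg_mem hm
      have h2 : β - i = -(β - i) := hg.2 _ hm _ h1 (by rw [map_neg, h]; simp)
      have h3 : (2 : ℚ) • (β - i) = 0 := by
        rw [two_smul]
        nth_rewrite 2 [h2]
        exact add_neg_cancel _
      have h4 : β - i = 0 := (smul_eq_zero.1 h3).resolve_left two_ne_zero
      rw [h4] at hm
      exact h0 hm
    · left
      exact h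
  · left
    have h1 := S.act hβ hw
    rw [← sub_eq_add_neg] at h1
    exact S.se3_bot hm h1

/-- positive vectors contract -/
theorem se3_pos {φ : Module.Dual ℂ T →ₗ[ℚ] ℚ} {χ : Module.Dual ℂ T} {s : U} (hs : S.Top φ χ s)
    {μ i : Module.Dual ℂ T} {y w : Module.End ℂ U} (hy : y ∈ S.vw μ) (hμ : 0 < φ μ)
    (hw : w ∈ S.vw (-i)) (hne : μ ≠ i) : y (w s) = 0 := by
  rw [S.se3_contr hy.1 hw.1, hs.kill S hμ hy.2, map_zero, sub_zero,
    S.orth hy hw (by rwa [← sub_eq_add_neg, sub_ne_zero]), zero_smul]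

theorem se3_pos1 {φ : Module.Dual ℂ T →ₗ[ℚ] ℚ} {χ : Module.Dual ℂ T} {s : U} (hs : S.Top φ χ s)
    {μ : Module.Dual ℂ T} {y w : Module.End ℂ U} (hy : y ∈ S.vw μ) (hμ : 0 < φ μ)
    (hw : w ∈ S.vw (-μ)) (h1 : bil y w = 1) : y (w s) = s := by
  rw [S.se3_contr hy.1 hw.1, hs.kill S hμ hy.2, map_zero, sub_zero, h1, one_smul]

/-- two vectors `w₁`, `w₂` of weights `-i`, `-j` and a positive vector of another weight -/
theorem se3_pos2 {φ : Module.Dual ℂ T →ₗ[ℚ] ℚ} {χ : Module.Dual ℂ T} {s : U} (hs : S.Top φ χ s)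
    {μ i j : Module.Dual ℂ T} {y w w' : Module.End ℂ U} (hy : y ∈ S.vw μ) (hμ : 0 < φ μ)
    (hw : w ∈ S.vw (-i)) (hw' : w' ∈ S.vw (-j)) (hi : μ ≠ i) (hj : μ ≠ j) :
    y (w (w' s)) = 0 := by
  rw [S.se3_contr hy.1 hw.1, S.se3_pos hs hy hμ hw' hj, map_zero, sub_zero,
    S.orth hy hw (by rwa [← sub_eq_add_neg, sub_ne_zero]), zero_smul]

theorem se3_pos3 {φ : Module.Dual ℂ T →ₗ[ℚ] ℚ} {χ : Module.Dual ℂ T} {s : U} (hs : S.Top φ χ s)
    {μ j : Module.Dual ℂ T} {y w w' : Module.End ℂ U} (hy : y ∈ S.vw μ) (hμ : 0 < φ μ)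
    (hw : w ∈ S.vw (-μ)) (hw' : w' ∈ S.vw (-j)) (h1 : bil y w = 1) (hj : μ ≠ j) :
    y (w (w' s)) = w' s := by
  rw [S.se3_contr hy.1 hw.1, S.se3_pos hs hy hμ hw' hj, map_zero, sub_zero, h1, one_smul]

/-- a nonzero double commutator -/
theorem se3_dbl {β γ c : Module.Dual ℂ T} (hβ : β ∈ S.R.Φ) (hγ : γ ∈ S.R.Φ)
    (hβγ : β + γ ∈ S.R.Φ) {w : Module.End ℂ U} (hw : w ∈ S.vw (-c)) (hw0 : w ≠ 0)
    (ho : γ - c ∉ S.Om) (hp : 0 < S.R.pr β c) (hp' : 0 < S.R.pr γ (c - β)) {u : U}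
    (h1 : S.e β u = 0) (h2 : S.e γ u = 0) : S.e (β + γ) u = 0 := by
  obtain ⟨k, hk⟩ := S.add1 β hβ γ hγ hβγ
  have hz1 := S.act hβ hw
  have hz0 : S.e β * w - w * S.e β ≠ 0 := S.inj hβ hw hw0 (by rw [map_neg]; linarith)
  have hg0 : S.e γ * w - w * S.e γ = 0 := by
    have h3 := S.act hγ hw
    rw [← sub_eq_add_neg] at h3
    exact S.se3_bot ho h3
  have hzz := S.inj hγ hz1 hz0 (by
    have e : β + -c = -(c - β) := by abel
    rw [e, map_neg]; linarith)
  have hk0 : k ≠ 0 := by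
    intro h
    rw [h, zero_smul] at hk
    apply hzz
    have e : S.e γ * (S.e β * w - w * S.e β) - (S.e β * w - w * S.e β) * S.e γ =
        S.e β * (S.e γ * w - w * S.e γ) - (S.e γ * w - w * S.e γ) * S.e β -
          ((S.e β * S.e γ - S.e γ * S.e β) * w - w * (S.e β * S.e γ - S.e γ * S.e β)) := by
      noncomm_ring
    rw [e, hg0, hk]
    simp
  have h3 := congrArg (fun f : Module.End ℂ U => f u) hk
  simp only [LinearMap.sub_apply, Module.End.mul_apply, LinearMap.smul_apply] at h3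
  rw [h1, h2, map_zero, map_zero, sub_zero] at h3
  exact (smul_eq_zero.1 h3.symm).resolve_left hk0

theorem se3 (h0 : (0 : Module.Dual ℂ T) ∉ S.Om) (hd : ∀ ω ∈ S.Om, finrank ℂ (S.vw ω) = 1)
    {φ : Module.Dual ℂ T →ₗ[ℚ] ℚ} {a b c d : Module.Dual ℂ T} (hq : Quad S.R S.Om φ a b c d) :
    False := by
  obtain ⟨χ, s, hs⟩ := S.exists_top φ
  have hg := hq.gen
  obtain ⟨ha, hpa, hfa⟩ := hq.first
  obtain ⟨hb, hab, hfb⟩ := hq.n1
  obtain ⟨hc, hbc, hfc⟩ := hq.n2
  obtain ⟨hdd, hcd, hfd⟩ := hq.n3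
  have hrel := hq.rel
  have hpb : 0 < φ b := by linarith
  have hpc : 0 < φ c := by linarith
  have hpd : 0 < φ d := by linarith
  -- the positive weights below `b`, `c`, `d`
  have lowA : ∀ ω ∈ S.Om, 0 < φ ω → φ ω < φ b → ω = a := by
    intro ω hω h1 h2
    have h3 := hfa ω hω h1
    have h4 : ¬ φ a < φ ω := fun h => absurd (hfb ω hω h) (not_le.2 h2)
    exact hg.2 _ hω _ ha (le_antisymm (not_lt.1 h4) h3)
  have lowB : ∀ ω ∈ S.Om, 0 < φ ω → φ ω < φ c → ω = a ∨ ω = b := by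
    intro ω hω h1 h2
    rcases lt_or_ge (φ ω) (φ b) with h3 | h3
    · exact Or.inl (lowA ω hω h1 h3)
    · right
      have h4 : ¬ φ b < φ ω := fun h => absurd (hfc ω hω h) (not_le.2 h2)
      exact hg.2 _ hω _ hb (le_antisymm (not_lt.1 h4) h3)
  have lowC : ∀ ω ∈ S.Om, 0 < φ ω → φ ω < φ d → ω = a ∨ ω = b ∨ ω = c := by
    intro ω hω h1 h2
    rcases lt_or_ge (φ ω) (φ c) with h3 | h3
    · rcases lowB ω hω h1 h3 with h | h
      · exact Or.inl h
      · exact Or.inr (Or.inl h)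
    · right; right
      have h4 : ¬ φ c < φ ω := fun h => absurd (hfd ω hω h) (not_le.2 h2)
      exact hg.2 _ hω _ hc (le_antisymm (not_lt.1 h4) h3)
  -- the vectors
  have hvec : ∀ i ∈ S.Om, ∃ w ∈ S.vw (-i), w ≠ 0 ∧ ∃ x ∈ S.vw i, bil x w = 1 := by
    intro i hi
    obtain ⟨w, hw, hw0⟩ := Submodule.exists_mem_ne_zero_of_ne_bot (S.neg_mem hi)
    obtain ⟨x, hx, hxw⟩ := S.dual hw hw0
    rw [neg_neg] at hx
    exact ⟨w, hw, hw0, x, hx, by rw [bil_comm]; exact hxw⟩
  obtain ⟨wa, hwa, hwa0, xa, hxa, hxwa⟩ := hvec a ha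
  obtain ⟨wb, hwb, hwb0, xb, hxb, hxwb⟩ := hvec b hb
  obtain ⟨wc, hwc, hwc0, xc, hxc, hxwc⟩ := hvec c hc
  obtain ⟨wd, hwd, hwd0, xd, hxd, hxwd⟩ := hvec d hdd
  have hsqa : wa * wa = 0 := S.sq_zero hwa (by
    intro h; have := congrArg φ h; rw [map_neg, map_zero] at this; linarith)
  have hsqb : wb * wb = 0 := S.sq_zero hwb (by
    intro h; have := congrArg φ h; rw [map_neg, map_zero] at this; linarith)
  have root0 : ∀ β ∈ S.R.Φ, 0 < φ β → S.e β s = 0 := fun β hβ hp => hs.root S hβ hp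
  have expand : ∀ (β : Module.Dual ℂ T), β ∈ S.R.Φ → 0 < φ β → ∀ w w' : Module.End ℂ U,
      S.e β (w (w' s)) = (S.e β * w - w * S.e β) (w' s) + w ((S.e β * w' - w' * S.e β) s) := by
    intro β hβ hp w w'
    rw [se3_comm (S.e β) w, se3_comm (S.e β) w', root0 β hβ hp, map_zero, add_zero]
  have kill : ∀ (β i : Module.Dual ℂ T), β ∈ S.R.Φ → ∀ w ∈ S.vw (-i), 0 < φ (β - i) →
      (S.e β * w - w * S.e β) s = 0 := by
    intro β i hβ w hw hp
    have h1 := S.act hβ hw
    rw [← sub_eq_add_neg] at h1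
    exact hs.kill S hp h1.2
  have actm : ∀ (β i : Module.Dual ℂ T), β ∈ S.R.Φ → ∀ w ∈ S.vw (-i),
      (S.e β * w - w * S.e β) ∈ S.vw (β - i) := by
    intro β i hβ w hw
    have h1 := S.act hβ hw
    rwa [← sub_eq_add_neg] at h1
  have actn : ∀ (β i j : Module.Dual ℂ T), β ∈ S.R.Φ → ∀ w ∈ S.vw (-i), i - β = j →
      (S.e β * w - w * S.e β) ∈ S.vw (-j) := by
    intro β i j hβ w hw hj
    have h1 := actm β i hβ w hw
    rwa [← hj, neg_sub]
  -- first product
  have t1 : ∀ β ∈ S.R.Φ, 0 < φ β → β ≠ a + d → (S.e β * wa - wa * S.e β) (wd s) = 0 := by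
    intro β hβ hp hne
    rcases S.se3_class h0 hg hβ hwa with h | h | ⟨h, h'⟩
    · rw [h, LinearMap.zero_apply]
    · refine S.se3_pos hs (actm β a hβ wa hwa) h hwd ?_
      intro h1
      exact hne (by rw [← h1]; abel)
    · have := hfa _ h h'
      rw [map_sub] at this
      linarith
  have t2 : ∀ β ∈ S.R.Φ, 0 < φ β → β ≠ c - a → (β ≠ b - a → wa ((S.e β * wd - wd * S.e β) s) = 0) ∧
      ∃ k : ℂ, wa ((S.e β * wd - wd * S.e β) s) = k • wa (wc s) := by
    intro β hβ hp hne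
    have hz : wa ((S.e β * wd - wd * S.e β) s) = 0 →
      (β ≠ b - a → wa ((S.e β * wd - wd * S.e β) s) = 0) ∧
      ∃ k : ℂ, wa ((S.e β * wd - wd * S.e β) s) = k • wa (wc s) :=
      fun h => ⟨fun _ => h, 0, by rw [h, zero_smul]⟩
    rcases S.se3_class h0 hg hβ hwd with h | h | ⟨h, h'⟩
    · exact hz (by rw [h, LinearMap.zero_apply, map_zero])
    · exact hz (by rw [kill β d hβ wd hwd h, map_zero])
    · have h2 : φ (d - β) < φ d := by rw [map_sub]; linarith
      rcases lowC _ h h' h2 with h3 | h3 | h3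
      · obtain ⟨k, hk⟩ := S.se3_line hd (S.neg_mem ha) hwa hwa0 (actn β d a hβ wd hwd h3)
        refine hz ?_
        rw [hk, LinearMap.smul_apply, map_smul, ← Module.End.mul_apply, hsqa,
          LinearMap.zero_apply, smul_zero]
      · exfalso
        apply hne
        have e1 : β = d - b := by rw [← h3]; abel
        rw [e1]
        have e2 : a + d - b - a = b + c - b - a := by rw [hrel]
        calc d - b = a + d - b - a := by abel
          _ = b + c - b - a := e2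
          _ = c - a := by abel
      · have e1 : β = b - a := by
          have e1 : β = d - c := by rw [← h3]; abel
          rw [e1]
          calc d - c = a + d - c - a := by abel
            _ = b + c - c - a := by rw [hrel]
            _ = b - a := by abel
        refine ⟨fun h => absurd e1 h, ?_⟩
        obtain ⟨k, hk⟩ := S.se3_line hd (S.neg_mem hc) hwc hwc0 (actn β d c hβ wd hwd h3)
        exact ⟨k, by rw [hk, LinearMap.smul_apply, map_smul]⟩
  have t3 : ∀ β ∈ S.R.Φ, 0 < φ β → β ≠ b + c → (β ≠ b - a → (S.e β * wb - wb * S.e β) (wc s) = 0) ∧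
      ∃ k : ℂ, (S.e β * wb - wb * S.e β) (wc s) = k • wa (wc s) := by
    intro β hβ hp hne
    have hz : (S.e β * wb - wb * S.e β) (wc s) = 0 →
      (β ≠ b - a → (S.e β * wb - wb * S.e β) (wc s) = 0) ∧
      ∃ k : ℂ, (S.e β * wb - wb * S.e β) (wc s) = k • wa (wc s) :=
      fun h => ⟨fun _ => h, 0, by rw [h, zero_smul]⟩
    rcases S.se3_class h0 hg hβ hwb with h | h | ⟨h, h'⟩
    · exact hz (by rw [h, LinearMap.zero_apply])
    · refine hz (S.se3_pos hs (actm β b hβ wb hwb) h hwc ?_)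
      intro h1
      exact hne (by rw [← h1]; abel)
    · have h2 : φ (b - β) < φ b := by rw [map_sub]; linarith
      have h3 := lowA _ h h' h2
      have e1 : β = b - a := by rw [← h3]; abel
      refine ⟨fun h => absurd e1 h, ?_⟩
      obtain ⟨k, hk⟩ := S.se3_line hd (S.neg_mem ha) hwa hwa0 (actn β b a hβ wb hwb h3)
      exact ⟨k, by rw [hk, LinearMap.smul_apply]⟩
  have t4 : ∀ β ∈ S.R.Φ, 0 < φ β → β ≠ c - a → wb ((S.e β * wc - wc * S.e β) s) = 0 := by
    intro β hβ hp hne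
    rcases S.se3_class h0 hg hβ hwc with h | h | ⟨h, h'⟩
    · rw [h, LinearMap.zero_apply, map_zero]
    · rw [kill β c hβ wc hwc h, map_zero]
    · have h2 : φ (c - β) < φ c := by rw [map_sub]; linarith
      rcases lowB _ h h' h2 with h3 | h3
      · exfalso
        exact hne (by rw [← h3]; abel)
      · obtain ⟨k, hk⟩ := S.se3_line hd (S.neg_mem hb) hwb hwb0 (actn β c b hβ wc hwc h3)
        rw [hk, LinearMap.smul_apply, map_smul, ← Module.End.mul_apply, hsqb,
          LinearMap.zero_apply, smul_zero]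
  -- the special roots
  have hφ1 : φ (b - a) = φ b - φ a := map_sub _ _ _
  have hφ2 : φ (c - b) = φ c - φ b := map_sub _ _ _
  have hφ3 : φ (c - a) = φ c - φ a := map_sub _ _ _
  have hφ4 : φ (a + b) = φ a + φ b := map_add _ _ _
  have hφ5 : φ (b + c) = φ b + φ c := map_add _ _ _
  have hφ6 : φ (a + d) = φ a + φ d := map_add _ _ _
  have n1 : b - a ≠ c - a := fun h => by
    have := congrArg φ h; rw [hφ1, hφ3] at this; linarith
  have n2 : b - a ≠ a + d := fun h => by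
    have := congrArg φ h; rw [hφ1, hφ6] at this; linarith
  have n2' : b - a ≠ b + c := fun h => by
    have := congrArg φ h; rw [hφ1, hφ5] at this; linarith
  have n3 : c - b ≠ b - a := fun h => by
    have h1 : (1 : ℚ) • a + (-2 : ℚ) • b + (1 : ℚ) • c = 0 := by
      have h2 : c - b - (b - a) = 0 := sub_eq_zero.2 h
      rw [← h2]
      module
    exact one_ne_zero (hq.ind _ _ _ h1).1
  have n4 : c - b ≠ c - a := fun h => by
    have := congrArg φ h; rw [hφ2, hφ3] at this; linarith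
  have n5 : c - b ≠ b + c := fun h => by
    have := congrArg φ h; rw [hφ2, hφ5] at this; linarith
  have n6 : a + b ≠ b - a := fun h => by
    have := congrArg φ h; rw [hφ4, hφ1] at this; linarith
  have n7 : a + b ≠ c - a := fun h => by
    have h1 : (2 : ℚ) • a + (1 : ℚ) • b + (-1 : ℚ) • c = 0 := by
      have h2 : a + b - (c - a) = 0 := sub_eq_zero.2 h
      rw [← h2]
      module
    exact one_ne_zero (hq.ind _ _ _ h1).2.1
  have n8 : a + b ≠ b + c := fun h => by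
    have := congrArg φ h; rw [hφ4, hφ5] at this; linarith
  -- the coefficients
  obtain ⟨k1, hk1⟩ := (t2 (b - a) hq.r1 (by linarith) n1).2
  obtain ⟨k2, hk2⟩ := (t3 (b - a) hq.r1 (by linarith) n2').2
  have ead : S.e (b - a) (wa (wd s)) = k1 • wa (wc s) := by
    rw [expand _ hq.r1 (by linarith), t1 _ hq.r1 (by linarith) n2, zero_add, hk1]
  have ebc : S.e (b - a) (wb (wc s)) = k2 • wa (wc s) := by
    rw [expand _ hq.r1 (by linarith), t4 _ hq.r1 (by linarith) n1, add_zero, hk2]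
  obtain ⟨X, Y, hXY, hXY0⟩ : ∃ X Y : ℂ, X * k1 + Y * k2 = 0 ∧ (X ≠ 0 ∨ Y ≠ 0) := by
    by_cases h1 : k1 = 0
    · exact ⟨1, 0, by rw [h1]; ring, Or.inl one_ne_zero⟩
    · exact ⟨k2, -k1, by ring, Or.inr (neg_ne_zero.2 h1)⟩
  obtain ⟨u, hu⟩ : ∃ u : U, u = X • wa (wd s) + Y • wb (wc s) := ⟨_, rfl⟩
  have gen0 : ∀ β ∈ S.R.Φ, 0 < φ β → β ≠ b - a → β ≠ c - a → β ≠ b + c → S.e β u = 0 := by
    intro β hβ hp m1 m2 m3
    rw [hu, map_add, map_smul, map_smul, expand β hβ hp, expand β hβ hp,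
      t1 β hβ hp (by rwa [hrel]), (t2 β hβ hp m2).1 m1, (t3 β hβ hp m3).1 m1, t4 β hβ hp m2]
    simp
  have e1 : S.e (b - a) u = 0 := by
    rw [hu, map_add, map_smul, map_smul, ead, ebc, smul_smul, smul_smul, ← add_smul, hXY,
      zero_smul]
  have e2 : S.e (c - b) u = 0 := gen0 _ hq.r2 (by linarith) n3 n4 n5
  have e4 : S.e (a + b) u = 0 := gen0 _ hq.r4 (by linarith) n6 n7 n8
  have e3 : S.e (c - a) u = 0 := by
    have h := S.se3_dbl (β := c - b) (γ := b - a) (c := c) hq.r2 hq.r1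
      (by rw [sub_add_sub_cancel]; exact hq.r3) hwc hwc0
      (by
        intro h
        have h1 := S.neg_mem h
        have h2 : -(b - a - c) = c + a - b := by abel
        rw [h2] at h1
        exact hq.o1 h1)
      hq.p2 (by rw [sub_sub_cancel]; exact hq.p1) e2 e1
    rwa [sub_add_sub_cancel] at h
  have e5 : S.e (b + c) u = 0 := by
    have e : c - a + (a + b) = b + c := by abel
    have h := S.se3_dbl (β := c - a) (γ := a + b) (c := c) hq.r3 hq.r4
      (by rw [e]; exact hq.r5) hwc hwc0 hq.o2 hq.p3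
      (by rw [sub_sub_cancel]; exact hq.p4) e3 e4
    rwa [e] at h
  have hk : ∀ α ∈ S.R.Φ, 0 < φ α → S.e α u = 0 := by
    intro α hα hp
    by_cases m1 : α = b - a
    · rw [m1]; exact e1
    by_cases m2 : α = c - a
    · rw [m2]; exact e3
    by_cases m3 : α = b + c
    · rw [m3]; exact e5
    exact gen0 α hα hp m1 m2 m3
  have hsm := hs.mem
  have hwt : u ∈ usp S.ι (-a + (-d + χ)) := by
    rw [hu]
    refine Submodule.add_mem _ (Submodule.smul_mem _ _ ?_) (Submodule.smul_mem _ _ ?_)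
    · exact S.usp_mul hwa.2 (S.usp_mul hwd.2 hsm)
    · have e : -a + (-d + χ) = -b + (-c + χ) := by
        calc -a + (-d + χ) = -(a + d) + χ := by abel
          _ = -(b + c) + χ := by rw [hrel]
          _ = -b + (-c + χ) := by abel
      rw [e]
      exact S.usp_mul hwb.2 (S.usp_mul hwc.2 hsm)
  have nab : a ≠ b := fun h => by rw [h] at hab; exact lt_irrefl _ hab
  have nac : a ≠ c := fun h => by rw [← h] at hbc; linarith
  have nad : a ≠ d := fun h => by rw [← h] at hcd; linarith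
  have nbc : b ≠ c := fun h => by rw [h] at hbc; exact lt_irrefl _ hbc
  have nbd : b ≠ d := fun h => by rw [← h] at hcd; linarith
  have hX : X = 0 := by
    have h := S.pr1 hg.1 hwt hk (S.gen xd hxd.1 xa hxa.1) (S.se3_mul hxd.2 hxa.2)
      (by rw [map_add]; linarith)
    rw [Module.End.mul_apply, hu, map_add, map_smul, map_smul,
      S.se3_pos3 hs hxa hpa hwa hwd hxwa nad, S.se3_pos2 hs hxa hpa hwb hwc nab nac, smul_zero,
      add_zero, map_smul, S.se3_pos1 hs hxd hpd hwd hxwd] at h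
    exact (smul_eq_zero.1 h).resolve_right hs.ne
  have hY : Y = 0 := by
    have h := S.pr1 hg.1 hwt hk (S.gen xc hxc.1 xb hxb.1) (S.se3_mul hxc.2 hxb.2)
      (by rw [map_add]; linarith)
    rw [Module.End.mul_apply, hu, map_add, map_smul, map_smul,
      S.se3_pos3 hs hxb hpb hwb hwc hxwb nbc, S.se3_pos2 hs hxb hpb hwa hwd nab.symm nbd, smul_zero,
      zero_add, map_smul, S.se3_pos1 hs hxc hpc hwc hxwc] at h
    exact (smul_eq_zero.1 h).resolve_right hs.ne
  rcases hXY0 with h | h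
  · exact h hX
  · exact h hY

end Sys

end Pool.Agent.Y102.SP
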