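import Pool.Agent.Y102.SP.Bil
import Pool.Agent.Y102.SP.Pr

set_option autoImplicit false

open Module

namespace Pool.Agent.Y102.SP

variable {U : Type} [AddCommGroup U] [Module ℂ U] [FiniteDimensional ℂ U] [Nontrivial U]
  {T : Type} [AddCommGroup T] [Module ℂ T] {V 𝔥 : Submodule ℂ (Module.End ℂ U)} (S : Sys V 𝔥 T)

namespace Sys

theorem st2_mulw {χ ψ : Module.Dual ℂ T} {x y : Module.End ℂ U} (hx : x ∈ wsp S.ι χ)
    (hy : y ∈ wsp S.ι ψ) : x * y ∈ wsp S.ι (χ + ψ) := by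
  intro t
  have h1 := hx t
  have h2 := hy t
  have h3 : S.ι t * (x * y) - x * y * S.ι t
      = (S.ι t * x - x * S.ι t) * y + x * (S.ι t * y - y * S.ι t) := by
    noncomm_ring
  rw [h3, h1, h2, LinearMap.add_apply, add_smul, smul_mul_assoc, mul_smul_comm]

theorem st2_con (hc : Clif V) {x w : Module.End ℂ U} (hx : x ∈ V) (hw : w ∈ V) (s : U) :
    x (w s) = bil x w • s - w (x s) := by
  have h := congrArg (fun f : Module.End ℂ U => f s) (hc.anti x hx w hw)
  simp only [LinearMap.add_apply, Module.End.mul_apply, LinearMap.smul_apply,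
    Module.End.one_apply] at h
  rw [← h]; abel

theorem st2_v0 (h0 : (0 : Module.Dual ℂ T) ∈ S.Om) (h1 : finrank ℂ (S.vw 0) ≤ 1) :
    ∃ v ∈ S.vw 0, v ≠ 0 ∧ (∃ k : ℂ, k ≠ 0 ∧ v * v = k • (1 : Module.End ℂ U)) ∧
      ∀ y ∈ S.vw 0, ∃ c : ℂ, y = c • v := by
  obtain ⟨v, hv, hv0⟩ := (Submodule.ne_bot_iff _).1 h0
  have hs : ∀ y ∈ S.vw 0, ∃ c : ℂ, y = c • v := by
    intro y hy
    have h2 : finrank ℂ (S.vw 0) = 1 := by
      refine le_antisymm h1 ?_
      haveI : Nontrivial (S.vw 0) := ⟨⟨⟨v, hv⟩, 0, by simpa [Subtype.ext_iff] using hv0⟩⟩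
      exact Module.finrank_pos
    obtain ⟨c, hc⟩ := (finrank_eq_one_iff_of_nonzero' (⟨v, hv⟩ : S.vw 0)
      (by simpa [Subtype.ext_iff] using hv0)).1 h2 ⟨y, hy⟩
    exact ⟨c, by simpa using (congrArg Subtype.val hc).symm⟩
  refine ⟨v, hv, hv0, ?_, hs⟩
  obtain ⟨y, hy, hb⟩ := S.dual hv hv0
  rw [neg_zero] at hy
  obtain ⟨c, rfl⟩ := hs y hy
  rw [bil_smul_right] at hb
  have hb0 : bil v v ≠ 0 := by
    intro h; rw [h, mul_zero] at hb; exact one_ne_zero hb.symm
  refine ⟨bil v v / 2, div_ne_zero hb0 two_ne_zero, ?_⟩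
  have h3 := S.clif.anti v hv.1 v hv.1
  have h4 : (2 : ℂ) • (v * v) = bil v v • (1 : Module.End ℂ U) := by
    rw [two_smul]; exact h3
  have h5 : v * v = (1 / 2 : ℂ) • ((2 : ℂ) • (v * v)) := by
    rw [smul_smul]; norm_num
  rw [h5, h4, smul_smul]
  congr 1; ring

/-- A root vector of positive weight shifts a vector of weight `-c`. -/
theorem st2_tri {φ : Module.Dual ℂ T →ₗ[ℚ] ℚ} (hφ : Gen S.R S.Om φ) {β c : Module.Dual ℂ T}
    (hβ : β ∈ S.R.Φ) (hc : c ∈ S.Om) (hpc : 0 < φ c) {w : Module.End ℂ U} (hw : w ∈ S.vw (-c))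
    (hp : 0 < φ β) :
    S.e β * w - w * S.e β = 0 ∨ 0 < φ (β + -c) ∨ (c - β ∈ S.Om ∧ 0 < φ (c - β) ∧
      φ (c - β) < φ c) ∨ β = c := by
  by_cases hy : S.e β * w - w * S.e β = 0
  · exact Or.inl hy
  right
  have hm := S.act hβ hw
  have hO : β + -c ∈ S.Om := by
    intro h
    rw [h] at hm
    exact hy ((Submodule.mem_bot ℂ).1 hm)
  have hO' : c - β ∈ S.Om := by
    have := S.neg_mem hO
    rwa [show -(β + -c) = c - β by abel] at this
  rcases lt_trichotomy (φ (β + -c)) 0 with h | h | h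
  · right; left
    refine ⟨hO', ?_, ?_⟩
    · have : φ (c - β) = -φ (β + -c) := by rw [← map_neg]; congr 1; abel
      rw [this]; linarith
    · rw [map_sub]; linarith
  · right; right
    have h2 : φ (c - β) = -φ (β + -c) := by rw [← map_neg]; congr 1; abel
    have h3 := hφ.2 _ hO _ hO' (by rw [h2, h, neg_zero])
    have h4 : β + -c = -(β + -c) := by rw [h3]; nth_rw 1 [← h3]; abel
    have h5 : (2 : ℂ) • (β + -c) = 0 := by
      rw [two_smul]; nth_rw 1 [h4]; abel
    have h6 : β + -c = 0 := by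
      rcases smul_eq_zero.1 h5 with h7 | h7
      · norm_num at h7
      · exact h7
    rw [← sub_eq_add_neg] at h6
    exact sub_eq_zero.1 h6
  · left; exact h

theorem st2_one {χ : Module.Dual ℂ T} (h : finrank ℂ (S.vw χ) = 1) :
    ∃ w ∈ S.vw χ, w ≠ 0 ∧ ∀ y ∈ S.vw χ, ∃ c : ℂ, y = c • w := by
  obtain ⟨⟨w, hw⟩, hw0, hs⟩ := finrank_eq_one_iff'.1 h
  refine ⟨w, hw, fun h => hw0 (Subtype.ext h), fun y hy => ?_⟩
  obtain ⟨c, hc⟩ := hs ⟨y, hy⟩
  exact ⟨c, by simpa using (congrArg Subtype.val hc).symm⟩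

/-- Contraction when the first vector kills. -/
theorem st2_con0 (hc : Clif V) {x w : Module.End ℂ U} (hx : x ∈ V) (hw : w ∈ V) {s : U}
    (h : x s = 0) : x (w s) = bil x w • s := by
  rw [st2_con hc hx hw, h, map_zero, sub_zero]

theorem st2_conO {χ ψ : Module.Dual ℂ T} {x w : Module.End ℂ U} (hx : x ∈ S.vw χ)
    (hw : w ∈ S.vw ψ) (h : χ + ψ ≠ 0) (s : U) : x (w s) = -w (x s) := by
  rw [st2_con S.clif hx.1 hw.1, S.orth hx hw h, zero_smul, zero_sub]

theorem st2 (h0 : (0 : Module.Dual ℂ T) ∈ S.Om) (hd : ∀ ω ∈ S.Om, finrank ℂ (S.vw ω) = 1)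
    {φ : Module.Dual ℂ T →ₗ[ℚ] ℚ} {a : Module.Dual ℂ T} (hq : Line3 S.R S.Om φ a) : False := by
  obtain ⟨v, hv, hv0, ⟨k, hk, hvv⟩, hvs⟩ := S.st2_v0 h0 (le_of_eq (hd 0 h0))
  obtain ⟨χ, s, hs⟩ := S.exists_top φ
  obtain ⟨hgen, ⟨haO, hpa, hmin⟩, haΦ, ⟨h2O, h2p, h2m⟩, ⟨h3O, h3p, h3m⟩⟩ := hq
  have ha0 : a ≠ 0 := fun h => by rw [h, map_zero] at hpa; exact lt_irrefl _ hpa
  have hsm : ∀ c : ℚ, c ≠ 0 → c • a ≠ 0 := fun c hc h => by
    have h1 : φ (c • a) = 0 := by rw [h, map_zero]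
    rw [map_smul, smul_eq_mul] at h1
    rcases mul_eq_zero.1 h1 with h2 | h2
    · exact hc h2
    · exact hpa.ne' h2
  have hp2 : φ ((2 : ℚ) • a) = 2 * φ a := by rw [map_smul, smul_eq_mul]
  have hp3 : φ ((3 : ℚ) • a) = 3 * φ a := by rw [map_smul, smul_eq_mul]
  have hpos2 : 0 < φ ((2 : ℚ) • a) := by rw [hp2]; linarith
  have hpos3 : 0 < φ ((3 : ℚ) • a) := by rw [hp3]; linarith
  -- the vectors
  obtain ⟨w1, hw1, hw10, hw1s⟩ := S.st2_one (hd _ (S.neg_mem haO))
  obtain ⟨w2, hw2, hw20, hw2s⟩ := S.st2_one (hd _ (S.neg_mem h2O))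
  obtain ⟨w3, hw3, hw30, hw3s⟩ := S.st2_one (hd _ (S.neg_mem h3O))
  obtain ⟨x1, hx1, hb1⟩ := S.dual hw1 hw10
  obtain ⟨x2, hx2, hb2⟩ := S.dual hw2 hw20
  obtain ⟨x3, hx3, hb3⟩ := S.dual hw3 hw30
  rw [neg_neg] at hx1 hx2 hx3
  rw [bil_comm] at hb1 hb2 hb3
  have x1s : x1 s = 0 := hs.kill S hpa hx1.2
  have x2s : x2 s = 0 := hs.kill S hpos2 hx2.2
  have x3s : x3 s = 0 := hs.kill S hpos3 hx3.2
  have vvs : ∀ s' : U, v (v s') = k • s' := by
    intro s'
    have := congrArg (fun f : Module.End ℂ U => f s') hvv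
    simpa using this
  -- shifts
  have shift : ∀ β ∈ S.R.Φ, 0 < φ β → ∀ n : ℕ, (n = 1 ∨ n = 2 ∨ n = 3) →
      ∀ w ∈ S.vw (-((n : ℚ) • a)), β ≠ a →
      S.e β * w - w * S.e β = 0 ∨ 0 < φ (β + -((n : ℚ) • a)) := by
    intro β hβ hpβ n hn w hw hne
    have hnO : ((n : ℚ) • a) ∈ S.Om := by
      rcases hn with rfl | rfl | rfl
      · simpa using haO
      · exact_mod_cast h2O
      · exact_mod_cast h3O
    have hnp : 0 < φ ((n : ℚ) • a) := by
      rw [map_smul, smul_eq_mul]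
      rcases hn with rfl | rfl | rfl <;> · push_cast; linarith
    have hred : ∀ c : ℚ, c • a = β → False := by
      intro c hc
      rcases S.R.red a haΦ c (by rw [hc]; exact hβ) with h | h
      · rw [h, one_smul] at hc; exact hne hc.symm
      · rw [h] at hc
        rw [← hc, map_smul, smul_eq_mul] at hpβ
        linarith
    rcases S.st2_tri hgen hβ hnO hnp hw hpβ with h | h | h | h
    · exact Or.inl h
    · exact Or.inr h
    · exfalso
      obtain ⟨hO, hp, hlt⟩ := h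
      -- the weight n a - β is one of a, 2 a
      have e1 : φ a ≤ φ ((n : ℚ) • a - β) := hmin _ hO hp
      rcases e1.lt_or_eq with e2 | e2
      · have e3 : φ ((2 : ℚ) • a) ≤ φ ((n : ℚ) • a - β) := h2m _ hO e2
        rcases e3.lt_or_eq with e4 | e4
        · have e5 : φ ((3 : ℚ) • a) ≤ φ ((n : ℚ) • a - β) := h3m _ hO e4
          have e6 : φ ((n : ℚ) • a) = n * φ a := by rw [map_smul, smul_eq_mul]
          rw [e6] at hlt
          rw [hp3] at e5
          have e7 := lt_of_le_of_lt e5 hlt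
          rcases hn with rfl | rfl | rfl <;> · push_cast at e7; linarith
        · have e5 := hgen.2 _ h2O _ hO e4
          refine hred ((n : ℚ) - 2) ?_
          rw [sub_smul, e5]; abel
      · have e5 := hgen.2 _ haO _ hO e2
        refine hred ((n : ℚ) - 1) ?_
        rw [sub_smul, one_smul]; nth_rw 2 [e5]; abel
    · exact absurd h.symm (fun h' => hred n h')
  -- coefficients of the action of `e a`
  have ac1 : ∃ c : ℂ, S.e a * w1 - w1 * S.e a = c • v := by
    have := S.act haΦ hw1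
    rw [add_neg_cancel] at this
    exact hvs _ this
  have ac2 : ∃ c : ℂ, S.e a * w2 - w2 * S.e a = c • w1 := by
    have := S.act haΦ hw2
    rw [show a + -((2 : ℚ) • a) = -a by rw [two_smul]; abel] at this
    exact hw1s _ this
  have ac3 : ∃ c : ℂ, S.e a * w3 - w3 * S.e a = c • w2 := by
    have := S.act haΦ hw3
    rw [show a + -((3 : ℚ) • a) = -((2 : ℚ) • a) by
      rw [show (3 : ℚ) = 2 + 1 by norm_num, add_smul, one_smul]; abel] at this
    exact hw2s _ this
  obtain ⟨k1, hk1⟩ := ac1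
  obtain ⟨k2, hk2⟩ := ac2
  obtain ⟨k3, hk3⟩ := ac3
  have ew : ∀ (β : Module.Dual ℂ T) (w : Module.End ℂ U) (s' : U),
      S.e β (w s') = (S.e β * w - w * S.e β) s' + w (S.e β s') := by
    intro β w s'
    rw [LinearMap.sub_apply, Module.End.mul_apply, Module.End.mul_apply]; abel
  -- the action of the positive root vectors on the two vectors
  have hes : ∀ β ∈ S.R.Φ, 0 < φ β → S.e β s = 0 := fun β hβ hp => hs.root S hβ hp
  have hev : ∀ β ∈ S.R.Φ, 0 < φ β → S.e β (v s) = 0 := by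
    intro β hβ hp
    rw [ew, hes β hβ hp, map_zero, add_zero]
    refine hs.kill S (ω := β + 0) ?_ (S.act hβ hv).2
    rw [add_zero]; exact hp
  have kn12 : ∀ β ∈ S.R.Φ, 0 < φ β → β ≠ a → S.e β (w1 (w2 s)) = 0 := by
    intro β hβ hp hne
    rw [ew, ew, hes β hβ hp, map_zero, add_zero]
    have t1 : (S.e β * w2 - w2 * S.e β) s = 0 := by
      rcases shift β hβ hp 2 (by norm_num) w2 (by exact_mod_cast hw2) hne with h | h
      · rw [h, LinearMap.zero_apply]
      · refine hs.kill S h (S.act hβ (by exact_mod_cast hw2)).2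
    rw [t1, map_zero, add_zero]
    rcases shift β hβ hp 1 (by norm_num) w1 (by simpa using hw1) hne with h | h
    · rw [h, LinearMap.zero_apply]
    · have hm := S.act hβ hw1
      have hk0 : (S.e β * w1 - w1 * S.e β) s = 0 := by
        refine hs.kill S (ω := β + -a) ?_ hm.2
        simpa using h
      rw [st2_conO S hm hw2 ?_, hk0, map_zero, neg_zero]
      intro h'
      have h2 : (3 : ℚ) • a = β := by
        rw [show (3 : ℚ) = 2 + 1 by norm_num, add_smul, one_smul]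
        have : β + -a + -((2 : ℚ) • a) = β - ((2 : ℚ) • a + a) := by abel
        rw [this] at h'
        exact (sub_eq_zero.1 h').symm
      rcases S.R.red a haΦ 3 (by rw [h2]; exact hβ) with h3 | h3 <;> norm_num at h3
  have kn3v : ∀ β ∈ S.R.Φ, 0 < φ β → β ≠ a → S.e β (w3 (v s)) = 0 := by
    intro β hβ hp hne
    rw [ew, hev β hβ hp, map_zero, add_zero]
    rcases shift β hβ hp 3 (by norm_num) w3 (by exact_mod_cast hw3) hne with h | h
    · rw [h, LinearMap.zero_apply]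
    · have hm := S.act hβ hw3
      have h' : 0 < φ (β + -((3 : ℚ) • a)) := by exact_mod_cast h
      have hk0 : (S.e β * w3 - w3 * S.e β) s = 0 := hs.kill S h' hm.2
      rw [st2_conO S hm hv ?_, hk0, map_zero, neg_zero]
      rw [add_zero]
      intro h2
      rw [h2, map_zero] at h'
      exact lt_irrefl _ h'
  have hw1w1 : w1 (w1 s) = 0 := by
    have := S.sq_zero hw1 (neg_ne_zero.2 ha0)
    have h2 := congrArg (fun f : Module.End ℂ U => f s) this
    simpa using h2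
  have ea12 : S.e a (w1 (w2 s)) = (-k1) • w2 (v s) := by
    rw [ew, ew, hes a haΦ hpa, map_zero, add_zero, hk1, hk2, LinearMap.smul_apply,
      LinearMap.smul_apply, map_smul, hw1w1, smul_zero, add_zero, neg_smul, ← smul_neg]
    congr 1
    refine st2_conO S hv hw2 ?_ s
    rw [zero_add]
    exact neg_ne_zero.2 (hsm 2 two_ne_zero)
  have ea3v : S.e a (w3 (v s)) = k3 • w2 (v s) := by
    rw [ew, hev a haΦ hpa, map_zero, add_zero, hk3, LinearMap.smul_apply]
  -- the combination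
  obtain ⟨X, Y, hXY, hXY0⟩ : ∃ X Y : ℂ, -(X * k1) + Y * k3 = 0 ∧ ¬(X = 0 ∧ Y = 0) := by
    by_cases h : k3 = 0
    · by_cases h' : k1 = 0
      · exact ⟨1, 0, by rw [h']; ring, fun h2 => one_ne_zero h2.1⟩
      · exact ⟨0, 1, by rw [h]; ring, fun h2 => one_ne_zero h2.2⟩
    · exact ⟨k3, k1, by ring, fun h2 => h h2.1⟩
  have hkill : ∀ β ∈ S.R.Φ, 0 < φ β → S.e β (X • w1 (w2 s) + Y • w3 (v s)) = 0 := by
    intro β hβ hp
    rw [map_add, map_smul, map_smul]
    by_cases hne : β = a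
    · rw [hne, ea12, ea3v, smul_smul, smul_smul, ← add_smul]
      rw [show X * -k1 + Y * k3 = 0 by rw [← hXY]; ring, zero_smul]
    · rw [kn12 β hβ hp hne, kn3v β hβ hp hne, smul_zero, smul_zero, add_zero]
  have hu : X • w1 (w2 s) + Y • w3 (v s) ∈ usp S.ι (-((3 : ℚ) • a) + χ) := by
    refine Submodule.add_mem _ (Submodule.smul_mem _ _ ?_) (Submodule.smul_mem _ _ ?_)
    · have := S.usp_mul hw1.2 (S.usp_mul hw2.2 hs.mem)
      rwa [show -a + (-((2 : ℚ) • a) + χ) = -((3 : ℚ) • a) + χ by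
        rw [show (3 : ℚ) = 2 + 1 by norm_num, add_smul, one_smul]; abel] at this
    · have := S.usp_mul hw3.2 (S.usp_mul hv.2 hs.mem)
      rwa [zero_add] at this
  have hX : X = 0 := by
    have h5 := S.pr1 hgen.1 hu hkill (S.gen x2 hx2.1 x1 hx1.1) (S.st2_mulw hx2.2 hx1.2)
      (by rw [map_add]; linarith)
    have e1 : x1 (w1 (w2 s)) = w2 s := by
      rw [st2_con S.clif hx1.1 hw1.1, hb1, one_smul, st2_conO S hx1 hw2 ?_, x1s, map_zero,
        neg_zero, map_zero, sub_zero]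
      rw [show a + -((2 : ℚ) • a) = -a by rw [two_smul]; abel]
      exact neg_ne_zero.2 ha0
    have e2 : x2 (w2 s) = s := by
      rw [st2_con S.clif hx2.1 hw2.1, hb2, one_smul, x2s, map_zero, sub_zero]
    have e3 : x1 (w3 (v s)) = 0 := by
      rw [st2_conO S hx1 hw3 ?_, st2_conO S hx1 hv (by rwa [add_zero]), x1s, map_zero, neg_zero,
        map_zero, neg_zero]
      rw [show a + -((3 : ℚ) • a) = -((2 : ℚ) • a) by
        rw [show (3 : ℚ) = 2 + 1 by norm_num, add_smul, one_smul]; abel]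
      exact neg_ne_zero.2 (hsm 2 two_ne_zero)
    rw [map_add, map_smul, map_smul, Module.End.mul_apply, Module.End.mul_apply, e1, e2, e3,
      map_zero, smul_zero, add_zero] at h5
    rcases smul_eq_zero.1 h5 with h6 | h6
    · exact h6
    · exact absurd h6 hs.ne
  have hY : Y = 0 := by
    have h5 := S.pr1 hgen.1 hu hkill (S.gen v hv.1 x3 hx3.1) (S.st2_mulw hv.2 hx3.2)
      (by rw [map_add, map_zero]; linarith)
    have e1 : x3 (w3 (v s)) = v s := by
      rw [st2_con S.clif hx3.1 hw3.1, hb3, one_smul, st2_conO S hx3 hv ?_, x3s, map_zero,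
        neg_zero, map_zero, sub_zero]
      rw [add_zero]; exact hsm 3 three_ne_zero
    have e3 : x3 (w1 (w2 s)) = 0 := by
      rw [st2_conO S hx3 hw1 ?_, st2_conO S hx3 hw2 ?_, x3s, map_zero, neg_zero,
        map_zero, neg_zero]
      · rw [show (3 : ℚ) • a + -((2 : ℚ) • a) = a by
          rw [show (3 : ℚ) = 2 + 1 by norm_num, add_smul, one_smul]; abel]
        exact ha0
      · rw [show (3 : ℚ) • a + -a = (2 : ℚ) • a by
          rw [show (3 : ℚ) = 2 + 1 by norm_num, add_smul, one_smul]; abel]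
        exact hsm 2 two_ne_zero
    rw [map_add, map_smul, map_smul, Module.End.mul_apply, Module.End.mul_apply, e1, e3,
      map_zero, smul_zero, zero_add, vvs, smul_smul] at h5
    rcases smul_eq_zero.1 h5 with h6 | h6
    · rcases mul_eq_zero.1 h6 with h7 | h7
      · exact h7
      · exact absurd h7 hk
    · exact absurd h6 hs.ne
  exact hXY0 ⟨hX, hY⟩

end Sys

end Pool.Agent.Y102.SP
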