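import Pool.Agent.Y102.SP.L5
import Pool.Agent.Y102.SP.Pr

set_option autoImplicit false

open Module

namespace Pool.Agent.Y102.SP

variable {U : Type} [AddCommGroup U] [Module ℂ U] [FiniteDimensional ℂ U] [Nontrivial U]
  {T : Type} [AddCommGroup T] [Module ℂ T] {V 𝔥 : Submodule ℂ (Module.End ℂ U)} (S : Sys V 𝔥 T)

namespace Sys

theorem st3_mulw {χ ψ : Module.Dual ℂ T} {x y : Module.End ℂ U} (hx : x ∈ wsp S.ι χ)
    (hy : y ∈ wsp S.ι ψ) : x * y ∈ wsp S.ι (χ + ψ) := by
  intro t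
  have h1 := hx t
  have h2 := hy t
  have h3 : S.ι t * (x * y) - x * y * S.ι t
      = (S.ι t * x - x * S.ι t) * y + x * (S.ι t * y - y * S.ι t) := by
    noncomm_ring
  rw [h3, h1, h2, LinearMap.add_apply, add_smul, smul_mul_assoc, mul_smul_comm]

theorem st3_con (hc : Clif V) {x w : Module.End ℂ U} (hx : x ∈ V) (hw : w ∈ V) (s : U) :
    x (w s) = bil x w • s - w (x s) := by
  have h := congrArg (fun f : Module.End ℂ U => f s) (hc.anti x hx w hw)
  simp only [LinearMap.add_apply, Module.End.mul_apply, LinearMap.smul_apply,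
    Module.End.one_apply] at h
  rw [← h]; abel

theorem st3_v0 (h0 : (0 : Module.Dual ℂ T) ∈ S.Om) (h1 : finrank ℂ (S.vw 0) ≤ 1) :
    ∃ v ∈ S.vw 0, v ≠ 0 ∧ (∃ k : ℂ, k ≠ 0 ∧ v * v = k • (1 : Module.End ℂ U)) ∧
      ∀ y ∈ S.vw 0, ∃ c : ℂ, y = c • v := by
  obtain ⟨v, hv, hv0⟩ := (Submodule.ne_bot_iff _).1 h0
  have hs : ∀ y ∈ S.vw 0, ∃ c : ℂ, y = c • v := by
    intro y hy
    have h2 : finrank ℂ (S.vw 0) = 1 := by
      refine le_antisymm h1 ?_
      haveI : Nontrivial (S.vw 0) := ⟨⟨⟨v, hv⟩, 0, by simpa [Subtype.ext_iff] using hv0⟩⟩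
      exact Module.finrank_pos
    obtain ⟨c, hc⟩ := (finrank_eq_one_iff_of_nonzero' (⟨v, hv⟩ : S.vw 0)
      (by simpa [Subtype.ext_iff] using hv0)).1 h2 ⟨y, hy⟩
    exact ⟨c, by simpa using (congrArg Subtype.val hc).symm⟩
  refine ⟨v, hv, hv0, ?_, hs⟩
  obtain ⟨y, hy, hb⟩ := S.dual hv hv0
  rw [neg_zero] at hy
  obtain ⟨c, rfl⟩ := hs y hy
  rw [bil_smul_right] at hb
  have hb0 : bil v v ≠ 0 := by
    intro h; rw [h, mul_zero] at hb; exact one_ne_zero hb.symm
  refine ⟨bil v v / 2, div_ne_zero hb0 two_ne_zero, ?_⟩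
  have h3 := S.clif.anti v hv.1 v hv.1
  have h4 : (2 : ℂ) • (v * v) = bil v v • (1 : Module.End ℂ U) := by
    rw [two_smul]; exact h3
  have h5 : v * v = (1 / 2 : ℂ) • ((2 : ℂ) • (v * v)) := by
    rw [smul_smul]; norm_num
  rw [h5, h4, smul_smul]
  congr 1; ring

/-- A root vector of positive weight shifts a vector of weight `-c`. -/
theorem st3_tri {φ : Module.Dual ℂ T →ₗ[ℚ] ℚ} (hφ : Gen S.R S.Om φ) {β c : Module.Dual ℂ T}
    (hβ : β ∈ S.R.Φ) (hc : c ∈ S.Om) (hpc : 0 < φ c) {w : Module.End ℂ U} (hw : w ∈ S.vw (-c))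
    (hp : 0 < φ β) :
    S.e β * w - w * S.e β = 0 ∨ 0 < φ (β + -c) ∨ (c - β ∈ S.Om ∧ 0 < φ (c - β) ∧
      φ (c - β) < φ c) ∨ β = c := by
  by_cases hy : S.e β * w - w * S.e β = 0
  · exact Or.inl hy
  right
  have hm := S.act hβ hw
  have hO : β + -c ∈ S.Om := by
    intro h
    rw [h] at hm
    exact hy ((Submodule.mem_bot ℂ).1 hm)
  have hO' : c - β ∈ S.Om := by
    have := S.neg_mem hO
    rwa [show -(β + -c) = c - β by abel] at this
  rcases lt_trichotomy (φ (β + -c)) 0 with h | h | h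
  · right; left
    refine ⟨hO', ?_, ?_⟩
    · have : φ (c - β) = -φ (β + -c) := by rw [← map_neg]; congr 1; abel
      rw [this]; linarith
    · rw [map_sub]; linarith
  · right; right
    have h2 : φ (c - β) = -φ (β + -c) := by rw [← map_neg]; congr 1; abel
    have h3 := hφ.2 _ hO _ hO' (by rw [h2, h, neg_zero])
    have h4 : β + -c = -(β + -c) := by rw [h3]; nth_rw 1 [← h3]; abel
    have h5 : (2 : ℂ) • (β + -c) = 0 := by
      rw [two_smul]; nth_rw 1 [h4]; abel
    have h6 : β + -c = 0 := by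
      rcases smul_eq_zero.1 h5 with h7 | h7
      · norm_num at h7
      · exact h7
    rw [← sub_eq_add_neg] at h6
    exact sub_eq_zero.1 h6
  · left; exact h

theorem st3_one {χ : Module.Dual ℂ T} (h : finrank ℂ (S.vw χ) = 1) :
    ∃ w ∈ S.vw χ, w ≠ 0 ∧ ∀ y ∈ S.vw χ, ∃ c : ℂ, y = c • w := by
  obtain ⟨⟨w, hw⟩, hw0, hs⟩ := finrank_eq_one_iff'.1 h
  refine ⟨w, hw, fun h => hw0 (Subtype.ext h), fun y hy => ?_⟩
  obtain ⟨c, hc⟩ := hs ⟨y, hy⟩
  exact ⟨c, by simpa using (congrArg Subtype.val hc).symm⟩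

theorem st3_conO {χ ψ : Module.Dual ℂ T} {x w : Module.End ℂ U} (hx : x ∈ S.vw χ)
    (hw : w ∈ S.vw ψ) (h : χ + ψ ≠ 0) (s : U) : x (w s) = -w (x s) := by
  rw [st3_con S.clif hx.1 hw.1, S.orth hx hw h, zero_smul, zero_sub]

theorem st3_nz {χ : Module.Dual ℂ T} (h : χ ∉ S.Om) {y : Module.End ℂ U} (hy : y ∈ S.vw χ) :
    y = 0 := by
  have h1 : S.vw χ = ⊥ := not_not.1 h
  rw [h1] at hy
  exact (Submodule.mem_bot ℂ).1 hy

theorem st3 (h0 : (0 : Module.Dual ℂ T) ∈ S.Om) (hd : ∀ ω ∈ S.Om, finrank ℂ (S.vw ω) = 1)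
    {φ : Module.Dual ℂ T →ₗ[ℚ] ℚ} {a b : Module.Dual ℂ T} (hq : TypeG S.R S.Om φ a b) :
    False := by
  obtain ⟨v, hv, hv0, ⟨k, hk, hvv⟩, hvs⟩ := S.st3_v0 h0 (le_of_eq (hd 0 h0))
  obtain ⟨χ, s, hs⟩ := S.exists_top φ
  obtain ⟨hgen, ⟨haO, hpa, hmin⟩, ⟨hbO, hbp, hbm⟩, ⟨hcO, hcp, hcm⟩, haΦ, hbΦ, hcΦ, hlΦ, hlO, h2O,
    hpl, hind⟩ := hq
  have hpb : 0 < φ b := hpa.trans hbp
  have hpc : 0 < φ (a + b) := hpb.trans hcp
  have hpl0 : 0 < φ (b - a) := by rw [map_sub]; linarith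
  have hne : ∀ ω : Module.Dual ℂ T, 0 < φ ω → ω ≠ 0 := fun ω h h' => by
    rw [h', map_zero] at h; exact lt_irrefl _ h
  have ha0 : a ≠ 0 := hne a hpa
  have hb0 : b ≠ 0 := hne b hpb
  have hc0 : a + b ≠ 0 := hne _ hpc
  have hba : b ≠ a := fun h => by rw [h] at hbp; exact lt_irrefl _ hbp
  have ha2 : a + a ≠ 0 := hne _ (by rw [map_add]; linarith)
  have hb2a : b ≠ a + a := by
    intro h
    apply h2O
    rw [two_smul, ← h]
    exact hbO
  -- the vectors
  obtain ⟨w1, hw1, hw10, hw1s⟩ := S.st3_one (hd _ (S.neg_mem haO))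
  obtain ⟨w2, hw2, hw20, hw2s⟩ := S.st3_one (hd _ (S.neg_mem hbO))
  obtain ⟨w3, hw3, hw30, hw3s⟩ := S.st3_one (hd _ (S.neg_mem hcO))
  obtain ⟨x1, hx1, hb1⟩ := S.dual hw1 hw10
  obtain ⟨x2, hx2, hb2⟩ := S.dual hw2 hw20
  obtain ⟨x3, hx3, hb3⟩ := S.dual hw3 hw30
  rw [neg_neg] at hx1 hx2 hx3
  rw [bil_comm] at hb1 hb2 hb3
  have x1s : x1 s = 0 := hs.kill S hpa hx1.2
  have x2s : x2 s = 0 := hs.kill S hpb hx2.2
  have x3s : x3 s = 0 := hs.kill S hpc hx3.2
  have vvs : ∀ s' : U, v (v s') = k • s' := by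
    intro s'
    have := congrArg (fun f : Module.End ℂ U => f s') hvv
    simpa using this
  have hw1w1 : w1 (w1 s) = 0 := by
    have := S.sq_zero hw1 (neg_ne_zero.2 ha0)
    have h2 := congrArg (fun f : Module.End ℂ U => f s) this
    simpa using h2
  have ew : ∀ (β : Module.Dual ℂ T) (w : Module.End ℂ U) (s' : U),
      S.e β (w s') = (S.e β * w - w * S.e β) s' + w (S.e β s') := by
    intro β w s'
    rw [LinearMap.sub_apply, Module.End.mul_apply, Module.End.mul_apply]; abel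
  have hes : ∀ β ∈ S.R.Φ, 0 < φ β → S.e β s = 0 := fun β hβ hp => hs.root S hβ hp
  have hev : ∀ β ∈ S.R.Φ, 0 < φ β → S.e β (v s) = 0 := by
    intro β hβ hp
    rw [ew, hes β hβ hp, map_zero, add_zero]
    refine hs.kill S (ω := β + 0) ?_ (S.act hβ hv).2
    rw [add_zero]; exact hp
  -- weights between
  have low : ∀ ω ∈ S.Om, 0 < φ ω → φ ω < φ (a + b) → ω = a ∨ ω = b := by
    intro ω hω hp hlt
    rcases (hmin ω hω hp).lt_or_eq with e2 | e2
    · rcases (hbm ω hω e2).lt_or_eq with e4 | e4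
      · exact absurd (hcm ω hω e4) (not_le.2 hlt)
      · exact Or.inr (hgen.2 _ hbO _ hω e4).symm
    · exact Or.inl (hgen.2 _ haO _ hω e2).symm
  -- shifts
  have sh1 : ∀ β ∈ S.R.Φ, 0 < φ β → β ≠ a →
      S.e β * w1 - w1 * S.e β = 0 ∨ 0 < φ (β + -a) := by
    intro β hβ hpβ hne1
    rcases S.st3_tri hgen hβ haO hpa hw1 hpβ with h | h | h | h
    · exact Or.inl h
    · exact Or.inr h
    · exact absurd (hmin _ h.1 h.2.1) (not_le.2 h.2.2)
    · exact absurd h hne1
  have sh2 : ∀ β ∈ S.R.Φ, 0 < φ β → β ≠ b →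
      S.e β * w2 - w2 * S.e β = 0 ∨ 0 < φ (β + -b) ∨ β = b - a := by
    intro β hβ hpβ hne1
    rcases S.st3_tri hgen hβ hbO hpb hw2 hpβ with h | h | h | h
    · exact Or.inl h
    · exact Or.inr (Or.inl h)
    · right; right
      rcases low _ h.1 h.2.1 (h.2.2.trans hcp) with h2 | h2
      · rw [← h2]; abel
      · rw [h2] at h; exact absurd h.2.2 (lt_irrefl _)
    · exact absurd h hne1
  have sh3 : ∀ β ∈ S.R.Φ, 0 < φ β → β ≠ a → β ≠ b → β ≠ a + b →
      S.e β * w3 - w3 * S.e β = 0 ∨ 0 < φ (β + -(a + b)) := by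
    intro β hβ hpβ hne1 hne2 hne3
    rcases S.st3_tri hgen hβ hcO hpc hw3 hpβ with h | h | h | h
    · exact Or.inl h
    · exact Or.inr h
    · exfalso
      rcases low _ h.1 h.2.1 h.2.2 with h2 | h2
      · apply hne2
        have : β = (a + b) - (a + b - β) := by abel
        rw [this, h2]; abel
      · apply hne1
        have : β = (a + b) - (a + b - β) := by abel
        rw [this, h2]; abel
    · exact absurd h hne3
  -- the action of the other positive root vectors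
  have kn12 : ∀ β ∈ S.R.Φ, 0 < φ β → β ≠ a → β ≠ b → β ≠ a + b → S.e β (w1 (w2 s)) = 0 := by
    intro β hβ hp hne1 hne2 hne3
    rw [ew, ew, hes β hβ hp, map_zero, add_zero]
    have t1 : w1 ((S.e β * w2 - w2 * S.e β) s) = 0 := by
      rcases sh2 β hβ hp hne2 with h | h | h
      · rw [h, LinearMap.zero_apply, map_zero]
      · rw [hs.kill S h (S.act hβ hw2).2, map_zero]
      · have hm := S.act hβ hw2
        rw [show β + -b = -a by rw [h]; abel] at hm
        obtain ⟨c, hc⟩ := hw1s _ hm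
        rw [hc, LinearMap.smul_apply, map_smul, hw1w1, smul_zero]
    rw [t1, add_zero]
    rcases sh1 β hβ hp hne1 with h | h
    · rw [h, LinearMap.zero_apply]
    · have hm := S.act hβ hw1
      have hk0 : (S.e β * w1 - w1 * S.e β) s = 0 := hs.kill S h hm.2
      rw [st3_conO S hm hw2 ?_, hk0, map_zero, neg_zero]
      intro h'
      apply hne3
      have : β + -a + -b = β - (a + b) := by abel
      rw [this] at h'
      exact sub_eq_zero.1 h'
  have kn3v : ∀ β ∈ S.R.Φ, 0 < φ β → β ≠ a → β ≠ b → β ≠ a + b → S.e β (w3 (v s)) = 0 := by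
    intro β hβ hp hne1 hne2 hne3
    rw [ew, hev β hβ hp, map_zero, add_zero]
    rcases sh3 β hβ hp hne1 hne2 hne3 with h | h
    · rw [h, LinearMap.zero_apply]
    · have hm := S.act hβ hw3
      have hk0 : (S.e β * w3 - w3 * S.e β) s = 0 := hs.kill S h hm.2
      rw [st3_conO S hm hv (by rw [add_zero]; exact hne _ h), hk0, map_zero, neg_zero]
  -- the action of `e a`
  obtain ⟨k1, hk1⟩ : ∃ c : ℂ, S.e a * w1 - w1 * S.e a = c • v := by
    have := S.act haΦ hw1
    rw [add_neg_cancel] at this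
    exact hvs _ this
  have hk2 : S.e a * w2 - w2 * S.e a = 0 := by
    refine S.st3_nz ?_ (S.act haΦ hw2)
    intro h
    apply hlO
    have := S.neg_mem h
    rwa [show -(a + -b) = b - a by abel] at this
  obtain ⟨k3, hk3⟩ : ∃ c : ℂ, S.e a * w3 - w3 * S.e a = c • w2 := by
    have := S.act haΦ hw3
    rw [show a + -(a + b) = -b by abel] at this
    exact hw2s _ this
  have ea12 : S.e a (w1 (w2 s)) = (-k1) • w2 (v s) := by
    rw [ew, ew, hes a haΦ hpa, map_zero, add_zero, hk1, hk2, LinearMap.zero_apply, map_zero,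
      add_zero, LinearMap.smul_apply, neg_smul, ← smul_neg]
    congr 1
    exact st3_conO S hv hw2 (by rw [zero_add]; exact neg_ne_zero.2 hb0) s
  have ea3v : S.e a (w3 (v s)) = k3 • w2 (v s) := by
    rw [ew, hev a haΦ hpa, map_zero, add_zero, hk3, LinearMap.smul_apply]
  -- the combination
  obtain ⟨X, Y, hXY, hXY0⟩ : ∃ X Y : ℂ, -(X * k1) + Y * k3 = 0 ∧ ¬(X = 0 ∧ Y = 0) := by
    by_cases h : k3 = 0
    · by_cases h' : k1 = 0
      · exact ⟨1, 0, by rw [h']; ring, fun h2 => one_ne_zero h2.1⟩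
      · exact ⟨0, 1, by rw [h]; ring, fun h2 => one_ne_zero h2.2⟩
    · exact ⟨k3, k1, by ring, fun h2 => h h2.1⟩
  obtain ⟨u, hu'⟩ : ∃ u : U, u = X • w1 (w2 s) + Y • w3 (v s) := ⟨_, rfl⟩
  have hua : S.e a u = 0 := by
    rw [hu', map_add, map_smul, map_smul, ea12, ea3v, smul_smul, smul_smul, ← add_smul]
    rw [show X * -k1 + Y * k3 = 0 by rw [← hXY]; ring, zero_smul]
  have huo : ∀ β ∈ S.R.Φ, 0 < φ β → β ≠ a → β ≠ b → β ≠ a + b → S.e β u = 0 := by
    intro β hβ hp h1 h2 h3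
    rw [hu', map_add, map_smul, map_smul, kn12 β hβ hp h1 h2 h3, kn3v β hβ hp h1 h2 h3,
      smul_zero, smul_zero, add_zero]
  have hul : S.e (b - a) u = 0 := by
    refine huo _ hlΦ hpl0 ?_ ?_ ?_
    · intro h; exact hb2a (by rw [← sub_eq_iff_eq_add]; exact h)
    · intro h; exact ha0 (by simpa using h)
    · intro h
      apply ha2
      have : b - a + a = a + b + a := by rw [h]
      rw [sub_add_cancel] at this
      have h2 : a + b + a = (a + a) + b := by abel
      rw [h2] at this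
      exact (left_eq_add.1 (by rw [add_comm] at this; exact this))
  -- `e b u = 0`
  have act2 : ∀ (α β : Module.Dual ℂ T) (w : Module.End ℂ U), S.e α * S.e β = S.e β * S.e α →
      S.e α * w - w * S.e α = 0 →
      S.e α * (S.e β * w - w * S.e β) - (S.e β * w - w * S.e β) * S.e α = 0 := by
    intro α β w h1 h2
    have h3 : S.e α * (S.e β * w - w * S.e β) - (S.e β * w - w * S.e β) * S.e α
        = (S.e α * S.e β - S.e β * S.e α) * w - w * (S.e α * S.e β - S.e β * S.e α)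
          + S.e β * (S.e α * w - w * S.e α) - (S.e α * w - w * S.e α) * S.e β := by
      noncomm_ring
    rw [h3, h2, h1]; simp
  have hub : S.e b u = 0 := by
    obtain ⟨c, hc⟩ := S.add1 a haΦ (b - a) hlΦ (by rw [add_sub_cancel]; exact hbΦ)
    rw [add_sub_cancel] at hc
    have hc0 : c ≠ 0 := by
      intro h
      rw [h, zero_smul] at hc
      have h1 := act2 a (b - a) w2 (sub_eq_zero.1 hc) hk2
      have h2 : S.e (b - a) * w2 - w2 * S.e (b - a) ≠ 0 := by
        refine S.inj hlΦ hw2 hw20 ?_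
        rw [map_neg]; linarith
      have h3 := S.act hlΦ hw2
      rw [show b - a + -b = -a by abel] at h3
      refine S.inj haΦ h3 h2 ?_ h1
      rw [map_neg, S.R.two a haΦ]; norm_num
    have h4 : c • (S.e b u) = 0 := by
      have := congrArg (fun f : Module.End ℂ U => f u) hc
      simp only [LinearMap.sub_apply, Module.End.mul_apply, LinearMap.smul_apply] at this
      rw [← this, hua, hul, map_zero, map_zero, sub_zero]
    exact (smul_eq_zero.1 h4).resolve_left hc0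
  have h3a : (3 : ℚ) • a ∉ S.Om := by
    intro h
    apply h2O
    have h1 := S.wts'.str a haΦ _ h 1 (by
      rw [map_smul, S.R.two a haΦ]; norm_num)
    rwa [show (3 : ℚ) • a - ((1 : ℕ) : ℚ) • a = (2 : ℚ) • a by
      rw [← sub_smul]; norm_num] at h1
  have huc : S.e (a + b) u = 0 := by
    obtain ⟨c, hc⟩ := S.add1 a haΦ b hbΦ hcΦ
    have hc0 : c ≠ 0 := by
      intro h
      rw [h, zero_smul] at hc
      have h1 := act2 a b w2 (sub_eq_zero.1 hc) hk2
      have h2 : S.e b * w2 - w2 * S.e b ≠ 0 := by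
        refine S.inj hbΦ hw2 hw20 ?_
        rw [map_neg, S.R.two b hbΦ]; norm_num
      have h3 := S.act hbΦ hw2
      rw [add_neg_cancel] at h3
      obtain ⟨q, hq, hq2⟩ := S.cas hd haΦ haO h3a h3 h2
      rw [h1, mul_zero, zero_mul, sub_zero] at hq2
      rcases smul_eq_zero.1 hq2.symm with h5 | h5
      · rcases hq with h6 | h6 <;> · rw [h5] at h6; norm_num at h6
      · exact h2 h5
    have h4 : c • (S.e (a + b) u) = 0 := by
      have := congrArg (fun f : Module.End ℂ U => f u) hc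
      simp only [LinearMap.sub_apply, Module.End.mul_apply, LinearMap.smul_apply] at this
      rw [← this, hua, hub, map_zero, map_zero, sub_zero]
    exact (smul_eq_zero.1 h4).resolve_left hc0
  have hkill : ∀ β ∈ S.R.Φ, 0 < φ β → S.e β u = 0 := by
    intro β hβ hp
    by_cases h1 : β = a
    · rw [h1]; exact hua
    by_cases h2 : β = b
    · rw [h2]; exact hub
    by_cases h3 : β = a + b
    · rw [h3]; exact huc
    exact huo β hβ hp h1 h2 h3
  have hu : u ∈ usp S.ι (-(a + b) + χ) := by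
    rw [hu']
    refine Submodule.add_mem _ (Submodule.smul_mem _ _ ?_) (Submodule.smul_mem _ _ ?_)
    · have := S.usp_mul hw1.2 (S.usp_mul hw2.2 hs.mem)
      rwa [show -a + (-b + χ) = -(a + b) + χ by abel] at this
    · have := S.usp_mul hw3.2 (S.usp_mul hv.2 hs.mem)
      rwa [zero_add] at this
  have hX : X = 0 := by
    have h5 := S.pr1 hgen.1 hu hkill (S.gen x2 hx2.1 x1 hx1.1) (S.st3_mulw hx2.2 hx1.2)
      (by rw [map_add]; linarith)
    have e1 : x1 (w1 (w2 s)) = w2 s := by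
      rw [st3_con S.clif hx1.1 hw1.1, hb1, one_smul, st3_conO S hx1 hw2 ?_, x1s, map_zero,
        neg_zero, map_zero, sub_zero]
      rw [← sub_eq_add_neg]
      exact sub_ne_zero.2 hba.symm
    have e2 : x2 (w2 s) = s := by
      rw [st3_con S.clif hx2.1 hw2.1, hb2, one_smul, x2s, map_zero, sub_zero]
    have e3 : x1 (w3 (v s)) = 0 := by
      rw [st3_conO S hx1 hw3 ?_, st3_conO S hx1 hv (by rwa [add_zero]), x1s, map_zero, neg_zero,
        map_zero, neg_zero]
      rw [show a + -(a + b) = -b by abel]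
      exact neg_ne_zero.2 hb0
    rw [hu', map_add, map_smul, map_smul, Module.End.mul_apply, Module.End.mul_apply, e1, e2, e3,
      map_zero, smul_zero, add_zero] at h5
    rcases smul_eq_zero.1 h5 with h6 | h6
    · exact h6
    · exact absurd h6 hs.ne
  have hY : Y = 0 := by
    have h5 := S.pr1 hgen.1 hu hkill (S.gen v hv.1 x3 hx3.1) (S.st3_mulw hv.2 hx3.2)
      (by rw [zero_add]; exact hpc)
    have e1 : x3 (w3 (v s)) = v s := by
      rw [st3_con S.clif hx3.1 hw3.1, hb3, one_smul, st3_conO S hx3 hv ?_, x3s, map_zero,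
        neg_zero, map_zero, sub_zero]
      rw [add_zero]; exact hc0
    have e3 : x3 (w1 (w2 s)) = 0 := by
      rw [st3_conO S hx3 hw1 ?_, st3_conO S hx3 hw2 ?_, x3s, map_zero, neg_zero,
        map_zero, neg_zero]
      · rw [show a + b + -b = a by abel]
        exact ha0
      · rw [show a + b + -a = b by abel]
        exact hb0
    rw [hu', map_add, map_smul, map_smul, Module.End.mul_apply, Module.End.mul_apply, e1, e3,
      map_zero, smul_zero, zero_add, vvs, smul_smul] at h5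
    rcases smul_eq_zero.1 h5 with h6 | h6
    · rcases mul_eq_zero.1 h6 with h7 | h7
      · exact h7
      · exact absurd h7 hk
    · exact absurd h6 hs.ne
  exact hXY0 ⟨hX, hY⟩

end Sys

end Pool.Agent.Y102.SP
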