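import Pool.Agent.Y102.SP.Dim
import Pool.Agent.Y102.SP.SE3
import Pool.Agent.Y102.SP.ST2
import Pool.Agent.Y102.SP.ST3
import Pool.Agent.Y102.SP.CombE
import Pool.Agent.Y102.SP.CombO

set_option autoImplicit false

open Module

namespace Pool.Agent.Y102.SP

variable {U : Type} [AddCommGroup U] [Module ℂ U] [FiniteDimensional ℂ U] [Nontrivial U]
  {T : Type} [AddCommGroup T] [Module ℂ T] {V 𝔥 : Submodule ℂ (Module.End ℂ U)} (S : Sys V 𝔥 T)

namespace Sys

include S in
omit [FiniteDimensional ℂ U] [Nontrivial U] in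
/-- The space `𝔥` is closed under commutators. -/
theorem fin_brk {x y : Module.End ℂ U} (hx : x ∈ 𝔥) (hy : y ∈ 𝔥) : x * y - y * x ∈ 𝔥 := by
  have hsp : 𝔥 ≤ Submodule.span ℂ (Set.range S.ι ∪ S.e '' S.R.Φ) := by
    refine S.span.trans (sup_le ?_ (Submodule.span_mono Set.subset_union_right))
    rintro _ ⟨t, rfl⟩
    exact Submodule.subset_span (Or.inl ⟨t, rfl⟩)
  have base : ∀ x ∈ Set.range S.ι ∪ S.e '' S.R.Φ, ∀ y ∈ Set.range S.ι ∪ S.e '' S.R.Φ,
      x * y - y * x ∈ 𝔥 := by
    rintro x (⟨s, rfl⟩ | ⟨α, hα, rfl⟩) y (⟨t, rfl⟩ | ⟨β, hβ, rfl⟩)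
    · rw [S.comm s t, sub_self]; exact zero_mem _
    · rw [S.wt β hβ s]; exact 𝔥.smul_mem _ (S.emem β hβ)
    · rw [← neg_sub, S.wt α hα t]; exact 𝔥.neg_mem (𝔥.smul_mem _ (S.emem α hα))
    · by_cases h0 : α + β = 0
      · have hb : β = -α := (neg_eq_of_add_eq_zero_right h0).symm
        rw [hb, S.br α hα]
        exact S.ιmem _
      · by_cases h1 : α + β ∈ S.R.Φ
        · obtain ⟨c, hc⟩ := S.add1 α hα β hβ h1
          rw [hc]
          exact 𝔥.smul_mem _ (S.emem _ h1)
        · rw [S.add0 α hα β hβ h0 h1, sub_self]; exact zero_mem _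
  have step : ∀ x ∈ Set.range S.ι ∪ S.e '' S.R.Φ, ∀ y ∈ Submodule.span ℂ
      (Set.range S.ι ∪ S.e '' S.R.Φ), x * y - y * x ∈ 𝔥 := by
    intro x hx y hy
    induction hy using Submodule.span_induction with
    | mem y hy => exact base x hx y hy
    | zero => simp
    | add y z _ _ h1 h2 =>
      have : x * (y + z) - (y + z) * x = (x * y - y * x) + (x * z - z * x) := by
        rw [mul_add, add_mul]; abel
      rw [this]; exact 𝔥.add_mem h1 h2
    | smul c y _ h1 =>
      rw [mul_smul_comm, smul_mul_assoc, ← smul_sub]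
      exact 𝔥.smul_mem _ h1
  have hy' := hsp hy
  have hx' := hsp hx
  clear hx hy
  induction hx' using Submodule.span_induction with
  | mem x hx => exact step x hx y hy'
  | zero => simp
  | add x z _ _ h1 h2 =>
    have : (x + z) * y - y * (x + z) = (x * y - y * x) + (z * y - y * z) := by
      rw [mul_add, add_mul]; abel
    rw [this]; exact 𝔥.add_mem h1 h2
  | smul c x _ h1 =>
    rw [mul_smul_comm, smul_mul_assoc, ← smul_sub]
    exact 𝔥.smul_mem _ h1

include S in
omit [FiniteDimensional ℂ U] [Nontrivial U] in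
/-- It is enough to consider weight vectors. -/
theorem fin_of_wt (H : ∀ a b, ∀ x ∈ S.vw a, ∀ y ∈ S.vw b, x * y - y * x ∈ 𝔥) :
    ∀ v ∈ V, ∀ w ∈ V, v * w - w * v ∈ 𝔥 := by
  intro v hv w hw
  have hv' := S.vspan hv
  have hw' := S.vspan hw
  refine Submodule.iSup_induction (fun χ => V ⊓ wsp S.ι χ)
    (motive := fun v => v * w - w * v ∈ 𝔥) hv' ?_ ?_ ?_
  · intro a x hx
    refine Submodule.iSup_induction (fun χ => V ⊓ wsp S.ι χ)
      (motive := fun w => x * w - w * x ∈ 𝔥) hw' ?_ ?_ ?_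
    · intro b y hy
      exact H a b x hx y hy
    · simp
    · intro y z h1 h2
      have : x * (y + z) - (y + z) * x = (x * y - y * x) + (x * z - z * x) := by
        rw [mul_add, add_mul]; abel
      rw [this]; exact 𝔥.add_mem h1 h2
  · simp
  · intro x z h1 h2
    have : (x + z) * w - w * (x + z) = (x * w - w * x) + (z * w - w * z) := by
      rw [mul_add, add_mul]; abel
    rw [this]; exact 𝔥.add_mem h1 h2

omit [FiniteDimensional ℂ U] [Nontrivial U] in
theorem fin_mem_Om {a : Module.Dual ℂ T} {x : Module.End ℂ U} (hx : x ∈ S.vw a) (hx0 : x ≠ 0) :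
    a ∈ S.Om := by
  intro h
  rw [h, Submodule.mem_bot] at hx
  exact hx0 hx

/-- All vectors of a weight are proportional. -/
theorem fin_one {a : Module.Dual ℂ T} {x y : Module.End ℂ U} (hx : x ∈ S.vw a) (hx0 : x ≠ 0)
    (hy : y ∈ S.vw a) : ∃ c : ℂ, y = c • x := by
  have h1 := S.dim_one (S.fin_mem_Om hx hx0)
  have hne : (⟨x, hx⟩ : S.vw a) ≠ 0 := fun h => hx0 (congrArg Subtype.val h)
  obtain ⟨c, hc⟩ := (finrank_eq_one_iff_of_nonzero' (⟨x, hx⟩ : S.vw a) hne).mp h1 ⟨y, hy⟩
  exact ⟨c, (congrArg Subtype.val hc).symm⟩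

/-- If `a + b` is a root which has only one decomposition, the products are in `𝔥`. -/
theorem fin_prod {a b : Module.Dual ℂ T} {x y : Module.End ℂ U} (hx : x ∈ S.vw a)
    (hy : y ∈ S.vw b) (hab : a + b ∈ S.R.Φ)
    (hu : ∀ c ∈ S.Om, ∀ d ∈ S.Om, c + d = a + b → (c = a ∧ d = b) ∨ (c = b ∧ d = a)) :
    x * y ∈ 𝔥 := by
  have h0 : a + b ≠ 0 := fun h => S.R.zero (h ▸ hab)
  by_cases hx0 : x = 0
  · rw [hx0, zero_mul]; exact zero_mem _
  by_cases hy0 : y = 0
  · rw [hy0, mul_zero]; exact zero_mem _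
  have hsp := S.so_wt h0 (S.emem _ hab) (fun t => S.wt _ hab t)
  have hle : Submodule.span ℂ {z | ∃ c d, c + d = a + b ∧ ∃ v ∈ S.vw c, ∃ w ∈ S.vw d,
      z = v * w} ≤ Submodule.span ℂ {x * y} := by
    rw [Submodule.span_le]
    rintro z ⟨c, d, hcd, v, hv, w, hw, rfl⟩
    rw [SetLike.mem_coe]
    by_cases hv0 : v = 0
    · rw [hv0, zero_mul]; exact zero_mem _
    by_cases hw0 : w = 0
    · rw [hw0, mul_zero]; exact zero_mem _
    rcases hu c (S.fin_mem_Om hv hv0) d (S.fin_mem_Om hw hw0) hcd with ⟨rfl, rfl⟩ | ⟨rfl, rfl⟩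
    · obtain ⟨s, rfl⟩ := S.fin_one hx hx0 hv
      obtain ⟨t, rfl⟩ := S.fin_one hy hy0 hw
      rw [smul_mul_assoc, mul_smul_comm]
      exact Submodule.smul_mem _ _ (Submodule.smul_mem _ _ (Submodule.mem_span_singleton_self _))
    · obtain ⟨s, rfl⟩ := S.fin_one hy hy0 hv
      obtain ⟨t, rfl⟩ := S.fin_one hx hx0 hw
      rw [smul_mul_assoc, mul_smul_comm]
      refine Submodule.smul_mem _ _ (Submodule.smul_mem _ _ ?_)
      have := S.anti hx hy h0
      have h2 : y * x = -(x * y) := by rw [this, neg_neg]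
      rw [h2]
      exact Submodule.neg_mem _ (Submodule.mem_span_singleton_self _)
  obtain ⟨k, hk⟩ := Submodule.mem_span_singleton.mp (hle hsp)
  have hk0 : k ≠ 0 := by
    rintro rfl
    rw [zero_smul] at hk
    exact S.ene _ hab hk.symm
  have : x * y = k⁻¹ • S.e (a + b) := by
    rw [← hk, smul_smul, inv_mul_cancel₀ hk0, one_smul]
  rw [this]
  exact 𝔥.smul_mem _ (S.emem _ hab)

theorem fin_even (hn : 6 ≤ finrank ℂ V) (h0 : (0 : Module.Dual ℂ T) ∉ S.Om) :
    ∀ a b, ∀ x ∈ S.vw a, ∀ y ∈ S.vw b, x * y - y * x ∈ 𝔥 := by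
  have hd : ∀ ω ∈ S.Om, finrank ℂ (S.vw ω) = 1 := fun ω hω => S.dim_one hω
  have P : ∀ a ∈ S.Om, ∀ b ∈ S.Om, b ≠ a → b ≠ -a → ∀ x ∈ S.vw a, ∀ y ∈ S.vw b, x * y ∈ 𝔥 := by
    intro a ha b hb h1 h2 x hx y hy
    obtain ⟨h3, h4⟩ := comb_even S.wts' h0 (S.two_not h0)
      (fun φ hg a b ha hb => S.se2 h0 hg ha hb) (fun φ a b c d hq => S.se3 h0 hd hq)
      ha hb h1 h2
    exact S.fin_prod hx hy h3 h4
  intro a b x hx y hy
  by_cases hx0 : x = 0
  · rw [hx0, zero_mul, mul_zero, sub_zero]; exact zero_mem _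
  by_cases hy0 : y = 0
  · rw [hy0, zero_mul, mul_zero, sub_zero]; exact zero_mem _
  have haO := S.fin_mem_Om hx hx0
  have hbO := S.fin_mem_Om hy hy0
  by_cases h1 : b = a
  · subst h1
    obtain ⟨c, rfl⟩ := S.fin_one hx hx0 hy
    rw [mul_smul_comm, smul_mul_assoc, sub_self]; exact zero_mem _
  by_cases h2 : b = -a
  · subst h2
    have hex : ∃ b ∈ S.Om, b ≠ a ∧ b ≠ -a := by
      by_contra hcon
      push Not at hcon
      classical
      have hsub : S.Om ⊆ (({a, -a} : Finset (Module.Dual ℂ T)) : Set (Module.Dual ℂ T)) := by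
        intro b hb
        by_cases h : b = a
        · simp [h]
        · simp [hcon b hb h]
      have := S.finrank_V_le _ hsub
      have hc : ({a, -a} : Finset (Module.Dual ℂ T)).card ≤ 2 := Finset.card_le_two
      omega
    obtain ⟨b, hb, hba, hba'⟩ := hex
    obtain ⟨p, hp, hp0⟩ := Submodule.exists_mem_ne_zero_of_ne_bot hb
    obtain ⟨q, hq, hpq⟩ := S.dual hp hp0
    have hnb : -b ∈ S.Om := S.neg_mem hb
    have hna : -a ∈ S.Om := S.neg_mem haO
    have e1 : p * q + q * p = 1 := by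
      have := S.clif.anti p hp.1 q hq.1
      rw [hpq, one_smul] at this
      exact this
    have ne1 : a + b ≠ 0 := fun h => hba' (neg_eq_of_add_eq_zero_right h).symm
    have ne2 : a + -b ≠ 0 := fun h => hba (add_neg_eq_zero.mp h).symm
    have ne3 : -a + b ≠ 0 := fun h => hba (neg_add_eq_zero.mp h).symm
    have ne4 : -a + -b ≠ 0 := fun h => hba' (by
      have : a = -b := by
        have h5 := neg_add_eq_zero.mp h
        exact h5
      rw [this, neg_neg])
    have r1 : x * p = -(p * x) := S.anti hx hp ne1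
    have r2 : x * q = -(q * x) := S.anti hx hq ne2
    have r3 : y * p = -(p * y) := S.anti hy hp ne3
    have r4 : y * q = -(q * y) := S.anti hy hq ne4
    have m1 : x * p ∈ 𝔥 := P a haO b hb hba hba' x hx p hp
    have m2 : q * y ∈ 𝔥 := P (-b) hnb (-a) hna (fun h => hba (neg_injective h).symm)
      (fun h => hba' (by rw [h, neg_neg])) q hq y hy
    have m3 : x * q ∈ 𝔥 := P a haO (-b) hnb (fun h => hba' (by rw [← h, neg_neg]))
      (fun h => hba (neg_injective h)) x hx q hq
    have m4 : p * y ∈ 𝔥 := P b hb (-a) hna (fun h => hba' h.symm)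
      (fun h => hba (neg_injective h).symm) p hp y hy
    have id1 : x * y - y * x = (x * p * (q * y) - q * y * (x * p)) +
        (x * q * (p * y) - p * y * (x * q)) := by
      have t1 : x * p * (q * y) + x * q * (p * y) = x * y := by
        calc x * p * (q * y) + x * q * (p * y) = x * (p * q + q * p) * y := by noncomm_ring
          _ = x * y := by rw [e1, mul_one]
      have t2 : q * y * (x * p) = q * p * (y * x) := by
        rw [r1]
        calc q * y * -(p * x) = -(q * (y * p) * x) := by noncomm_ring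
          _ = q * p * (y * x) := by rw [r3]; noncomm_ring
      have t3 : p * y * (x * q) = p * q * (y * x) := by
        rw [r2]
        calc p * y * -(q * x) = -(p * (y * q) * x) := by noncomm_ring
          _ = p * q * (y * x) := by rw [r4]; noncomm_ring
      have t4 : q * p * (y * x) + p * q * (y * x) = y * x := by
        rw [← add_mul, add_comm (q * p), e1, one_mul]
      rw [t2, t3]
      calc x * y - y * x = (x * p * (q * y) + x * q * (p * y)) -
            (q * p * (y * x) + p * q * (y * x)) := by rw [t1, t4]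
        _ = _ := by abel
    rw [id1]
    exact 𝔥.add_mem (S.fin_brk m1 m2) (S.fin_brk m3 m4)
  · have h3 := P a haO b hbO h1 h2 x hx y hy
    have h4 := P b hbO a haO (Ne.symm h1) (fun h => h2 (by rw [h, neg_neg])) y hy x hx
    exact 𝔥.sub_mem h3 h4

theorem fin_hex (hn : 6 ≤ finrank ℂ V) (h0 : (0 : Module.Dual ℂ T) ∈ S.Om) :
    ∀ a ∈ S.Om, ∃ b ∈ S.Om, ∀ q : ℚ, b ≠ q • a := by
  have hd : ∀ ω ∈ S.Om, finrank ℂ (S.vw ω) = 1 := fun ω hω => S.dim_one hω
  have H1 : ∀ φ : Module.Dual ℂ T →ₗ[ℚ] ℚ, Gen S.R S.Om φ → ∀ a, First S.Om φ a → a ∈ S.R.Φ :=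
    fun φ hg a ha => (S.st1 h0 hg ha).1
  have H2 : ∀ (φ : Module.Dual ℂ T →ₗ[ℚ] ℚ) a, Line3 S.R S.Om φ a → False :=
    fun φ a hq => S.st2 h0 hd hq
  intro a ha
  by_contra hcon
  push Not at hcon
  classical
  by_cases ha0 : a = 0
  · have hsub : S.Om ⊆ (({0} : Finset (Module.Dual ℂ T)) : Set (Module.Dual ℂ T)) := by
      intro b hb
      obtain ⟨q, hq⟩ := hcon b hb
      rw [ha0, smul_zero] at hq
      simp [hq]
    have := S.finrank_V_le _ hsub
    rw [Finset.card_singleton] at this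
    omega
  · obtain ⟨φ, a', r, hg, hf, hr, hr1, har⟩ := line_odd S.wts' H1 ha ha0
    have hsub : S.Om ⊆ (({0, a', -a', (2 : ℚ) • a', -((2 : ℚ) • a')} :
        Finset (Module.Dual ℂ T)) : Set (Module.Dual ℂ T)) := by
      intro b hb
      by_cases hb0 : b = 0
      · simp [hb0]
      obtain ⟨φ', a'', s, hg', hf', hr', hs1, hbs⟩ := line_odd S.wts' H1 hb hb0
      obtain ⟨q, hq⟩ := hcon a'' hf'.1
      have h1 : a'' = (q * r) • a' := by rw [hq, har, smul_smul]
      have h2 : (q * r : ℚ) = 1 ∨ (q * r : ℚ) = -1 := S.R.red a' hr _ (h1 ▸ hr')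
      have h3 : a'' = a' ∨ a'' = -a' := by
        rcases h2 with h2 | h2
        · left; rw [h1, h2, one_smul]
        · right; rw [h1, h2, neg_smul, one_smul]
      have hs3 : s < 3 := by
        by_contra hs
        push Not at hs
        refine no_three S.wts' H1 H2 hr' ?_
        have h4 := S.wts'.str a'' hr' b hb (s - 3) (by
          rw [hbs, map_smul, S.R.two a'' hr', smul_eq_mul]
          have : ((s - 3 : ℕ) : ℚ) ≤ s := by
            exact_mod_cast Nat.sub_le s 3
          have h5 : (0 : ℚ) ≤ s := Nat.cast_nonneg s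
          linarith)
        have h5 : b - ((s - 3 : ℕ) : ℚ) • a'' = (3 : ℚ) • a'' := by
          rw [hbs, ← sub_smul, Nat.cast_sub hs]
          congr 1
          push_cast
          ring
        rwa [h5] at h4
      have hs : s = 1 ∨ s = 2 := by omega
      rcases hs with rfl | rfl <;> rcases h3 with h3 | h3 <;> rw [hbs, h3] <;> simp
    have := S.finrank_V_le _ hsub
    have hc : ({0, a', -a', (2 : ℚ) • a', -((2 : ℚ) • a')} :
        Finset (Module.Dual ℂ T)).card ≤ 5 := Finset.card_le_five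
    omega

theorem fin_odd (hn : 6 ≤ finrank ℂ V) (h0 : (0 : Module.Dual ℂ T) ∈ S.Om) :
    ∀ a b, ∀ x ∈ S.vw a, ∀ y ∈ S.vw b, x * y - y * x ∈ 𝔥 := by
  have hd : ∀ ω ∈ S.Om, finrank ℂ (S.vw ω) = 1 := fun ω hω => S.dim_one hω
  have C : ∀ a ∈ S.Om, a ≠ 0 → a ∈ S.R.Φ ∧ ∀ c ∈ S.Om, ∀ d ∈ S.Om, c + d = a →
      (c = a ∧ d = 0) ∨ (c = 0 ∧ d = a) := fun a ha ha0 =>
    comb_odd S.wts' h0 (S.fin_hex hn h0) (fun φ hg a ha => (S.st1 h0 hg ha).1)
      (fun φ a hq => S.st2 h0 hd hq) (fun φ a b hq => S.st3 h0 hd hq)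
      (fun a ha b hb haO hbO hab hp h1 h2 h3 h4 => S.a1 h0 hd ha hb haO hbO hab hp h1 h2 h3 h4)
      (fun a ha b hb haO hbO hp h2 h3 h4 => S.a2 h0 hd ha hb haO hbO hp h2 h3 h4) ha ha0
  obtain ⟨v, hv, hv0⟩ := Submodule.exists_mem_ne_zero_of_ne_bot h0
  change v ∈ S.vw 0 at hv
  have P : ∀ a, a ≠ 0 → ∀ x ∈ S.vw a, x * v ∈ 𝔥 := by
    intro a ha0 x hx
    by_cases hx0 : x = 0
    · rw [hx0, zero_mul]; exact zero_mem _
    have haO := S.fin_mem_Om hx hx0
    obtain ⟨h3, h4⟩ := C a haO ha0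
    refine S.fin_prod hx hv (by rw [add_zero]; exact h3) ?_
    intro c hc d hd hcd
    rw [add_zero] at hcd
    exact h4 c hc d hd hcd
  have A : ∀ a, a ≠ 0 → ∀ x ∈ S.vw a, v * x = -(x * v) := by
    intro a ha0 x hx
    have := S.anti hx hv (by rw [add_zero]; exact ha0)
    rw [this, neg_neg]
  have hk : ∃ k : ℂ, k ≠ 0 ∧ v * v = k • (1 : Module.End ℂ U) := by
    obtain ⟨y, hy, hby⟩ := S.dual hv hv0
    rw [neg_zero] at hy
    obtain ⟨c, rfl⟩ := S.fin_one hv hv0 hy
    have h1 := S.clif.anti v hv.1 (c • v) hy.1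
    rw [hby, one_smul, mul_smul_comm, smul_mul_assoc, ← add_smul] at h1
    have hc : c + c ≠ 0 := by
      intro hc
      rw [hc, zero_smul] at h1
      exact zero_ne_one h1
    refine ⟨(c + c)⁻¹, inv_ne_zero hc, ?_⟩
    rw [← h1, smul_smul, inv_mul_cancel₀ hc, one_smul]
  obtain ⟨k, hk0, hvv⟩ := hk
  intro a b x hx y hy
  by_cases ha0 : a = 0
  · subst ha0
    obtain ⟨c, rfl⟩ := S.fin_one hv hv0 hx
    by_cases hb0 : b = 0
    · subst hb0
      obtain ⟨d, rfl⟩ := S.fin_one hv hv0 hy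
      have : c • v * d • v - d • v * c • v = 0 := by
        rw [smul_mul_assoc, mul_smul_comm, smul_mul_assoc, mul_smul_comm, smul_comm, sub_self]
      rw [this]
      exact zero_mem _
    · have h1 := P b hb0 y hy
      have h2 := A b hb0 y hy
      have h3 : c • v * y - y * c • v = (-2 * c) • (y * v) := by
        rw [smul_mul_assoc, mul_smul_comm, h2, smul_neg]
        module
      rw [h3]
      exact 𝔥.smul_mem _ h1
  · by_cases hb0 : b = 0
    · subst hb0
      obtain ⟨c, rfl⟩ := S.fin_one hv hv0 hy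
      have h1 := P a ha0 x hx
      have h2 := A a ha0 x hx
      have h3 : x * c • v - c • v * x = (2 * c) • (x * v) := by
        rw [smul_mul_assoc, mul_smul_comm, h2, smul_neg]
        module
      rw [h3]
      exact 𝔥.smul_mem _ h1
    · have h1 := P a ha0 x hx
      have h2 := P b hb0 y hy
      have h3 := A a ha0 x hx
      have h4 := A b hb0 y hy
      have t1 : x * v * (y * v) = -(k • (x * y)) := by
        calc x * v * (y * v) = x * (v * y) * v := by noncomm_ring
          _ = -(x * y * (v * v)) := by rw [h4]; noncomm_ring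
          _ = -(k • (x * y)) := by rw [hvv, mul_smul_comm, mul_one]
      have t2 : y * v * (x * v) = -(k • (y * x)) := by
        calc y * v * (x * v) = y * (v * x) * v := by noncomm_ring
          _ = -(y * x * (v * v)) := by rw [h3]; noncomm_ring
          _ = -(k • (y * x)) := by rw [hvv, mul_smul_comm, mul_one]
      have h5 := S.fin_brk h1 h2
      have h6 : x * y - y * x = (-k⁻¹) • (x * v * (y * v) - y * v * (x * v)) := by
        rw [t1, t2]
        have : -(k • (x * y)) - -(k • (y * x)) = (-k) • (x * y - y * x) := by module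
        rw [this, smul_smul, neg_mul_neg, inv_mul_cancel₀ hk0, one_smul]
      rw [h6]
      exact 𝔥.smul_mem _ h5

include S in
/-- If `V` has dimension at least six, then `𝔥` is the whole Lie algebra. -/
theorem full (hn : 6 ≤ finrank ℂ V) : ∀ v ∈ V, ∀ w ∈ V, v * w - w * v ∈ 𝔥 := by
  apply S.fin_of_wt
  by_cases h0 : (0 : Module.Dual ℂ T) ∈ S.Om
  · exact S.fin_odd hn h0
  · exact S.fin_even hn h0

end Sys

end Pool.Agent.Y102.SP
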