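import Pool.Agent.Y102.SP.Kil
import Pool.Agent.Y102.SP.Fin

set_option autoImplicit false

open Module

namespace Pool.Agent.Y102.SP

variable {U : Type} [AddCommGroup U] [Module ℂ U] [FiniteDimensional ℂ U] [Nontrivial U]

theorem main_irred {n : ℕ} (hn : 6 ≤ n) {E : Fin n → Module.End ℂ U} (hE : CE E)
    (irr : ∀ P : Submodule ℂ U, (∀ i, ∀ u ∈ P, E i u ∈ P) → P = ⊥ ∨ P = ⊤)
    (𝔥 : Submodule ℂ (Module.End ℂ U)) (h𝔥 : 𝔥 ≤ soE E)
    (hbr : ∀ x ∈ 𝔥, ∀ y ∈ 𝔥, x * y - y * x ∈ 𝔥)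
    (gen : ∀ i j, E i * E j ∈ Algebra.adjoin ℂ (𝔥 : Set (Module.End ℂ U))) :
    soE E ≤ 𝔥 := by
  obtain ⟨T, i1, i2, ⟨S⟩⟩ := exists_sys (by omega) hE irr 𝔥 h𝔥 hbr gen
  rw [soE_eq hE, Submodule.span_le]
  rintro x ⟨v, hv, w, hw, rfl⟩
  exact S.full (by rw [hE.finrank]; exact hn) v hv w hw

section Main_aux

variable {P : Submodule ℂ U}

/-- `y` is the restriction of `x` to `P`. -/
def Main_Res (P : Submodule ℂ U) (x : Module.End ℂ U) (y : Module.End ℂ P) : Prop :=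
  ∀ u : P, ((y u : P) : U) = x u

omit [FiniteDimensional ℂ U] [Nontrivial U] in
theorem Main_Res.unique {x : Module.End ℂ U} {y y' : Module.End ℂ P} (h : Main_Res P x y)
    (h' : Main_Res P x y') : y = y' := by
  refine LinearMap.ext fun u => Subtype.ext ?_
  rw [h u, h' u]

omit [FiniteDimensional ℂ U] [Nontrivial U] in
theorem Main_Res.mul {x x' : Module.End ℂ U} {y y' : Module.End ℂ P} (h : Main_Res P x y)
    (h' : Main_Res P x' y') : Main_Res P (x * x') (y * y') := fun u => by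
  rw [Module.End.mul_apply, Module.End.mul_apply, h, h']

omit [FiniteDimensional ℂ U] [Nontrivial U] in
theorem Main_Res.add {x x' : Module.End ℂ U} {y y' : Module.End ℂ P} (h : Main_Res P x y)
    (h' : Main_Res P x' y') : Main_Res P (x + x') (y + y') := fun u => by
  rw [LinearMap.add_apply, LinearMap.add_apply, Submodule.coe_add, h, h']

omit [FiniteDimensional ℂ U] [Nontrivial U] in
theorem Main_Res.sub {x x' : Module.End ℂ U} {y y' : Module.End ℂ P} (h : Main_Res P x y)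
    (h' : Main_Res P x' y') : Main_Res P (x - x') (y - y') := fun u => by
  rw [LinearMap.sub_apply, LinearMap.sub_apply, Submodule.coe_sub, h, h']

omit [FiniteDimensional ℂ U] [Nontrivial U] in
theorem Main_Res.smul {x : Module.End ℂ U} {y : Module.End ℂ P} (c : ℂ) (h : Main_Res P x y) :
    Main_Res P (c • x) (c • y) := fun u => by
  rw [LinearMap.smul_apply, LinearMap.smul_apply, Submodule.coe_smul, h]

omit [FiniteDimensional ℂ U] [Nontrivial U] in
theorem Main_Res.algebraMap (P : Submodule ℂ U) (c : ℂ) :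
    Main_Res P (algebraMap ℂ (Module.End ℂ U) c) (algebraMap ℂ (Module.End ℂ P) c) := fun u => by
  rw [Module.algebraMap_end_apply, Module.algebraMap_end_apply, Submodule.coe_smul]

omit [FiniteDimensional ℂ U] [Nontrivial U] in
theorem Main_Res.zero (P : Submodule ℂ U) : Main_Res P 0 0 := fun u => by
  simp

/-- The restrictions of the elements of `𝔥`. -/
def Main_h (P : Submodule ℂ U) (𝔥 : Submodule ℂ (Module.End ℂ U)) :
    Submodule ℂ (Module.End ℂ P) where
  carrier := {y | ∃ x ∈ 𝔥, Main_Res P x y}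
  zero_mem' := ⟨0, 𝔥.zero_mem, Main_Res.zero P⟩
  add_mem' := by
    rintro y y' ⟨x, hx, h⟩ ⟨x', hx', h'⟩
    exact ⟨x + x', 𝔥.add_mem hx hx', h.add h'⟩
  smul_mem' := by
    rintro c y ⟨x, hx, h⟩
    exact ⟨c • x, 𝔥.smul_mem c hx, h.smul c⟩

end Main_aux

/-- **Main theorem.** A Lie subalgebra of `so(n)`, `n ≥ 6`, which generates the even Clifford algebra
is `so(n)`. -/
theorem main {n : ℕ} (hn : 6 ≤ n) {E : Fin n → Module.End ℂ U} (hE : CE E)
    (𝔥 : Submodule ℂ (Module.End ℂ U)) (h𝔥 : 𝔥 ≤ soE E)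
    (hbr : ∀ x ∈ 𝔥, ∀ y ∈ 𝔥, x * y - y * x ∈ 𝔥)
    (gen : ∀ i j, E i * E j ∈ Algebra.adjoin ℂ (𝔥 : Set (Module.End ℂ U))) :
    soE E ≤ 𝔥 := by
  -- a minimal stable subspace
  obtain ⟨P, ⟨hP0, hP⟩, hmin⟩ := wellFounded_lt.has_min
    {P : Submodule ℂ U | P ≠ ⊥ ∧ ∀ i, ∀ u ∈ P, E i u ∈ P}
    ⟨⊤, top_ne_bot, fun _ _ _ => Submodule.mem_top⟩
  have : Nontrivial P := Submodule.nontrivial_iff_ne_bot.mpr hP0
  let E0 : Fin n → Module.End ℂ P := fun i => (E i).restrict (hP i)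
  have hres : ∀ i, Main_Res P (E i) (E0 i) := fun i u => rfl
  have hE0 : CE E0 := by
    refine ⟨fun i => ?_, fun i j hij => ?_⟩
    · refine ((hres i).mul (hres i)).unique ?_
      rw [hE.sq i]
      intro u
      simp
    · refine ((hres i).mul (hres j)).unique ?_
      rw [hE.anti i j hij]
      intro u
      have h1 := (hres j).mul (hres i) u
      rw [LinearMap.neg_apply, LinearMap.neg_apply, Submodule.coe_neg, h1]
  have irr : ∀ Q : Submodule ℂ P, (∀ i, ∀ u ∈ Q, E0 i u ∈ Q) → Q = ⊥ ∨ Q = ⊤ := by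
    intro Q hQ
    by_cases h0 : Q = ⊥
    · exact Or.inl h0
    right
    have h1 : Q.map P.subtype ∈ {P : Submodule ℂ U | P ≠ ⊥ ∧ ∀ i, ∀ u ∈ P, E i u ∈ P} := by
      refine ⟨fun h => h0 ?_, ?_⟩
      · rw [eq_bot_iff]
        intro w hw
        have h1 : (w : U) ∈ Q.map P.subtype := ⟨w, hw, rfl⟩
        rw [h, Submodule.mem_bot] at h1
        rw [Submodule.mem_bot]
        exact Subtype.ext h1
      · rintro i u ⟨w, hw, rfl⟩
        exact ⟨E0 i w, hQ i w hw, hres i w⟩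
    have h2 : ¬ Q.map P.subtype < P := hmin _ h1
    have h3 : Q.map P.subtype ≤ P := Submodule.map_subtype_le P Q
    have h4 : Q.map P.subtype = P := eq_of_le_of_not_lt h3 h2
    rw [eq_top_iff]
    intro u _
    have h5 : (u : U) ∈ Q.map P.subtype := by rw [h4]; exact u.2
    obtain ⟨w, hw, hwu⟩ := h5
    have : w = u := Subtype.ext hwu
    rw [← this]
    exact hw
  -- the elements of `so(n)` preserve `P`
  have hso : ∀ x ∈ soE E, ∃ y ∈ soE E0, Main_Res P x y := by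
    intro x hx
    refine Submodule.span_induction (p := fun x _ => ∃ y ∈ soE E0, Main_Res P x y)
      ?_ ?_ ?_ ?_ hx
    · rintro x ⟨i, j, hij, rfl⟩
      exact ⟨E0 i * E0 j, Submodule.subset_span ⟨i, j, hij, rfl⟩, (hres i).mul (hres j)⟩
    · exact ⟨0, Submodule.zero_mem _, Main_Res.zero P⟩
    · rintro x x' _ _ ⟨y, hy, h⟩ ⟨y', hy', h'⟩
      exact ⟨y + y', Submodule.add_mem _ hy hy', h.add h'⟩
    · rintro c x _ ⟨y, hy, h⟩
      exact ⟨c • y, Submodule.smul_mem _ c hy, h.smul c⟩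
  have h1 : Main_h P 𝔥 ≤ soE E0 := by
    rintro y ⟨x, hx, h⟩
    obtain ⟨y', hy', h'⟩ := hso x (h𝔥 hx)
    rw [h.unique h']
    exact hy'
  have h2 : ∀ x ∈ Main_h P 𝔥, ∀ y ∈ Main_h P 𝔥, x * y - y * x ∈ Main_h P 𝔥 := by
    rintro y ⟨x, hx, h⟩ y' ⟨x', hx', h'⟩
    exact ⟨x * x' - x' * x, hbr x hx x' hx', (h.mul h').sub (h'.mul h)⟩
  have h3 : ∀ i j, E0 i * E0 j ∈ Algebra.adjoin ℂ (Main_h P 𝔥 : Set (Module.End ℂ P)) := by
    intro i j
    have key : ∀ a ∈ Algebra.adjoin ℂ (𝔥 : Set (Module.End ℂ U)),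
        ∃ b ∈ Algebra.adjoin ℂ (Main_h P 𝔥 : Set (Module.End ℂ P)), Main_Res P a b := by
      intro a ha
      refine Algebra.adjoin_induction (p := fun a _ =>
        ∃ b ∈ Algebra.adjoin ℂ (Main_h P 𝔥 : Set (Module.End ℂ P)), Main_Res P a b)
        ?_ ?_ ?_ ?_ ha
      · intro x hx
        obtain ⟨y, _, hy⟩ := hso x (h𝔥 hx)
        exact ⟨y, Algebra.subset_adjoin ⟨x, hx, hy⟩, hy⟩
      · intro c
        exact ⟨_, Subalgebra.algebraMap_mem _ c, Main_Res.algebraMap P c⟩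
      · rintro x x' _ _ ⟨y, hy, h⟩ ⟨y', hy', h'⟩
        exact ⟨y + y', Subalgebra.add_mem _ hy hy', h.add h'⟩
      · rintro x x' _ _ ⟨y, hy, h⟩ ⟨y', hy', h'⟩
        exact ⟨y * y', Subalgebra.mul_mem _ hy hy', h.mul h'⟩
    obtain ⟨b, hb, h⟩ := key _ (gen i j)
    rw [((hres i).mul (hres j)).unique h]
    exact hb
  have h4 := main_irred hn hE0 irr (Main_h P 𝔥) h1 h2 h3
  -- back to `U`
  intro x hx
  obtain ⟨y, hy, hxy⟩ := hso x hx
  obtain ⟨x', hx', hxy'⟩ := h4 hy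
  have hz : ∀ u ∈ P, (x - x') u = 0 := by
    intro u hu
    have e1 := hxy ⟨u, hu⟩
    have e2 := hxy' ⟨u, hu⟩
    rw [LinearMap.sub_apply, ← e1, ← e2, sub_self]
  have hzs : x - x' ∈ soE E := Submodule.sub_mem _ hx (h𝔥 hx')
  have hVP : ∀ w ∈ VE E, ∀ u ∈ P, w u ∈ P := by
    intro w hw
    refine Submodule.span_induction (p := fun w _ => ∀ u ∈ P, w u ∈ P) ?_ ?_ ?_ ?_ hw
    · rintro _ ⟨i, rfl⟩ u hu
      exact hP i u hu
    · intro u _
      rw [LinearMap.zero_apply]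
      exact P.zero_mem
    · intro a b _ _ ha hb u hu
      rw [LinearMap.add_apply]
      exact P.add_mem (ha u hu) (hb u hu)
    · intro c a _ ha u hu
      rw [LinearMap.smul_apply]
      exact P.smul_mem c (ha u hu)
  obtain ⟨u0, hu0, hu0'⟩ := Submodule.exists_mem_ne_zero_of_ne_bot hP0
  have hcomm : ∀ i, (x - x') * E i - E i * (x - x') = 0 := by
    intro i
    have hv : (x - x') * E i - E i * (x - x') ∈ VE E :=
      soE_stab hE hzs (Submodule.subset_span ⟨i, rfl⟩)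
    have hv0 : ∀ u ∈ P, ((x - x') * E i - E i * (x - x')) u = 0 := by
      intro u hu
      rw [LinearMap.sub_apply, Module.End.mul_apply, Module.End.mul_apply, hz u hu,
        hz _ (hP i u hu), map_zero, sub_zero]
    refine hE.clif.nondeg _ hv fun w hw => ?_
    have h5 := LinearMap.congr_fun (hE.clif.anti _ hv w hw) u0
    rw [LinearMap.add_apply, Module.End.mul_apply, Module.End.mul_apply, hv0 u0 hu0,
      hv0 _ (hVP w hw u0 hu0), map_zero, add_zero, LinearMap.smul_apply,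
      Module.End.one_apply] at h5
    rcases smul_eq_zero.mp h5.symm with h6 | h6
    · exact h6
    · exact absurd h6 hu0'
  have h7 : (4 : ℂ) • (x - x') = 0 := by
    rw [soE_rec hE hzs]
    refine Finset.sum_eq_zero fun i _ => ?_
    rw [hcomm i, zero_mul]
  have h8 : x - x' = 0 := by
    rcases smul_eq_zero.mp h7 with h | h
    · norm_num at h
    · exact h
  rw [sub_eq_zero.mp h8]
  exact hx'

end Pool.Agent.Y102.SP
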