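import Pool.Agent.Y102.SP.Cl

set_option autoImplicit false

open Module

namespace Pool.Agent.Y102.SP

variable {U : Type} [AddCommGroup U] [Module ℂ U] [FiniteDimensional ℂ U] [Nontrivial U]

section simple_aux

omit [FiniteDimensional ℂ U] [Nontrivial U]

/-- The commutator with `z`. -/
noncomputable def simple_ad (z : Module.End ℂ U) : Module.End ℂ U →ₗ[ℂ] Module.End ℂ U :=
  LinearMap.mulLeft ℂ z - LinearMap.mulRight ℂ z

theorem simple_ad_apply (z y : Module.End ℂ U) : simple_ad z y = z * y - y * z := rfl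

/-- The sign. -/
noncomputable def simple_sg {n : ℕ} (a b i : Fin n) : ℂ := if i = a ∨ i = b then -1 else 1

theorem simple_comm {n : ℕ} {E : Fin n → Module.End ℂ U} (hE : CE E) {a b : Fin n} (hab : a ≠ b)
    (i : Fin n) : E a * E b * E i = simple_sg a b i • (E i * (E a * E b)) := by
  unfold simple_sg
  by_cases h1 : i = a
  · subst h1
    rw [if_pos (Or.inl rfl), neg_smul, one_smul, ← mul_assoc, hE.sq, one_mul, hE.anti i b hab,
      neg_mul, mul_assoc, hE.sq, mul_one]
  · by_cases h2 : i = b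
    · subst h2
      rw [if_pos (Or.inr rfl), neg_smul, one_smul, mul_assoc, hE.sq, mul_one, ← mul_assoc,
        hE.anti i a h1, neg_mul, neg_neg, mul_assoc, hE.sq, mul_one]
    · rw [if_neg (by tauto), one_smul, mul_assoc, hE.anti b i (Ne.symm h2), mul_neg, ← mul_assoc,
        hE.anti a i (Ne.symm h1), neg_mul, neg_neg, mul_assoc]

theorem simple_sq {n : ℕ} {E : Fin n → Module.End ℂ U} (hE : CE E) {a b : Fin n} (hab : a ≠ b) :
    E a * E b * (E a * E b) = -1 := by
  rw [mul_assoc, ← mul_assoc (E b), hE.anti b a (Ne.symm hab), neg_mul, mul_neg, mul_assoc,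
    hE.sq, mul_one, hE.sq]

/-- The factor. -/
noncomputable def simple_f {n : ℕ} (a b i j : Fin n) : ℂ :=
  ((1 - simple_sg a b i * simple_sg a b j) / 2) ^ 2

/-- The projection. -/
noncomputable def simple_P (z : Module.End ℂ U) : Module.End ℂ U →ₗ[ℂ] Module.End ℂ U :=
  (-(1 / 4) : ℂ) • (simple_ad z ∘ₗ simple_ad z)

theorem simple_sg_sq {n : ℕ} (a b i : Fin n) : simple_sg a b i * simple_sg a b i = 1 := by
  unfold simple_sg
  split_ifs <;> norm_num

theorem simple_P_apply {n : ℕ} {E : Fin n → Module.End ℂ U} (hE : CE E) {a b : Fin n}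
    (hab : a ≠ b) (i j : Fin n) :
    simple_P (E a * E b) (E i * E j) = simple_f a b i j • (E i * E j) := by
  obtain ⟨z, hz⟩ : ∃ z, z = E a * E b := ⟨_, rfl⟩
  obtain ⟨s, hs⟩ : ∃ s, s = simple_sg a b i * simple_sg a b j := ⟨_, rfl⟩
  have hss : s * s = 1 := by
    rw [hs]
    linear_combination (simple_sg a b j * simple_sg a b j) * simple_sg_sq a b i +
      simple_sg_sq a b j
  have hzz : z * z = -1 := by rw [hz]; exact simple_sq hE hab
  have hc : z * (E i * E j) = s • (E i * E j * z) := by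
    rw [← mul_assoc, hz, simple_comm hE hab, smul_mul_assoc, mul_assoc, simple_comm hE hab,
      mul_smul_comm, smul_smul, hs, mul_assoc]
  generalize E i * E j = y at hc ⊢
  have hc' : y * z = s • (z * y) := by rw [hc, smul_smul, hss, one_smul]
  have h1 : simple_ad z y = (1 - s) • (z * y) := by
    rw [simple_ad_apply, hc', sub_smul, one_smul]
  have h2 : simple_ad z (z * y) = (-(1 - s)) • y := by
    rw [simple_ad_apply, mul_assoc, hc', mul_smul_comm, ← mul_assoc, hzz, neg_mul, one_mul,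
      smul_neg, neg_smul, sub_smul, one_smul]
    abel
  rw [← hz]
  unfold simple_P simple_f
  rw [LinearMap.smul_apply, LinearMap.comp_apply, h1, map_smul, h2, smul_smul, smul_smul, ← hs]
  congr 1
  ring

/-- The composition of four projections. -/
noncomputable def simple_F {n : ℕ} (E : Fin n → Module.End ℂ U) (a b c d e : Fin n) :
    Module.End ℂ U →ₗ[ℂ] Module.End ℂ U :=
  simple_P (E a * E e) ∘ₗ simple_P (E a * E d) ∘ₗ simple_P (E b * E c) ∘ₗ simple_P (E a * E c)

theorem simple_F_apply {n : ℕ} {E : Fin n → Module.End ℂ U} (hE : CE E) {a b c d e : Fin n}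
    (hae : a ≠ e) (had : a ≠ d) (hbc : b ≠ c) (hac : a ≠ c) (i j : Fin n) :
    simple_F E a b c d e (E i * E j) =
      (simple_f a c i j * simple_f b c i j * simple_f a d i j * simple_f a e i j) •
        (E i * E j) := by
  unfold simple_F
  simp only [LinearMap.comp_apply, simple_P_apply hE hac, simple_P_apply hE hbc,
    simple_P_apply hE had, simple_P_apply hE hae, map_smul, smul_smul]

theorem simple_val {n : ℕ} {a b c d e : Fin n} (hab : a ≠ b) (hac : a ≠ c) (had : a ≠ d)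
    (hae : a ≠ e) (hbc : b ≠ c) (hbd : b ≠ d) (hbe : b ≠ e) (hcd : c ≠ d) (hce : c ≠ e)
    (hde : d ≠ e) {i j : Fin n} (hij : i ≠ j) :
    simple_f a c i j * simple_f b c i j * simple_f a d i j * simple_f a e i j =
      (if i = a ∧ j = b then 1 else 0) + if i = b ∧ j = a then 1 else 0 := by
  have key : ∀ x : Fin n, (x = a ∧ x ≠ b ∧ x ≠ c ∧ x ≠ d ∧ x ≠ e) ∨
      (x ≠ a ∧ x = b ∧ x ≠ c ∧ x ≠ d ∧ x ≠ e) ∨ (x ≠ a ∧ x ≠ b ∧ x = c ∧ x ≠ d ∧ x ≠ e) ∨
      (x ≠ a ∧ x ≠ b ∧ x ≠ c ∧ x = d ∧ x ≠ e) ∨ (x ≠ a ∧ x ≠ b ∧ x ≠ c ∧ x ≠ d ∧ x = e) ∨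
      (x ≠ a ∧ x ≠ b ∧ x ≠ c ∧ x ≠ d ∧ x ≠ e) := by
    intro x
    by_cases h1 : x = a
    · subst h1; tauto
    by_cases h2 : x = b
    · subst h2; tauto
    by_cases h3 : x = c
    · subst h3; tauto
    by_cases h4 : x = d
    · subst h4; tauto
    tauto
  unfold simple_f simple_sg
  rcases key i with ⟨i1, i2, i3, i4, i5⟩ | ⟨i1, i2, i3, i4, i5⟩ | ⟨i1, i2, i3, i4, i5⟩ |
    ⟨i1, i2, i3, i4, i5⟩ | ⟨i1, i2, i3, i4, i5⟩ | ⟨i1, i2, i3, i4, i5⟩ <;>
  rcases key j with ⟨j1, j2, j3, j4, j5⟩ | ⟨j1, j2, j3, j4, j5⟩ | ⟨j1, j2, j3, j4, j5⟩ |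
    ⟨j1, j2, j3, j4, j5⟩ | ⟨j1, j2, j3, j4, j5⟩ | ⟨j1, j2, j3, j4, j5⟩ <;>
  first
  | exact absurd (i1.trans j1.symm) hij
  | exact absurd (i2.trans j2.symm) hij
  | exact absurd (i3.trans j3.symm) hij
  | exact absurd (i4.trans j4.symm) hij
  | exact absurd (i5.trans j5.symm) hij
  | (simp only [i1, i2, i3, i4, i5, j1, j2, j3, j4, j5, hab, hac, had, hae, hbc, hbd, hbe, hcd,
      hce, hde, hab.symm, hac.symm, had.symm, hae.symm, hbc.symm, hbd.symm, hbe.symm, hcd.symm,
      hce.symm, hde.symm, or_true, or_false, or_self, and_true, and_false, and_self, if_true,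
      if_false]
     norm_num)

theorem simple_ex {n : ℕ} (hn : 5 ≤ n) {E : Fin n → Module.End ℂ U} (hE : CE E)
    {J : Submodule ℂ (Module.End ℂ U)}
    (hbr : ∀ x ∈ soE E, ∀ y ∈ J, x * y - y * x ∈ J) (a b : Fin n) :
    ∃ G : Module.End ℂ U →ₗ[ℂ] Module.End ℂ U, (∀ y ∈ J, G y ∈ J) ∧
      ∀ i j, i ≠ j → G (E i * E j) = ((if i = a ∧ j = b then (1 : ℂ) else 0) +
        if i = b ∧ j = a then 1 else 0) • (E i * E j) := by
  by_cases hab : a = b
  · refine ⟨0, fun y _ => J.zero_mem, fun i j hij => ?_⟩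
    have h1 : ¬ (i = a ∧ j = b) := fun h => hij (by rw [h.1, h.2, hab])
    have h2 : ¬ (i = b ∧ j = a) := fun h => hij (by rw [h.1, h.2, hab])
    rw [if_neg h1, if_neg h2, add_zero, zero_smul, LinearMap.zero_apply]
  have hex : ∀ S : Finset (Fin n), S.card ≤ 4 → ∃ x, x ∉ S := by
    intro S hS
    by_contra hcon
    push Not at hcon
    have h3 : (Finset.univ : Finset (Fin n)) ⊆ S := fun x _ => hcon x
    have h4 := Finset.card_le_card h3
    rw [Finset.card_univ, Fintype.card_fin] at h4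
    omega
  obtain ⟨c, hc⟩ := hex {a, b} (Finset.card_le_two.trans (by norm_num))
  obtain ⟨d, hd⟩ := hex {a, b, c} (Finset.card_le_three.trans (by norm_num))
  obtain ⟨e, he⟩ := hex {a, b, c, d} Finset.card_le_four
  simp only [Finset.mem_insert, Finset.mem_singleton, not_or] at hc hd he
  have hP : ∀ x y : Fin n, x ≠ y → ∀ w ∈ J, simple_P (E x * E y) w ∈ J := by
    intro x y hxy w hw
    have hz : E x * E y ∈ soE E := Submodule.subset_span ⟨x, y, hxy, rfl⟩
    unfold simple_P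
    rw [LinearMap.smul_apply, LinearMap.comp_apply, simple_ad_apply, simple_ad_apply]
    exact J.smul_mem _ (hbr _ hz _ (hbr _ hz _ hw))
  refine ⟨simple_F E a b c d e, fun y hy => ?_, fun i j hij => ?_⟩
  · unfold simple_F
    rw [LinearMap.comp_apply, LinearMap.comp_apply, LinearMap.comp_apply]
    exact hP _ _ (Ne.symm he.1) _ (hP _ _ (Ne.symm hd.1) _ (hP _ _ (Ne.symm hc.2) _
      (hP _ _ (Ne.symm hc.1) _ hy)))
  · rw [simple_F_apply hE (Ne.symm he.1) (Ne.symm hd.1) (Ne.symm hc.2) (Ne.symm hc.1),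
      simple_val hab (Ne.symm hc.1) (Ne.symm hd.1) (Ne.symm he.1) (Ne.symm hc.2)
        (Ne.symm hd.2.1) (Ne.symm he.2.1) (Ne.symm hd.2.2) (Ne.symm he.2.2.1)
        (Ne.symm he.2.2.2) hij]

theorem simple_br {n : ℕ} {E : Fin n → Module.End ℂ U} (hE : CE E) {i k j : Fin n} (hik : i ≠ k)
    (hkj : k ≠ j) (hij : i ≠ j) :
    E i * E k * (E k * E j) - E k * E j * (E i * E k) = (2 : ℂ) • (E i * E j) := by
  have h1 : E i * E k * (E k * E j) = E i * E j := by
    rw [mul_assoc, ← mul_assoc (E k), hE.sq, one_mul]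
  have h2 : E k * E j * (E i * E k) = -(E i * E j) := by
    calc E k * E j * (E i * E k) = E k * (E j * E i) * E k := by noncomm_ring
      _ = -(E k * E i * (E j * E k)) := by rw [hE.anti j i (Ne.symm hij)]; noncomm_ring
      _ = E k * E i * (E k * E j) := by rw [hE.anti j k (Ne.symm hkj)]; noncomm_ring
      _ = -(E i * (E k * E k) * E j) := by rw [hE.anti k i (Ne.symm hik)]; noncomm_ring
      _ = -(E i * E j) := by rw [hE.sq, mul_one]
  rw [h1, h2, sub_neg_eq_add, two_smul]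

end simple_aux

/-- The Lie algebra `so(n)` is simple for `n ≥ 5`. -/
theorem so_simple {n : ℕ} (hn : 5 ≤ n) {E : Fin n → Module.End ℂ U} (hE : CE E)
    (J : Submodule ℂ (Module.End ℂ U)) (hJ : J ≤ soE E)
    (hbr : ∀ x ∈ soE E, ∀ y ∈ J, x * y - y * x ∈ J) : J = ⊥ ∨ J = soE E := by
  by_cases hJ0 : J = ⊥
  · exact Or.inl hJ0
  right
  obtain ⟨y, hy, hy0⟩ := (Submodule.ne_bot_iff J).1 hJ0
  choose G hG1 hG2 using fun a b : Fin n => simple_ex hn hE hbr a b
  -- the decomposition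
  have hdec : ∀ z ∈ soE E, ((1 / 2 : ℂ) • ∑ a, ∑ b, G a b) z = z := by
    intro z hz
    induction hz using Submodule.span_induction with
    | mem x hx =>
      obtain ⟨i, j, hij, rfl⟩ := hx
      simp only [LinearMap.smul_apply, LinearMap.sum_apply, hG2 _ _ i j hij, ← Finset.sum_smul,
        Finset.sum_add_distrib]
      rw [smul_smul]
      have h1 : ∑ a : Fin n, ∑ b : Fin n, (if i = a ∧ j = b then (1 : ℂ) else 0) = 1 := by
        simp [ite_and]
      have h2 : ∑ a : Fin n, ∑ b : Fin n, (if i = b ∧ j = a then (1 : ℂ) else 0) = 1 := by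
        simp [ite_and]
      rw [h1, h2]
      norm_num
    | zero => exact map_zero _
    | add x y _ _ hx hy => rw [map_add, hx, hy]
    | smul c x _ hx => rw [map_smul, hx]
  obtain ⟨a, b, hab⟩ : ∃ a b, G a b y ≠ 0 := by
    by_contra hcon
    push Not at hcon
    apply hy0
    rw [← hdec y (hJ hy)]
    simp only [LinearMap.smul_apply, LinearMap.sum_apply, hcon, Finset.sum_const_zero, smul_zero]
  have hspan : ∀ z ∈ soE E, ∃ c : ℂ, G a b z = c • (E a * E b) := by
    intro z hz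
    induction hz using Submodule.span_induction with
    | mem x hx =>
      obtain ⟨i, j, hij, rfl⟩ := hx
      rw [hG2 a b i j hij]
      by_cases h1 : i = a ∧ j = b
      · rw [h1.1, h1.2]
        exact ⟨_, rfl⟩
      · by_cases h2 : i = b ∧ j = a
        · have hba : b ≠ a := by rw [← h2.1, ← h2.2]; exact hij
          rw [h2.1, h2.2, hE.anti b a hba, smul_neg, ← neg_smul]
          exact ⟨_, rfl⟩
        · rw [if_neg h1, if_neg h2, add_zero, zero_smul]
          exact ⟨0, by rw [zero_smul]⟩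
    | zero => exact ⟨0, by rw [map_zero, zero_smul]⟩
    | add x y _ _ hx hy =>
      obtain ⟨c, hc⟩ := hx
      obtain ⟨d, hd⟩ := hy
      exact ⟨c + d, by rw [map_add, hc, hd, add_smul]⟩
    | smul c x _ hx =>
      obtain ⟨d, hd⟩ := hx
      exact ⟨c * d, by rw [map_smul, hd, smul_smul]⟩
  obtain ⟨c, hc⟩ := hspan y (hJ hy)
  have hc0 : c ≠ 0 := by
    intro h
    rw [h, zero_smul] at hc
    exact hab hc
  have hJab : E a * E b ∈ J := by
    have h1 := J.smul_mem c⁻¹ (hG1 a b y hy)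
    rwa [hc, smul_smul, inv_mul_cancel₀ hc0, one_smul] at h1
  have hne : a ≠ b := by
    intro h
    subst h
    have h1 : ∀ z ∈ soE E, G a a z = 0 := by
      intro z hz
      induction hz using Submodule.span_induction with
      | mem x hx =>
        obtain ⟨i, j, hij, rfl⟩ := hx
        rw [hG2 a a i j hij, if_neg (fun h => hij (h.1.trans h.2.symm)), add_zero, zero_smul]
      | zero => exact map_zero _
      | add x y _ _ hx hy => rw [map_add, hx, hy, add_zero]
      | smul c x _ hx => rw [map_smul, hx, smul_zero]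
    exact hab (h1 y (hJ hy))
  have hhalf : ∀ z, (2 : ℂ) • z ∈ J → z ∈ J := by
    intro z hz
    have h1 := J.smul_mem (2 : ℂ)⁻¹ hz
    rwa [smul_smul, inv_mul_cancel₀ two_ne_zero, one_smul] at h1
  have hso : ∀ i j, i ≠ j → E i * E j ∈ soE E := fun i j hij =>
    Submodule.subset_span ⟨i, j, hij, rfl⟩
  have hneg : ∀ i j, i ≠ j → E i * E j ∈ J → E j * E i ∈ J := by
    intro i j hij h
    rw [hE.anti j i (Ne.symm hij)]
    exact J.neg_mem h
  have hJa : ∀ j, j ≠ a → E a * E j ∈ J := by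
    intro j hj
    by_cases hjb : j = b
    · rw [hjb]; exact hJab
    · apply hhalf
      rw [← simple_br hE hne (Ne.symm hjb) (Ne.symm hj)]
      have h1 := hbr _ (hso b j (Ne.symm hjb)) _ hJab
      have h2 := J.neg_mem h1
      rwa [neg_sub] at h2
  refine le_antisymm hJ (Submodule.span_le.2 ?_)
  rintro z ⟨i, j, hij, rfl⟩
  by_cases hia : i = a
  · rw [hia]
    exact hJa j (by rw [← hia]; exact Ne.symm hij)
  · by_cases hja : j = a
    · rw [hja]
      exact hneg a i (Ne.symm hia) (hJa i hia)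
    · apply hhalf
      rw [← simple_br hE hia (Ne.symm hja) hij]
      exact hbr _ (hso i a hia) _ (hJa j hja)

/-- It is perfect: spanned by brackets. -/
theorem so_perfect {n : ℕ} (hn : 3 ≤ n) {E : Fin n → Module.End ℂ U} (hE : CE E) :
    soE E ≤ Submodule.span ℂ {z | ∃ x ∈ soE E, ∃ y ∈ soE E, z = x * y - y * x} := by
  refine Submodule.span_le.2 ?_
  rintro z ⟨i, j, hij, rfl⟩
  obtain ⟨k, hk⟩ : ∃ k, k ∉ ({i, j} : Finset (Fin n)) := by
    by_contra hcon
    push Not at hcon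
    have h3 : (Finset.univ : Finset (Fin n)) ⊆ {i, j} := fun x _ => hcon x
    have h4 := Finset.card_le_card h3
    rw [Finset.card_univ, Fintype.card_fin] at h4
    have h5 := Finset.card_le_two (a := i) (b := j)
    omega
  simp only [Finset.mem_insert, Finset.mem_singleton, not_or] at hk
  have h1 := simple_br hE (Ne.symm hk.1) hk.2 hij
  have h2 : E i * E j = (2 : ℂ)⁻¹ • (E i * E k * (E k * E j) - E k * E j * (E i * E k)) := by
    rw [h1, smul_smul, inv_mul_cancel₀ two_ne_zero, one_smul]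
  rw [h2]
  refine Submodule.smul_mem _ _ (Submodule.subset_span ⟨_, Submodule.subset_span
    ⟨i, k, Ne.symm hk.1, rfl⟩, _, Submodule.subset_span ⟨k, j, hk.2, rfl⟩, rfl⟩)

end Pool.Agent.Y102.SP
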