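import Pool.Agent.Y102.SP.ColGen
import Pool.Agent.Y102.SP.Simple
import Pool.Agent.Y102.SP.Link
import Pool.Agent.Y102.SP.Main

set_option autoImplicit false

open Module

namespace Pool.Agent.Y102.SP

variable {U : Type} [AddCommGroup U] [Module ℂ U] [FiniteDimensional ℂ U] [Nontrivial U]

omit [FiniteDimensional ℂ U] [Nontrivial U] in
/-- The subfamily of one colour. -/
theorem ColMain_sub {N k : ℕ} {E : Fin N → Module.End ℂ U} {c : Fin N → Fin k} (hE : CE E)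
    {s : Fin k} (hs : 6 ≤ (Finset.univ.filter fun j => c j = s).card) :
    ∃ (n : ℕ) (E' : Fin n → Module.End ℂ U), 6 ≤ n ∧ CE E' ∧ soE E' = soS E c s ∧
      ∀ a, ∃ i, c i = s ∧ E' a = E i := by
  classical
  set F := Finset.univ.filter fun j => c j = s with hF
  let e := F.equivFin
  have hmem : ∀ a : F, c a.1 = s := fun a => (Finset.mem_filter.1 a.2).2
  have hinj : ∀ a b : Fin F.card, a ≠ b → (e.symm a).1 ≠ (e.symm b).1 := by
    intro a b hab h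
    exact hab (e.symm.injective (Subtype.ext h))
  refine ⟨F.card, fun a => E (e.symm a).1, hs, ⟨fun a => hE.sq _, fun a b hab =>
    hE.anti _ _ (hinj a b hab)⟩, ?_, fun a => ⟨_, hmem _, rfl⟩⟩
  refine le_antisymm (Submodule.span_mono ?_) (Submodule.span_mono ?_)
  · rintro _ ⟨a, b, hab, rfl⟩
    exact ⟨_, _, hinj a b hab, hmem _, hmem _, rfl⟩
  · rintro _ ⟨i, j, hij, hi, hj, rfl⟩
    refine ⟨e ⟨i, Finset.mem_filter.2 ⟨Finset.mem_univ _, hi⟩⟩,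
      e ⟨j, Finset.mem_filter.2 ⟨Finset.mem_univ _, hj⟩⟩, ?_, ?_⟩
    · intro h
      exact hij (congrArg Subtype.val (e.injective h))
    · simp

omit [FiniteDimensional ℂ U] in
theorem ColMain_ne {N : ℕ} {E : Fin N → Module.End ℂ U} (hE : CE E) {i j : Fin N} (_h : i ≠ j) :
    E i * E j ≠ 0 := by
  intro h0
  have h1 : E i * (E i * E j) = 0 := by rw [h0, mul_zero]
  rw [← mul_assoc, hE.sq, one_mul] at h1
  have h2 := hE.sq j
  rw [h1, mul_zero] at h2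
  exact zero_ne_one h2

omit [Nontrivial U] [FiniteDimensional ℂ U] in
/-- brackets of projections -/
theorem ColMain_br {N k : ℕ} {E : Fin N → Module.End ℂ U} {c : Fin N → Fin k} (hE : CE E)
    {𝔥 : Submodule ℂ (Module.End ℂ U)} (h𝔥 : 𝔥 ≤ soC E c) {s : Fin k} {x y x' y' : Module.End ℂ U}
    (hx : x ∈ 𝔥) (hy : y ∈ 𝔥) (h1 : pS E c s x = x') (h2 : pS E c s y = y') :
    pS E c s (x * y - y * x) = x' * y' - y' * x' := by
  rw [pS_br hE (h𝔥 hx) (h𝔥 hy), h1, h2]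

/-- step 1 : the projection to one colour is everything -/
theorem ColMain_surj {N k : ℕ} {E : Fin N → Module.End ℂ U} {c : Fin N → Fin k} (hE : CE E)
    (𝔥 : Submodule ℂ (Module.End ℂ U)) (h𝔥 : 𝔥 ≤ soC E c)
    (hbr : ∀ x ∈ 𝔥, ∀ y ∈ 𝔥, x * y - y * x ∈ 𝔥)
    (gen : ∀ i j, c i = c j → E i * E j ∈ Algebra.adjoin ℂ (𝔥 : Set (Module.End ℂ U)))
    {s : Fin k} (hs : 6 ≤ (Finset.univ.filter fun j => c j = s).card) :
    ∀ x ∈ soS E c s, ∃ y ∈ 𝔥, pS E c s y = x := by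
  obtain ⟨n, E', hn, hE', hso, hval⟩ := ColMain_sub hE hs
  have h := main hn hE' (𝔥.map (pS E c s)) ?_ ?_ ?_
  · intro x hx
    rw [← hso] at hx
    obtain ⟨y, hy, rfl⟩ := Submodule.mem_map.1 (h hx)
    exact ⟨y, hy, rfl⟩
  · rw [hso]
    rintro _ ⟨y, hy, rfl⟩
    exact pS_mem hE (h𝔥 hy)
  · rintro _ ⟨x, hx, rfl⟩ _ ⟨y, hy, rfl⟩
    exact ⟨x * y - y * x, hbr x hx y hy, pS_br hE (h𝔥 hx) (h𝔥 hy)⟩
  · intro a b
    obtain ⟨i, hi, hi'⟩ := hval a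
    obtain ⟨j, hj, hj'⟩ := hval b
    rw [hi', hj', Submodule.map_coe]
    exact gen_proj hE 𝔥 h𝔥 gen hi hj

theorem ColMain_simple {N k : ℕ} {E : Fin N → Module.End ℂ U} {c : Fin N → Fin k} (hE : CE E)
    {s : Fin k} (hs : 6 ≤ (Finset.univ.filter fun j => c j = s).card)
    (J : Submodule ℂ (Module.End ℂ U)) (hJ : J ≤ soS E c s)
    (hbr : ∀ x ∈ soS E c s, ∀ y ∈ J, x * y - y * x ∈ J) : J = ⊥ ∨ J = soS E c s := by
  obtain ⟨n, E', hn, hE', hso, -⟩ := ColMain_sub hE hs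
  rw [← hso] at hJ hbr ⊢
  exact so_simple (by omega) hE' J hJ hbr

theorem ColMain_perfect {N k : ℕ} {E : Fin N → Module.End ℂ U} {c : Fin N → Fin k} (hE : CE E)
    {s : Fin k} (hs : 6 ≤ (Finset.univ.filter fun j => c j = s).card) :
    soS E c s ≤ Submodule.span ℂ {z | ∃ x ∈ soS E c s, ∃ y ∈ soS E c s, z = x * y - y * x} := by
  obtain ⟨n, E', hn, hE', hso, -⟩ := ColMain_sub hE hs
  rw [← hso]
  exact so_perfect (by omega) hE'

/-- the ideal of the `s`-parts of the elements with vanishing `t`-part is zero or everything -/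
theorem ColMain_ideal {N k : ℕ} {E : Fin N → Module.End ℂ U} {c : Fin N → Fin k} (hE : CE E)
    (𝔥 : Submodule ℂ (Module.End ℂ U)) (h𝔥 : 𝔥 ≤ soC E c)
    (hbr : ∀ x ∈ 𝔥, ∀ y ∈ 𝔥, x * y - y * x ∈ 𝔥)
    (gen : ∀ i j, c i = c j → E i * E j ∈ Algebra.adjoin ℂ (𝔥 : Set (Module.End ℂ U)))
    {s t : Fin k} (hs : 6 ≤ (Finset.univ.filter fun j => c j = s).card) :
    (∀ y ∈ 𝔥, pS E c t y = 0 → pS E c s y = 0) ∨
      ∀ x ∈ soS E c s, ∃ y ∈ 𝔥, pS E c s y = x ∧ pS E c t y = 0 := by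
  have hsurj := ColMain_surj hE 𝔥 h𝔥 hbr gen hs
  have hle : (𝔥 ⊓ LinearMap.ker (pS E c t)).map (pS E c s) ≤ soS E c s := by
    rintro _ ⟨y, hy, rfl⟩
    exact pS_mem hE (h𝔥 hy.1)
  have hid : ∀ x ∈ soS E c s, ∀ y ∈ (𝔥 ⊓ LinearMap.ker (pS E c t)).map (pS E c s),
      x * y - y * x ∈ (𝔥 ⊓ LinearMap.ker (pS E c t)).map (pS E c s) := by
    rintro x hx _ ⟨y, hy, rfl⟩
    obtain ⟨y', hy', hy'x⟩ := hsurj x hx
    refine ⟨y' * y - y * y', ⟨hbr y' hy' y hy.1, ?_⟩, ColMain_br hE h𝔥 hy' hy.1 hy'x rfl⟩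
    refine LinearMap.mem_ker.2 ?_
    rw [ColMain_br hE h𝔥 hy' hy.1 rfl (LinearMap.mem_ker.1 hy.2), mul_zero, zero_mul, sub_zero]
  rcases ColMain_simple hE hs _ hle hid with h | h
  · left
    intro y hy hy0
    have h1 : pS E c s y ∈ (𝔥 ⊓ LinearMap.ker (pS E c t)).map (pS E c s) :=
      Submodule.mem_map_of_mem (Submodule.mem_inf.2 ⟨hy, LinearMap.mem_ker.2 hy0⟩)
    rw [h] at h1
    exact (Submodule.mem_bot ℂ).1 h1
  · right
    intro x hx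
    rw [← h] at hx
    obtain ⟨y, hy, rfl⟩ := Submodule.mem_map.1 hx
    exact ⟨y, hy.1, rfl, LinearMap.mem_ker.1 hy.2⟩

/-- step 2 : two colours -/
theorem ColMain_two {N k : ℕ} {E : Fin N → Module.End ℂ U} {c : Fin N → Fin k} (hE : CE E)
    (𝔥 : Submodule ℂ (Module.End ℂ U)) (h𝔥 : 𝔥 ≤ soC E c)
    (hbr : ∀ x ∈ 𝔥, ∀ y ∈ 𝔥, x * y - y * x ∈ 𝔥)
    (gen : ∀ i j, c i = c j → E i * E j ∈ Algebra.adjoin ℂ (𝔥 : Set (Module.End ℂ U)))
    {s t : Fin k} (hst : s ≠ t) (hs : 6 ≤ (Finset.univ.filter fun j => c j = s).card)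
    (ht : 6 ≤ (Finset.univ.filter fun j => c j = t).card) :
    ∀ x ∈ soS E c s, ∃ y ∈ 𝔥, pS E c s y = x ∧ pS E c t y = 0 := by
  rcases ColMain_ideal hE 𝔥 h𝔥 hbr gen (t := t) hs with h | h
  swap
  · exact h
  exfalso
  have h2 : ∃ i j, i ≠ j ∧ c i = s ∧ c j = s := by
    obtain ⟨i, hi, j, hj, hij⟩ := Finset.one_lt_card.1 (lt_of_lt_of_le (by norm_num : 1 < 6) hs)
    exact ⟨i, j, hij, (Finset.mem_filter.1 hi).2, (Finset.mem_filter.1 hj).2⟩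
  have h3 : ∃ i j l, i ≠ j ∧ i ≠ l ∧ j ≠ l ∧ c i = t ∧ c j = t ∧ c l = t := by
    obtain ⟨i, hi, j, hj, l, hl, h4, h5, h6⟩ :=
      Finset.two_lt_card.1 (lt_of_lt_of_le (by norm_num : 2 < 6) ht)
    exact ⟨i, j, l, h4, h5, h6, (Finset.mem_filter.1 hi).2, (Finset.mem_filter.1 hj).2,
      (Finset.mem_filter.1 hl).2⟩
  have hback : ∀ y ∈ 𝔥, pS E c s y = 0 → pS E c t y = 0 := by
    rcases ColMain_ideal hE 𝔥 h𝔥 hbr gen (s := t) (t := s) ht with h' | h'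
    · exact h'
    exfalso
    obtain ⟨i, j, hij, hi, hj⟩ := h2
    obtain ⟨y, hy, hyx⟩ := ColMain_surj hE 𝔥 h𝔥 hbr gen hs (E i * E j)
      (Submodule.subset_span ⟨i, j, hij, hi, hj, rfl⟩)
    obtain ⟨y', hy', h4, h5⟩ := h' (pS E c t y) (pS_mem hE (h𝔥 hy))
    have h6 := h (y - y') (sub_mem hy hy') (by rw [map_sub, h4, sub_self])
    rw [map_sub, h5, sub_zero, hyx] at h6
    exact ColMain_ne hE hij h6
  exact not_linked hE 𝔥 h𝔥 hbr gen hst (ColMain_surj hE 𝔥 h𝔥 hbr gen ht)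
    (ColMain_surj hE 𝔥 h𝔥 hbr gen hs) h2 h3 fun y hy => ⟨h y hy, hback y hy⟩

omit [Nontrivial U] [FiniteDimensional ℂ U] in
theorem ColMain_empty {N k : ℕ} {E : Fin N → Module.End ℂ U} {c : Fin N → Fin k}
    {t : Fin k} (ht : ∀ i, c i ≠ t) (y : Module.End ℂ U) : pS E c t y = 0 := by
  unfold pS
  simp [ht]

/-- step 3 : Ribet's lemma -/
theorem ColMain_ribet {N k : ℕ} {E : Fin N → Module.End ℂ U} {c : Fin N → Fin k} (hE : CE E)
    (hc : ∀ i, 6 ≤ (Finset.univ.filter fun j => c j = c i).card)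
    (𝔥 : Submodule ℂ (Module.End ℂ U)) (h𝔥 : 𝔥 ≤ soC E c)
    (hbr : ∀ x ∈ 𝔥, ∀ y ∈ 𝔥, x * y - y * x ∈ 𝔥)
    (gen : ∀ i j, c i = c j → E i * E j ∈ Algebra.adjoin ℂ (𝔥 : Set (Module.End ℂ U)))
    {s : Fin k} (hs : 6 ≤ (Finset.univ.filter fun j => c j = s).card) (Q : Finset (Fin k)) :
    s ∉ Q → ∀ x ∈ soS E c s, ∃ y ∈ 𝔥, pS E c s y = x ∧ ∀ t ∈ Q, pS E c t y = 0 := by
  classical
  induction Q using Finset.induction_on with
  | empty =>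
    intro _ x hx
    obtain ⟨y, hy, hyx⟩ := ColMain_surj hE 𝔥 h𝔥 hbr gen hs x hx
    exact ⟨y, hy, hyx, fun t ht => absurd ht (Finset.notMem_empty t)⟩
  | insert t Q htQ ih =>
    intro hsQ x hx
    have hsQ' : s ∉ Q := fun h => hsQ (Finset.mem_insert_of_mem h)
    have hst : s ≠ t := fun h => hsQ (h ▸ Finset.mem_insert_self _ _)
    by_cases hte : ∀ i, c i ≠ t
    · obtain ⟨y, hy, h1, h2⟩ := ih hsQ' x hx
      refine ⟨y, hy, h1, fun t' ht' => ?_⟩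
      rcases Finset.mem_insert.1 ht' with rfl | h
      · exact ColMain_empty hte y
      · exact h2 t' h
    push Not at hte
    obtain ⟨i0, hi0⟩ := hte
    have ht : 6 ≤ (Finset.univ.filter fun j => c j = t).card := by
      rw [← hi0]; exact hc i0
    let K : Submodule ℂ (Module.End ℂ U) := 𝔥 ⊓ ⨅ t' ∈ insert t Q, LinearMap.ker (pS E c t')
    have hK : ∀ y, y ∈ K ↔ y ∈ 𝔥 ∧ ∀ t' ∈ insert t Q, pS E c t' y = 0 := by
      intro y
      simp only [K, Submodule.mem_inf, Submodule.mem_iInf, LinearMap.mem_ker]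
    have hle : Submodule.span ℂ {z | ∃ x ∈ soS E c s, ∃ y ∈ soS E c s, z = x * y - y * x} ≤
        K.map (pS E c s) := by
      refine Submodule.span_le.2 ?_
      rintro _ ⟨x1, hx1, x2, hx2, rfl⟩
      obtain ⟨y1, hy1, h1, h2⟩ := ih hsQ' x1 hx1
      obtain ⟨y2, hy2, h3, h4⟩ := ColMain_two hE 𝔥 h𝔥 hbr gen hst hs ht x2 hx2
      refine ⟨y1 * y2 - y2 * y1, (hK _).2 ⟨hbr y1 hy1 y2 hy2, fun t' ht' => ?_⟩,
        ColMain_br hE h𝔥 hy1 hy2 h1 h3⟩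
      rcases Finset.mem_insert.1 ht' with h5 | h5
      · rw [h5, ColMain_br hE h𝔥 hy1 hy2 rfl h4, mul_zero, zero_mul, sub_zero]
      · rw [ColMain_br hE h𝔥 hy1 hy2 (h2 t' h5) rfl, mul_zero, zero_mul, sub_zero]
    obtain ⟨y, hy, hyx⟩ := Submodule.mem_map.1 (hle (ColMain_perfect hE hs hx))
    exact ⟨y, ((hK y).1 hy).1, hyx, ((hK y).1 hy).2⟩

/-- The main theorem for a coloured Clifford system. -/
theorem main_col {N k : ℕ} {E : Fin N → Module.End ℂ U} {c : Fin N → Fin k} (hE : CE E)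
    (hc : ∀ i, 6 ≤ (Finset.univ.filter fun j => c j = c i).card)
    (𝔥 : Submodule ℂ (Module.End ℂ U)) (h𝔥 : 𝔥 ≤ soC E c)
    (hbr : ∀ x ∈ 𝔥, ∀ y ∈ 𝔥, x * y - y * x ∈ 𝔥)
    (gen : ∀ i j, c i = c j → E i * E j ∈ Algebra.adjoin ℂ (𝔥 : Set (Module.End ℂ U))) :
    soC E c ≤ 𝔥 := by
  classical
  refine Submodule.span_le.2 ?_
  rintro _ ⟨i, j, hij, hcij, rfl⟩
  have hx : E i * E j ∈ soS E c (c i) := Submodule.subset_span ⟨i, j, hij, rfl, hcij.symm, rfl⟩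
  obtain ⟨y, hy, h1, h2⟩ := ColMain_ribet hE hc 𝔥 h𝔥 hbr gen (hc i) (Finset.univ.erase (c i))
    (Finset.notMem_erase _ _) _ hx
  have h3 := pS_sum hE (h𝔥 hy)
  rw [Finset.sum_eq_single (c i) (fun t _ ht => h2 t (Finset.mem_erase.2 ⟨ht, Finset.mem_univ _⟩))
    (fun h => absurd (Finset.mem_univ _) h), h1] at h3
  rw [← h3]
  exact hy

end Pool.Agent.Y102.SP
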