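import Mathlib

set_option autoImplicit false

/-!
# Lie subalgebras of `so(n)` which generate the even Clifford algebra: definitions

Aim: a Lie subalgebra `𝔥` of `so(n)` (realized by the products `E i * E j`, `i ≠ j`, of anticommuting
endomorphisms with square one) which generates the same associative algebra as `so(n)` is equal to
`so(n)`, if `n ≥ 6`.
-/

open Module

namespace Pool.Agent.Y102.SP

/-! ## Root systems and weights in rational vector spaces -/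

/-- A finite reduced crystallographic root system, with the coroot of `α` as a functional `pr α`. -/
structure Root (X : Type) [AddCommGroup X] [Module ℚ X] where
  Φ : Set X
  fin : Φ.Finite
  pr : X → X →ₗ[ℚ] ℚ
  zero : (0 : X) ∉ Φ
  neg : ∀ α ∈ Φ, -α ∈ Φ
  pneg : ∀ α ∈ Φ, ∀ χ, pr (-α) χ = -pr α χ
  two : ∀ α ∈ Φ, pr α α = 2
  int : ∀ α ∈ Φ, ∀ β ∈ Φ, ∃ n : ℤ, pr α β = n
  refl : ∀ α ∈ Φ, ∀ β ∈ Φ, β - pr α β • α ∈ Φ
  red : ∀ α ∈ Φ, ∀ c : ℚ, c • α ∈ Φ → c = 1 ∨ c = -1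
  cox : ∀ α ∈ Φ, ∀ β ∈ Φ, β ≠ α → β ≠ -α →
    (pr α β = 0 ∧ pr β α = 0) ∨ (1 ≤ pr α β * pr β α ∧ pr α β * pr β α ≤ 3)
  add : ∀ α ∈ Φ, ∀ β ∈ Φ, β ≠ -α → pr α β < 0 → α + β ∈ Φ

section

variable {X : Type} [AddCommGroup X] [Module ℚ X]

/-- A finite symmetric set of integral weights which contains its strings. -/
structure Wts (R : Root X) (Ω : Set X) : Prop where
  fin : Ω.Finite
  neg : ∀ ω ∈ Ω, -ω ∈ Ω
  int : ∀ α ∈ R.Φ, ∀ ω ∈ Ω, ∃ n : ℤ, R.pr α ω = n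
  str : ∀ α ∈ R.Φ, ∀ ω ∈ Ω, ∀ j : ℕ, (j : ℚ) ≤ R.pr α ω → ω - (j : ℚ) • α ∈ Ω

/-- A generic functional: nonzero on the roots, injective on the weights. -/
def Gen (R : Root X) (Ω : Set X) (φ : X →ₗ[ℚ] ℚ) : Prop :=
  (∀ α ∈ R.Φ, φ α ≠ 0) ∧ ∀ χ ∈ Ω, ∀ ψ ∈ Ω, φ χ = φ ψ → χ = ψ

/-- `a` is the smallest positive weight. -/
def First (Ω : Set X) (φ : X →ₗ[ℚ] ℚ) (a : X) : Prop :=
  a ∈ Ω ∧ 0 < φ a ∧ ∀ ω ∈ Ω, 0 < φ ω → φ a ≤ φ ω

/-- `b` is the smallest weight larger than `a`. -/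
def Next (Ω : Set X) (φ : X →ₗ[ℚ] ℚ) (a b : X) : Prop :=
  b ∈ Ω ∧ φ a < φ b ∧ ∀ ω ∈ Ω, φ a < φ ω → φ b ≤ φ ω

/-- Four smallest positive weights with a linear relation. -/
structure Quad (R : Root X) (Ω : Set X) (φ : X →ₗ[ℚ] ℚ) (a b c d : X) : Prop where
  gen : Gen R Ω φ
  first : First Ω φ a
  n1 : Next Ω φ a b
  n2 : Next Ω φ b c
  n3 : Next Ω φ c d
  rel : a + d = b + c
  ind : ∀ x y z : ℚ, x • a + y • b + z • c = 0 → x = 0 ∧ y = 0 ∧ z = 0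
  r1 : b - a ∈ R.Φ
  r2 : c - b ∈ R.Φ
  r3 : c - a ∈ R.Φ
  r4 : a + b ∈ R.Φ
  r5 : b + c ∈ R.Φ
  p1 : 0 < R.pr (b - a) b
  p2 : 0 < R.pr (c - b) c
  p3 : 0 < R.pr (c - a) c
  p4 : 0 < R.pr (a + b) a
  o1 : c + a - b ∉ Ω
  o2 : a + b - c ∉ Ω

/-- The three smallest positive weights are `a`, `2 a`, `3 a`. -/
structure Line3 (R : Root X) (Ω : Set X) (φ : X →ₗ[ℚ] ℚ) (a : X) : Prop where
  gen : Gen R Ω φ
  first : First Ω φ a
  root : a ∈ R.Φ
  n1 : Next Ω φ a ((2 : ℚ) • a)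
  n2 : Next Ω φ ((2 : ℚ) • a) ((3 : ℚ) • a)

/-- The three smallest positive weights are the short positive roots of a system of type `G_2`. -/
structure TypeG (R : Root X) (Ω : Set X) (φ : X →ₗ[ℚ] ℚ) (a b : X) : Prop where
  gen : Gen R Ω φ
  first : First Ω φ a
  n1 : Next Ω φ a b
  n2 : Next Ω φ b (a + b)
  ra : a ∈ R.Φ
  rb : b ∈ R.Φ
  rc : a + b ∈ R.Φ
  rl : b - a ∈ R.Φ
  ol : b - a ∉ Ω
  o2 : (2 : ℚ) • a ∉ Ω
  pl : 0 < R.pr (b - a) b
  ind : ∀ x y : ℚ, x • a + y • b = 0 → x = 0 ∧ y = 0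

end

/-! ## Clifford systems and Lie algebras with a root decomposition -/

variable {U : Type} [AddCommGroup U] [Module ℂ U]

/-- The symmetric form on the endomorphisms; `v * w + w * v = bil v w • 1` in a Clifford system. -/
noncomputable def bil (v w : Module.End ℂ U) : ℂ :=
  LinearMap.trace ℂ U (v * w + w * v) / (finrank ℂ U : ℂ)

/-- The space `V` of endomorphisms is the space of vectors of a Clifford algebra. -/
structure Clif (V : Submodule ℂ (Module.End ℂ U)) : Prop where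
  anti : ∀ v ∈ V, ∀ w ∈ V, v * w + w * v = bil v w • (1 : Module.End ℂ U)
  nondeg : ∀ v ∈ V, (∀ w ∈ V, bil v w = 0) → v = 0

variable {T : Type} [AddCommGroup T] [Module ℂ T]

/-- The endomorphisms of weight `χ` for the commutator with `ι t`. -/
def wsp (ι : T →ₗ[ℂ] Module.End ℂ U) (χ : Module.Dual ℂ T) : Submodule ℂ (Module.End ℂ U) where
  carrier := {x | ∀ t, ι t * x - x * ι t = χ t • x}
  zero_mem' := fun t => by simp
  add_mem' := fun {x y} hx hy t => by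
    rw [mul_add, add_mul, smul_add, ← hx t, ← hy t]; abel
  smul_mem' := fun c x hx t => by
    rw [mul_smul_comm, smul_mul_assoc, ← smul_sub, hx t, smul_comm]

/-- The vectors of weight `χ`. -/
def usp (ι : T →ₗ[ℂ] Module.End ℂ U) (χ : Module.Dual ℂ T) : Submodule ℂ U where
  carrier := {u | ∀ t, ι t u = χ t • u}
  zero_mem' := fun t => by simp
  add_mem' := fun {x y} hx hy t => by rw [map_add, smul_add, hx t, hy t]
  smul_mem' := fun c x hx t => by rw [map_smul, hx t, smul_comm]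

/-- The Lie algebra `𝔥` of endomorphisms of `U` with a root decomposition (`ι : T → 𝔥` is a Cartan
subalgebra, `e α` are root vectors, `h α` coroots), acting on a space `V` of vectors of a Clifford
algebra, which is a sum of weight spaces; the associative algebra generated by `𝔥` contains the
even part of the Clifford algebra. -/
structure Sys (V 𝔥 : Submodule ℂ (Module.End ℂ U)) (T : Type) [AddCommGroup T] [Module ℂ T] where
  clif : Clif V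
  le : 𝔥 ≤ Submodule.span ℂ {x | ∃ v ∈ V, ∃ w ∈ V, x = v * w - w * v}
  stab : ∀ x ∈ 𝔥, ∀ v ∈ V, x * v - v * x ∈ V
  gen : ∀ v ∈ V, ∀ w ∈ V, v * w ∈ Algebra.adjoin ℂ (𝔥 : Set (Module.End ℂ U))
  R : Root (Module.Dual ℂ T)
  ι : T →ₗ[ℂ] Module.End ℂ U
  h : Module.Dual ℂ T → T
  e : Module.Dual ℂ T → Module.End ℂ U
  ιmem : ∀ t, ι t ∈ 𝔥
  emem : ∀ α ∈ R.Φ, e α ∈ 𝔥
  ene : ∀ α ∈ R.Φ, e α ≠ 0
  span : 𝔥 ≤ LinearMap.range ι ⊔ Submodule.span ℂ (e '' R.Φ)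
  comm : ∀ s t, ι s * ι t = ι t * ι s
  wt : ∀ α ∈ R.Φ, ∀ t, ι t * e α - e α * ι t = α t • e α
  br : ∀ α ∈ R.Φ, e α * e (-α) - e (-α) * e α = ι (h α)
  hneg : ∀ α ∈ R.Φ, h (-α) = -h α
  prh : ∀ α ∈ R.Φ, ∀ χ : Module.Dual ℂ T, (∃ q : ℚ, χ (h α) = q) → χ (h α) = (R.pr α χ : ℂ)
  rat : ∀ α ∈ R.Φ, ∀ β ∈ R.Φ, ∃ q : ℚ, β (h α) = q
  add0 : ∀ α ∈ R.Φ, ∀ β ∈ R.Φ, α + β ≠ 0 → α + β ∉ R.Φ → e α * e β = e β * e α
  add1 : ∀ α ∈ R.Φ, ∀ β ∈ R.Φ, α + β ∈ R.Φ → ∃ c : ℂ, e α * e β - e β * e α = c • e (α + β)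
  vspan : V ≤ ⨆ χ, V ⊓ wsp ι χ

namespace Sys

variable {V 𝔥 : Submodule ℂ (Module.End ℂ U)} (S : Sys V 𝔥 T)

/-- The weight spaces of `V`. -/
def vw (χ : Module.Dual ℂ T) : Submodule ℂ (Module.End ℂ U) := V ⊓ wsp S.ι χ

/-- The set of the weights of `V`. -/
def Om : Set (Module.Dual ℂ T) := {χ | S.vw χ ≠ ⊥}

/-- `s` is a vector of highest weight for the order defined by `φ`: it has weight `χ`, it is not zero
and there are no vectors of larger weights. -/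
structure Top (φ : Module.Dual ℂ T →ₗ[ℚ] ℚ) (χ : Module.Dual ℂ T) (s : U) : Prop where
  ne : s ≠ 0
  mem : s ∈ usp S.ι χ
  max : ∀ ψ, φ χ < φ ψ → usp S.ι ψ = ⊥

end Sys

/-! ## The Clifford system in coordinates -/

/-- Anticommuting endomorphisms with square one. -/
structure CE {n : ℕ} (E : Fin n → Module.End ℂ U) : Prop where
  sq : ∀ i, E i * E i = 1
  anti : ∀ i j, i ≠ j → E i * E j = -(E j * E i)

/-- The space of vectors. -/
def VE {n : ℕ} (E : Fin n → Module.End ℂ U) : Submodule ℂ (Module.End ℂ U) :=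
  Submodule.span ℂ (Set.range E)

/-- The Lie algebra `so(n)`. -/
def soE {n : ℕ} (E : Fin n → Module.End ℂ U) : Submodule ℂ (Module.End ℂ U) :=
  Submodule.span ℂ {x | ∃ i j, i ≠ j ∧ x = E i * E j}

end Pool.Agent.Y102.SP
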