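import Pool.Agent.Y102.SP.Fun

set_option autoImplicit false

open Module

namespace Pool.Agent.Y102.SP

variable {X : Type} [AddCommGroup X] [Module ℚ X]

/-- A functional with value one. -/
theorem line_dual {ω : X} (hω : ω ≠ 0) : ∃ φ : X →ₗ[ℚ] ℚ, φ ω = 1 := by
  obtain ⟨ψ, -, h⟩ := avoid (Set.finite_singleton ω) (⊥ : Submodule ℚ X)
  have h1 : ψ ω ≠ 0 := h ω rfl (fun h2 => hω ((Submodule.mem_bot ℚ).1 h2))
  refine ⟨(ψ ω)⁻¹ • ψ, ?_⟩
  rw [LinearMap.smul_apply, smul_eq_mul, inv_mul_cancel₀ h1]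

/-- Each direction of a weight comes first for some functional. -/
theorem flag1 {R : Root X} {Ω : Set X} (W : Wts R Ω) {ω : X} (hω : ω ∈ Ω) (hω0 : ω ≠ 0) :
    ∃ φ : X →ₗ[ℚ] ℚ, Gen R Ω φ ∧ 0 < φ ω ∧ ∀ c ∈ Ω, (∀ q : ℚ, c ≠ q • ω) → 0 < φ c →
      ∀ d ∈ Ω, (∃ q : ℚ, d = q • ω) → φ d < φ c := by
  have hD : (R.Φ ∪ Set.image2 (fun x y => x - y) Ω Ω).Finite :=
    R.fin.union (Set.Finite.image2 _ W.fin W.fin)
  set D : Set X := R.Φ ∪ Set.image2 (fun x y => x - y) Ω Ω with hDd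
  have hsub : ∀ x ∈ Ω, ∀ y ∈ Ω, x - y ∈ D := fun x hx y hy => Or.inr ⟨x, hx, y, hy, rfl⟩
  obtain ⟨ψ, hψ0, hψ⟩ := avoid hD (Submodule.span ℚ {ω})
  obtain ⟨φ', hφ'⟩ := line_dual hω0
  obtain ⟨χ, hχ1, hχ2, hχ3⟩ := lex2 hD φ' ψ
  have hψω : ψ ω = 0 := hψ0 ω (Submodule.mem_span_singleton_self ω)
  have key : ∀ x ∈ D, x ≠ 0 → χ x ≠ 0 := by
    intro x hx hx0
    rcases lt_trichotomy (ψ x) 0 with h | h | h
    · exact (hχ2 x hx h).ne
    · have h1 : x ∈ Submodule.span ℚ {ω} := by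
        by_contra h2
        exact hψ x hx h2 h
      obtain ⟨q, rfl⟩ := Submodule.mem_span_singleton.1 h1
      rw [hχ3 _ h, map_smul, hφ', smul_eq_mul, mul_one]
      rintro rfl
      exact hx0 (zero_smul _ _)
    · exact (hχ1 x hx h).ne'
  refine ⟨χ, ⟨fun α hα => key α (Or.inl hα) ?_, fun x hx y hy h => ?_⟩, ?_, ?_⟩
  · rintro rfl
    exact R.zero hα
  · by_contra hne
    refine key (x - y) (hsub x hx y hy) (sub_ne_zero.2 hne) ?_
    rw [map_sub, h, sub_self]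
  · rw [hχ3 ω hψω, hφ']
    exact one_pos
  · rintro c hc hcn hcp d hd ⟨q, rfl⟩
    have h2c : c - -c ∈ D := hsub c hc (-c) (W.neg c hc)
    have h2cP : c - -c ∉ Submodule.span ℚ {ω} := by
      intro h
      obtain ⟨r, hr⟩ := Submodule.mem_span_singleton.1 h
      refine hcn (r / 2) ?_
      have h3 : c = (1 / 2 : ℚ) • (c - -c) := by
        rw [sub_neg_eq_add, ← two_smul ℚ c, smul_smul]
        norm_num
      rw [h3, ← hr, smul_smul]
      congr 1
      ring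
    have hψc : ψ (c - -c) = 2 * ψ c := by
      rw [map_sub, map_neg]
      ring
    have hχc : χ (c - -c) = 2 * χ c := by
      rw [map_sub, map_neg]
      ring
    have hpos : 0 < ψ c := by
      rcases lt_trichotomy (ψ c) 0 with h | h | h
      · have h4 := hχ2 _ h2c (by rw [hψc]; linarith)
        rw [hχc] at h4
        linarith
      · exact absurd (by rw [hψc, h, mul_zero]) (hψ _ h2c h2cP)
      · exact h
    have h5 := hχ1 (c - q • ω) (hsub c hc _ hd) (by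
      rw [map_sub, map_smul, hψω, smul_zero, sub_zero]
      exact hpos)
    rw [map_sub] at h5
    linarith

theorem line_first {R : Root X} {Ω : Set X} (W : Wts R Ω) (φ : X →ₗ[ℚ] ℚ) {ω : X} (hω : ω ∈ Ω)
    (h : 0 < φ ω) : ∃ a, First Ω φ a := by
  obtain ⟨a, ha, ha'⟩ := Set.exists_min_image {x | x ∈ Ω ∧ 0 < φ x} φ
    (W.fin.subset fun x hx => hx.1) ⟨ω, hω, h⟩
  exact ⟨a, ha.1, ha.2, fun x hx hx' => ha' x ⟨hx, hx'⟩⟩

theorem line_next {R : Root X} {Ω : Set X} (W : Wts R Ω) (φ : X →ₗ[ℚ] ℚ) {a b : X} (hb : b ∈ Ω)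
    (h : φ a < φ b) : ∃ b', Next Ω φ a b' := by
  obtain ⟨c, hc, hc'⟩ := Set.exists_min_image {x | x ∈ Ω ∧ φ a < φ x} φ
    (W.fin.subset fun x hx => hx.1) ⟨b, hb, h⟩
  exact ⟨c, hc.1, hc.2, fun x hx hx' => hc' x ⟨hx, hx'⟩⟩

/-- Each weight is the smallest positive weight for some functional (even case). -/
theorem line_even {R : Root X} {Ω : Set X} (W : Wts R Ω) (h0 : (0 : X) ∉ Ω)
    (H2 : ∀ φ, Gen R Ω φ → ∀ a b, First Ω φ a → Next Ω φ a b → b - a ∈ R.Φ ∧ b + a ∈ R.Φ)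
    {ω : X} (hω : ω ∈ Ω) : ∃ φ, Gen R Ω φ ∧ First Ω φ ω := by
  have hω0 : ω ≠ 0 := by
    rintro rfl
    exact h0 hω
  obtain ⟨φ, hg, hp, hf⟩ := flag1 W hω hω0
  obtain ⟨a, ha⟩ := line_first W φ hω hp
  refine ⟨φ, hg, ?_⟩
  have hone : ∃ q : ℚ, ω = q • ω := ⟨1, (one_smul ℚ ω).symm⟩
  have haq : ∃ q : ℚ, a = q • ω := by
    by_contra hn
    push Not at hn
    have h1 := hf a ha.1 hn ha.2.1 ω hω hone
    have h2 := ha.2.2 ω hω hp
    linarith
  by_cases hne : a = ω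
  · rwa [hne] at ha
  exfalso
  have hlt : φ a < φ ω := lt_of_le_of_ne (ha.2.2 ω hω hp) fun h => hne (hg.2 a ha.1 ω hω h)
  obtain ⟨b, hb⟩ := line_next W φ hω hlt
  have hbp : 0 < φ b := ha.2.1.trans hb.2.1
  have hbq : ∃ q : ℚ, b = q • ω := by
    by_contra hn
    push Not at hn
    have h1 := hf b hb.1 hn hbp ω hω hone
    have h2 := hb.2.2 ω hω hlt
    linarith
  obtain ⟨h1, h2⟩ := H2 φ hg a b ha hb
  obtain ⟨q, rfl⟩ := haq
  obtain ⟨q', rfl⟩ := hbq
  have hap := ha.2.1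
  have hab := hb.2.1
  rw [map_smul, smul_eq_mul] at hap hbp hab
  rw [map_smul, smul_eq_mul] at hab
  have hq : 0 < q := (mul_pos_iff_of_pos_right hp).1 hap
  have hq' : 0 < q' := (mul_pos_iff_of_pos_right hp).1 hbp
  have hqq : q < q' := lt_of_mul_lt_mul_right hab hp.le
  have hd : q' - q ≠ 0 := by
    intro h
    linarith
  have h3 : ((q' + q) / (q' - q)) • (q' • ω - q • ω) = q' • ω + q • ω := by
    rw [← sub_smul, ← add_smul, smul_smul, div_mul_cancel₀ _ hd]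
  rcases R.red _ h1 ((q' + q) / (q' - q)) (by rw [h3]; exact h2) with h4 | h4
  · rw [div_eq_iff hd] at h4
    linarith
  · rw [div_eq_iff hd] at h4
    linarith

/-- The multiples of the smallest weight are integral. -/
theorem line_int {R : Root X} {Ω : Set X} (W : Wts R Ω) {φ : X →ₗ[ℚ] ℚ} {a : X}
    (ha : First Ω φ a) (hr : a ∈ R.Φ) {q : ℚ} (hq : 0 ≤ q) (hc : q • a ∈ Ω) :
    ∃ k : ℕ, q = k := by
  obtain ⟨n, hn⟩ := W.int a hr _ hc
  rw [map_smul, R.two a hr, smul_eq_mul] at hn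
  have hn0 : 0 ≤ n := by
    have : (0 : ℚ) ≤ n := by
      rw [← hn]
      positivity
    exact_mod_cast this
  obtain ⟨k, hk | hk⟩ : ∃ k : ℕ, n = 2 * k ∨ n = 2 * k + 1 := ⟨(n / 2).toNat, by omega⟩
  · refine ⟨k, ?_⟩
    rw [hk] at hn
    push_cast at hn
    linarith
  · exfalso
    rw [hk] at hn
    push_cast at hn
    have h1 := W.str a hr _ hc k (by
      rw [map_smul, R.two a hr, smul_eq_mul, hn]
      have : (0 : ℚ) ≤ k := Nat.cast_nonneg k
      linarith)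
    have h2 : q • a - (k : ℚ) • a = (1 / 2 : ℚ) • a := by
      rw [← sub_smul]
      congr 1
      linarith
    rw [h2] at h1
    have h3 : φ ((1 / 2 : ℚ) • a) = φ a / 2 := by
      rw [map_smul, smul_eq_mul]
      ring
    have h4 := ha.2.2 _ h1 (by
      rw [h3]
      have := ha.2.1
      linarith)
    rw [h3] at h4
    have := ha.2.1
    linarith

/-- Each weight is a positive multiple of a weight which is a root and the smallest positive weight
for some functional (odd case). -/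
theorem line_odd {R : Root X} {Ω : Set X} (W : Wts R Ω)
    (H1 : ∀ φ, Gen R Ω φ → ∀ a, First Ω φ a → a ∈ R.Φ)
    {ω : X} (hω : ω ∈ Ω) (hω0 : ω ≠ 0) :
    ∃ (φ : X →ₗ[ℚ] ℚ) (a : X) (r : ℕ), Gen R Ω φ ∧ First Ω φ a ∧ a ∈ R.Φ ∧ 1 ≤ r ∧
      ω = (r : ℚ) • a := by
  obtain ⟨φ, hg, hp, hf⟩ := flag1 W hω hω0
  obtain ⟨a, ha⟩ := line_first W φ hω hp
  have hone : ∃ q : ℚ, ω = q • ω := ⟨1, (one_smul ℚ ω).symm⟩
  have haq : ∃ q : ℚ, a = q • ω := by
    by_contra hn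
    push Not at hn
    have h1 := hf a ha.1 hn ha.2.1 ω hω hone
    have h2 := ha.2.2 ω hω hp
    linarith
  have hr := H1 φ hg a ha
  obtain ⟨q, hq⟩ := haq
  have hap := ha.2.1
  rw [hq, map_smul, smul_eq_mul] at hap
  have hq0 : 0 < q := (mul_pos_iff_of_pos_right hp).1 hap
  have hωa : ω = q⁻¹ • a := by
    rw [hq, smul_smul, inv_mul_cancel₀ hq0.ne', one_smul]
  obtain ⟨k, hk⟩ := line_int W ha hr (q := q⁻¹) (by positivity) (by rw [← hωa]; exact hω)
  refine ⟨φ, a, k, hg, ha, hr, ?_, by rw [← hk]; exact hωa⟩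
  rcases Nat.eq_zero_or_pos k with h | h
  · rw [h, Nat.cast_zero] at hk
    exact absurd hk (inv_ne_zero hq0.ne')
  · exact h

/-- There are no three proportional weights `a`, `2 a`, `3 a`. -/
theorem no_three {R : Root X} {Ω : Set X} (W : Wts R Ω)
    (H1 : ∀ φ, Gen R Ω φ → ∀ a, First Ω φ a → a ∈ R.Φ)
    (H2 : ∀ φ a, Line3 R Ω φ a → False)
    {a : X} (ha : a ∈ R.Φ) : (3 : ℚ) • a ∉ Ω := by
  intro h3
  have ha0 : a ≠ 0 := by
    rintro rfl
    exact R.zero ha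
  have hpr : R.pr a ((3 : ℚ) • a) = 6 := by
    rw [map_smul, R.two a ha, smul_eq_mul]
    norm_num
  have h2 : (2 : ℚ) • a ∈ Ω := by
    have h := W.str a ha _ h3 1 (by rw [hpr]; norm_num)
    have e : (3 : ℚ) • a - ((1 : ℕ) : ℚ) • a = (2 : ℚ) • a := by
      rw [← sub_smul]
      norm_num
    rwa [e] at h
  have h1 : a ∈ Ω := by
    have h := W.str a ha _ h3 2 (by rw [hpr]; norm_num)
    have e : (3 : ℚ) • a - ((2 : ℕ) : ℚ) • a = a := by
      rw [← sub_smul]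
      norm_num
    rwa [e] at h
  obtain ⟨φ, hg, hp, hf⟩ := flag1 W h1 ha0
  have hfirst : First Ω φ a := by
    obtain ⟨a', ha'⟩ := line_first W φ h1 hp
    have haq : ∃ q : ℚ, a' = q • a := by
      by_contra hn
      push Not at hn
      have h4 := hf a' ha'.1 hn ha'.2.1 a h1 ⟨1, (one_smul ℚ a).symm⟩
      have h5 := ha'.2.2 a h1 hp
      linarith
    have hr := H1 φ hg a' ha'
    obtain ⟨q, rfl⟩ := haq
    have hap := ha'.2.1
    rw [map_smul, smul_eq_mul] at hap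
    have hq0 : 0 < q := (mul_pos_iff_of_pos_right hp).1 hap
    rcases R.red a ha q hr with h | h
    · rw [h, one_smul] at ha'
      exact ha'
    · rw [h] at hq0
      norm_num at hq0
  have hnext : ∀ n : ℕ, 1 ≤ n → (((n + 1 : ℕ) : ℚ) • a ∈ Ω) →
      Next Ω φ ((n : ℚ) • a) (((n + 1 : ℕ) : ℚ) • a) := by
    intro n hn hm
    refine ⟨hm, ?_, ?_⟩
    · rw [map_smul, map_smul, smul_eq_mul, smul_eq_mul]
      apply mul_lt_mul_of_pos_right _ hp
      exact_mod_cast Nat.lt_succ_self n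
    · intro c hc hlt
      rw [map_smul, smul_eq_mul] at hlt
      have hn' : (1 : ℚ) ≤ n := by exact_mod_cast hn
      have hcp : 0 < φ c := by
        have : 0 < (n : ℚ) * φ a := by positivity
        linarith
      by_cases hcq : ∃ q : ℚ, c = q • a
      · obtain ⟨q, rfl⟩ := hcq
        rw [map_smul, smul_eq_mul] at hlt hcp
        rw [map_smul, map_smul, smul_eq_mul, smul_eq_mul]
        have hq0 : 0 < q := (mul_pos_iff_of_pos_right hp).1 hcp
        obtain ⟨k, rfl⟩ := line_int W hfirst ha hq0.le hc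
        have h4 : (n : ℚ) < k := lt_of_mul_lt_mul_right hlt hp.le
        have h5 : n < k := by exact_mod_cast h4
        apply mul_le_mul_of_nonneg_right _ hp.le
        exact_mod_cast h5
      · push Not at hcq
        exact (hf c hc hcq hcp _ hm ⟨_, rfl⟩).le
  refine H2 φ a ⟨hg, hfirst, ha, ?_, ?_⟩
  · have h := hnext 1 le_rfl (by
      have e : (((1 + 1 : ℕ) : ℚ)) = 2 := by norm_num
      rw [e]
      exact h2)
    have e1 : (((1 : ℕ) : ℚ)) • a = a := by rw [Nat.cast_one, one_smul]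
    have e2 : (((1 + 1 : ℕ) : ℚ)) = 2 := by norm_num
    rwa [e1, e2] at h
  · have h := hnext 2 (by norm_num) (by
      have e : (((2 + 1 : ℕ) : ℚ)) = 3 := by norm_num
      rw [e]
      exact h3)
    have e1 : (((2 : ℕ) : ℚ)) = 2 := by norm_num
    have e2 : (((2 + 1 : ℕ) : ℚ)) = 3 := by norm_num
    rwa [e1, e2] at h

end Pool.Agent.Y102.SP
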