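import Pool.Agent.Y102.SP.Bil
import Pool.Agent.Y102.SP.Pr

set_option autoImplicit false

open Module

namespace Pool.Agent.Y102.SP

variable {U : Type} [AddCommGroup U] [Module ℂ U] [FiniteDimensional ℂ U] [Nontrivial U]
  {T : Type} [AddCommGroup T] [Module ℂ T] {V 𝔥 : Submodule ℂ (Module.End ℂ U)} (S : Sys V 𝔥 T)

namespace Sys

/-- Vectors of weight `-a` applied to a highest weight vector are killed by the positive roots. -/
theorem se1_kill (h0 : (0 : Module.Dual ℂ T) ∉ S.Om) {φ : Module.Dual ℂ T →ₗ[ℚ] ℚ}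
    (hφ : Gen S.R S.Om φ) {a : Module.Dual ℂ T} (ha : First S.Om φ a) {χ : Module.Dual ℂ T} {s : U}
    (hs : S.Top φ χ s) {w : Module.End ℂ U} (hw : w ∈ S.vw (-a)) {α : Module.Dual ℂ T}
    (hα : α ∈ S.R.Φ) (hp : 0 < φ α) : S.e α (w s) = 0 := by
  have h1 : S.e α (w s) = (S.e α * w - w * S.e α) s := by
    rw [LinearMap.sub_apply, Module.End.mul_apply, Module.End.mul_apply, hs.root S hα hp, map_zero,
      sub_zero]
  rw [h1]
  have h2 := S.act hα hw
  by_cases hy : S.e α * w - w * S.e α = 0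
  · rw [hy]; rfl
  have h3 : α + -a ∈ S.Om := fun hbot => hy (by
    rw [hbot] at h2
    exact (Submodule.mem_bot ℂ).mp h2)
  rcases lt_trichotomy (φ (α + -a)) 0 with h4 | h4 | h4
  · exfalso
    have h5 := S.neg_mem h3
    have h6 : 0 < φ (-(α + -a)) := by rw [map_neg]; linarith
    have h7 := ha.2.2 _ h5 h6
    rw [map_neg, map_add, map_neg] at h7
    linarith
  · exfalso
    have h5 := S.neg_mem h3
    have h6 := hφ.2 _ h3 _ h5 (by rw [map_neg, h4, neg_zero])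
    have h7 : (2 : ℂ) • (α + -a) = 0 := by
      rw [two_smul]
      nth_rewrite 2 [h6]
      exact add_neg_cancel _
    have h8 : α + -a = 0 := (smul_eq_zero.mp h7).resolve_left two_ne_zero
    rw [h8] at h3
    exact h0 h3
  · exact hs.kill S h4 h2.2

include S in
/-- The contraction formula. -/
theorem se1_contr {v w : Module.End ℂ U} (hv : v ∈ V) (hw : w ∈ V) (s : U) :
    v (w s) = bil v w • s - w (v s) := by
  have h1 := congrArg (fun f : Module.End ℂ U => f s) (S.clif.anti v hv w hw)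
  simp only [LinearMap.add_apply, Module.End.mul_apply, LinearMap.smul_apply,
    Module.End.one_apply] at h1
  rw [← h1]
  abel

theorem se1 (h0 : (0 : Module.Dual ℂ T) ∉ S.Om) {φ : Module.Dual ℂ T →ₗ[ℚ] ℚ} (hφ : Gen S.R S.Om φ)
    {a : Module.Dual ℂ T} (ha : First S.Om φ a) : finrank ℂ (S.vw a) = 1 := by
  obtain ⟨χ, s, hs⟩ := S.exists_top φ
  have hna : -a ∈ S.Om := S.neg_mem ha.1
  obtain ⟨w0, hw0, hw00⟩ := Submodule.exists_mem_ne_zero_of_ne_bot hna
  have hkey : ∀ w ∈ S.vw (-a), w ≠ 0 → ∃ x ∈ S.vw a, bil x w = 1 ∧ x s = 0 ∧ x (w s) = s := by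
    intro w hw hw1
    obtain ⟨x, hx, hb⟩ := S.dual hw hw1
    rw [neg_neg] at hx
    rw [bil_comm] at hb
    have hxs : x s = 0 := hs.kill S ha.2.1 hx.2
    refine ⟨x, hx, hb, hxs, ?_⟩
    rw [S.se1_contr hx.1 hw.1, hb, one_smul, hxs, map_zero, sub_zero]
  obtain ⟨x, hx, -, hxs, hxw⟩ := hkey w0 hw0 hw00
  rw [← S.finrank_neg a]
  refine finrank_eq_one (⟨w0, hw0⟩ : S.vw (-a)) (fun h => hw00 (congrArg Subtype.val h)) ?_
  rintro ⟨w, hw⟩
  have hmem : w * x ∈ Algebra.adjoin ℂ (𝔥 : Set (Module.End ℂ U)) := S.gen w hw.1 x hx.1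
  have hwt : w * x ∈ wsp S.ι 0 := by
    intro t
    have e1 := ((S.mem_vw).mp hw).2 t
    have e2 := ((S.mem_vw).mp hx).2 t
    have e3 : S.ι t * (w * x) - w * x * S.ι t =
        (S.ι t * w - w * S.ι t) * x + w * (S.ι t * x - x * S.ι t) := by
      noncomm_ring
    rw [e3, e1, e2, smul_mul_assoc, mul_smul_comm, ← add_smul]
    simp
  obtain ⟨c, hc⟩ := S.pr2 hφ.1 (S.usp_mul hw0.2 hs.mem)
    (fun α hα hp => S.se1_kill h0 hφ ha hs hw0 hα hp) hmem hwt
  rw [Module.End.mul_apply, hxw] at hc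
  refine ⟨c, Subtype.ext ?_⟩
  show c • w0 = w
  by_contra hne
  have hz : w - c • w0 ≠ 0 := fun h => hne (sub_eq_zero.mp h).symm
  obtain ⟨x', -, -, -, hx'⟩ := hkey (w - c • w0)
    ((S.vw (-a)).sub_mem hw ((S.vw (-a)).smul_mem c hw0)) hz
  rw [LinearMap.sub_apply, LinearMap.smul_apply, hc, sub_self, map_zero] at hx'
  exact hs.ne hx'.symm

end Sys

end Pool.Agent.Y102.SP
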