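import Pool.Agent.Y102.SP.Bil
import Pool.Agent.Y102.SP.Pr
import Pool.Agent.Y102.SP.SE1

set_option autoImplicit false

open Module

namespace Pool.Agent.Y102.SP

variable {U : Type} [AddCommGroup U] [Module ℂ U] [FiniteDimensional ℂ U] [Nontrivial U]
  {T : Type} [AddCommGroup T] [Module ℂ T] {V 𝔥 : Submodule ℂ (Module.End ℂ U)} (S : Sys V 𝔥 T)

namespace Sys

omit [FiniteDimensional ℂ U] [Nontrivial U] in
theorem se2_mem {χ : Module.Dual ℂ T} {x : Module.End ℂ U} (hx : x ∈ S.vw χ) (hx0 : x ≠ 0) :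
    χ ∈ S.Om := by
  intro h
  exact hx0 ((Submodule.eq_bot_iff _).1 h x hx)

omit [FiniteDimensional ℂ U] [Nontrivial U] in
theorem se2_wsp {χ ψ : Module.Dual ℂ T} {x y : Module.End ℂ U} (hx : x ∈ wsp S.ι χ)
    (hy : y ∈ wsp S.ι ψ) : x * y ∈ wsp S.ι (χ + ψ) := by
  intro t
  have h1 := hx t
  have h2 := hy t
  have e : S.ι t * (x * y) - x * y * S.ι t =
      (S.ι t * x - x * S.ι t) * y + x * (S.ι t * y - y * S.ι t) := by
    noncomm_ring
  rw [e, h1, h2, smul_mul_assoc, mul_smul_comm, LinearMap.add_apply, add_smul]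

omit [FiniteDimensional ℂ U] [Nontrivial U] in
include S in
/-- contraction -/
theorem se2_clif {x y : Module.End ℂ U} (hx : x ∈ V) (hy : y ∈ V) (s : U) :
    x (y s) = bil x y • s - y (x s) := by
  have h := LinearMap.congr_fun (S.clif.anti x hx y hy) s
  rw [LinearMap.add_apply, LinearMap.smul_apply] at h
  exact eq_sub_of_add_eq h

omit [FiniteDimensional ℂ U] [Nontrivial U] in
/-- the action of a root vector on `w v` -/
theorem se2_act (e w : Module.End ℂ U) (v : U) : e (w v) = (e * w - w * e) v + w (e v) := by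
  rw [LinearMap.sub_apply, Module.End.mul_apply, Module.End.mul_apply]
  abel

/-- the analysis of the commutators of root vectors with vectors of negative weights -/
theorem se2_A (h0 : (0 : Module.Dual ℂ T) ∉ S.Om) {φ : Module.Dual ℂ T →ₗ[ℚ] ℚ}
    (hφ : Gen S.R S.Om φ) {χ : Module.Dual ℂ T} {s : U} (hs : S.Top φ χ s)
    {β : Module.Dual ℂ T} (hβ : β ∈ S.R.Φ) {c : Module.Dual ℂ T} {w : Module.End ℂ U}
    (hw : w ∈ S.vw (-c)) :
    (S.e β * w - w * S.e β) s = 0 ∨ (c - β ∈ S.Om ∧ 0 < φ (c - β)) := by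
  have hy := S.act hβ hw
  by_cases hy0 : S.e β * w - w * S.e β = 0
  · left
    rw [hy0, LinearMap.zero_apply]
  have hOm : β + -c ∈ S.Om := S.se2_mem hy hy0
  have hneg : c - β ∈ S.Om := by
    have h1 := S.neg_mem hOm
    have e : -(β + -c) = c - β := by abel
    rwa [e] at h1
  rcases lt_trichotomy (φ (β + -c)) 0 with h | h | h
  · right
    refine ⟨hneg, ?_⟩
    have e : φ (c - β) = -φ (β + -c) := by
      rw [← map_neg]
      congr 1
      abel
    rw [e]
    linarith
  · exfalso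
    have h1 := hφ.2 (β + -c) hOm (c - β) hneg (by
      have e : φ (c - β) = -φ (β + -c) := by
        rw [← map_neg]
        congr 1
        abel
      rw [e, h, neg_zero])
    have e2 : c - β = -(β + -c) := by abel
    rw [e2] at h1
    have h2 : β + -c = 0 := by
      have h3 : (2 : ℂ) • (β + -c) = 0 := by
        rw [two_smul]
        nth_rw 2 [h1]
        rw [add_neg_cancel]
      exact (smul_eq_zero.1 h3).resolve_left (by norm_num)
    rw [h2] at hOm
    exact h0 hOm
  · left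
    exact Top.kill S hs h hy.2

theorem se2_A1 (h0 : (0 : Module.Dual ℂ T) ∉ S.Om) {φ : Module.Dual ℂ T →ₗ[ℚ] ℚ}
    (hφ : Gen S.R S.Om φ) {a : Module.Dual ℂ T} (ha : First S.Om φ a)
    {χ : Module.Dual ℂ T} {s : U} (hs : S.Top φ χ s)
    {β : Module.Dual ℂ T} (hβ : β ∈ S.R.Φ) (hβp : 0 < φ β) {w : Module.End ℂ U}
    (hw : w ∈ S.vw (-a)) :
    (S.e β * w - w * S.e β) s = 0 := by
  rcases S.se2_A h0 hφ hs hβ hw with h | ⟨h1, h2⟩
  · exact h
  · have h3 := ha.2.2 _ h1 h2
    rw [map_sub] at h3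
    linarith

theorem se2_A2 (h0 : (0 : Module.Dual ℂ T) ∉ S.Om) {φ : Module.Dual ℂ T →ₗ[ℚ] ℚ}
    (hφ : Gen S.R S.Om φ) {a b : Module.Dual ℂ T} (ha : First S.Om φ a) (hb : Next S.Om φ a b)
    {χ : Module.Dual ℂ T} {s : U} (hs : S.Top φ χ s)
    {β : Module.Dual ℂ T} (hβ : β ∈ S.R.Φ) (hβp : 0 < φ β) {w : Module.End ℂ U}
    (hw : w ∈ S.vw (-b)) :
    (S.e β * w - w * S.e β) s = 0 ∨ b - β = a := by
  rcases S.se2_A h0 hφ hs hβ hw with h | ⟨h1, h2⟩
  · exact Or.inl h
  · right
    have h3 := ha.2.2 _ h1 h2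
    have h4 : φ (b - β) < φ b := by
      rw [map_sub]
      linarith
    have h5 : ¬ φ a < φ (b - β) := fun h6 => absurd (hb.2.2 _ h1 h6) (not_le.2 h4)
    exact hφ.2 _ h1 _ ha.1 (le_antisymm (not_lt.1 h5) h3)

theorem se2 (h0 : (0 : Module.Dual ℂ T) ∉ S.Om) {φ : Module.Dual ℂ T →ₗ[ℚ] ℚ} (hφ : Gen S.R S.Om φ)
    {a b : Module.Dual ℂ T} (ha : First S.Om φ a) (hb : Next S.Om φ a b) :
    b - a ∈ S.R.Φ ∧ b + a ∈ S.R.Φ := by
  obtain ⟨χ, s, hs⟩ := S.exists_top φ
  have hφa : 0 < φ a := ha.2.1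
  have hφb : 0 < φ b := hφa.trans hb.2.1
  have hane : a ≠ 0 := by
    rintro rfl
    exact h0 ha.1
  obtain ⟨xa, hxa, hxa0⟩ := (Submodule.ne_bot_iff _).1 ha.1
  obtain ⟨xb, hxb, hxb0⟩ := (Submodule.ne_bot_iff _).1 hb.1
  obtain ⟨wa, hwa, hba⟩ := S.dual hxa hxa0
  obtain ⟨wb, hwb, hbb⟩ := S.dual hxb hxb0
  have hxas : xa s = 0 := Top.kill S hs hφa hxa.2
  have hxbs : xb s = 0 := Top.kill S hs hφb hxb.2
  have hxawa : xa (wa s) = s := by
    rw [S.se2_clif hxa.1 hwa.1, hba, one_smul, hxas, map_zero, sub_zero]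
  have hxbwb : xb (wb s) = s := by
    rw [S.se2_clif hxb.1 hwb.1, hbb, one_smul, hxbs, map_zero, sub_zero]
  have hroot : ∀ β ∈ S.R.Φ, 0 < φ β → S.e β s = 0 := fun β hβ hp => Top.root S hs hβ hp
  constructor
  · by_contra hcon
    have hk : ∀ β ∈ S.R.Φ, 0 < φ β → S.e β (wb s) = 0 := by
      intro β hβ hp
      rw [se2_act, hroot β hβ hp, map_zero, add_zero]
      rcases S.se2_A2 h0 hφ ha hb hs hβ hp hwb with h | h
      · exact h
      · exfalso
        apply hcon
        have : b - a = β := by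
          rw [← h]
          abel
        rw [this]
        exact hβ
    have h1 := S.pr1 hφ.1 (S.usp_mul hwb.2 hs.mem) hk (S.gen wa hwa.1 xb hxb.1)
      (S.se2_wsp hwa.2 hxb.2) (by
        rw [map_add, map_neg]
        linarith [hb.2.1])
    rw [Module.End.mul_apply, hxbwb] at h1
    rw [h1, map_zero] at hxawa
    exact hs.ne hxawa.symm
  · by_contra hcon
    have hwa0 : wa ≠ 0 := by
      rintro rfl
      rw [LinearMap.zero_apply, map_zero] at hxawa
      exact hs.ne hxawa.symm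
    have hfin : finrank ℂ (S.vw (-a)) = 1 := by
      rw [S.finrank_neg, S.se1 h0 hφ ha]
    have hk : ∀ β ∈ S.R.Φ, 0 < φ β → S.e β (wa (wb s)) = 0 := by
      intro β hβ hp
      have hy := S.act hβ hwa
      have h1 : (S.e β * wa - wa * S.e β) (wb s) = 0 := by
        rw [S.se2_clif hy.1 hwb.1, S.se2_A1 h0 hφ ha hs hβ hp hwa, map_zero, sub_zero]
        rw [S.orth hy hwb, zero_smul]
        intro h
        apply hcon
        have : b + a = β := by
          have e : β + -a + -b = β - (b + a) := by abel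
          rw [e] at h
          exact (sub_eq_zero.1 h).symm
        rw [this]
        exact hβ
      have h2 : wa (S.e β (wb s)) = 0 := by
        rw [se2_act (S.e β) wb s, hroot β hβ hp, map_zero, add_zero]
        rcases S.se2_A2 h0 hφ ha hb hs hβ hp hwb with h | h
        · rw [h, map_zero]
        · have hyb := S.act hβ hwb
          have e : β + -b = -a := by
            rw [← h]
            abel
          rw [e] at hyb
          obtain ⟨c, hc⟩ := (finrank_eq_one_iff_of_nonzero' (⟨wa, hwa⟩ : S.vw (-a))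
            (fun h3 => hwa0 (congrArg Subtype.val h3))).1 hfin ⟨_, hyb⟩
          have hc' : c • wa = S.e β * wb - wb * S.e β := congrArg Subtype.val hc
          rw [← hc', LinearMap.smul_apply, map_smul]
          have h4 := LinearMap.congr_fun (S.sq_zero hwa (neg_ne_zero.2 hane)) s
          rw [Module.End.mul_apply, LinearMap.zero_apply] at h4
          rw [h4, smul_zero]
      rw [se2_act, h1, h2, add_zero]
    have h1 := S.pr1 hφ.1 (S.usp_mul hwa.2 (S.usp_mul hwb.2 hs.mem)) hk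
      (S.gen xb hxb.1 xa hxa.1) (S.se2_wsp hxb.2 hxa.2) (by
        rw [map_add]
        linarith)
    have h2 : xa (wb s) = 0 := by
      rw [S.se2_clif hxa.1 hwb.1, hxas, map_zero, sub_zero, S.orth hxa hwb, zero_smul]
      intro h
      have h3 : a = b := by
        rw [← sub_eq_zero, sub_eq_add_neg]
        exact h
      have h4 := hb.2.1
      rw [h3] at h4
      exact lt_irrefl _ h4
    have h3 : xa (wa (wb s)) = wb s := by
      rw [S.se2_clif hxa.1 hwa.1, hba, one_smul, h2, map_zero, sub_zero]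
    rw [Module.End.mul_apply, h3, hxbwb] at h1
    exact hs.ne h1

end Sys

end Pool.Agent.Y102.SP
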