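import Pool.Agent.Y102.SP.Bil
import Pool.Agent.Y102.SP.Pr
import Pool.Agent.Y102.SP.Fun

set_option autoImplicit false

open Module

namespace Pool.Agent.Y102.SP

variable {U : Type} [AddCommGroup U] [Module ℂ U] [FiniteDimensional ℂ U] [Nontrivial U]
  {T : Type} [AddCommGroup T] [Module ℂ T] {V 𝔥 : Submodule ℂ (Module.End ℂ U)} (S : Sys V 𝔥 T)

namespace Sys

/-- The product of two endomorphisms of weight zero has weight zero. -/
theorem SZ_mul_wsp {x y : Module.End ℂ U} (hx : x ∈ wsp S.ι 0) (hy : y ∈ wsp S.ι 0) :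
    x * y ∈ wsp S.ι 0 := by
  intro t
  have h1 : S.ι t * x - x * S.ι t = (0 : Module.Dual ℂ T) t • x := hx t
  have h2 : S.ι t * y - y * S.ι t = (0 : Module.Dual ℂ T) t • y := hy t
  rw [LinearMap.zero_apply, zero_smul, sub_eq_zero] at h1 h2
  rw [LinearMap.zero_apply, zero_smul, ← mul_assoc, h1, mul_assoc, h2, mul_assoc, sub_self]

/-- Vectors of weight zero orthogonal to a non-isotropic one kill the top weight space. -/
theorem SZ_claim {φ : Module.Dual ℂ T →ₗ[ℚ] ℚ} (hφ : ∀ α ∈ S.R.Φ, φ α ≠ 0)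
    {χ : Module.Dual ℂ T} {s₀ : U} (h0 : S.Top φ χ s₀) {v w : Module.End ℂ U}
    (hv : v ∈ S.vw 0) (hw : w ∈ S.vw 0) (hvv : bil v v ≠ 0) (hvw : bil v w = 0) {s : U}
    (hs : s ∈ usp S.ι χ) : w s = 0 := by
  by_cases hs0 : s = 0
  · rw [hs0, map_zero]
  have hkill : ∀ u ∈ usp S.ι χ, ∀ α ∈ S.R.Φ, 0 < φ α → S.e α u = 0 := by
    intro u hu α hα hp
    by_cases hu0 : u = 0
    · rw [hu0, map_zero]
    · exact Top.root S ⟨hu0, hu, h0.max⟩ hα hp
  have hstab : ∀ x ∈ S.vw 0, ∀ u ∈ usp S.ι χ, x u ∈ usp S.ι χ := by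
    intro x hx u hu
    have := S.usp_mul hx.2 hu
    rwa [zero_add] at this
  have hq : v * v = (bil v v / 2) • (1 : Module.End ℂ U) := by
    have h1 := S.clif.anti v hv.1 v hv.1
    have h2 : (2 : ℂ) • (v * v) = bil v v • (1 : Module.End ℂ U) := by rw [two_smul]; exact h1
    have h3 : v * v = (2 : ℂ)⁻¹ • ((2 : ℂ) • (v * v)) := by
      rw [smul_smul, inv_mul_cancel₀ (two_ne_zero), one_smul]
    rw [h3, h2, smul_smul]
    congr 1
    ring
  set q : ℂ := bil v v / 2 with hqdef
  have hq0 : q ≠ 0 := div_ne_zero hvv two_ne_zero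
  have hvvu : ∀ u : U, v (v u) = q • u := by
    intro u
    have := congrArg (fun f : Module.End ℂ U => f u) hq
    simpa using this
  have hanti : v * w = -(w * v) := by
    have h1 := S.clif.anti v hv.1 w hw.1
    rw [hvw, zero_smul] at h1
    exact eq_neg_of_add_eq_zero_left h1
  have hantiu : ∀ u : U, v (w u) = -(w (v u)) := by
    intro u
    have := congrArg (fun f : Module.End ℂ U => f u) hanti
    simpa using this
  have hpr : ∀ u ∈ usp S.ι χ, ∃ c : ℂ, v (w u) = c • u := by
    intro u hu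
    obtain ⟨c, hc⟩ := S.pr2 hφ hu (hkill u hu) (S.gen v hv.1 w hw.1) (S.SZ_mul_wsp hv.2 hw.2)
    exact ⟨c, hc⟩
  obtain ⟨c, hc⟩ := hpr s hs
  have hvs := hstab v hv s hs
  have hvs0 : v s ≠ 0 := by
    intro h
    have := hvvu s
    rw [h, map_zero] at this
    exact (smul_ne_zero hq0 hs0) this.symm
  -- `v w (v s) = - c v s`
  have h1 : v (w (v s)) = -(c • v s) := by
    rw [← map_smul, ← hc]
    have h2 := hantiu s
    have h3 : w (v s) = -(v (w s)) := by rw [h2, neg_neg]
    rw [h3, map_neg]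
  by_cases hc0 : c = 0
  · rw [hc0, zero_smul] at hc
    have := hvvu (w s)
    rw [hc, map_zero] at this
    exact (smul_eq_zero.mp this.symm).resolve_left hq0
  · exfalso
    obtain ⟨c', hc'⟩ := hpr (s + v s) ((usp S.ι χ).add_mem hs hvs)
    rw [map_add, map_add, hc, h1, smul_add] at hc'
    -- `(c - c') s = (c + c') v s`
    have e1 : (c - c') • s = (c + c') • v s := by
      rw [sub_smul, add_smul]
      have := hc'
      rw [← sub_eq_add_neg, sub_eq_iff_eq_add] at this
      rw [sub_eq_iff_eq_add, this]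
      abel
    have e2 := congrArg (fun u => v (w u)) e1
    simp only [map_smul] at e2
    rw [hc, h1, smul_smul, smul_neg, smul_smul] at e2
    -- `c (c - c') s = - c (c + c') v s`
    have e3 : (c - c') • s = -((c + c') • v s) := by
      have h4 : c • ((c - c') • s) = c • (-((c + c') • v s)) := by
        rw [smul_smul, smul_neg, smul_smul, mul_comm c (c - c'), mul_comm c (c + c')]
        exact e2
      exact smul_right_injective U hc0 h4
    have e4 : (c + c') • v s = 0 := by
      have h6 : (c + c') • v s = -((c + c') • v s) := by rw [← e3, e1]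
      have h7 : (2 : ℂ) • ((c + c') • v s) = 0 := by
        rw [two_smul]
        nth_rewrite 2 [h6]
        exact add_neg_cancel _
      exact (smul_eq_zero.mp h7).resolve_left two_ne_zero
    have e5 : (c - c') • s = 0 := by rw [e1, e4]
    have e6 : c + c' = 0 := (smul_eq_zero.mp e4).resolve_right hvs0
    have e7 : c - c' = 0 := (smul_eq_zero.mp e5).resolve_right hs0
    apply hc0
    have : (2 : ℂ) * c = 0 := by linear_combination e6 + e7
    exact (mul_eq_zero.mp this).resolve_left two_ne_zero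

/-- The zero weight space is at most one-dimensional. -/
theorem finrank_zero : finrank ℂ (S.vw 0) ≤ 1 := by
  by_contra hcon
  push Not at hcon
  -- a generic functional and a top vector
  obtain ⟨φ, -, hφ'⟩ := avoid S.R.fin (⊥ : Submodule ℚ (Module.Dual ℂ T))
  have hφ : ∀ α ∈ S.R.Φ, φ α ≠ 0 := by
    intro α hα
    refine hφ' α hα fun h => ?_
    rw [Submodule.mem_bot] at h
    rw [h] at hα
    exact S.R.zero hα
  obtain ⟨χ, s, htop⟩ := S.exists_top φ
  -- a non-isotropic vector
  have hdual : ∀ x ∈ S.vw 0, x ≠ 0 → ∃ y ∈ S.vw 0, bil x y = 1 := by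
    intro x hx hx0
    obtain ⟨y, hy, h⟩ := S.dual hx hx0
    rw [neg_zero] at hy
    exact ⟨y, hy, h⟩
  have hne : ∃ x ∈ S.vw 0, x ≠ 0 := by
    by_contra h
    push Not at h
    have : S.vw 0 = ⊥ := (Submodule.eq_bot_iff _).mpr h
    rw [this, finrank_bot] at hcon
    omega
  obtain ⟨v, hv, hvv⟩ : ∃ v ∈ S.vw 0, bil v v ≠ 0 := by
    by_contra h
    push Not at h
    obtain ⟨x, hx, hx0⟩ := hne
    obtain ⟨y, hy, hxy⟩ := hdual x hx hx0
    have h1 := h (x + y) ((S.vw 0).add_mem hx hy)
    rw [bil_add_left, bil_add_right, bil_add_right, h x hx, h y hy, bil_comm y x, hxy] at h1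
    norm_num at h1
  -- a second vector
  obtain ⟨v', hv', hnot⟩ : ∃ v' ∈ S.vw 0, v' ∉ Submodule.span ℂ {v} := by
    by_contra h
    push Not at h
    have hle : S.vw 0 ≤ Submodule.span ℂ {v} := h
    have h1 := Submodule.finrank_mono hle
    have h2 : finrank ℂ (Submodule.span ℂ {v}) ≤ 1 :=
      (finrank_span_le_card ({v} : Set (Module.End ℂ U))).trans (by simp)
    omega
  let x : Module.End ℂ U := v' + (-(bil v v' / bil v v)) • v
  have hx : x ∈ S.vw 0 := (S.vw 0).add_mem hv' ((S.vw 0).smul_mem _ hv)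
  have hvx : bil v x = 0 := by
    show bil v (v' + (-(bil v v' / bil v v)) • v) = 0
    rw [bil_add_right, bil_smul_right]
    field_simp
    ring
  have hx0 : x ≠ 0 := by
    intro h
    apply hnot
    have h1 : v' = (bil v v' / bil v v) • v := by
      have : v' + (-(bil v v' / bil v v)) • v = 0 := h
      rw [neg_smul, ← sub_eq_add_neg, sub_eq_zero] at this
      exact this
    rw [h1]
    exact Submodule.smul_mem _ _ (Submodule.mem_span_singleton_self v)
  obtain ⟨w0, hw0, hxw0⟩ := hdual x hx hx0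
  let w : Module.End ℂ U := w0 + (-(bil v w0 / bil v v)) • v
  have hw : w ∈ S.vw 0 := (S.vw 0).add_mem hw0 ((S.vw 0).smul_mem _ hv)
  have hvw : bil v w = 0 := by
    show bil v (w0 + (-(bil v w0 / bil v v)) • v) = 0
    rw [bil_add_right, bil_smul_right]
    field_simp
    ring
  have hxw : bil x w = 1 := by
    show bil x (w0 + (-(bil v w0 / bil v v)) • v) = 1
    rw [bil_add_right, bil_smul_right, hxw0, bil_comm x v, hvx, mul_zero, add_zero]
  have k1 := S.SZ_claim hφ htop hv hx hvv hvx htop.mem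
  have k2 := S.SZ_claim hφ htop hv hw hvv hvw htop.mem
  have h3 := congrArg (fun f : Module.End ℂ U => f s) (S.clif.anti x hx.1 w hw.1)
  have h4 : x (w s) + w (x s) = bil x w • s := by simpa using h3
  rw [k1, k2, map_zero, map_zero, hxw, one_smul, add_zero] at h4
  exact htop.ne h4.symm

end Sys

end Pool.Agent.Y102.SP
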