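import Pool.Agent.Y102.SP.Bil
import Pool.Agent.Y102.SP.Pr
import Pool.Agent.Y102.SP.SZ

set_option autoImplicit false

open Module

namespace Pool.Agent.Y102.SP

variable {U : Type} [AddCommGroup U] [Module ℂ U] [FiniteDimensional ℂ U] [Nontrivial U]
  {T : Type} [AddCommGroup T] [Module ℂ T] {V 𝔥 : Submodule ℂ (Module.End ℂ U)} (S : Sys V 𝔥 T)

namespace Sys

theorem st1_mulw {χ ψ : Module.Dual ℂ T} {x y : Module.End ℂ U} (hx : x ∈ wsp S.ι χ)
    (hy : y ∈ wsp S.ι ψ) : x * y ∈ wsp S.ι (χ + ψ) := by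
  intro t
  have h1 := hx t
  have h2 := hy t
  have h3 : S.ι t * (x * y) - x * y * S.ι t
      = (S.ι t * x - x * S.ι t) * y + x * (S.ι t * y - y * S.ι t) := by
    noncomm_ring
  rw [h3, h1, h2, LinearMap.add_apply, add_smul, smul_mul_assoc, mul_smul_comm]

theorem st1_con (hc : Clif V) {x w : Module.End ℂ U} (hx : x ∈ V) (hw : w ∈ V) (s : U) :
    x (w s) = bil x w • s - w (x s) := by
  have h := congrArg (fun f : Module.End ℂ U => f s) (hc.anti x hx w hw)
  simp only [LinearMap.add_apply, Module.End.mul_apply, LinearMap.smul_apply,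
    Module.End.one_apply] at h
  rw [← h]; abel

theorem st1_v0 (h0 : (0 : Module.Dual ℂ T) ∈ S.Om) (h1 : finrank ℂ (S.vw 0) ≤ 1) :
    ∃ v ∈ S.vw 0, v ≠ 0 ∧ (∃ k : ℂ, k ≠ 0 ∧ v * v = k • (1 : Module.End ℂ U)) ∧
      ∀ y ∈ S.vw 0, ∃ c : ℂ, y = c • v := by
  obtain ⟨v, hv, hv0⟩ := (Submodule.ne_bot_iff _).1 h0
  have hs : ∀ y ∈ S.vw 0, ∃ c : ℂ, y = c • v := by
    intro y hy
    have h2 : finrank ℂ (S.vw 0) = 1 := by
      refine le_antisymm h1 ?_
      haveI : Nontrivial (S.vw 0) := ⟨⟨⟨v, hv⟩, 0, by simpa [Subtype.ext_iff] using hv0⟩⟩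
      exact Module.finrank_pos
    obtain ⟨c, hc⟩ := (finrank_eq_one_iff_of_nonzero' (⟨v, hv⟩ : S.vw 0)
      (by simpa [Subtype.ext_iff] using hv0)).1 h2 ⟨y, hy⟩
    exact ⟨c, by simpa using (congrArg Subtype.val hc).symm⟩
  refine ⟨v, hv, hv0, ?_, hs⟩
  obtain ⟨y, hy, hb⟩ := S.dual hv hv0
  rw [neg_zero] at hy
  obtain ⟨c, rfl⟩ := hs y hy
  rw [bil_smul_right] at hb
  have hb0 : bil v v ≠ 0 := by
    intro h; rw [h, mul_zero] at hb; exact one_ne_zero hb.symm
  refine ⟨bil v v / 2, div_ne_zero hb0 two_ne_zero, ?_⟩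
  have h3 := S.clif.anti v hv.1 v hv.1
  have h4 : (2 : ℂ) • (v * v) = bil v v • (1 : Module.End ℂ U) := by
    rw [two_smul]; exact h3
  have h5 : v * v = (1 / 2 : ℂ) • ((2 : ℂ) • (v * v)) := by
    rw [smul_smul]; norm_num
  rw [h5, h4, smul_smul]
  congr 1; ring

/-- A root vector of positive weight shifts a vector of weight `-c`. -/
theorem st1_tri {φ : Module.Dual ℂ T →ₗ[ℚ] ℚ} (hφ : Gen S.R S.Om φ) {β c : Module.Dual ℂ T}
    (hβ : β ∈ S.R.Φ) (hc : c ∈ S.Om) (hpc : 0 < φ c) {w : Module.End ℂ U} (hw : w ∈ S.vw (-c))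
    (hp : 0 < φ β) :
    S.e β * w - w * S.e β = 0 ∨ 0 < φ (β + -c) ∨ (c - β ∈ S.Om ∧ 0 < φ (c - β) ∧
      φ (c - β) < φ c) ∨ β = c := by
  by_cases hy : S.e β * w - w * S.e β = 0
  · exact Or.inl hy
  right
  have hm := S.act hβ hw
  have hO : β + -c ∈ S.Om := by
    intro h
    rw [h] at hm
    exact hy ((Submodule.mem_bot ℂ).1 hm)
  have hO' : c - β ∈ S.Om := by
    have := S.neg_mem hO
    rwa [show -(β + -c) = c - β by abel] at this
  rcases lt_trichotomy (φ (β + -c)) 0 with h | h | h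
  · right; left
    refine ⟨hO', ?_, ?_⟩
    · have : φ (c - β) = -φ (β + -c) := by rw [← map_neg]; congr 1; abel
      rw [this]; linarith
    · rw [map_sub]; linarith
  · right; right
    have h2 : φ (c - β) = -φ (β + -c) := by rw [← map_neg]; congr 1; abel
    have h3 := hφ.2 _ hO _ hO' (by rw [h2, h, neg_zero])
    have h4 : β + -c = -(β + -c) := by rw [h3]; nth_rw 1 [← h3]; abel
    have h5 : (2 : ℂ) • (β + -c) = 0 := by
      rw [two_smul]; nth_rw 1 [h4]; abel
    have h6 : β + -c = 0 := by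
      rcases smul_eq_zero.1 h5 with h7 | h7
      · norm_num at h7
      · exact h7
    rw [← sub_eq_add_neg] at h6
    exact sub_eq_zero.1 h6
  · left; exact h

theorem st1 (h0 : (0 : Module.Dual ℂ T) ∈ S.Om) {φ : Module.Dual ℂ T →ₗ[ℚ] ℚ} (hφ : Gen S.R S.Om φ)
    {a : Module.Dual ℂ T} (ha : First S.Om φ a) : a ∈ S.R.Φ ∧ finrank ℂ (S.vw a) = 1 := by
  have hz := S.finrank_zero
  obtain ⟨v, hv, hv0, ⟨k, hk, hvv⟩, hvs⟩ := S.st1_v0 h0 hz
  obtain ⟨χ, s, hs⟩ := S.exists_top φ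
  obtain ⟨haO, hpa, hmin⟩ := ha
  have hna : -a ∈ S.Om := S.neg_mem haO
  -- the main point
  have key : ∀ w ∈ S.vw (-a), w ≠ 0 → a ∈ S.R.Φ ∧ S.e a * w - w * S.e a ≠ 0 := by
    intro w hw hw0
    obtain ⟨x, hx, hb⟩ := S.dual hw hw0
    rw [neg_neg] at hx
    have hxs : x s = 0 := hs.kill S hpa hx.2
    have hu : w s ∈ usp S.ι (-a + χ) := S.usp_mul hw.2 hs.mem
    have h1 : x (w s) = s := by
      rw [st1_con S.clif hx.1 hw.1, hxs, map_zero, sub_zero, bil_comm, hb, one_smul]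
    by_contra hcon
    have hkill : ∀ β ∈ S.R.Φ, 0 < φ β → S.e β (w s) = 0 := by
      intro β hβ hpβ
      have h2 : S.e β (w s) = (S.e β * w - w * S.e β) s := by
        rw [LinearMap.sub_apply, Module.End.mul_apply, Module.End.mul_apply, hs.root S hβ hpβ,
          map_zero, sub_zero]
      rw [h2]
      rcases S.st1_tri hφ hβ haO hpa hw hpβ with h | h | h | h
      · rw [h, LinearMap.zero_apply]
      · exact hs.kill S h (S.act hβ hw).2
      · exact absurd (hmin _ h.1 h.2.1) (not_le.2 h.2.2)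
      · subst h
        by_contra h3
        exact hcon ⟨hβ, fun h4 => h3 (by rw [h4, LinearMap.zero_apply])⟩
    have h5 := S.pr1 hφ.1 hu hkill (S.gen v hv.1 x hx.1) (S.st1_mulw hv.2 hx.2)
      (by rw [zero_add]; exact hpa)
    rw [Module.End.mul_apply, h1] at h5
    have h6 : v (v s) = k • s := by
      have := congrArg (fun f : Module.End ℂ U => f s) hvv
      simpa using this
    rw [h5, map_zero] at h6
    rcases smul_eq_zero.1 h6.symm with h7 | h7
    · exact hk h7
    · exact hs.ne h7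
  obtain ⟨w0, hw0, hw00⟩ := (Submodule.ne_bot_iff _).1 hna
  have haΦ := (key w0 hw0 hw00).1
  refine ⟨haΦ, ?_⟩
  rw [← S.finrank_neg a]
  refine le_antisymm ?_ ?_
  · -- injective map into the zero weight space
    let f : S.vw (-a) →ₗ[ℂ] S.vw 0 :=
      { toFun := fun w => ⟨S.e a * w.1 - w.1 * S.e a, by
          have := S.act haΦ w.2
          rwa [add_neg_cancel] at this⟩
        map_add' := fun x y => by
          apply Subtype.ext
          simp only [Submodule.coe_add]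
          rw [mul_add, add_mul]; abel
        map_smul' := fun c x => by
          apply Subtype.ext
          simp only [Submodule.coe_smul, RingHom.id_apply]
          rw [mul_smul_comm, smul_mul_assoc, smul_sub] }
    have hf : Function.Injective f := by
      rw [← LinearMap.ker_eq_bot, LinearMap.ker_eq_bot']
      intro w hw
      by_contra hne
      have h1 : w.1 ≠ 0 := fun h => hne (Subtype.ext h)
      exact (key w.1 w.2 h1).2 (congrArg Subtype.val hw)
    exact (LinearMap.finrank_le_finrank_of_injective hf).trans hz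
  · haveI : Nontrivial (S.vw (-a)) := ⟨⟨⟨w0, hw0⟩, 0, by simpa [Subtype.ext_iff] using hw00⟩⟩
    exact Module.finrank_pos

end Sys

end Pool.Agent.Y102.SP
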