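import Pool.Agent.Y102.SP.SE1
import Pool.Agent.Y102.SP.SE2
import Pool.Agent.Y102.SP.ST1
import Pool.Agent.Y102.SP.Line

set_option autoImplicit false

open Module

namespace Pool.Agent.Y102.SP

variable {U : Type} [AddCommGroup U] [Module ℂ U] [FiniteDimensional ℂ U] [Nontrivial U]
  {T : Type} [AddCommGroup T] [Module ℂ T] {V 𝔥 : Submodule ℂ (Module.End ℂ U)} (S : Sys V 𝔥 T)

namespace Sys

theorem Dim_pos {ω : Module.Dual ℂ T} (hω : ω ∈ S.Om) : 1 ≤ finrank ℂ (S.vw ω) := by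
  rw [Submodule.one_le_finrank_iff]
  exact hω

theorem Dim_step {a : Module.Dual ℂ T} (ha : a ∈ S.R.Φ) (k : ℕ) :
    finrank ℂ (S.vw ((((k + 1 : ℕ) : ℚ)) • a)) ≤ finrank ℂ (S.vw ((k : ℚ) • a)) := by
  have hna := S.R.neg a ha
  have hmap : ∀ x ∈ S.vw ((((k + 1 : ℕ) : ℚ)) • a),
      (LinearMap.mulLeft ℂ (S.e (-a)) - LinearMap.mulRight ℂ (S.e (-a))) x ∈ S.vw ((k : ℚ) • a) := by
    intro x hx
    have h1 := S.act hna hx
    have h2 : -a + (((k + 1 : ℕ) : ℚ)) • a = (k : ℚ) • a := by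
      push_cast
      rw [add_smul, one_smul]
      abel
    rw [h2] at h1
    simpa using h1
  have hneg : S.R.pr (-a) ((((k + 1 : ℕ) : ℚ)) • a) < 0 := by
    rw [S.R.pneg a ha, map_smul, S.R.two a ha, smul_eq_mul]
    have : (0 : ℚ) < ((k + 1 : ℕ) : ℚ) := by positivity
    linarith
  apply LinearMap.finrank_le_finrank_of_injective (f := LinearMap.restrict _ hmap)
  rw [injective_iff_map_eq_zero]
  intro x hx
  by_contra hne
  have hx0 : (x : Module.End ℂ U) ≠ 0 := fun h => hne (Subtype.ext h)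
  apply S.inj hna x.2 hx0 hneg
  have := congrArg Subtype.val hx
  simpa using this

/-- All weight spaces are one-dimensional. -/
theorem dim_one {ω : Module.Dual ℂ T} (hω : ω ∈ S.Om) : finrank ℂ (S.vw ω) = 1 := by
  by_cases h0 : (0 : Module.Dual ℂ T) ∈ S.Om
  · by_cases hω0 : ω = 0
    · subst hω0
      exact le_antisymm S.finrank_zero (S.Dim_pos hω)
    · obtain ⟨φ, a, r, hφ, hf, hr, h1, rfl⟩ := line_odd S.wts'
        (fun φ hφ a ha => (S.st1 h0 hφ ha).1) hω hω0
      refine le_antisymm ?_ (S.Dim_pos hω)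
      have key : ∀ k : ℕ, finrank ℂ (S.vw ((((k + 1 : ℕ) : ℚ)) • a)) ≤ 1 := by
        intro k
        induction k with
        | zero =>
          have h2 : (((0 + 1 : ℕ) : ℚ)) • a = a := by simp
          rw [h2]
          exact (S.st1 h0 hφ hf).2.le
        | succ k ih => exact (S.Dim_step hr (k + 1)).trans ih
      obtain ⟨k, rfl⟩ := Nat.exists_eq_add_of_le' h1
      exact key k
  · obtain ⟨φ, hφ, hf⟩ := line_even S.wts' h0 (fun φ hφ a b ha hb => S.se2 h0 hφ ha hb) hω
    exact S.se1 h0 hφ hf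

theorem Dim_sup {ι : Type} (F : Finset ι) (f : ι → Submodule ℂ (Module.End ℂ U))
    (h : ∀ i ∈ F, finrank ℂ (f i) ≤ 1) : finrank ℂ (F.sup f : Submodule ℂ (Module.End ℂ U)) ≤ F.card := by
  classical
  induction F using Finset.induction_on with
  | empty => simp
  | insert i s his ih =>
    rw [Finset.sup_insert, Finset.card_insert_of_notMem his, add_comm]
    have h1 := Submodule.finrank_add_le_finrank_add_finrank (f i) (s.sup f)
    have h2 := ih fun j hj => h j (Finset.mem_insert_of_mem hj)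
    have h3 := h i (Finset.mem_insert_self _ _)
    omega

theorem finrank_V_le (F : Finset (Module.Dual ℂ T)) (h : S.Om ⊆ F) : finrank ℂ V ≤ F.card := by
  classical
  have h1 : V ≤ F.sup S.vw := by
    refine S.vspan.trans (iSup_le fun χ => ?_)
    by_cases hχ : χ ∈ S.Om
    · exact Finset.le_sup (f := S.vw) (h hχ)
    · have : S.vw χ = ⊥ := by
        by_contra hne
        exact hχ hne
      change S.vw χ ≤ _
      rw [this]
      exact bot_le
  refine (Submodule.finrank_mono h1).trans (Dim_sup F S.vw fun χ _ => ?_)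
  by_cases hχ : χ ∈ S.Om
  · exact (S.dim_one hχ).le
  · have : S.vw χ = ⊥ := by
      by_contra hne
      exact hχ hne
    rw [this]
    simp

theorem two_not (h0 : (0 : Module.Dual ℂ T) ∉ S.Om) :
    ∀ a ∈ S.Om, (2 : ℚ) • a ∉ S.R.Φ := by
  intro a ha h2
  have hpr2 := S.R.two _ h2
  rw [map_smul, smul_eq_mul] at hpr2
  have hpr : S.R.pr ((2 : ℚ) • a) (-a) < 0 := by
    rw [map_neg]
    linarith
  have hna := S.neg_mem ha
  obtain ⟨w, hw, hw0⟩ := Submodule.exists_mem_ne_zero_of_ne_bot (hna : S.vw (-a) ≠ ⊥)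
  have hy := S.act h2 hw
  have hy0 := S.inj h2 hw hw0 hpr
  have e1 : (2 : ℚ) • a + -a = a := by
    rw [two_smul]
    abel
  rw [e1] at hy
  set y := S.e ((2 : ℚ) • a) * w - w * S.e ((2 : ℚ) • a) with hyd
  have h3 := bil_inv (S.e ((2 : ℚ) • a)) w w
  rw [← hyd, bil_comm w y] at h3
  have h4 : bil y w = 0 := by
    have : (2 : ℂ) * bil y w = 0 := by rw [two_mul]; exact h3
    exact (mul_eq_zero.1 this).resolve_left two_ne_zero
  obtain ⟨z, hz, hz1⟩ := S.dual hy hy0
  have h5 := S.dim_one hna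
  obtain ⟨c, hc⟩ := (finrank_eq_one_iff_of_nonzero' (⟨w, hw⟩ : S.vw (-a))
    (fun h => hw0 (congrArg Subtype.val h))).1 h5 ⟨z, hz⟩
  have h6 : c • w = z := congrArg Subtype.val hc
  rw [← h6, bil_smul_right, h4, mul_zero] at hz1
  exact zero_ne_one hz1

end Sys

end Pool.Agent.Y102.SP
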