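import Pool.Agent.Y102.SP.Bil

set_option autoImplicit false

open Module

namespace Pool.Agent.Y102.SP

variable {U : Type} [AddCommGroup U] [Module ℂ U]

/-- The commutator. -/
def L5_ad (x y : Module.End ℂ U) : Module.End ℂ U := x * y - y * x

theorem L5_jac (x y z : Module.End ℂ U) :
    L5_ad x (L5_ad y z) = L5_ad (L5_ad x y) z + L5_ad y (L5_ad x z) := by
  simp only [L5_ad]
  noncomm_ring

theorem L5_smul (c : ℂ) (x y : Module.End ℂ U) : L5_ad x (c • y) = c • L5_ad x y := by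
  simp only [L5_ad, mul_smul_comm, smul_mul_assoc, smul_sub]

theorem L5_zero (x : Module.End ℂ U) : L5_ad x 0 = 0 := by
  simp [L5_ad]

theorem L5_zero' (x : Module.End ℂ U) : L5_ad 0 x = 0 := by
  simp [L5_ad]

variable [FiniteDimensional ℂ U] [Nontrivial U]
  {T : Type} [AddCommGroup T] [Module ℂ T] {V 𝔥 : Submodule ℂ (Module.End ℂ U)} (S : Sys V 𝔥 T)

namespace Sys

theorem L5_act {α χ ψ : Module.Dual ℂ T} (hα : α ∈ S.R.Φ) {x : Module.End ℂ U}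
    (hx : x ∈ S.vw χ) (h : α + χ = ψ) : L5_ad (S.e α) x ∈ S.vw ψ := by
  rw [← h]
  exact S.act hα hx

theorem L5_H {α χ : Module.Dual ℂ T} (hα : α ∈ S.R.Φ) {x : Module.End ℂ U}
    (hx : x ∈ S.vw χ) : L5_ad (L5_ad (S.e α) (S.e (-α))) x = (S.R.pr α χ : ℂ) • x := by
  have h1 : L5_ad (S.e α) (S.e (-α)) = S.ι (S.h α) := S.br α hα
  rw [h1]
  exact S.eig hα hx

theorem L5_H' {α χ : Module.Dual ℂ T} (hα : α ∈ S.R.Φ) {x : Module.End ℂ U}
    (hx : x ∈ S.vw χ) : L5_ad (L5_ad (S.e (-α)) (S.e α)) x = (-(S.R.pr α χ : ℂ)) • x := by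
  have h1 := S.L5_H hα hx
  have h2 : L5_ad (L5_ad (S.e (-α)) (S.e α)) x = -L5_ad (L5_ad (S.e α) (S.e (-α))) x := by
    simp only [L5_ad]
    noncomm_ring
  rw [h2, h1, neg_smul]

theorem L5_out {χ : Module.Dual ℂ T} (h : χ ∉ S.Om) {x : Module.End ℂ U}
    (hx : x ∈ S.vw χ) : x = 0 := by
  have h1 : S.vw χ = ⊥ := by
    by_contra hne
    exact h hne
  rw [h1] at hx
  exact (Submodule.mem_bot ℂ).1 hx

theorem L5_prop (hd : ∀ ω ∈ S.Om, finrank ℂ (S.vw ω) = 1) {χ : Module.Dual ℂ T}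
    {x y : Module.End ℂ U} (hx : x ∈ S.vw χ) (hx0 : x ≠ 0) (hy : y ∈ S.vw χ) :
    ∃ c : ℂ, y = c • x := by
  have hO : χ ∈ S.Om := by
    intro hb
    rw [hb] at hx
    exact hx0 ((Submodule.mem_bot ℂ).1 hx)
  have h1 := hd χ hO
  have h2 : (⟨x, hx⟩ : S.vw χ) ≠ 0 := by
    intro h
    exact hx0 (congrArg Subtype.val h)
  obtain ⟨c, hc⟩ := (finrank_eq_one_iff_of_nonzero' (⟨x, hx⟩ : S.vw χ) h2).1 h1 ⟨y, hy⟩
  exact ⟨c, (congrArg Subtype.val hc).symm⟩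

theorem L5_ne {χ : Module.Dual ℂ T} (h : χ ∈ S.Om) : ∃ x ∈ S.vw χ, x ≠ 0 :=
  Submodule.exists_mem_ne_zero_of_ne_bot h

theorem L5_cas (hd : ∀ ω ∈ S.Om, finrank ℂ (S.vw ω) = 1) {a : Module.Dual ℂ T}
    (ha : a ∈ S.R.Φ) (haO : a ∈ S.Om) (h3 : (3 : ℚ) • a ∉ S.Om) {v : Module.End ℂ U}
    (hv : v ∈ S.vw 0) (hv0 : v ≠ 0) :
    ∃ c : ℂ, (c = 2 ∨ c = 6) ∧ L5_ad (S.e (-a)) (L5_ad (S.e a) v) = c • v := by
  have hna : -a ∈ S.R.Φ := S.R.neg a ha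
  have h2a : S.R.pr a a = 2 := S.R.two a ha
  obtain ⟨x, hx, hx0⟩ := S.L5_ne haO
  have hy : L5_ad (S.e (-a)) x ∈ S.vw 0 := S.L5_act hna hx (by simp)
  have hy0 : L5_ad (S.e (-a)) x ≠ 0 := by
    refine S.inj hna hx hx0 ?_
    rw [S.R.pneg a ha, h2a]
    norm_num
  obtain ⟨c0, hc0⟩ := S.L5_prop hd hy hy0 hv
  have hX : c0 • x ∈ S.vw a := Submodule.smul_mem _ _ hx
  have hXv : L5_ad (S.e (-a)) (c0 • x) = v := by
    rw [L5_smul, ← hc0]
  generalize c0 • x = X at hX hXv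
  have hev : L5_ad (S.e a) v = (2 : ℂ) • X + L5_ad (S.e (-a)) (L5_ad (S.e a) X) := by
    rw [← hXv, L5_jac, S.L5_H ha hX, h2a]
    norm_num
  by_cases h2 : (2 : ℚ) • a ∈ S.Om
  · obtain ⟨z, hz, hz0⟩ := S.L5_ne h2
    have hp : L5_ad (S.e (-a)) z ∈ S.vw a := by
      refine S.L5_act hna hz ?_
      rw [two_smul]; abel
    have hp0 : L5_ad (S.e (-a)) z ≠ 0 := by
      refine S.inj hna hz hz0 ?_
      rw [S.R.pneg a ha, map_smul, h2a]
      norm_num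
    obtain ⟨c1, hc1⟩ := S.L5_prop hd hp hp0 hX
    have hZ : c1 • z ∈ S.vw ((2 : ℚ) • a) := Submodule.smul_mem _ _ hz
    have hZX : L5_ad (S.e (-a)) (c1 • z) = X := by
      rw [L5_smul, ← hc1]
    generalize c1 • z = Z at hZ hZX
    have he : L5_ad (S.e a) Z = 0 := by
      refine S.L5_out h3 (S.L5_act ha hZ ?_)
      module
    have heX : L5_ad (S.e a) X = (4 : ℂ) • Z := by
      rw [← hZX, L5_jac, S.L5_H ha hZ, he, L5_zero, map_smul, h2a, add_zero]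
      norm_num
    refine ⟨6, Or.inr rfl, ?_⟩
    rw [hev, heX, L5_smul, hZX, ← add_smul, L5_smul, hXv]
    norm_num
  · have he : L5_ad (S.e a) X = 0 := by
      refine S.L5_out h2 (S.L5_act ha hX ?_)
      rw [two_smul]
    refine ⟨2, Or.inl rfl, ?_⟩
    rw [hev, he, L5_zero, add_zero, L5_smul, hXv]

/-- The action of the `sl_2` of a weight which is a root on a vector of weight zero. -/
theorem cas (hd : ∀ ω ∈ S.Om, finrank ℂ (S.vw ω) = 1) {a : Module.Dual ℂ T}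
    (ha : a ∈ S.R.Φ) (haO : a ∈ S.Om) (h3 : (3 : ℚ) • a ∉ S.Om) {v : Module.End ℂ U}
    (hv : v ∈ S.vw 0) (hv0 : v ≠ 0) :
    ∃ c : ℂ, (c = 2 ∨ c = 6) ∧
      S.e (-a) * (S.e a * v - v * S.e a) - (S.e a * v - v * S.e a) * S.e (-a) = c • v :=
  S.L5_cas hd ha haO h3 hv hv0

theorem L5_x (hd : ∀ ω ∈ S.Om, finrank ℂ (S.vw ω) = 1) {a : Module.Dual ℂ T}
    (ha : a ∈ S.R.Φ) (haO : a ∈ S.Om) (h3 : (3 : ℚ) • a ∉ S.Om) {v : Module.End ℂ U}
    (hv : v ∈ S.vw 0) (hv0 : v ≠ 0) :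
    ∃ c : ℂ, (c = 2 ∨ c = 6) ∧ L5_ad (S.e (-a)) (L5_ad (S.e a) v) = c • v ∧
      L5_ad (S.e a) v ≠ 0 ∧ L5_ad (S.e a) v ∈ S.vw a := by
  obtain ⟨c, hc, h⟩ := S.L5_cas hd ha haO h3 hv hv0
  refine ⟨c, hc, h, ?_, S.L5_act ha hv (by simp)⟩
  intro h0
  rw [h0, L5_zero] at h
  have hc0 : c ≠ 0 := by
    rcases hc with rfl | rfl <;> norm_num
  exact (smul_ne_zero hc0 hv0) h.symm

theorem L5_comm {a b : Module.Dual ℂ T} (ha : a ∈ S.R.Φ) (hb : b ∈ S.R.Φ) (h0 : b ≠ a)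
    (h2 : b - a ∉ S.R.Φ) : L5_ad (S.e (-a)) (S.e b) = 0 := by
  have h := S.add0 (-a) (S.R.neg a ha) b hb (by
    intro h
    apply h0
    have : b = a + (-a + b) := by abel
    rw [this, h, add_zero]) (by
    intro h
    apply h2
    have : b - a = -a + b := by abel
    rw [this]
    exact h)
  rw [L5_ad, h, sub_self]

theorem a1 (h0 : (0 : Module.Dual ℂ T) ∈ S.Om) (hd : ∀ ω ∈ S.Om, finrank ℂ (S.vw ω) = 1)
    {a b : Module.Dual ℂ T} (ha : a ∈ S.R.Φ) (hb : b ∈ S.R.Φ) (haO : a ∈ S.Om) (hbO : b ∈ S.Om)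
    (hab : a + b ≠ 0) (hp : S.R.pr a b < 0) (h1 : b - a ∉ S.Om) (h2 : b - a ∉ S.R.Φ)
    (h3 : (3 : ℚ) • a ∉ S.Om) (h4 : (3 : ℚ) • b ∉ S.Om) : False := by
  obtain ⟨v, hv, hv0⟩ := S.L5_ne h0
  obtain ⟨ca, hca, hfa, hxa0, hxa⟩ := S.L5_x hd ha haO h3 hv hv0
  obtain ⟨cb, hcb, hfb, hxb0, hxb⟩ := S.L5_x hd hb hbO h4 hv hv0
  have hna : -a ∈ S.R.Φ := S.R.neg a ha
  have hnb : -b ∈ S.R.Φ := S.R.neg b hb
  have hne : b ≠ a := by
    rintro rfl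
    rw [S.R.two b hb] at hp
    norm_num at hp
  have hne' : b ≠ -a := by
    rintro rfl
    exact hab (by simp)
  have hcox : 1 ≤ S.R.pr a b * S.R.pr b a ∧ S.R.pr a b * S.R.pr b a ≤ 3 := by
    rcases S.R.cox a ha b hb hne hne' with h | h
    · exact absurd h.1 (ne_of_lt hp)
    · exact h
  have h1' : a - b ∉ S.Om := by
    intro h
    apply h1
    have := S.neg_mem h
    rwa [neg_sub] at this
  have h2' : a - b ∉ S.R.Φ := by
    intro h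
    apply h2
    have := S.R.neg _ h
    rwa [neg_sub] at this
  have hab0 : L5_ad (S.e (-a)) (L5_ad (S.e b) v) = 0 := by
    refine S.L5_out h1 (S.L5_act hna hxb ?_)
    abel
  have hba0 : L5_ad (S.e (-b)) (L5_ad (S.e a) v) = 0 := by
    refine S.L5_out h1' (S.L5_act hnb hxa ?_)
    abel
  have hY : L5_ad (S.e a) (L5_ad (S.e b) v) ∈ S.vw (a + b) := S.L5_act ha hxb rfl
  have hY' : L5_ad (S.e b) (L5_ad (S.e a) v) ∈ S.vw (a + b) := S.L5_act hb hxa (add_comm _ _)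
  have e1 : L5_ad (S.e (-a)) (L5_ad (S.e a) (L5_ad (S.e b) v)) =
      (-(S.R.pr a b : ℂ)) • L5_ad (S.e b) v := by
    rw [L5_jac, S.L5_H' ha hxb, hab0, L5_zero, add_zero]
  have e2 : L5_ad (S.e (-b)) (L5_ad (S.e a) (L5_ad (S.e b) v)) = cb • L5_ad (S.e a) v := by
    rw [L5_jac, S.L5_comm hb ha (Ne.symm hne) h2', L5_zero', zero_add, hfb, L5_smul]
  have e3 : L5_ad (S.e (-b)) (L5_ad (S.e b) (L5_ad (S.e a) v)) =
      (-(S.R.pr b a : ℂ)) • L5_ad (S.e a) v := by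
    rw [L5_jac, S.L5_H' hb hxa, hba0, L5_zero, add_zero]
  have e4 : L5_ad (S.e (-a)) (L5_ad (S.e b) (L5_ad (S.e a) v)) = ca • L5_ad (S.e b) v := by
    rw [L5_jac, S.L5_comm ha hb hne h2, L5_zero', zero_add, hfa, L5_smul]
  have hY0 : L5_ad (S.e a) (L5_ad (S.e b) v) ≠ 0 := by
    intro h
    rw [h, L5_zero] at e1
    have : (-(S.R.pr a b : ℂ)) ≠ 0 := by
      rw [neg_ne_zero]
      exact_mod_cast ne_of_lt hp
    exact (smul_ne_zero this hxb0) e1.symm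
  obtain ⟨t, ht⟩ := S.L5_prop hd hY hY0 hY'
  rw [ht, L5_smul, e2, smul_smul] at e3
  rw [ht, L5_smul, e1, smul_smul] at e4
  have f3 : t * cb = -(S.R.pr b a : ℂ) := by
    by_contra hcon
    have : (t * cb - -(S.R.pr b a : ℂ)) • L5_ad (S.e a) v = 0 := by
      rw [sub_smul, e3, sub_self]
    rcases smul_eq_zero.1 this with h | h
    · exact hcon (sub_eq_zero.1 h)
    · exact hxa0 h
  have f4 : t * -(S.R.pr a b : ℂ) = ca := by
    by_contra hcon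
    have : (t * -(S.R.pr a b : ℂ) - ca) • L5_ad (S.e b) v = 0 := by
      rw [sub_smul, e4, sub_self]
    rcases smul_eq_zero.1 this with h | h
    · exact hcon (sub_eq_zero.1 h)
    · exact hxb0 h
  have f5 : ((S.R.pr a b * S.R.pr b a : ℚ) : ℂ) = ca * cb := by
    push_cast
    rw [← f4]
    have : (S.R.pr b a : ℂ) = -(t * cb) := by rw [f3, neg_neg]
    rw [this]; ring
  have f6 : S.R.pr a b * S.R.pr b a = 4 ∨ S.R.pr a b * S.R.pr b a = 12 ∨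
      S.R.pr a b * S.R.pr b a = 36 := by
    rcases hca with rfl | rfl <;> rcases hcb with rfl | rfl
    · left
      have : ((S.R.pr a b * S.R.pr b a : ℚ) : ℂ) = ((4 : ℚ) : ℂ) := by
        rw [f5]; norm_num
      exact_mod_cast this
    · right; left
      have : ((S.R.pr a b * S.R.pr b a : ℚ) : ℂ) = ((12 : ℚ) : ℂ) := by
        rw [f5]; norm_num
      exact_mod_cast this
    · right; left
      have : ((S.R.pr a b * S.R.pr b a : ℚ) : ℂ) = ((12 : ℚ) : ℂ) := by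
        rw [f5]; norm_num
      exact_mod_cast this
    · right; right
      have : ((S.R.pr a b * S.R.pr b a : ℚ) : ℂ) = ((36 : ℚ) : ℂ) := by
        rw [f5]; norm_num
      exact_mod_cast this
  rcases f6 with h | h | h <;> · rw [h] at hcox; norm_num at hcox

theorem a2 (h0 : (0 : Module.Dual ℂ T) ∈ S.Om) (hd : ∀ ω ∈ S.Om, finrank ℂ (S.vw ω) = 1)
    {a b : Module.Dual ℂ T} (ha : a ∈ S.R.Φ) (hb : b ∈ S.R.Φ) (haO : a ∈ S.Om) (hbO : b ∈ S.Om)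
    (hp : S.R.pr a b = 0) (h2 : b - a ∉ S.R.Φ)
    (h3 : (3 : ℚ) • a ∉ S.Om) (h4 : (3 : ℚ) • b ∉ S.Om) : a + b ∈ S.Om := by
  obtain ⟨v, hv, hv0⟩ := S.L5_ne h0
  obtain ⟨ca, hca, hfa, hxa0, hxa⟩ := S.L5_x hd ha haO h3 hv hv0
  obtain ⟨cb, hcb, hfb, hxb0, hxb⟩ := S.L5_x hd hb hbO h4 hv hv0
  have hne : b ≠ a := by
    rintro rfl
    rw [S.R.two b hb] at hp
    norm_num at hp
  by_contra hcon
  have hY' : L5_ad (S.e b) (L5_ad (S.e a) v) = 0 :=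
    S.L5_out hcon (S.L5_act hb hxa (add_comm _ _))
  have e4 : L5_ad (S.e (-a)) (L5_ad (S.e b) (L5_ad (S.e a) v)) = ca • L5_ad (S.e b) v := by
    rw [L5_jac, S.L5_comm ha hb hne h2, L5_zero', zero_add, hfa, L5_smul]
  rw [hY', L5_zero] at e4
  have hc0 : ca ≠ 0 := by
    rcases hca with rfl | rfl <;> norm_num
  exact (smul_ne_zero hc0 hxb0) e4.symm

end Sys

end Pool.Agent.Y102.SP
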