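import Pool.Agent.Y102.SP.PlaneE1

set_option autoImplicit false

open Module

namespace Pool.Agent.Y102.SP

variable {X : Type} [AddCommGroup X] [Module ℚ X]

section aux

variable {R : Root X} {a c : X}

/-- the values of the coroots -/
theorem PlaneE_val (k1 : c - a ∈ R.Φ) (k2 : c + a ∈ R.Φ) (p1 : R.pr (c - a) c = 1)
    (p2 : R.pr (c - a) a = -1) (p3 : R.pr (c + a) c = 1) (p4 : R.pr (c + a) a = 1) (x y : ℚ) :
    R.pr (c - a) (x • (c - a) + y • (c + a)) = 2 * x ∧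
    R.pr (c + a) (x • (c - a) + y • (c + a)) = 2 * y := by
  have e1 := R.two _ k1
  have e2 := R.two _ k2
  have e3 : R.pr (c - a) (c + a) = 0 := by rw [map_add, p1, p2]; norm_num
  have e4 : R.pr (c + a) (c - a) = 0 := by rw [map_sub, p3, p4]; norm_num
  constructor
  · rw [map_add, map_smul, map_smul, e1, e3]
    simp only [smul_eq_mul]
    ring
  · rw [map_add, map_smul, map_smul, e2, e4]
    simp only [smul_eq_mul]
    ring

theorem PlaneE_pos {Ω : Set X} (W : Wts R Ω) (h0 : (0 : X) ∉ Ω)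
    (h2 : ∀ a ∈ Ω, (2 : ℚ) • a ∉ R.Φ) (hc : c ∈ Ω)
    (k1 : c - a ∈ R.Φ) (k2 : c + a ∈ R.Φ) (p1 : R.pr (c - a) c = 1)
    (p2 : R.pr (c - a) a = -1) (p3 : R.pr (c + a) c = 1) (p4 : R.pr (c + a) a = 1) :
    ∀ N m n : ℕ, m + n ≤ N → 1 ≤ m → 1 ≤ n →
      ((m : ℚ) / 2) • (c - a) + ((n : ℚ) / 2) • (c + a) ∉ R.Φ := by
  have hval := PlaneE_val k1 k2 p1 p2 p3 p4
  intro N
  induction N with
  | zero => intro m n h1 h2 h3; omega
  | succ N ih =>
    intro m n hmn hm hn hβ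
    obtain ⟨v1, v2⟩ := hval ((m : ℚ) / 2) ((n : ℚ) / 2)
    have hmQ : (1 : ℚ) ≤ m := by exact_mod_cast hm
    have hnQ : (1 : ℚ) ≤ n := by exact_mod_cast hn
    by_cases hm2 : 2 ≤ m
    · have h3 := R.add _ (R.neg _ k1) _ hβ (by
        rw [neg_neg]
        intro h
        rw [h] at v2
        have e4 : R.pr (c + a) (c - a) = 0 := by rw [map_sub, p3, p4]; norm_num
        rw [e4] at v2
        linarith) (by
        rw [R.pneg _ k1, v1]
        linarith)
      have e : -(c - a) + (((m : ℚ) / 2) • (c - a) + ((n : ℚ) / 2) • (c + a)) =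
          (((m - 2 : ℕ) : ℚ) / 2) • (c - a) + ((n : ℚ) / 2) • (c + a) := by
        rw [Nat.cast_sub hm2]
        push_cast
        module
      rw [e] at h3
      by_cases hm3 : m = 2
      · subst hm3
        have e5 : (((2 - 2 : ℕ) : ℚ) / 2) • (c - a) + ((n : ℚ) / 2) • (c + a) =
            ((n : ℚ) / 2) • (c + a) := by
          norm_num
        rw [e5] at h3
        rcases R.red _ k2 _ h3 with h4 | h4
        · have hn2 : (n : ℚ) = 2 := by linarith
          rw [hn2] at hβ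
          apply h2 c hc
          have e6 : (2 : ℚ) • c = (((2 : ℕ) : ℚ) / 2) • (c - a) + ((2 : ℚ) / 2) • (c + a) := by
            push_cast
            module
          rw [e6]
          exact hβ
        · linarith
      · exact ih (m - 2) n (by omega) (by omega) hn h3
    · have hm1 : m = 1 := by omega
      by_cases hn2 : 2 ≤ n
      · have h3 := R.add _ (R.neg _ k2) _ hβ (by
          rw [neg_neg]
          intro h
          rw [h] at v1
          have e4 : R.pr (c - a) (c + a) = 0 := by rw [map_add, p1, p2]; norm_num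
          rw [e4] at v1
          linarith) (by
          rw [R.pneg _ k2, v2]
          linarith)
        have e : -(c + a) + (((m : ℚ) / 2) • (c - a) + ((n : ℚ) / 2) • (c + a)) =
            ((m : ℚ) / 2) • (c - a) + (((n - 2 : ℕ) : ℚ) / 2) • (c + a) := by
          rw [Nat.cast_sub hn2]
          push_cast
          module
        rw [e] at h3
        by_cases hn3 : n = 2
        · subst hn3
          have e5 : ((m : ℚ) / 2) • (c - a) + (((2 - 2 : ℕ) : ℚ) / 2) • (c + a) =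
              ((m : ℚ) / 2) • (c - a) := by
            norm_num
          rw [e5] at h3
          rcases R.red _ k1 _ h3 with h4 | h4
          · rw [hm1] at h4
            norm_num at h4
          · linarith
        · exact ih m (n - 2) (by omega) hm (by omega) h3
      · have hn1 : n = 1 := by omega
        rw [hm1, hn1] at hβ
        have e : (((1 : ℕ) : ℚ) / 2) • (c - a) + (((1 : ℕ) : ℚ) / 2) • (c + a) = c := by
          push_cast
          module
        rw [e] at hβ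
        apply h0
        have h3 := W.str c hβ c hc 1 (by rw [R.two c hβ]; norm_num)
        have e7 : c - ((1 : ℕ) : ℚ) • c = 0 := by
          push_cast
          rw [one_smul, sub_self]
        rw [e7] at h3
        exact h3

/-- the roots in the plane -/
theorem PlaneE_root {Ω : Set X} (W : Wts R Ω) (h0 : (0 : X) ∉ Ω)
    (h2 : ∀ a ∈ Ω, (2 : ℚ) • a ∉ R.Φ) (hc : c ∈ Ω)
    (k1 : c - a ∈ R.Φ) (k2 : c + a ∈ R.Φ) (p1 : R.pr (c - a) c = 1)
    (p2 : R.pr (c - a) a = -1) (p3 : R.pr (c + a) c = 1) (p4 : R.pr (c + a) a = 1) :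
    ∀ β ∈ R.Φ, ∀ x y : ℚ, β = x • a + y • c →
      β = c - a ∨ β = -(c - a) ∨ β = c + a ∨ β = -(c + a) := by
  have hval := PlaneE_val k1 k2 p1 p2 p3 p4
  have hpos := PlaneE_pos W h0 h2 hc k1 k2 p1 p2 p3 p4
  have hcore : ∀ x y : ℚ, 0 < x → 0 < y → x • (c - a) + y • (c + a) ∉ R.Φ := by
    intro x y hx hy h
    obtain ⟨v1, v2⟩ := hval x y
    obtain ⟨m, hm⟩ := R.int _ k1 _ h
    obtain ⟨n, hn⟩ := R.int _ k2 _ h
    rw [v1] at hm
    rw [v2] at hn
    have hm0 : 0 < m := by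
      have : (0 : ℚ) < m := by rw [← hm]; linarith
      exact_mod_cast this
    have hn0 : 0 < n := by
      have : (0 : ℚ) < n := by rw [← hn]; linarith
      exact_mod_cast this
    obtain ⟨m', rfl⟩ := Int.eq_ofNat_of_zero_le hm0.le
    obtain ⟨n', rfl⟩ := Int.eq_ofNat_of_zero_le hn0.le
    have hx' : x = (m' : ℚ) / 2 := by
      rw [Int.cast_natCast] at hm
      linarith
    have hy' : y = (n' : ℚ) / 2 := by
      rw [Int.cast_natCast] at hn
      linarith
    rw [hx', hy'] at h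
    exact hpos _ m' n' le_rfl (by omega) (by omega) h
  have hr1 : ∀ x y : ℚ, x • (c - a) + y • (c + a) ∈ R.Φ → (-x) • (c - a) + y • (c + a) ∈ R.Φ := by
    intro x y h
    have h3 := R.refl _ k1 _ h
    rw [(hval x y).1] at h3
    have e : x • (c - a) + y • (c + a) - (2 * x) • (c - a) = (-x) • (c - a) + y • (c + a) := by
      module
    rw [e] at h3
    exact h3
  have hr2 : ∀ x y : ℚ, x • (c - a) + y • (c + a) ∈ R.Φ → x • (c - a) + (-y) • (c + a) ∈ R.Φ := by
    intro x y h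
    have h3 := R.refl _ k2 _ h
    rw [(hval x y).2] at h3
    have e : x • (c - a) + y • (c + a) - (2 * y) • (c + a) = x • (c - a) + (-y) • (c + a) := by
      module
    rw [e] at h3
    exact h3
  intro β hβ x y hxy
  obtain ⟨s, hs⟩ : ∃ s : ℚ, s = (y - x) / 2 := ⟨_, rfl⟩
  obtain ⟨t, ht⟩ : ∃ t : ℚ, t = (x + y) / 2 := ⟨_, rfl⟩
  have e : β = s • (c - a) + t • (c + a) := by
    rw [hxy, hs, ht]
    module
  rw [e] at hβ ⊢
  by_cases hs0 : s = 0
  · rw [hs0, zero_smul, zero_add] at hβ ⊢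
    rcases R.red _ k2 _ hβ with h | h
    · rw [h, one_smul]; exact Or.inr (Or.inr (Or.inl rfl))
    · rw [h, neg_one_smul]; exact Or.inr (Or.inr (Or.inr rfl))
  by_cases ht0 : t = 0
  · rw [ht0, zero_smul, add_zero] at hβ ⊢
    rcases R.red _ k1 _ hβ with h | h
    · rw [h, one_smul]; exact Or.inl rfl
    · rw [h, neg_one_smul]; exact Or.inr (Or.inl rfl)
  exfalso
  rcases lt_or_gt_of_ne hs0 with hs1 | hs1
  · rcases lt_or_gt_of_ne ht0 with ht1 | ht1
    · exact hcore _ _ (by linarith) (by linarith) (hr1 _ _ (hr2 _ _ hβ))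
    · exact hcore _ _ (by linarith) ht1 (hr1 _ _ hβ)
  · rcases lt_or_gt_of_ne ht0 with ht1 | ht1
    · exact hcore _ _ hs1 (by linarith) (hr2 _ _ hβ)
    · exact hcore _ _ hs1 ht1 hβ

/-- the weights in the plane -/
theorem PlaneE_wt {Ω : Set X} (W : Wts R Ω) (h0 : (0 : X) ∉ Ω)
    (h2 : ∀ a ∈ Ω, (2 : ℚ) • a ∉ R.Φ)
    (H2 : ∀ φ, Gen R Ω φ → ∀ a b, First Ω φ a → Next Ω φ a b → b - a ∈ R.Φ ∧ b + a ∈ R.Φ)
    (ha : a ∈ Ω) (hc : c ∈ Ω)
    (k1 : c - a ∈ R.Φ) (k2 : c + a ∈ R.Φ) (p1 : R.pr (c - a) c = 1)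
    (p2 : R.pr (c - a) a = -1) (p3 : R.pr (c + a) c = 1) (p4 : R.pr (c + a) a = 1) :
    ∀ d ∈ Ω, ∀ x y : ℚ, d = x • a + y • c → d = a ∨ d = -a ∨ d = c ∨ d = -c := by
  have hroot := PlaneE_root W h0 h2 hc k1 k2 p1 p2 p3 p4
  intro d hd x y hxy
  by_cases hda : d = a
  · exact Or.inl hda
  by_cases hda' : d = -a
  · exact Or.inr (Or.inl hda')
  obtain ⟨-, d', hd', ⟨x', y', -, hd''⟩, r1, r2, -⟩ := plane_even1 W h0 H2 hd ha
    (fun h => hda h.symm) (fun h => hda' (by rw [h, neg_neg]))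
  have hd0 : d ≠ 0 := fun h => h0 (h ▸ hd)
  have hd0' : d' ≠ 0 := fun h => h0 (h ▸ hd')
  have g1 := hroot _ r1 ((x' - 1) * x + y') ((x' - 1) * y) (by
    rw [hd'', hxy]
    module)
  have g2 := hroot _ r2 ((x' + 1) * x + y') ((x' + 1) * y) (by
    rw [hd'', hxy]
    module)
  have e1 : d = (1 / 2 : ℚ) • ((d' + d) - (d' - d)) := by module
  have e2 : d' = (1 / 2 : ℚ) • ((d' + d) + (d' - d)) := by module
  rcases g1 with g1 | g1 | g1 | g1 <;> rcases g2 with g2 | g2 | g2 | g2 <;> rw [g1, g2] at e1 e2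
  · exact absurd (by rw [e1]; module) hd0
  · exact absurd (by rw [e2]; module) hd0'
  · left; rw [e1]; module
  · right; right; right; rw [e1]; module
  · exact absurd (by rw [e2]; module) hd0'
  · exact absurd (by rw [e1]; module) hd0
  · right; right; left; rw [e1]; module
  · right; left; rw [e1]; module
  · right; left; rw [e1]; module
  · right; right; right; rw [e1]; module
  · exact absurd (by rw [e1]; module) hd0
  · exact absurd (by rw [e2]; module) hd0'
  · right; right; left; rw [e1]; module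
  · left; rw [e1]; module
  · exact absurd (by rw [e2]; module) hd0'
  · exact absurd (by rw [e1]; module) hd0

end aux

/-- The weights and the roots in the plane of two weights (even case). -/
theorem plane_even {R : Root X} {Ω : Set X} (W : Wts R Ω) (h0 : (0 : X) ∉ Ω)
    (h2 : ∀ a ∈ Ω, (2 : ℚ) • a ∉ R.Φ)
    (H2 : ∀ φ, Gen R Ω φ → ∀ a b, First Ω φ a → Next Ω φ a b → b - a ∈ R.Φ ∧ b + a ∈ R.Φ)
    {a b : X} (ha : a ∈ Ω) (hb : b ∈ Ω) (hne : b ≠ a) (hne' : b ≠ -a) :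
    (b - a ∈ R.Φ ∧ b + a ∈ R.Φ) ∧
    (R.pr (b - a) b = 1 ∧ R.pr (b - a) a = -1 ∧ R.pr (b + a) b = 1 ∧ R.pr (b + a) a = 1) ∧
    (∀ c ∈ Ω, ∀ x y : ℚ, c = x • a + y • b → c = a ∨ c = -a ∨ c = b ∨ c = -b) ∧
    (∀ β ∈ R.Φ, ∀ x y : ℚ, β = x • a + y • b →
      β = b - a ∨ β = -(b - a) ∨ β = b + a ∨ β = -(b + a)) ∧
    ∀ x y : ℚ, x • a + y • b = 0 → x = 0 ∧ y = 0 := by
  obtain ⟨hq, c, hc, ⟨x0, y0, hy0, hcxy⟩, k1, k2, p1, p2, p3, p4⟩ :=
    plane_even1 W h0 H2 ha hb hne hne'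
  have hbc := PlaneE_wt W h0 h2 H2 ha hc k1 k2 p1 p2 p3 p4 b hb (-(x0 / y0)) (1 / y0) (by
    rw [hcxy, smul_add, smul_smul, smul_smul, one_div, inv_mul_cancel₀ hy0, one_smul, ← add_assoc,
      ← add_smul]
    have : -(x0 / y0) + y0⁻¹ * x0 = 0 := by ring
    rw [this, zero_smul, zero_add])
  have key : (b - a ∈ R.Φ ∧ b + a ∈ R.Φ) ∧
      (R.pr (b - a) b = 1 ∧ R.pr (b - a) a = -1 ∧ R.pr (b + a) b = 1 ∧ R.pr (b + a) a = 1) := by
    rcases hbc with h | h | h | h
    · exact absurd h hne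
    · exact absurd h hne'
    · rw [h]
      exact ⟨⟨k1, k2⟩, p1, p2, p3, p4⟩
    · have e1 : b - a = -(c + a) := by rw [h]; abel
      have e2 : b + a = -(c - a) := by rw [h]; abel
      rw [e1, e2, h]
      refine ⟨⟨R.neg _ k2, R.neg _ k1⟩, ?_, ?_, ?_, ?_⟩
      · rw [R.pneg _ k2, map_neg, neg_neg, p3]
      · rw [R.pneg _ k2, p4]
      · rw [R.pneg _ k1, map_neg, neg_neg, p1]
      · rw [R.pneg _ k1, p2, neg_neg]
  obtain ⟨⟨m1, m2⟩, q1, q2, q3, q4⟩ := key
  refine ⟨⟨m1, m2⟩, ⟨q1, q2, q3, q4⟩, PlaneE_wt W h0 h2 H2 ha hb m1 m2 q1 q2 q3 q4,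
    PlaneE_root W h0 h2 hb m1 m2 q1 q2 q3 q4, ?_⟩
  intro x y hxy
  have ha0 : a ≠ 0 := fun h => h0 (h ▸ ha)
  have hy : y = 0 := by
    by_contra hy
    apply hq (-(x / y))
    have h3 : y • b = (-x) • a := by
      rw [neg_smul]
      exact eq_neg_of_add_eq_zero_right hxy
    have h4 := congrArg (fun z => y⁻¹ • z) h3
    simp only [smul_smul, inv_mul_cancel₀ hy, one_smul] at h4
    rw [h4]
    congr 1
    ring
  rw [hy, zero_smul, add_zero] at hxy
  exact ⟨(smul_eq_zero.mp hxy).resolve_right ha0, hy⟩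

end Pool.Agent.Y102.SP
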