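import Pool.Agent.Y102.SP.Line

set_option autoImplicit false

open Module

namespace Pool.Agent.Y102.SP

variable {X : Type} [AddCommGroup X] [Module ℚ X]

theorem planeE1_first {Ω : Set X} (hf : Ω.Finite) (φ : X →ₗ[ℚ] ℚ) {ω : X} (hω : ω ∈ Ω)
    (hp : 0 < φ ω) : ∃ a, First Ω φ a := by
  obtain ⟨a, ha, hmin⟩ := Set.exists_min_image {x | x ∈ Ω ∧ 0 < φ x} φ
    (hf.subset (fun x hx => hx.1)) ⟨ω, hω, hp⟩
  exact ⟨a, ha.1, ha.2, fun x hx hx' => hmin x ⟨hx, hx'⟩⟩

theorem planeE1_next {Ω : Set X} (hf : Ω.Finite) (φ : X →ₗ[ℚ] ℚ) {a ω : X} (hω : ω ∈ Ω)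
    (hp : φ a < φ ω) : ∃ b, Next Ω φ a b := by
  obtain ⟨b, hb, hmin⟩ := Set.exists_min_image {x | x ∈ Ω ∧ φ a < φ x} φ
    (hf.subset (fun x hx => hx.1)) ⟨ω, hω, hp⟩
  exact ⟨b, hb.1, hb.2, fun x hx hx' => hmin x ⟨hx, hx'⟩⟩

theorem planeE1_line {R : Root X} {Ω : Set X} (W : Wts R Ω) (h0 : (0 : X) ∉ Ω)
    (H2 : ∀ φ, Gen R Ω φ → ∀ a b, First Ω φ a → Next Ω φ a b → b - a ∈ R.Φ ∧ b + a ∈ R.Φ)
    {a b : X} (ha : a ∈ Ω) (hb : b ∈ Ω) (hne : b ≠ a) (hne' : b ≠ -a) :
    ∀ q : ℚ, b ≠ q • a := by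
  -- positive multiples
  have key : ∀ (b : X) (q : ℚ), b ∈ Ω → b ≠ a → 0 < q → b ≠ q • a := by
    intro b q hb hne hq hbq
    have ha0 : a ≠ 0 := fun h => h0 (h ▸ ha)
    obtain ⟨φ', -, hF'⟩ := line_even W h0 H2 ha
    obtain ⟨φ, hG, hφa, hfl⟩ := flag1 W ha ha0
    have hb' : φ' b = q * φ' a := by rw [hbq, map_smul, smul_eq_mul]
    have hbp : φ b = q * φ a := by rw [hbq, map_smul, smul_eq_mul]
    have hq1 : 1 < q := by
      have h1 : φ' a ≤ φ' b := hF'.2.2 b hb (by rw [hb']; exact mul_pos hq hF'.2.1)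
      rw [hb'] at h1
      have h2 : 1 ≤ q := by
        by_contra hlt
        push Not at hlt
        have := mul_lt_mul_of_pos_right hlt hF'.2.1
        linarith
      rcases h2.eq_or_lt with h3 | h3
      · exfalso; apply hne; rw [hbq, ← h3, one_smul]
      · exact h3
    obtain ⟨a', ha'⟩ := planeE1_first W.fin φ ha hφa
    have haa : a' = a := by
      by_cases hpr : ∃ q : ℚ, a' = q • a
      · obtain ⟨r, hr⟩ := hpr
        have h1 : φ a' = r * φ a := by rw [hr, map_smul, smul_eq_mul]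
        have h2 : φ' a' = r * φ' a := by rw [hr, map_smul, smul_eq_mul]
        have hr0 : 0 < r := by
          have := ha'.2.1
          rw [h1] at this
          exact (mul_pos_iff_of_pos_right hφa).1 this
        have hr1 : r ≤ 1 := by
          have h3 := ha'.2.2 a ha hφa
          rw [h1] at h3
          by_contra hlt
          push Not at hlt
          have := mul_lt_mul_of_pos_right hlt hφa
          linarith
        have hr2 : 1 ≤ r := by
          have h3 := hF'.2.2 a' ha'.1 (by rw [h2]; exact mul_pos hr0 hF'.2.1)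
          rw [h2] at h3
          by_contra hlt
          push Not at hlt
          have := mul_lt_mul_of_pos_right hlt hF'.2.1
          linarith
        rw [hr, le_antisymm hr1 hr2, one_smul]
      · push Not at hpr
        have h1 := hfl a' ha'.1 hpr ha'.2.1 a ha ⟨1, (one_smul _ _).symm⟩
        have h2 := ha'.2.2 a ha hφa
        linarith
    rw [haa] at ha'
    have hab : φ a < φ b := by
      rw [hbp]
      have := mul_lt_mul_of_pos_right hq1 hφa
      linarith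
    obtain ⟨c, hc⟩ := planeE1_next W.fin φ hb hab
    obtain ⟨hm, hp⟩ := H2 φ hG a c ha' hc
    by_cases hpr : ∃ q : ℚ, c = q • a
    · obtain ⟨r, hr⟩ := hpr
      have h1 : φ c = r * φ a := by rw [hr, map_smul, smul_eq_mul]
      have hr1 : 1 < r := by
        have h3 := hc.2.1
        rw [h1] at h3
        by_contra hlt
        push Not at hlt
        have := mul_le_mul_of_nonneg_right hlt hφa.le
        linarith
      have e1 : c - a = (r - 1) • a := by rw [hr, sub_smul, one_smul]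
      have e2 : c + a = ((r + 1) / (r - 1)) • (c - a) := by
        rw [e1, smul_smul, div_mul_cancel₀ _ (by linarith), hr, add_smul, one_smul]
      rw [e2] at hp
      rcases R.red _ hm _ hp with h | h
      · rw [div_eq_iff (by linarith)] at h; linarith
      · rw [div_eq_iff (by linarith)] at h; linarith
    · push Not at hpr
      have h1 := hfl c hc.1 hpr (by linarith [hc.2.1]) b hb ⟨q, hbq⟩
      have h2 := hc.2.2 b hb hab
      linarith
  intro q hq
  rcases lt_trichotomy q 0 with h | h | h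
  · apply key (-b) (-q) (W.neg b hb) (fun h' => hne' (by rw [← h', neg_neg])) (by linarith)
    rw [hq, neg_smul]
  · apply h0
    have : b = 0 := by rw [hq, h, zero_smul]
    rw [← this]; exact hb
  · exact key b q hb hne h hq

/-- The neighbour of a weight in the plane of two weights (even case). -/
theorem plane_even1 {R : Root X} {Ω : Set X} (W : Wts R Ω) (h0 : (0 : X) ∉ Ω)
    (H2 : ∀ φ, Gen R Ω φ → ∀ a b, First Ω φ a → Next Ω φ a b → b - a ∈ R.Φ ∧ b + a ∈ R.Φ)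
    {a b : X} (ha : a ∈ Ω) (hb : b ∈ Ω) (hne : b ≠ a) (hne' : b ≠ -a) :
    (∀ q : ℚ, b ≠ q • a) ∧ ∃ c ∈ Ω, (∃ x y : ℚ, y ≠ 0 ∧ c = x • a + y • b) ∧
      c - a ∈ R.Φ ∧ c + a ∈ R.Φ ∧ R.pr (c - a) c = 1 ∧ R.pr (c - a) a = -1 ∧
      R.pr (c + a) c = 1 ∧ R.pr (c + a) a = 1 := by
  have hline := planeE1_line W h0 H2 ha hb hne hne'
  have hmul : ∀ c ∈ Ω, ∀ q : ℚ, c = q • a → c = a ∨ c = -a := by
    intro c hc q hq
    by_contra hcon
    push Not at hcon
    exact planeE1_line W h0 H2 ha hc hcon.1 hcon.2 q hq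
  refine ⟨hline, ?_⟩
  have ha0 : a ≠ 0 := fun h => h0 (h ▸ ha)
  -- the finite set
  obtain ⟨D, hD⟩ : ∃ D : Set X, D = ((fun p : X × X => p.1 - p.2) '' (Ω ×ˢ Ω)) ∪ (R.Φ ∪ Ω) :=
    ⟨_, rfl⟩
  have hDf : D.Finite := by
    rw [hD]
    exact ((W.fin.prod W.fin).image _).union (R.fin.union W.fin)
  have hDΩ : ∀ x ∈ Ω, x ∈ D := fun x hx => by rw [hD]; exact Or.inr (Or.inr hx)
  have hDΦ : ∀ x ∈ R.Φ, x ∈ D := fun x hx => by rw [hD]; exact Or.inr (Or.inl hx)
  have hDs : ∀ x ∈ Ω, ∀ y ∈ Ω, x - y ∈ D := fun x hx y hy => by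
    rw [hD]; exact Or.inl ⟨(x, y), ⟨hx, hy⟩, rfl⟩
  -- the functionals
  obtain ⟨ψ1, hψ1⟩ : ∃ ψ : X →ₗ[ℚ] ℚ, 0 < ψ a := by
    obtain ⟨ψ, -, h1⟩ := avoid (Set.finite_singleton a) (⊥ : Submodule ℚ X)
    have h2 := h1 a rfl (by rw [Submodule.mem_bot]; exact ha0)
    rcases lt_or_gt_of_ne h2 with h | h
    · exact ⟨-ψ, by rw [LinearMap.neg_apply]; linarith⟩
    · exact ⟨ψ, h⟩
  obtain ⟨ψ2, hψ2, hψ2'⟩ := avoid hDf (Submodule.span ℚ {a})
  obtain ⟨ψ3, hψ3, hψ3'⟩ := avoid hDf (Submodule.span ℚ {a, b})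
  obtain ⟨χ, hχp, hχn, hχ0⟩ := lex2 hDf ψ1 ψ2
  obtain ⟨φ, hφp, hφn, hφ0⟩ := lex2 hDf χ ψ3
  have a2 : ψ2 a = 0 := hψ2 a (Submodule.subset_span rfl)
  have a3 : ψ3 a = 0 := hψ3 a (Submodule.subset_span (by simp))
  have b3 : ψ3 b = 0 := hψ3 b (Submodule.subset_span (by simp))
  have aφ : φ a = ψ1 a := by rw [hφ0 a a3, hχ0 a a2]
  have aφ0 : 0 < φ a := by rw [aφ]; exact hψ1
  have h23 : ∀ x, ψ2 x = 0 → x ∈ D → ∃ t : ℚ, x = t • a := by
    intro x hx hxD
    by_contra hcon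
    apply hψ2' x hxD _ hx
    intro hmem
    obtain ⟨t, ht⟩ := Submodule.mem_span_singleton.1 hmem
    exact hcon ⟨t, ht.symm⟩
  have h33 : ∀ x, ψ3 x = 0 → x ∈ D → ∃ s t : ℚ, x = s • a + t • b := by
    intro x hx hxD
    by_contra hcon
    apply hψ3' x hxD _ hx
    intro hmem
    obtain ⟨s, t, ht⟩ := Submodule.mem_span_pair.1 hmem
    exact hcon ⟨s, t, ht.symm⟩
  have hne0 : ∀ x ∈ D, φ x = 0 → x = 0 := by
    intro x hx hφx
    have h3 : ψ3 x = 0 := by
      rcases lt_trichotomy (ψ3 x) 0 with h | h | h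
      · have := hφn x hx h; linarith
      · exact h
      · have := hφp x hx h; linarith
    rw [hφ0 x h3] at hφx
    have h2 : ψ2 x = 0 := by
      rcases lt_trichotomy (ψ2 x) 0 with h | h | h
      · have := hχn x hx h; linarith
      · exact h
      · have := hχp x hx h; linarith
    rw [hχ0 x h2] at hφx
    obtain ⟨t, ht⟩ := h23 x h2 hx
    rw [ht, map_smul, smul_eq_mul] at hφx
    rcases mul_eq_zero.1 hφx with h | h
    · rw [ht, h, zero_smul]
    · linarith
  have hG : Gen R Ω φ := by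
    refine ⟨fun α hα h => ?_, fun x hx y hy h => ?_⟩
    · have := hne0 α (hDΦ α hα) h
      rw [this] at hα
      exact R.zero hα
    · have := hne0 (x - y) (hDs x hx y hy) (by rw [map_sub, h, sub_self])
      exact sub_eq_zero.1 this
  have hF : First Ω φ a := by
    refine ⟨ha, aφ0, fun ω hω hpos => ?_⟩
    have hsub : φ (ω - a) = φ ω - φ a := map_sub _ _ _
    rcases lt_trichotomy (ψ3 ω) 0 with h | h | h
    · have := hφn ω (hDΩ ω hω) h; linarith
    · rw [hφ0 ω h] at hpos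
      have hs3 : ψ3 (ω - a) = 0 := by rw [map_sub, h, a3, sub_zero]
      rcases lt_trichotomy (ψ2 ω) 0 with h' | h' | h'
      · have := hχn ω (hDΩ ω hω) h'; linarith
      · obtain ⟨t, ht⟩ := h23 ω h' (hDΩ ω hω)
        rcases hmul ω hω t ht with h1 | h1
        · rw [h1]
        · exfalso
          rw [← hφ0 ω h, h1, map_neg] at hpos
          linarith
      · have h1 := hχp (ω - a) (hDs ω hω a ha) (by rw [map_sub, a2, sub_zero]; exact h')
        rw [← hφ0 _ hs3, hsub] at h1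
        linarith
    · have h1 := hφp (ω - a) (hDs ω hω a ha) (by rw [map_sub, a3, sub_zero]; exact h)
      rw [hsub] at h1
      linarith
  -- a weight of the plane larger than `a`
  obtain ⟨b0, hb0, hb03, hb02⟩ : ∃ b0 ∈ Ω, ψ3 b0 = 0 ∧ 0 < ψ2 b0 := by
    have hb2 : ψ2 b ≠ 0 := by
      apply hψ2' b (hDΩ b hb)
      intro hmem
      obtain ⟨t, ht⟩ := Submodule.mem_span_singleton.1 hmem
      exact hline t ht.symm
    rcases lt_or_gt_of_ne hb2 with h | h
    · exact ⟨-b, W.neg b hb, by rw [map_neg, b3, neg_zero], by rw [map_neg]; linarith⟩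
    · exact ⟨b, hb, b3, h⟩
  have hab0 : φ a < φ b0 := by
    have hs3 : ψ3 (b0 - a) = 0 := by rw [map_sub, hb03, a3, sub_zero]
    have h1 := hχp (b0 - a) (hDs b0 hb0 a ha) (by rw [map_sub, a2, sub_zero]; exact hb02)
    rw [← hφ0 _ hs3, map_sub] at h1
    linarith
  obtain ⟨c, hc⟩ := planeE1_next W.fin φ hb0 hab0
  obtain ⟨hm, hp⟩ := H2 φ hG a c hF hc
  have hcpos : 0 < φ c := by linarith [hc.2.1]
  have hc3 : ψ3 c = 0 := by
    rcases lt_trichotomy (ψ3 c) 0 with h | h | h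
    · have := hφn c (hDΩ c hc.1) h; linarith
    · exact h
    · have h1 := hφp (c - b0) (hDs c hc.1 b0 hb0) (by rw [map_sub, hb03, sub_zero]; exact h)
      rw [map_sub] at h1
      have h2 := hc.2.2 b0 hb0 hab0
      linarith
  obtain ⟨x, y, hxy⟩ := h33 c hc3 (hDΩ c hc.1)
  have hy : y ≠ 0 := by
    intro hy
    rw [hy, zero_smul, add_zero] at hxy
    rcases hmul c hc.1 x hxy with h1 | h1
    · have := hc.2.1
      rw [h1] at this
      exact lt_irrefl _ this
    · rw [h1, map_neg] at hcpos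
      linarith
  have hc0 : c ≠ 0 := fun h => h0 (h ▸ hc.1)
  -- the pairings
  obtain ⟨m, hm1⟩ := W.int _ hm a ha
  obtain ⟨n, hn1⟩ := W.int _ hp a ha
  have t1 := R.two _ hm
  have t2 := R.two _ hp
  have u1 : R.pr (c - a) (c - a) = R.pr (c - a) c - R.pr (c - a) a := map_sub _ _ _
  have u2 : R.pr (c - a) (c + a) = R.pr (c - a) c + R.pr (c - a) a := map_add _ _ _
  have u3 : R.pr (c + a) (c + a) = R.pr (c + a) c + R.pr (c + a) a := map_add _ _ _
  have u4 : R.pr (c + a) (c - a) = R.pr (c + a) c - R.pr (c + a) a := map_sub _ _ _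
  have n1 : c + a ≠ c - a := by
    intro h
    apply ha0
    have h1 : a + a = 0 := by
      have h2 : (c + a) - (c - a) = 0 := sub_eq_zero.2 h
      rw [← h2]; abel
    have h2 : (2 : ℚ) • a = 0 := by rw [two_smul]; exact h1
    exact (smul_eq_zero.1 h2).resolve_left (by norm_num)
  have n2 : c + a ≠ -(c - a) := by
    intro h
    apply hc0
    have h1 : c + c = 0 := by
      have h2 : (c + a) + (c - a) = 0 := by rw [h]; abel
      rw [← h2]; abel
    have h2 : (2 : ℚ) • c = 0 := by rw [two_smul]; exact h1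
    exact (smul_eq_zero.1 h2).resolve_left (by norm_num)
  have hfin : R.pr (c - a) a = -1 ∧ R.pr (c + a) a = 1 := by
    rcases R.cox _ hm _ hp n1 n2 with ⟨g1, g2⟩ | ⟨g1, g2⟩
    · constructor <;> linarith
    · exfalso
      have e1 : R.pr (c - a) (c + a) = 2 * ((m : ℚ) + 1) := by rw [u2]; linarith
      have e2 : R.pr (c + a) (c - a) = 2 * (1 - (n : ℚ)) := by rw [u4]; linarith
      rw [e1, e2] at g1 g2
      have e3 : (2 * ((m : ℚ) + 1)) * (2 * (1 - (n : ℚ))) = ((4 * ((m + 1) * (1 - n)) : ℤ) : ℚ) := by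
        push_cast; ring
      rw [e3] at g1 g2
      have g3 : (1 : ℤ) ≤ 4 * ((m + 1) * (1 - n)) := by exact_mod_cast g1
      have g4 : 4 * ((m + 1) * (1 - n)) ≤ (3 : ℤ) := by exact_mod_cast g2
      omega
  refine ⟨c, hc.1, ⟨x, y, hy, hxy⟩, hm, hp, ?_, hfin.1, ?_, hfin.2⟩
  · linarith [hfin.1]
  · linarith [hfin.2]

end Pool.Agent.Y102.SP
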