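import Pool.Agent.Y102.SP.PlaneO1

set_option autoImplicit false

open Module

namespace Pool.Agent.Y102.SP

variable {X : Type} [AddCommGroup X] [Module ℚ X]

/-- reflections preserve the weights -/
theorem PlaneO_refl {R : Root X} {Ω : Set X} (W : Wts R Ω) {α : X} (hα : α ∈ R.Φ) {ω : X}
    (hω : ω ∈ Ω) : ω - R.pr α ω • α ∈ Ω := by
  obtain ⟨n, hn⟩ := W.int α hα ω hω
  rcases le_total 0 n with h | h
  · obtain ⟨j, rfl⟩ := Int.eq_ofNat_of_zero_le h
    have h1 := W.str α hα ω hω j (by rw [hn]; simp)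
    rw [hn]
    simpa using h1
  · obtain ⟨j, hj⟩ := Int.eq_ofNat_of_zero_le (neg_nonneg.2 h)
    have hn' : n = -(j : ℤ) := by omega
    have e : (n : ℚ) = -(j : ℚ) := by rw [hn']; simp
    have h1 := W.str (-α) (R.neg α hα) ω hω j (by rw [R.pneg α hα, hn, e]; simp)
    rw [hn, e]
    simpa using h1

/-- lowering the coefficient of a root to one -/
theorem PlaneO_low {R : Root X} {Ω : Set X} (W : Wts R Ω) {α : X} (hα : α ∈ R.Φ) {v : X}
    (hv : R.pr α v = 0) {x : ℚ} (hx : 0 < x) (hd : x • α + v ∈ Ω)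
    (hP : ∀ x' : ℚ, x' • α + v ∈ Ω → x' = 0 ∨ 1 ≤ |x'|) : α + v ∈ Ω := by
  obtain ⟨n, hn⟩ := W.int α hα _ hd
  have hpr : R.pr α (x • α + v) = 2 * x := by
    rw [map_add, map_smul, R.two α hα, hv, add_zero, smul_eq_mul, mul_comm]
  have hnx : (n : ℚ) = 2 * x := by rw [← hn, hpr]
  have hn0 : 0 < n := by
    have : (0 : ℚ) < n := by rw [hnx]; linarith
    exact_mod_cast this
  obtain ⟨m, hm⟩ := Int.even_or_odd' n
  · rcases hm with hm | hm
    · have hm1 : 1 ≤ m := by omega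
      obtain ⟨j, hj⟩ := Int.eq_ofNat_of_zero_le (show 0 ≤ m - 1 by omega)
      have hxj : x = (j : ℚ) + 1 := by
        have h1 : (n : ℚ) = 2 * ((j : ℚ) + 1) := by
          have h2 : n = 2 * ((j : ℤ) + 1) := by omega
          rw [h2]
          push_cast
          ring
        linarith
      have h2 := W.str α hα _ hd j (by rw [hpr, hxj]; linarith [(Nat.cast_nonneg j : (0 : ℚ) ≤ j)])
      have e : x • α + v - (j : ℚ) • α = α + v := by
        rw [hxj, add_smul, one_smul]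
        abel
      rwa [e] at h2
    · exfalso
      obtain ⟨j, hj⟩ := Int.eq_ofNat_of_zero_le (show 0 ≤ m by omega)
      have hxj : x = (j : ℚ) + 1 / 2 := by
        have h1 : (n : ℚ) = 2 * (j : ℚ) + 1 := by
          have h2 : n = 2 * (j : ℤ) + 1 := by omega
          rw [h2]
          push_cast
          ring
        linarith
      have h2 := W.str α hα _ hd j (by rw [hpr, hxj]; linarith [(Nat.cast_nonneg j : (0 : ℚ) ≤ j)])
      have e : x • α + v - (j : ℚ) • α = (1 / 2 : ℚ) • α + v := by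
        rw [hxj, add_smul]
        abel
      rw [e] at h2
      rcases hP _ h2 with h3 | h3
      · norm_num at h3
      · rw [abs_of_pos (by norm_num)] at h3
        norm_num at h3

/-- The weights in the plane of two weights (odd case). -/
theorem plane_odd {R : Root X} {Ω : Set X} (W : Wts R Ω) (h0 : (0 : X) ∈ Ω)
    (H1 : ∀ φ, Gen R Ω φ → ∀ a, First Ω φ a → a ∈ R.Φ)
    (H2 : ∀ φ a, Line3 R Ω φ a → False)
    (H3 : ∀ φ a b, TypeG R Ω φ a b → False)
    (A1 : ∀ a ∈ R.Φ, ∀ b ∈ R.Φ, a ∈ Ω → b ∈ Ω → a + b ≠ 0 → R.pr a b < 0 → b - a ∉ Ω →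
      b - a ∉ R.Φ → (3 : ℚ) • a ∉ Ω → (3 : ℚ) • b ∉ Ω → False)
    (A2 : ∀ a ∈ R.Φ, ∀ b ∈ R.Φ, a ∈ Ω → b ∈ Ω → R.pr a b = 0 → b - a ∉ R.Φ →
      (3 : ℚ) • a ∉ Ω → (3 : ℚ) • b ∉ Ω → a + b ∈ Ω)
    {a b : X} (ha : a ∈ R.Φ) (haO : a ∈ Ω) (hb : b ∈ R.Φ) (hbO : b ∈ Ω)
    (hab : ∀ q : ℚ, b ≠ q • a) : (2 : ℚ) • a ∉ Ω ∧ R.pr a b = 0 := by
  obtain ⟨c, hc, hcR, ⟨x₀, y₀, hy₀, hcab⟩, pac, pca, lR, lO, pla, plc, a2, c2, hY⟩ :=
    plane_odd1 W h0 H1 H2 H3 A1 A2 ha haO hbO hab
  refine ⟨a2, ?_⟩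
  -- the second property
  have hXY : ∀ x y : ℚ, x • a + y • c ∈ Ω → (y = 0 ∨ 1 ≤ |y|) ∧ (x = 0 ∨ 1 ≤ |x|) := by
    intro x y h
    refine ⟨hY _ h x y rfl, ?_⟩
    have h1 := PlaneO_refl W lR h
    have h2 : R.pr (c - a) (x • a + y • c) = y - x := by
      rw [map_add, map_smul, map_smul, pla, plc, smul_eq_mul, smul_eq_mul]
      ring
    have h3 : x • a + y • c - (y - x) • (c - a) = y • a + x • c := by module
    rw [h2, h3] at h1
    exact hY _ h1 y x rfl
  have hra : ∀ x y : ℚ, x • a + y • c ∈ Ω → (-x) • a + y • c ∈ Ω := by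
    intro x y h
    have h1 := PlaneO_refl W ha h
    have h2 : R.pr a (x • a + y • c) = 2 * x := by
      rw [map_add, map_smul, map_smul, R.two a ha, pac, smul_eq_mul, smul_eq_mul]
      ring
    have h3 : x • a + y • c - (2 * x) • a = (-x) • a + y • c := by module
    rwa [h2, h3] at h1
  have hrc : ∀ x y : ℚ, x • a + y • c ∈ Ω → x • a + (-y) • c ∈ Ω := by
    intro x y h
    have h1 := PlaneO_refl W hcR h
    have h2 : R.pr c (x • a + y • c) = 2 * y := by
      rw [map_add, map_smul, map_smul, R.two c hcR, pca, smul_eq_mul, smul_eq_mul]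
      ring
    have h3 : x • a + y • c - (2 * y) • c = x • a + (-y) • c := by module
    rwa [h2, h3] at h1
  -- no weights inside the quadrants
  have hpos : ∀ x y : ℚ, 0 < x → 0 < y → x • a + y • c ∈ Ω → False := by
    intro x y hx hy h
    have h1 : a + y • c ∈ Ω := by
      refine PlaneO_low W ha (by rw [map_smul, pac, smul_zero]) hx h fun x' h' => ?_
      exact (hXY x' y h').2
    have h2 : c + a ∈ Ω := by
      refine PlaneO_low W hcR pca hy (by rwa [add_comm]) fun y' h' => ?_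
      refine (hXY 1 y' ?_).1
      rwa [one_smul, add_comm]
    have h3 : R.pr a (c + a) = 2 := by rw [map_add, pac, R.two a ha, zero_add]
    have h4 := W.str a ha _ h2 2 (by rw [h3]; norm_num)
    apply lO
    have e : c + a - ((2 : ℕ) : ℚ) • a = c - a := by
      push_cast
      module
    rwa [e] at h4
  have hno : ∀ x y : ℚ, y ≠ 0 → x • a + y • c ∈ Ω → x = 0 := by
    intro x y hy h
    by_contra hx
    rcases lt_or_gt_of_ne hx with hx | hx
    · have h1 := hra x y h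
      rcases lt_or_gt_of_ne hy with hy | hy
      · exact hpos _ _ (neg_pos.2 hx) (neg_pos.2 hy) (hrc _ _ h1)
      · exact hpos _ _ (neg_pos.2 hx) hy h1
    · rcases lt_or_gt_of_ne hy with hy | hy
      · exact hpos _ _ hx (neg_pos.2 hy) (hrc _ _ h)
      · exact hpos _ _ hx hy h
  have hb1 : b = (-(x₀ / y₀)) • a + (1 / y₀) • c := by
    rw [hcab, smul_add, smul_smul, smul_smul, one_div, inv_mul_cancel₀ hy₀, one_smul,
      ← add_assoc, ← add_smul]
    have e : -(x₀ / y₀) + y₀⁻¹ * x₀ = 0 := by field_simp; ring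
    rw [e, zero_smul, zero_add]
  have hx := hno (-(x₀ / y₀)) (1 / y₀) (one_div_ne_zero hy₀) (by rw [← hb1]; exact hbO)
  rw [hb1, hx, zero_smul, zero_add, map_smul, pac, smul_zero]

end Pool.Agent.Y102.SP
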