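import Pool.Agent.Y102.SP.Line

set_option autoImplicit false

open Module

namespace Pool.Agent.Y102.SP

variable {X : Type} [AddCommGroup X] [Module ℚ X]

/-- nonzero weights are roots or twice roots which are weights -/
theorem planeO1_L {R : Root X} {Ω : Set X} (W : Wts R Ω)
    (H1 : ∀ φ, Gen R Ω φ → ∀ a, First Ω φ a → a ∈ R.Φ)
    (H2 : ∀ φ a, Line3 R Ω φ a → False) {w : X} (hw : w ∈ Ω) (hw0 : w ≠ 0) :
    ∃ v ∈ Ω, v ∈ R.Φ ∧ (w = v ∨ w = (2 : ℚ) • v) := by
  obtain ⟨φ, v, r, hG, hF, hv, hr, rfl⟩ := line_odd W H1 hw hw0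
  refine ⟨v, hF.1, hv, ?_⟩
  have h3 : r < 3 := by
    by_contra hge
    push Not at hge
    have h1 := W.str v hv _ hw (r - 3) (by
      rw [map_smul, R.two v hv, smul_eq_mul]
      push_cast [hge]
      have : (3 : ℚ) ≤ r := by exact_mod_cast hge
      linarith)
    apply no_three W H1 H2 hv
    have h2 : ((r : ℚ) • v - ((r - 3 : ℕ) : ℚ) • v) = (3 : ℚ) • v := by
      rw [← sub_smul]
      congr 1
      push_cast [hge]
      ring
    rw [← h2]
    exact h1
  have h4 : r = 1 ∨ r = 2 := by omega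
  rcases h4 with rfl | rfl
  · left; simp
  · right; simp

/-- the functional -/
theorem planeO1_fun {F : Set X} (hF : F.Finite) {a b : X} (ha : a ≠ 0) (hbF : b ∈ F)
    (hab : ∀ q : ℚ, b ≠ q • a) :
    ∃ φ ψ ρ : X →ₗ[ℚ] ℚ,
      (∀ x ∈ F, 0 < ρ x → 0 < φ x) ∧ (∀ x ∈ F, ρ x < 0 → φ x < 0) ∧
      (∀ x ∈ F, ρ x = 0 → 0 < ψ x → 0 < φ x) ∧ (∀ x ∈ F, ρ x = 0 → ψ x < 0 → φ x < 0) ∧
      (∀ q : ℚ, φ (q • a) = q) ∧
      (∀ x y : ℚ, ρ (x • a + y • b) = 0) ∧ (∀ q : ℚ, ψ (q • a) = 0) ∧
      (∀ x ∈ F, ρ x = 0 → ∃ y z : ℚ, x = y • a + z • b) ∧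
      (∀ x ∈ F, ψ x = 0 → ∃ q : ℚ, x = q • a) ∧ 0 < ψ b := by
  obtain ⟨ψ1', -, h1'⟩ := avoid (Set.finite_singleton a) (⊥ : Submodule ℚ X)
  have h1a : ψ1' a ≠ 0 := h1' a rfl (by simpa using ha)
  set ψ1 : X →ₗ[ℚ] ℚ := (ψ1' a)⁻¹ • ψ1' with hψ1
  have h1 : ψ1 a = 1 := by
    rw [hψ1, LinearMap.smul_apply, smul_eq_mul, inv_mul_cancel₀ h1a]
  have hψ : ∃ ψ : X →ₗ[ℚ] ℚ, (∀ q : ℚ, ψ (q • a) = 0) ∧
      (∀ x ∈ F, ψ x = 0 → ∃ q : ℚ, x = q • a) ∧ 0 < ψ b := by
    obtain ⟨ψ, h2, h3⟩ := avoid hF (Submodule.span ℚ {a})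
    have h4 : ∀ q : ℚ, ψ (q • a) = 0 := fun q =>
      h2 _ (Submodule.mem_span_singleton.2 ⟨q, rfl⟩)
    have h5 : ∀ x ∈ F, ψ x = 0 → ∃ q : ℚ, x = q • a := by
      intro x hx hx0
      by_contra hne
      push Not at hne
      refine h3 x hx (fun hmem => ?_) hx0
      obtain ⟨q, hq⟩ := Submodule.mem_span_singleton.1 hmem
      exact hne q hq.symm
    have h6 : ψ b ≠ 0 := fun h0 => by
      obtain ⟨q, hq⟩ := h5 b hbF h0
      exact hab q hq
    rcases lt_or_gt_of_ne h6 with h7 | h7
    · refine ⟨-ψ, fun q => ?_, fun x hx hx0 => h5 x hx ?_, ?_⟩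
      · rw [LinearMap.neg_apply, h4, neg_zero]
      · rw [LinearMap.neg_apply, neg_eq_zero] at hx0
        exact hx0
      · rw [LinearMap.neg_apply]
        linarith
    · exact ⟨ψ, h4, h5, h7⟩
  obtain ⟨ψ, hψ1', hψ2, hψ3⟩ := hψ
  obtain ⟨ρ, h8, h9⟩ := avoid hF (Submodule.span ℚ {a, b})
  have h10 : ∀ x y : ℚ, ρ (x • a + y • b) = 0 := fun x y =>
    h8 _ (Submodule.mem_span_pair.2 ⟨x, y, rfl⟩)
  have h11 : ∀ x ∈ F, ρ x = 0 → ∃ y z : ℚ, x = y • a + z • b := by
    intro x hx hx0
    by_contra hne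
    push Not at hne
    refine h9 x hx (fun hmem => ?_) hx0
    obtain ⟨y, z, hyz⟩ := Submodule.mem_span_pair.1 hmem
    exact hne y z hyz.symm
  obtain ⟨χ, c1, c2, c3⟩ := lex2 hF ψ1 ψ
  obtain ⟨φ, d1, d2, d3⟩ := lex2 hF χ ρ
  refine ⟨φ, ψ, ρ, d1, d2, fun x hx h0 hp => ?_, fun x hx h0 hp => ?_, fun q => ?_, h10, hψ1',
    h11, hψ2, hψ3⟩
  · rw [d3 x h0]
    exact c1 x hx hp
  · rw [d3 x h0]
    exact c2 x hx hp
  · have h12 : ρ (q • a) = 0 := by simpa using h10 q 0
    rw [d3 _ h12, c3 _ (hψ1' q), map_smul, h1, smul_eq_mul, mul_one]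

/-- The neighbour of a weight in the plane of two weights (odd case). -/
theorem plane_odd1 {R : Root X} {Ω : Set X} (W : Wts R Ω) (h0 : (0 : X) ∈ Ω)
    (H1 : ∀ φ, Gen R Ω φ → ∀ a, First Ω φ a → a ∈ R.Φ)
    (H2 : ∀ φ a, Line3 R Ω φ a → False)
    (H3 : ∀ φ a b, TypeG R Ω φ a b → False)
    (A1 : ∀ a ∈ R.Φ, ∀ b ∈ R.Φ, a ∈ Ω → b ∈ Ω → a + b ≠ 0 → R.pr a b < 0 → b - a ∉ Ω →
      b - a ∉ R.Φ → (3 : ℚ) • a ∉ Ω → (3 : ℚ) • b ∉ Ω → False)
    (A2 : ∀ a ∈ R.Φ, ∀ b ∈ R.Φ, a ∈ Ω → b ∈ Ω → R.pr a b = 0 → b - a ∉ R.Φ →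
      (3 : ℚ) • a ∉ Ω → (3 : ℚ) • b ∉ Ω → a + b ∈ Ω)
    {a b : X} (ha : a ∈ R.Φ) (haO : a ∈ Ω) (hb : b ∈ Ω) (hab : ∀ q : ℚ, b ≠ q • a) :
    ∃ c ∈ Ω, c ∈ R.Φ ∧ (∃ x y : ℚ, y ≠ 0 ∧ c = x • a + y • b) ∧ R.pr a c = 0 ∧ R.pr c a = 0 ∧
      c - a ∈ R.Φ ∧ c - a ∉ Ω ∧ R.pr (c - a) a = -1 ∧ R.pr (c - a) c = 1 ∧
      (2 : ℚ) • a ∉ Ω ∧ (2 : ℚ) • c ∉ Ω ∧
      ∀ d ∈ Ω, ∀ x y : ℚ, d = x • a + y • c → y = 0 ∨ 1 ≤ |y| := by
  have hL := fun {w : X} (hw : w ∈ Ω) (hw0 : w ≠ 0) => planeO1_L W H1 H2 hw hw0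
  have hN3 := fun {w : X} (hw : w ∈ R.Φ) => no_three W H1 H2 hw
  have ha0 : a ≠ 0 := fun h => R.zero (h ▸ ha)
  set F : Set X := Set.image2 (fun u v => u - v) Ω Ω ∪ R.Φ with hFdef
  have hF : F.Finite := (W.fin.image2 _ W.fin).union R.fin
  have hFd : ∀ u ∈ Ω, ∀ v ∈ Ω, u - v ∈ F := fun u hu v hv => Or.inl ⟨u, hu, v, hv, rfl⟩
  have hFO : ∀ u ∈ Ω, u ∈ F := fun u hu => by simpa using hFd u hu 0 h0
  have hFR : ∀ u ∈ R.Φ, u ∈ F := fun u hu => Or.inr hu
  obtain ⟨φ, ψ, ρ, f1, f2, f3, f4, f5, f6, f7, f8, f9, f10⟩ :=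
    planeO1_fun hF ha0 (hFO b hb) hab
  have hφa : φ a = 1 := by simpa using f5 1
  have hψa : ψ a = 0 := by simpa using f7 1
  have hρa : ρ a = 0 := by simpa using f6 1 0
  have hρb : ρ b = 0 := by simpa using f6 0 1
  -- zero is detected
  have hzero : ∀ x ∈ F, φ x = 0 → x = 0 := by
    intro x hx hx0
    rcases lt_trichotomy (ρ x) 0 with h | h | h
    · have := f2 x hx h; linarith
    · rcases lt_trichotomy (ψ x) 0 with h' | h' | h'
      · have := f4 x hx h h'; linarith
      · obtain ⟨q, rfl⟩ := f9 x hx h'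
        rw [f5] at hx0
        rw [hx0, zero_smul]
      · have := f3 x hx h h'; linarith
    · have := f1 x hx h; linarith
  have hgen : Gen R Ω φ := by
    constructor
    · intro α hα h
      exact R.zero (hzero α (hFR α hα) h ▸ hα)
    · intro χ hχ χ' hχ' h
      have h1 := hzero (χ - χ') (hFd χ hχ χ' hχ') (by rw [map_sub, h, sub_self])
      exact sub_eq_zero.1 h1
  -- signs of positive elements
  have hρnn : ∀ x ∈ F, 0 < φ x → 0 ≤ ρ x := fun x hx hp => by
    by_contra h
    have := f2 x hx (not_le.1 h)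
    linarith
  have hψnn : ∀ x ∈ F, 0 < φ x → ρ x = 0 → 0 ≤ ψ x := fun x hx hp h0 => by
    by_contra h
    have := f4 x hx h0 (not_le.1 h)
    linarith
  -- weights proportional to `a`
  have hline : ∀ q : ℚ, q • a ∈ Ω → 0 < q → q = 1 ∨ q = 2 := by
    intro q hq hq0
    obtain ⟨v, hv, hvR, h⟩ := hL hq (smul_ne_zero hq0.ne' ha0)
    rcases h with h | h
    · rw [← h] at hvR
      rcases R.red a ha q hvR with h1 | h1
      · exact Or.inl h1
      · linarith
    · have h2 : v = (q / 2) • a := by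
        have h3 : (2 : ℚ) • v = (2 : ℚ) • ((q / 2) • a) := by
          rw [← h, smul_smul]
          congr 1
          ring
        exact smul_right_injective X (by norm_num : (2 : ℚ) ≠ 0) h3
      rw [h2] at hvR
      rcases R.red a ha _ hvR with h1 | h1
      · right; linarith
      · linarith
  -- the first weight
  have hfirst : First Ω φ a := by
    refine ⟨haO, by rw [hφa]; norm_num, fun ω hω hp => ?_⟩
    rcases (hρnn ω (hFO ω hω) hp).lt_or_eq with h | h
    · have h1 := f1 (ω - a) (hFd ω hω a haO) (by rw [map_sub, hρa, sub_zero]; exact h)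
      rw [map_sub] at h1
      linarith
    · have hρ : ρ ω = 0 := h.symm
      rcases (hψnn ω (hFO ω hω) hp hρ).lt_or_eq with h' | h'
      · have h1 := f3 (ω - a) (hFd ω hω a haO) (by rw [map_sub, hρa, hρ, sub_zero])
          (by rw [map_sub, hψa, sub_zero]; exact h')
        rw [map_sub] at h1
        linarith
      · obtain ⟨q, rfl⟩ := f9 ω (hFO ω hω) h'.symm
        rw [f5] at hp
        rw [hφa, f5]
        rcases hline q hω hp with rfl | rfl <;> norm_num
  -- the smallest positive weight of the plane outside the line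
  have hCfin : {w ∈ Ω | ρ w = 0 ∧ 0 < ψ w}.Finite := W.fin.subset fun w hw => hw.1
  have hCne : {w ∈ Ω | ρ w = 0 ∧ 0 < ψ w}.Nonempty := ⟨b, hb, hρb, f10⟩
  obtain ⟨c, ⟨hcO, hρc, hψc⟩, hcmin⟩ := hCfin.exists_minimalFor φ _ hCne
  have hcmin' : ∀ w ∈ Ω, ρ w = 0 → 0 < ψ w → φ c ≤ φ w := by
    intro w hw h1 h2
    by_contra hlt
    have h3 := hcmin ⟨hw, h1, h2⟩ (not_le.1 hlt).le
    exact hlt h3
  have hφc : 0 < φ c := f3 c (hFO c hcO) hρc hψc
  have hlev : ∀ w ∈ Ω, ρ w = 0 → 0 < ψ w → ψ c ≤ ψ w := by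
    intro w hw h1 h2
    by_contra hlt
    have h3 := hcmin' w hw h1 h2
    have h4 := f4 (w - c) (hFd w hw c hcO) (by rw [map_sub, h1, hρc, sub_zero])
      (by rw [map_sub]; linarith [not_le.1 hlt])
    rw [map_sub] at h4
    linarith
  have hhalf : ∀ v : X, v ∈ Ω → ρ ((2 : ℚ) • v) = 0 → ψ ((2 : ℚ) • v) = ψ c → False := by
    intro v hv h1 h2
    rw [map_smul, smul_eq_mul] at h1 h2
    have h3 := hlev v hv (by linarith) (by linarith)
    linarith
  have hcne : ∀ q : ℚ, c ≠ q • a := fun q hq => by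
    rw [hq, f7] at hψc
    exact lt_irrefl _ hψc
  have hc0 : c ≠ 0 := fun h => hcne 0 (by rw [h, zero_smul])
  have hca : c ≠ a := fun h => hcne 1 (by rw [h, one_smul])
  have hcna : c ≠ -a := fun h => hcne (-1) (by rw [h, neg_smul, one_smul])
  have hcR : c ∈ R.Φ := by
    obtain ⟨v, hv, hvR, h⟩ := hL hcO hc0
    rcases h with h | h
    · rw [h]; exact hvR
    · exact (hhalf v hv (by rw [← h]; exact hρc) (by rw [← h])).elim
  have hcaO : c - a ∉ Ω := by
    intro hmem
    have h1 := hcmin' (c - a) hmem (by rw [map_sub, hρc, hρa, sub_zero])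
      (by rw [map_sub, hψa, sub_zero]; exact hψc)
    rw [map_sub, hφa] at h1
    linarith
  have hacne : a + c ≠ 0 := fun h => hcna (by
    rw [eq_neg_iff_add_eq_zero, add_comm]; exact h)
  -- the last claim
  have hlast : ∀ d ∈ Ω, ∀ x y : ℚ, d = x • a + y • c → y = 0 ∨ 1 ≤ |y| := by
    intro d hd x y hdxy
    have hρd : ρ d = 0 := by
      rw [hdxy, map_add, map_smul, map_smul, hρa, hρc, smul_zero, smul_zero, add_zero]
    have hψd : ψ d = y * ψ c := by
      rw [hdxy, map_add, map_smul, map_smul, hψa, smul_zero, zero_add, smul_eq_mul]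
    rcases lt_trichotomy y 0 with h | h | h
    · right
      have h1 := hlev (-d) (W.neg d hd) (by rw [map_neg, hρd, neg_zero])
        (by rw [map_neg, hψd]; nlinarith)
      rw [map_neg, hψd] at h1
      rw [abs_of_neg h]
      by_contra hlt
      push Not at hlt
      nlinarith
    · exact Or.inl h
    · right
      have h1 := hlev d hd hρd (by rw [hψd]; positivity)
      rw [hψd] at h1
      rw [abs_of_pos h]
      by_contra hlt
      push Not at hlt
      nlinarith
  have hc3 := hN3 hcR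
  have ha3 := hN3 ha
  -- the pairing
  obtain ⟨n, hn⟩ := R.int a ha c hcR
  have hn0 : n ≤ 0 := by
    by_contra hpos
    push Not at hpos
    apply hcaO
    have h1 := W.str a ha c hcO 1 (by
      rw [hn]
      push_cast
      exact_mod_cast hpos)
    simpa using h1
  have hcox := R.cox a ha c hcR hca hcna
  rcases hn0.lt_or_eq with hneg | hzero'
  · -- negative pairing
    exfalso
    have hneg' : R.pr a c < 0 := by rw [hn]; exact_mod_cast hneg
    by_cases hlR : c - a ∈ R.Φ
    swap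
    · exact A1 a ha c hcR haO hcO hacne hneg' hcaO hlR ha3 hc3
    set l := c - a with hl
    have hla : l ≠ a := fun h => hcne 2 (by
      have : c = a + a := by rw [← sub_eq_iff_eq_add]; exact h
      rw [this, two_smul])
    have hlna : l ≠ -a := fun h => hc0 (by
      have : c = -a + a := by rw [← sub_eq_iff_eq_add]; exact h
      rw [this, neg_add_cancel])
    have hpal : R.pr a l = n - 2 := by rw [hl, map_sub, hn, R.two a ha]
    obtain ⟨k, hk⟩ := R.int l hlR a ha
    have hcoxl := R.cox a ha l hlR hla hlna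
    have hnk : n = -1 ∧ k = -1 := by
      rcases hcoxl with ⟨h1, -⟩ | ⟨h1, h2⟩
      · exfalso
        rw [hpal] at h1
        have : (n : ℚ) = 2 := by linarith
        have : n = 2 := by exact_mod_cast this
        omega
      · rw [hpal, hk] at h1 h2
        have h1' : 1 ≤ (n - 2) * k := by exact_mod_cast h1
        have h2' : (n - 2) * k ≤ 3 := by exact_mod_cast h2
        have hk0 : k < 0 := by
          by_contra hk0
          push Not at hk0
          nlinarith
        have hk1 : k = -1 := by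
          by_contra hne
          have : k ≤ -2 := by omega
          nlinarith
        subst hk1
        constructor
        · omega
        · rfl
    obtain ⟨rfl, rfl⟩ := hnk
    have hpac : R.pr a c = -1 := by rw [hn]; norm_num
    have hpal' : R.pr a l = -3 := by rw [hpal]; norm_num
    have hpla : R.pr l a = -1 := by rw [hk]; norm_num
    have hcla : c = l + a := by rw [hl, sub_add_cancel]
    have hplc : R.pr l c = 1 := by
      rw [hcla, map_add, R.two l hlR, hpla]; norm_num
    have hpca : R.pr c a ≤ -1 := by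
      rcases hcox with ⟨h1, -⟩ | ⟨h1, -⟩
      · rw [hpac] at h1; norm_num at h1
      · rw [hpac] at h1; linarith
    have hr3 : l + (3 : ℚ) • a ∈ R.Φ := by
      have h1 := R.refl a ha l hlR
      rw [hpal'] at h1
      have h2 : l - (-3 : ℚ) • a = l + (3 : ℚ) • a := by
        rw [neg_smul, sub_neg_eq_add]
      rw [h2] at h1
      exact h1
    have h2a : (2 : ℚ) • a ∉ Ω := by
      intro hmem
      have h1 := W.str (-c) (R.neg c hcR) _ hmem 1 (by
        rw [R.pneg c hcR, map_smul, smul_eq_mul]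
        push_cast
        linarith)
      have h2 : (2 : ℚ) • a - ((1 : ℕ) : ℚ) • (-c) = l + (3 : ℚ) • a := by
        rw [hcla]
        module
      rw [h2] at h1
      have h3 := W.str a ha _ h1 3 (by
        rw [map_add, map_smul, hpal', R.two a ha, smul_eq_mul]
        norm_num)
      have h4 : l + (3 : ℚ) • a - ((3 : ℕ) : ℚ) • a = l := by
        push_cast
        exact add_sub_cancel_right _ _
      rw [h4] at h3
      exact hcaO h3
    have hn1 : Next Ω φ a c := by
      refine ⟨hcO, ?_, fun ω hω hp => ?_⟩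
      · have h1 := f3 (c - a) (hFd c hcO a haO) (by rw [map_sub, hρc, hρa, sub_zero])
          (by rw [map_sub, hψa, sub_zero]; exact hψc)
        rw [map_sub] at h1
        linarith
      · have hp0 : 0 < φ ω := by linarith [hφa]
        rcases (hρnn ω (hFO ω hω) hp0).lt_or_eq with h | h
        · have h1 := f1 (ω - c) (hFd ω hω c hcO) (by rw [map_sub, hρc, sub_zero]; exact h)
          rw [map_sub] at h1
          linarith
        · rcases (hψnn ω (hFO ω hω) hp0 h.symm).lt_or_eq with h' | h'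
          · exact hcmin' ω hω h.symm h'
          · obtain ⟨q, rfl⟩ := f9 ω (hFO ω hω) h'.symm
            rw [f5] at hp hp0
            rcases hline q hω hp0 with rfl | rfl
            · rw [hφa] at hp; exact absurd hp (lt_irrefl _)
            · exact absurd hω h2a
    have hacR : a + c ∈ R.Φ := by
      have h1 := R.refl a ha c hcR
      rw [hpac] at h1
      have h2 : c - (-1 : ℚ) • a = a + c := by
        rw [neg_smul, one_smul, sub_neg_eq_add, add_comm]
      rw [h2] at h1
      exact h1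
    have hacO : a + c ∈ Ω := by
      have h1 := W.str (-a) (R.neg a ha) c hcO 1 (by
        rw [R.pneg a ha, hpac]; norm_num)
      have h2 : c - ((1 : ℕ) : ℚ) • (-a) = a + c := by
        rw [Nat.cast_one, one_smul, sub_neg_eq_add, add_comm]
      rw [h2] at h1
      exact h1
    have hn2 : Next Ω φ c (a + c) := by
      refine ⟨hacO, by rw [map_add, hφa]; linarith, fun d hd hp => ?_⟩
      by_contra hlt
      push Not at hlt
      rw [map_add, hφa] at hlt
      have hp0 : 0 < φ d := hφc.trans hp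
      have hdc : d - c ∈ F := hFd d hd c hcO
      have hdc' : (a + c) - d ∈ F := hFd _ hacO d hd
      have hρd : ρ d = 0 := by
        have h1 := hρnn d (hFO d hd) hp0
        have h2 := hρnn ((a + c) - d) hdc' (by rw [map_sub, map_add, hφa]; linarith)
        rw [map_sub, map_add, hρa, hρc] at h2
        linarith
      have hψd : ψ d = ψ c := by
        have h1 := hψnn (d - c) hdc (by rw [map_sub]; linarith)
          (by rw [map_sub, hρd, hρc, sub_zero])
        have h2 := hψnn ((a + c) - d) hdc' (by rw [map_sub, map_add, hφa]; linarith)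
          (by rw [map_sub, map_add, hρa, hρc, hρd]; norm_num)
        rw [map_sub] at h1
        rw [map_sub, map_add, hψa] at h2
        linarith
      obtain ⟨r, hr⟩ := f9 (d - c) hdc (by rw [map_sub, hψd, sub_self])
      have hdr : d = c + r • a := by rw [← hr, add_sub_cancel]
      have hφd : φ d = φ c + r := by rw [hdr, map_add, f5]
      have hr0 : 0 < r := by linarith
      have hr1 : r < 1 := by linarith
      have hpad : R.pr a d = -1 + 2 * r := by
        rw [hdr, map_add, map_smul, hpac, R.two a ha, smul_eq_mul]; ring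
      obtain ⟨m, hm⟩ := W.int a ha d hd
      rw [hpad] at hm
      have hm0 : m = 0 := by
        have h1 : (-1 : ℚ) < m := by linarith
        have h2 : (m : ℚ) < 1 := by linarith
        have h1' : -1 < m := by exact_mod_cast h1
        have h2' : m < 1 := by exact_mod_cast h2
        omega
      rw [hm0] at hm
      have hr2 : r = 1 / 2 := by
        push_cast at hm
        linarith
      have hd0 : d ≠ 0 := fun h => by rw [h, map_zero] at hp0; exact lt_irrefl _ hp0
      have hdR : d ∈ R.Φ := by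
        obtain ⟨v, hv, hvR, h⟩ := hL hd hd0
        rcases h with h | h
        · rw [h]; exact hvR
        · exact (hhalf v hv (by rw [← h]; exact hρd) (by rw [← h]; exact hψd)).elim
      obtain ⟨m', hm'⟩ := R.int l hlR d hdR
      rw [hdr, map_add, map_smul, hplc, hpla, hr2, smul_eq_mul] at hm'
      have h1 : (2 : ℚ) * m' = 1 := by linarith
      have h2 : 2 * m' = 1 := by exact_mod_cast h1
      omega
    refine H3 φ a c ⟨hgen, hfirst, hn1, hn2, ha, hcR, hacR, hlR, hcaO, h2a, ?_, ?_⟩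
    · change 0 < R.pr l c
      rw [hplc]; norm_num
    · intro x y hxy
      have hy : y = 0 := by
        have h1 := congrArg ψ hxy
        rw [map_add, map_smul, map_smul, hψa, map_zero, smul_zero, zero_add, smul_eq_mul] at h1
        rcases mul_eq_zero.1 h1 with h2 | h2
        · exact h2
        · exact absurd h2 hψc.ne'
      refine ⟨?_, hy⟩
      rw [hy, zero_smul, add_zero] at hxy
      rcases smul_eq_zero.1 hxy with h2 | h2
      · exact h2
      · exact absurd h2 ha0
  · -- orthogonal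
    subst hzero'
    have hpac : R.pr a c = 0 := by rw [hn]; norm_num
    have hpca : R.pr c a = 0 := by
      rcases hcox with ⟨-, h1⟩ | ⟨h1, -⟩
      · exact h1
      · rw [hpac, zero_mul] at h1; norm_num at h1
    have hlR : c - a ∈ R.Φ := by
      by_contra hlR
      have hacO := A2 a ha c hcR haO hcO hpac hlR ha3 hc3
      obtain ⟨v, hv, hvR, h⟩ := hL hacO hacne
      rcases h with h | h
      · rw [← h] at hvR
        have h1 := R.refl a ha _ hvR
        apply hlR
        have h2 : a + c - R.pr a (a + c) • a = c - a := by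
          rw [map_add, R.two a ha, hpac]
          module
        rw [h2] at h1
        exact h1
      · refine hhalf v hv ?_ ?_
        · rw [← h, map_add, hρa, hρc, add_zero]
        · rw [← h, map_add, hψa, zero_add]
    set l := c - a with hl
    have hcla : c = l + a := by rw [hl, sub_add_cancel]
    have hla : l ≠ a := fun h => hcne 2 (by rw [hcla, h, two_smul])
    have hlna : l ≠ -a := fun h => hc0 (by rw [hcla, h, neg_add_cancel])
    have hpal : R.pr a l = -2 := by rw [hl, map_sub, hpac, R.two a ha]; norm_num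
    obtain ⟨k, hk⟩ := R.int l hlR a ha
    have hk1 : k = -1 := by
      rcases R.cox a ha l hlR hla hlna with ⟨h1, -⟩ | ⟨h1, h2⟩
      · rw [hpal] at h1; norm_num at h1
      · rw [hpal, hk] at h1 h2
        have h1' : (1 : ℚ) ≤ ((-2 * k : ℤ) : ℚ) := by push_cast; exact h1
        have h2' : ((-2 * k : ℤ) : ℚ) ≤ 3 := by push_cast; exact h2
        have h1'' : 1 ≤ -2 * k := by exact_mod_cast h1'
        have h2'' : -2 * k ≤ 3 := by exact_mod_cast h2'
        omega
    subst hk1
    have hpla : R.pr l a = -1 := by rw [hk]; norm_num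
    have hplc : R.pr l c = 1 := by
      rw [hcla, map_add, R.two l hlR, hpla]; norm_num
    have h2a : (2 : ℚ) • a ∉ Ω := by
      intro hmem
      have h1 := W.str (-l) (R.neg l hlR) _ hmem 1 (by
        rw [R.pneg l hlR, map_smul, smul_eq_mul, hpla]
        norm_num)
      have h2 : (2 : ℚ) • a - ((1 : ℕ) : ℚ) • (-l) = a + c := by
        rw [hcla]
        module
      rw [h2] at h1
      have h3 := W.str a ha _ h1 2 (by
        rw [map_add, R.two a ha, hpac]
        norm_num)
      have h4 : a + c - ((2 : ℕ) : ℚ) • a = c - a := by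
        push_cast
        module
      rw [h4] at h3
      exact hcaO h3
    have h2c : (2 : ℚ) • c ∉ Ω := by
      intro hmem
      have h1 := W.str l hlR _ hmem 2 (by
        rw [map_smul, smul_eq_mul, hplc]
        norm_num)
      have h2 : (2 : ℚ) • c - ((2 : ℕ) : ℚ) • l = (2 : ℚ) • a := by
        rw [hcla]
        push_cast
        module
      rw [h2] at h1
      exact h2a h1
    obtain ⟨x, y, hxy⟩ := f8 c (hFO c hcO) hρc
    refine ⟨c, hcO, hcR, ⟨x, y, ?_, hxy⟩, hpac, hpca, hlR, hcaO, hpla, hplc, h2a, h2c, hlast⟩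
    rintro rfl
    exact hcne x (by rw [hxy, zero_smul, add_zero])

end Pool.Agent.Y102.SP
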