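import Pool.Agent.Y102.SP.Col
import Pool.Agent.Y102.T3

set_option autoImplicit false

open Module

namespace Pool.Agent.Y102.SP

section

variable {R : Type} [Ring R] [Algebra ℂ R]

/-- relations of the quaternions, with unit element `e` -/
structure SmallQ (e x y : R) : Prop where
  ee : e * e = e
  ex : e * x = x
  xe : x * e = x
  ey : e * y = y
  ye : y * e = y
  xx : x * x = -e
  yy : y * y = -e
  yx : y * x = -(x * y)

theorem Small_prod {e x y z : R} (ee : e * e = e) (ex : e * x = x) (ey : e * y = y)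
    (ez : e * z = z) (xe : x * e = x) (ye : y * e = y) (ze : z * e = z) (xx : x * x = -e)
    (xy : x * y = z) (xz : x * z = -y) (yx : y * x = -z) (yy : y * y = -e) (yz : y * z = x)
    (zx : z * x = y) (zy : z * y = -x) (zz : z * z = -e) (a b c d a' b' c' d' : ℂ) :
    (a • e + b • x + c • y + d • z) * (a' • e + b' • x + c' • y + d' • z) =
      (a * a' - b * b' - c * c' - d * d') • e + (a * b' + b * a' + c * d' - d * c') • x +
      (a * c' - b * d' + c * a' + d * b') • y + (a * d' + b * c' - c * b' + d * a') • z := by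
  simp only [add_mul, mul_add, smul_mul_assoc, mul_smul_comm, ee, ex, ey, ez, xe, ye, ze, xx, xy,
    xz, yx, yy, yz, zx, zy, zz]
  module

/-- the homomorphism from the matrices of size two -/
noncomputable def Small_F (e x y : R) : TA.S →ₗ[ℂ] R where
  toFun a := ((a 0 0 + a 1 1) / 2) • e + ((a 0 0 - a 1 1) / 2 * Complex.I) • x +
    ((a 0 1 + a 1 0) / 2 * Complex.I) • y + (-((a 0 1 - a 1 0) / 2)) • (x * y)
  map_add' a b := by
    simp only [Matrix.add_apply]
    module
  map_smul' r a := by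
    simp only [Matrix.smul_apply, smul_eq_mul, RingHom.id_apply]
    module

theorem Small_F_apply (e x y : R) (a : TA.S) : Small_F e x y a =
    ((a 0 0 + a 1 1) / 2) • e + ((a 0 0 - a 1 1) / 2 * Complex.I) • x +
    ((a 0 1 + a 1 0) / 2 * Complex.I) • y + (-((a 0 1 - a 1 0) / 2)) • (x * y) := rfl

theorem Small_mul {e x y : R} (h : SmallQ e x y) (a b : TA.S) :
    Small_F e x y (a * b) = Small_F e x y a * Small_F e x y b := by
  obtain ⟨z, hz⟩ : ∃ z, z = x * y := ⟨_, rfl⟩
  have ez : e * z = z := by rw [hz, ← mul_assoc, h.ex]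
  have ze : z * e = z := by rw [hz, mul_assoc, h.ye]
  have xz : x * z = -y := by rw [hz, ← mul_assoc, h.xx, neg_mul, h.ey]
  have zy : z * y = -x := by rw [hz, mul_assoc, h.yy, mul_neg, h.xe]
  have zx : z * x = y := by
    rw [hz, mul_assoc, h.yx, mul_neg, ← mul_assoc, h.xx, neg_mul, neg_neg, h.ey]
  have yz : y * z = x := by
    rw [hz, ← mul_assoc, h.yx, neg_mul, mul_assoc, h.yy, mul_neg, neg_neg, h.xe]
  have zz : z * z = -e := by
    calc z * z = x * (y * z) := by rw [← mul_assoc, ← hz]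
      _ = -e := by rw [yz, h.xx]
  rw [Small_F_apply, Small_F_apply, Small_F_apply, ← hz,
    Small_prod h.ee h.ex h.ey ez h.xe h.ye ze h.xx hz.symm xz (by rw [hz]; exact h.yx) h.yy yz zx
      zy zz]
  have hI := Complex.I_mul_I
  simp only [Matrix.mul_apply, Fin.sum_univ_two]
  congr 1
  · congr 1
    · congr 1
      · congr 1
        linear_combination ((a 0 0 - a 1 1) * (b 0 0 - b 1 1) / 4 +
          (a 0 1 + a 1 0) * (b 0 1 + b 1 0) / 4) * hI
      · congr 1
        ring
    · congr 1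
      ring
  · congr 1
    linear_combination (-((a 0 0 - a 1 1) * (b 0 1 + b 1 0) / 4) +
      (a 0 1 + a 1 0) * (b 0 0 - b 1 1) / 4) * hI

theorem Small_one (e x y : R) : Small_F e x y 1 = e := by
  rw [Small_F_apply]
  simp

theorem Small_comm {e x y N : R} (h1 : N * e = e * N) (h2 : N * x = x * N) (h3 : N * y = y * N)
    (a : TA.S) : N * Small_F e x y a = Small_F e x y a * N := by
  have h4 : N * (x * y) = x * y * N := by
    rw [← mul_assoc, h2, mul_assoc, h3, mul_assoc]
  rw [Small_F_apply]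
  simp only [mul_add, add_mul, mul_smul_comm, smul_mul_assoc, h1, h2, h3, h4]

theorem Small_mk (e x y : R) (a b c : ℂ) : Small_F e x y (TA.mk a b c) =
    (a * Complex.I) • x + ((b + c) / 2 * Complex.I) • y + (-((b - c) / 2)) • (x * y) := by
  rw [Small_F_apply]
  simp only [TA.mk, Matrix.of_apply, Matrix.cons_val', Matrix.cons_val_zero, Matrix.cons_val_one,
    Matrix.cons_val_fin_one]
  have h1 : (a + -a) / 2 = 0 := by ring
  have h2 : (a - -a) / 2 * Complex.I = a * Complex.I := by ring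
  rw [h1, h2, zero_smul, zero_add]

theorem Small_inj {φ : TA.S →ₗ[ℂ] R} (hm : ∀ a b, φ (a * b) = φ a * φ b) (h1 : φ 1 ≠ 0) {a : TA.S}
    (ha : φ a = 0) : a = 0 := by
  refine TA.TypeA.inj (φ := fun _ : Fin 1 => φ)
    (M := Submodule.map φ (LinearMap.ker (Matrix.traceLinearMap (Fin 2) ℂ ℂ))) (i := 0) (a := a)
    ?_ ha
  refine ⟨fun _ => hm, fun i k hik => absurd (Subsingleton.elim i k) hik, fun _ => h1, ?_, ?_,
    fun i k hik => absurd (Subsingleton.elim i k) hik⟩
  · intro _ x hx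
    exact Submodule.mem_map_of_mem (by rw [LinearMap.mem_ker]; exact hx)
  · rintro _ ⟨x, hx, rfl⟩
    refine ⟨fun _ => x, fun _ => hx, ?_⟩
    rw [Fin.sum_univ_one, sub_self]
    exact TA.Cen.zero

theorem Small_zero {ξ : TA.S} (h0 : ξ.trace = 0) (h : ∀ y : TA.S, y.trace = 0 → ξ * y = y * ξ) :
    ξ = 0 := by
  have h1 := h TA.H (TA.trace_mk _ _ _)
  have h2 := h TA.E (TA.trace_mk _ _ _)
  have e1 := congrFun (congrFun h1 0) 1
  have e2 := congrFun (congrFun h1 1) 0
  have e3 := congrFun (congrFun h2 0) 1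
  rw [Matrix.trace_fin_two] at h0
  simp [TA.H, TA.E, TA.mk, Matrix.mul_apply, Fin.sum_univ_two] at e1 e2 e3
  have i1 : ξ 0 1 = 0 := by linear_combination (-1 / 2 : ℂ) * e1
  have i2 : ξ 1 0 = 0 := by linear_combination (1 / 2 : ℂ) * e2
  have i3 : ξ 0 0 = 0 := by linear_combination (1 / 2 : ℂ) * (h0 + e3)
  have i4 : ξ 1 1 = 0 := by linear_combination h0 - i3
  ext i j
  fin_cases i <;> fin_cases j
  · exact i3
  · exact i1
  · exact i2
  · exact i4

/-- systems of type `A_1` from quaternions -/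
theorem Small_abs {J : Type} [Fintype J] (e x y : J → R) (M : Submodule ℂ R)
    (hQ : ∀ j, SmallQ (e j) (x j) (y j))
    (hC : ∀ i j, i ≠ j → ∀ u ∈ ({e i, x i, y i} : Set R), ∀ v ∈ ({e j, x j, y j} : Set R),
      u * v = v * u)
    (hne : ∀ j, e j ≠ 0) (hM : ∀ j, x j ∈ M ∧ y j ∈ M ∧ x j * y j ∈ M)
    (hD : M ≤ Submodule.span ℂ {z | ∃ j, z = x j ∨ z = y j ∨ z = x j * y j})
    (hP : ∀ i j, i ≠ j → e i * e j ≠ 0 ∨ ∃ N : R, N ≠ 0 ∧ e i * N = N ∧ N * e j = N ∧
      ∀ l, l ≠ i → l ≠ j → ∀ v ∈ ({e l, x l, y l} : Set R), N * v = v * N) :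
    ∃ (n : ℕ) (φ : Fin n → TA.S →ₗ[ℂ] R), TA.TypeA φ M := by
  classical
  obtain ⟨eq⟩ : Nonempty (Fin (Fintype.card J) ≃ J) := ⟨(Fintype.equivFin J).symm⟩
  obtain ⟨φ, hφ⟩ : ∃ φ : Fin (Fintype.card J) → TA.S →ₗ[ℂ] R,
    φ = fun i => Small_F (e (eq i)) (x (eq i)) (y (eq i)) := ⟨_, rfl⟩
  have hφi : ∀ i, φ i = Small_F (e (eq i)) (x (eq i)) (y (eq i)) := fun i => by rw [hφ]
  have mul : ∀ i a b, φ i (a * b) = φ i a * φ i b := fun i a b => by
    rw [hφi]; exact Small_mul (hQ _) a b
  have comm : ∀ i k, i ≠ k → ∀ a b, φ i a * φ k b = φ k b * φ i a := by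
    intro i k hik a b
    have hik' : eq i ≠ eq k := fun h => hik (eq.injective h)
    have h1 : ∀ v ∈ ({e (eq k), x (eq k), y (eq k)} : Set R), φ i a * v = v * φ i a := by
      intro v hv
      rw [hφi]
      exact (Small_comm (hC _ _ hik' _ (by simp) _ hv).symm (hC _ _ hik' _ (by simp) _ hv).symm
        (hC _ _ hik' _ (by simp) _ hv).symm a).symm
    rw [hφi k]
    exact Small_comm (h1 _ (by simp)) (h1 _ (by simp)) (h1 _ (by simp)) b
  have one : ∀ i, φ i 1 = e (eq i) := fun i => by rw [hφi]; exact Small_one _ _ _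
  have one' : ∀ i, φ i 1 ≠ 0 := fun i => by rw [one]; exact hne _
  have mem : ∀ i (x : TA.S), x.trace = 0 → φ i x ∈ M := by
    intro i a ha
    rw [hφi, TA.eq_mk ha, Small_mk]
    obtain ⟨h1, h2, h3⟩ := hM (eq i)
    exact M.add_mem (M.add_mem (M.smul_mem _ h1) (M.smul_mem _ h2)) (M.smul_mem _ h3)
  have dec : ∀ X ∈ M, ∃ ξ : Fin (Fintype.card J) → TA.S, (∀ i, (ξ i).trace = 0) ∧
      X = ∑ i, φ i (ξ i) := by
    intro X hX
    refine Submodule.span_induction (p := fun X _ => ∃ ξ : Fin (Fintype.card J) → TA.S,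
      (∀ i, (ξ i).trace = 0) ∧ X = ∑ i, φ i (ξ i)) ?_ ?_ ?_ ?_ (hD hX)
    · rintro z ⟨j, hj⟩
      have key : ∃ a : TA.S, a.trace = 0 ∧ z = φ (eq.symm j) a := by
        rw [hφi, Equiv.apply_symm_apply]
        rcases hj with h | h | h
        · refine ⟨TA.mk (-Complex.I) 0 0, TA.trace_mk _ _ _, ?_⟩
          rw [Small_mk, h]
          have h1 : -Complex.I * Complex.I = 1 := by rw [neg_mul, Complex.I_mul_I, neg_neg]
          rw [h1]
          simp
        · refine ⟨TA.mk 0 (-Complex.I) (-Complex.I), TA.trace_mk _ _ _, ?_⟩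
          rw [Small_mk, h]
          have h1 : (-Complex.I + -Complex.I) / 2 * Complex.I = 1 := by
            linear_combination -Complex.I_mul_I
          rw [h1]
          simp
        · refine ⟨TA.mk 0 (-1) 1, TA.trace_mk _ _ _, ?_⟩
          rw [Small_mk, h]
          norm_num
      obtain ⟨a, ha, hz⟩ := key
      refine ⟨Pi.single (eq.symm j) a, fun i => ?_, ?_⟩
      · by_cases hi : i = eq.symm j
        · subst hi
          rw [Pi.single_eq_same]
          exact ha
        · rw [Pi.single_eq_of_ne hi]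
          exact Matrix.trace_zero _ _
      · rw [Finset.sum_eq_single (eq.symm j)]
        · rw [Pi.single_eq_same]
          exact hz
        · intro i _ hi
          rw [Pi.single_eq_of_ne hi, map_zero]
        · intro h
          exact absurd (Finset.mem_univ _) h
    · exact ⟨0, fun i => Matrix.trace_zero _ _, by simp⟩
    · rintro X Y _ _ ⟨ξ, h1, h2⟩ ⟨η, h3, h4⟩
      refine ⟨ξ + η, fun i => by rw [Pi.add_apply, Matrix.trace_add, h1, h3, add_zero], ?_⟩
      rw [h2, h4, ← Finset.sum_add_distrib]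
      exact Finset.sum_congr rfl fun i _ => by rw [Pi.add_apply, map_add]
    · rintro r X _ ⟨ξ, h1, h2⟩
      refine ⟨r • ξ, fun i => by rw [Pi.smul_apply, Matrix.trace_smul, h1, smul_zero], ?_⟩
      rw [h2, Finset.smul_sum]
      exact Finset.sum_congr rfl fun i _ => by rw [Pi.smul_apply, map_smul]
  have cen : ∀ z ∈ M, TA.Cen M z → z = 0 := by
    intro z hz hcz
    obtain ⟨ξ, h1, h2⟩ := dec z hz
    have h3 : ∀ j, ξ j = 0 := by
      intro j
      refine Small_zero (h1 j) fun b hb => ?_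
      have h4 := hcz _ (mem j b hb)
      rw [h2, Finset.sum_mul, Finset.mul_sum, ← sub_eq_zero, ← Finset.sum_sub_distrib,
        Finset.sum_eq_single j] at h4
      · rw [← mul, ← mul, ← map_sub] at h4
        exact sub_eq_zero.1 (Small_inj (mul j) (one' j) h4)
      · intro i _ hij
        rw [comm i j hij, sub_self]
      · intro h
        exact absurd (Finset.mem_univ _) h
    rw [h2]
    exact Finset.sum_eq_zero fun i _ => by rw [h3, map_zero]
  refine ⟨_, φ, mul, comm, one', mem, ?_, ?_⟩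
  · intro X hX
    obtain ⟨ξ, h1, h2⟩ := dec X hX
    refine ⟨ξ, h1, ?_⟩
    rw [← h2, sub_self]
    exact TA.Cen.zero
  · intro i k hik
    have hik' : eq i ≠ eq k := fun h => hik (eq.injective h)
    rcases hP (eq i) (eq k) hik' with h | ⟨N, h1, h2, h3, h4⟩
    · left
      rw [one, one]
      exact h
    · right
      refine ⟨N, h1, by rw [one]; exact h2, by rw [one]; exact h3, ?_, ?_⟩
      · intro l hli hlk a
        have h5 := h4 (eq l) (fun h => hli (eq.injective h)) (fun h => hlk (eq.injective h))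
        rw [hφi]
        exact Small_comm (h5 _ (by simp)) (h5 _ (by simp)) (h5 _ (by simp)) a
      · intro z hz hcz
        rw [cen z hz hcz, mul_zero, zero_mul]

theorem Small_q3 {a b c : R} (sa : a * a = 1) (sb : b * b = 1) (sc : c * c = 1)
    (ba : b * a = -(a * b)) (ca : c * a = -(a * c)) (cb : c * b = -(b * c)) :
    SmallQ 1 (a * b) (b * c) ∧ a * b * (b * c) = a * c := by
  have sa' : ∀ u, a * (a * u) = u := fun u => by rw [← mul_assoc, sa, one_mul]
  have sb' : ∀ u, b * (b * u) = u := fun u => by rw [← mul_assoc, sb, one_mul]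
  have ba' : ∀ u, b * (a * u) = -(a * (b * u)) := fun u => by
    rw [← mul_assoc, ba, neg_mul, mul_assoc]
  have ca' : ∀ u, c * (a * u) = -(a * (c * u)) := fun u => by
    rw [← mul_assoc, ca, neg_mul, mul_assoc]
  have cb' : ∀ u, c * (b * u) = -(b * (c * u)) := fun u => by
    rw [← mul_assoc, cb, neg_mul, mul_assoc]
  refine ⟨⟨one_mul _, one_mul _, mul_one _, one_mul _, mul_one _, ?_, ?_, ?_⟩, ?_⟩
  all_goals
    simp only [mul_assoc, sa, sb, sc, ba, ca, cb, sa', sb', ba', ca', cb', mul_neg, neg_neg, mul_one]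

/-- four anticommuting elements with square one -/
structure Small4 (a b c d : R) : Prop where
  sa : a * a = 1
  sb : b * b = 1
  sc : c * c = 1
  sd : d * d = 1
  ba : b * a = -(a * b)
  ca : c * a = -(a * c)
  da : d * a = -(a * d)
  cb : c * b = -(b * c)
  db : d * b = -(b * d)
  dc : d * c = -(c * d)

noncomputable def Small_e (a b c d : R) (s : ℂ) : R := (2⁻¹ : ℂ) • (1 + s • (a * (b * (c * d))))
noncomputable def Small_x (a b c d : R) (s : ℂ) : R := (2⁻¹ : ℂ) • (a * b - s • (c * d))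
noncomputable def Small_y (a b c d : R) (s : ℂ) : R := (2⁻¹ : ℂ) • (b * c - s • (a * d))

theorem Small_q4 {a b c d : R} (h : Small4 a b c d) {s : ℂ} (hs : s = 1 ∨ s = -1) :
    SmallQ (Small_e a b c d s) (Small_x a b c d s) (Small_y a b c d s) ∧
    Small_x a b c d s * Small_y a b c d s = (2⁻¹ : ℂ) • (a * c + s • (b * d)) ∧
    Small_e a b c d s * Small_e a b c d (-s) = 0 ∧
    a * Small_e a b c d s * a = Small_e a b c d (-s) ∧
    d * Small_e a b c d s = Small_e a b c d (-s) * d := by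
  obtain ⟨sa, sb, sc, sd, ba, ca, da, cb, db, dc⟩ := h
  have sa' : ∀ u, a * (a * u) = u := fun u => by rw [← mul_assoc, sa, one_mul]
  have sb' : ∀ u, b * (b * u) = u := fun u => by rw [← mul_assoc, sb, one_mul]
  have sc' : ∀ u, c * (c * u) = u := fun u => by rw [← mul_assoc, sc, one_mul]
  have sd' : ∀ u, d * (d * u) = u := fun u => by rw [← mul_assoc, sd, one_mul]
  have ba' : ∀ u, b * (a * u) = -(a * (b * u)) := fun u => by
    rw [← mul_assoc, ba, neg_mul, mul_assoc]
  have ca' : ∀ u, c * (a * u) = -(a * (c * u)) := fun u => by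
    rw [← mul_assoc, ca, neg_mul, mul_assoc]
  have da' : ∀ u, d * (a * u) = -(a * (d * u)) := fun u => by
    rw [← mul_assoc, da, neg_mul, mul_assoc]
  have cb' : ∀ u, c * (b * u) = -(b * (c * u)) := fun u => by
    rw [← mul_assoc, cb, neg_mul, mul_assoc]
  have db' : ∀ u, d * (b * u) = -(b * (d * u)) := fun u => by
    rw [← mul_assoc, db, neg_mul, mul_assoc]
  have dc' : ∀ u, d * (c * u) = -(c * (d * u)) := fun u => by
    rw [← mul_assoc, dc, neg_mul, mul_assoc]
  unfold Small_e Small_x Small_y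
  refine ⟨⟨?_, ?_, ?_, ?_, ?_, ?_, ?_, ?_⟩, ?_, ?_, ?_, ?_⟩
  all_goals
    rcases hs with rfl | rfl
  all_goals
    simp only [mul_add, add_mul, mul_sub, sub_mul, smul_mul_assoc, mul_smul_comm, mul_assoc, sa, sb,
      sc, sd, ba, ca, da, cb, db, dc, sa', sb', sc', sd', ba', ca', da', cb', db', dc', mul_neg,
      neg_neg, mul_one, one_mul]
    module

end

variable {U : Type} [AddCommGroup U] [Module ℂ U]

theorem Small_idx {N k r : ℕ} {c : Fin N → Fin k}
    (hc : ∀ σ : Fin k, (Finset.univ.filter fun j => c j = σ).card = r) (σ : Fin k) :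
    ∃ b : Fin r → Fin N, Function.Injective b ∧ (∀ i, c (b i) = σ) ∧
      ∀ j, c j = σ → ∃ i, b i = j := by
  obtain ⟨eq⟩ : Nonempty (Fin r ≃ {j // j ∈ Finset.univ.filter fun j => c j = σ}) :=
    ⟨(Finset.equivFinOfCardEq (hc σ)).symm⟩
  refine ⟨fun i => (eq i).1, fun i j h => eq.injective (Subtype.ext h),
    fun i => (Finset.mem_filter.1 (eq i).2).2, fun j hj =>
    ⟨eq.symm ⟨j, Finset.mem_filter.2 ⟨Finset.mem_univ _, hj⟩⟩, ?_⟩⟩
  simp

theorem Small_adj {N k : ℕ} {E : Fin N → Module.End ℂ U} {c : Fin N → Fin k} {τ : Fin k}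
    {u : Module.End ℂ U} (h : ∀ i j, i ≠ j → c i = τ → c j = τ → u * (E i * E j) = E i * E j * u) :
    ∀ v ∈ Algebra.adjoin ℂ (soS E c τ : Set (Module.End ℂ U)), u * v = v * u := by
  intro v hv
  induction hv using Algebra.adjoin_induction with
  | mem v hv =>
    refine Submodule.span_induction (p := fun v _ => u * v = v * u) ?_ ?_ ?_ ?_ hv
    · rintro _ ⟨i, j, hij, hi, hj, rfl⟩
      exact h i j hij hi hj
    · rw [mul_zero, zero_mul]
    · intro x y _ _ hx hy
      rw [mul_add, add_mul, hx, hy]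
    · intro r x _ hx
      rw [mul_smul_comm, smul_mul_assoc, hx]
  | algebraMap r => exact (Algebra.commutes r u).symm
  | add x y _ _ hx hy => rw [mul_add, add_mul, hx, hy]
  | mul x y _ _ hx hy => rw [← mul_assoc, hx, mul_assoc, hy, mul_assoc]

theorem Small_adj1 {N k : ℕ} {E : Fin N → Module.End ℂ U} {c : Fin N → Fin k} (hE : CE E)
    {τ : Fin k} {l : Fin N} (hl : c l ≠ τ) :
    ∀ v ∈ Algebra.adjoin ℂ (soS E c τ : Set (Module.End ℂ U)), E l * v = v * E l := by
  refine Small_adj fun i j _ hi hj => ?_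
  have h1 : l ≠ i := by
    rintro rfl
    exact hl hi
  have h2 : l ≠ j := by
    rintro rfl
    exact hl hj
  rw [← mul_assoc, hE.anti l i h1, neg_mul, mul_assoc, hE.anti l j h2, mul_neg, neg_neg, mul_assoc]

theorem Small_adj2 {N k : ℕ} {E : Fin N → Module.End ℂ U} {c : Fin N → Fin k} (hE : CE E)
    {σ τ : Fin k} (h : σ ≠ τ) :
    ∀ u ∈ Algebra.adjoin ℂ (soS E c σ : Set (Module.End ℂ U)),
    ∀ v ∈ Algebra.adjoin ℂ (soS E c τ : Set (Module.End ℂ U)), u * v = v * u := by
  intro u hu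
  refine Small_adj fun i j hij hi hj => ?_
  refine (Small_adj (fun a b hab ha hb => ?_) u hu).symm
  exact soS_comm hE (Ne.symm h) (Submodule.subset_span ⟨i, j, hij, hi, hj, rfl⟩)
    (Submodule.subset_span ⟨a, b, hab, ha, hb, rfl⟩)

theorem Small_D {N k r : ℕ} {E : Fin N → Module.End ℂ U} {c : Fin N → Fin k} (hE : CE E)
    (b : Fin k → Fin r → Fin N) (hbs : ∀ σ j, c j = σ → ∃ i, b σ i = j)
    (W : Submodule ℂ (Module.End ℂ U)) (h : ∀ σ i j, i < j → E (b σ i) * E (b σ j) ∈ W) :
    soC E c ≤ W := by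
  rw [soC, Submodule.span_le]
  rintro _ ⟨i, j, hij, hcij, rfl⟩
  obtain ⟨σ, hσ⟩ : ∃ σ, σ = c j := ⟨_, rfl⟩
  obtain ⟨i', hi'⟩ := hbs σ i (by rw [hσ]; exact hcij)
  obtain ⟨j', hj'⟩ := hbs σ j hσ.symm
  rw [SetLike.mem_coe]
  rcases lt_trichotomy i' j' with h1 | h1 | h1
  · rw [← hi', ← hj']
    exact h σ i' j' h1
  · rw [h1, hj'] at hi'
    exact absurd hi'.symm hij
  · rw [hE.anti i j hij, ← hi', ← hj']
    exact neg_mem (h σ j' i' h1)

theorem Small_e_add {R : Type} [Ring R] [Algebra ℂ R] (a b c d : R) (s : ℂ) :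
    Small_e a b c d s + Small_e a b c d (-s) = 1 := by
  unfold Small_e
  module

variable [FiniteDimensional ℂ U] [Nontrivial U]

/-- Coloured Clifford systems in which every colour occurs three or four times are of type `A_1`. -/
theorem typeA_small {N k r : ℕ} (hr : r = 3 ∨ r = 4) {E : Fin N → Module.End ℂ U}
    {c : Fin N → Fin k} (hE : CE E)
    (hc : ∀ σ : Fin k, (Finset.univ.filter fun j => c j = σ).card = r) :
    ∃ (n : ℕ) (φ : Fin n → TA.S →ₗ[ℂ] Module.End ℂ U), TA.TypeA φ (soC E c) := by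
  choose b hbi hbc hbs using fun σ => Small_idx hc σ
  have hne : ∀ σ (i j : Fin r), i ≠ j → b σ i ≠ b σ j := fun σ i j h h' => h (hbi σ h')
  have hm : ∀ σ (i j : Fin r), i ≠ j → E (b σ i) * E (b σ j) ∈ soS E c σ := fun σ i j h =>
    Submodule.subset_span ⟨_, _, hne σ i j h, hbc σ i, hbc σ j, rfl⟩
  rcases hr with rfl | rfl
  · have hQ : ∀ σ, SmallQ (1 : Module.End ℂ U) (E (b σ 0) * E (b σ 1)) (E (b σ 1) * E (b σ 2)) ∧
        E (b σ 0) * E (b σ 1) * (E (b σ 1) * E (b σ 2)) = E (b σ 0) * E (b σ 2) := fun σ =>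
      Small_q3 (hE.sq _) (hE.sq _) (hE.sq _) (hE.anti _ _ (hne σ 1 0 (by decide)))
        (hE.anti _ _ (hne σ 2 0 (by decide))) (hE.anti _ _ (hne σ 2 1 (by decide)))
    refine Small_abs (J := Fin k) (fun _ => 1) (fun σ => E (b σ 0) * E (b σ 1))
      (fun σ => E (b σ 1) * E (b σ 2)) (soC E c) (fun σ => (hQ σ).1) ?_ (fun _ => one_ne_zero)
      ?_ ?_ ?_
    · intro σ τ h u hu v hv
      have key : ∀ ρ, ∀ u ∈ ({1, E (b ρ 0) * E (b ρ 1), E (b ρ 1) * E (b ρ 2)} :
          Set (Module.End ℂ U)), u ∈ Algebra.adjoin ℂ (soS E c ρ : Set (Module.End ℂ U)) := by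
        intro ρ u hu
        rcases hu with rfl | rfl | rfl
        · exact one_mem _
        · exact Algebra.subset_adjoin (hm ρ 0 1 (by decide))
        · exact Algebra.subset_adjoin (hm ρ 1 2 (by decide))
      exact Small_adj2 hE h u (key σ u hu) v (key τ v hv)
    · intro σ
      refine ⟨soS_le σ (hm σ 0 1 (by decide)), soS_le σ (hm σ 1 2 (by decide)), ?_⟩
      change E (b σ 0) * E (b σ 1) * (E (b σ 1) * E (b σ 2)) ∈ soC E c
      rw [(hQ σ).2]
      exact soS_le σ (hm σ 0 2 (by decide))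
    · refine Small_D hE b hbs _ fun σ i j hij => ?_
      have m01 : E (b σ 0) * E (b σ 1) ∈ Submodule.span ℂ {z : Module.End ℂ U | ∃ j : Fin k,
          z = E (b j 0) * E (b j 1) ∨ z = E (b j 1) * E (b j 2) ∨
          z = E (b j 0) * E (b j 1) * (E (b j 1) * E (b j 2))} :=
        Submodule.subset_span ⟨σ, Or.inl rfl⟩
      have m12 : E (b σ 1) * E (b σ 2) ∈ Submodule.span ℂ {z : Module.End ℂ U | ∃ j : Fin k,
          z = E (b j 0) * E (b j 1) ∨ z = E (b j 1) * E (b j 2) ∨
          z = E (b j 0) * E (b j 1) * (E (b j 1) * E (b j 2))} :=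
        Submodule.subset_span ⟨σ, Or.inr (Or.inl rfl)⟩
      have m02 : E (b σ 0) * E (b σ 2) ∈ Submodule.span ℂ {z : Module.End ℂ U | ∃ j : Fin k,
          z = E (b j 0) * E (b j 1) ∨ z = E (b j 1) * E (b j 2) ∨
          z = E (b j 0) * E (b j 1) * (E (b j 1) * E (b j 2))} :=
        Submodule.subset_span ⟨σ, Or.inr (Or.inr (hQ σ).2.symm)⟩
      fin_cases i <;> fin_cases j
      · exact absurd hij (by decide)
      · exact m01
      · exact m02
      · exact absurd hij (by decide)
      · exact absurd hij (by decide)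
      · exact m12
      · exact absurd hij (by decide)
      · exact absurd hij (by decide)
      · exact absurd hij (by decide)
    · intro i j _
      left
      rw [one_mul]
      exact one_ne_zero
  · have h4 : ∀ σ, Small4 (E (b σ 0)) (E (b σ 1)) (E (b σ 2)) (E (b σ 3)) := fun σ =>
      ⟨hE.sq _, hE.sq _, hE.sq _, hE.sq _, hE.anti _ _ (hne σ 1 0 (by decide)),
        hE.anti _ _ (hne σ 2 0 (by decide)), hE.anti _ _ (hne σ 3 0 (by decide)),
        hE.anti _ _ (hne σ 2 1 (by decide)), hE.anti _ _ (hne σ 3 1 (by decide)),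
        hE.anti _ _ (hne σ 3 2 (by decide))⟩
    obtain ⟨e, he⟩ : ∃ e : Fin k → ℂ → Module.End ℂ U, ∀ σ s, e σ s =
      Small_e (E (b σ 0)) (E (b σ 1)) (E (b σ 2)) (E (b σ 3)) s := ⟨_, fun _ _ => rfl⟩
    obtain ⟨x, hx⟩ : ∃ x : Fin k → ℂ → Module.End ℂ U, ∀ σ s, x σ s =
      Small_x (E (b σ 0)) (E (b σ 1)) (E (b σ 2)) (E (b σ 3)) s := ⟨_, fun _ _ => rfl⟩
    obtain ⟨y, hy⟩ : ∃ y : Fin k → ℂ → Module.End ℂ U, ∀ σ s, y σ s =
      Small_y (E (b σ 0)) (E (b σ 1)) (E (b σ 2)) (E (b σ 3)) s := ⟨_, fun _ _ => rfl⟩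
    have q : ∀ σ s, (s = 1 ∨ s = -1) → SmallQ (e σ s) (x σ s) (y σ s) ∧
        x σ s * y σ s = (2⁻¹ : ℂ) • (E (b σ 0) * E (b σ 2) + s • (E (b σ 1) * E (b σ 3))) ∧
        e σ s * e σ (-s) = 0 ∧ E (b σ 0) * e σ s * E (b σ 0) = e σ (-s) ∧
        E (b σ 3) * e σ s = e σ (-s) * E (b σ 3) := by
      intro σ s hs
      rw [he, he, hx, hy]
      exact Small_q4 (h4 σ) hs
    have eadd : ∀ σ s, e σ s + e σ (-s) = 1 := fun σ s => by
      rw [he, he]
      exact Small_e_add _ _ _ _ _
    have mx : ∀ σ s, x σ s ∈ soS E c σ := fun σ s => by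
      rw [hx]
      exact Submodule.smul_mem _ _ (sub_mem (hm σ 0 1 (by decide))
        (Submodule.smul_mem _ _ (hm σ 2 3 (by decide))))
    have my : ∀ σ s, y σ s ∈ soS E c σ := fun σ s => by
      rw [hy]
      exact Submodule.smul_mem _ _ (sub_mem (hm σ 1 2 (by decide))
        (Submodule.smul_mem _ _ (hm σ 0 3 (by decide))))
    have me : ∀ σ s, e σ s ∈ Algebra.adjoin ℂ (soS E c σ : Set (Module.End ℂ U)) := fun σ s => by
      rw [he]
      refine Subalgebra.smul_mem _ (add_mem (one_mem _) (Subalgebra.smul_mem _ ?_ _)) _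
      rw [← mul_assoc]
      exact mul_mem (Algebra.subset_adjoin (hm σ 0 1 (by decide)))
        (Algebra.subset_adjoin (hm σ 2 3 (by decide)))
    have key : ∀ ρ s, ∀ u ∈ ({e ρ s, x ρ s, y ρ s} : Set (Module.End ℂ U)),
        u ∈ Algebra.adjoin ℂ (soS E c ρ : Set (Module.End ℂ U)) := by
      intro ρ s u hu
      rcases hu with rfl | rfl | rfl
      · exact me ρ s
      · exact Algebra.subset_adjoin (mx ρ s)
      · exact Algebra.subset_adjoin (my ρ s)
    have ene : ∀ σ s, (s = 1 ∨ s = -1) → e σ s ≠ 0 := by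
      intro σ s hs h
      have h1 := (q σ s hs).2.2.2.1
      have h2 := eadd σ s
      rw [h, mul_zero, zero_mul] at h1
      rw [h, ← h1, add_zero] at h2
      exact zero_ne_one h2
    obtain ⟨sg, hsg⟩ : ∃ sg : Bool → ℂ, sg = fun t => if t then 1 else -1 := ⟨_, rfl⟩
    have sg1 : ∀ t, sg t = 1 ∨ sg t = -1 := by
      intro t
      rw [hsg]
      cases t
      · right; rfl
      · left; rfl
    have sgn : ∀ t, -sg t = 1 ∨ -sg t = -1 := by
      intro t
      rcases sg1 t with h | h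
      · right; rw [h]
      · left; rw [h, neg_neg]
    have sg2 : ∀ s t, s ≠ t → sg t = -sg s := by
      intro s t h
      rw [hsg]
      cases s <;> cases t
      · exact absurd rfl h
      · simp
      · simp
      · exact absurd rfl h
    refine Small_abs (J := Fin k × Bool) (fun j => e j.1 (sg j.2)) (fun j => x j.1 (sg j.2))
      (fun j => y j.1 (sg j.2)) (soC E c) (fun j => (q _ _ (sg1 _)).1) ?_
      (fun j => ene _ _ (sg1 _)) ?_ ?_ ?_
    · rintro ⟨σ, s⟩ ⟨τ, t⟩ hne u hu v hv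
      simp only at hu hv
      by_cases h : σ = τ
      · subst h
        have hst : s ≠ t := by
          rintro rfl
          exact hne rfl
        have qs := (q σ (sg s) (sg1 s))
        have qt := (q σ (sg t) (sg1 t))
        rw [sg2 s t hst] at hv qt
        rw [neg_neg] at qt
        have u1 : u * e σ (sg s) = u ∧ e σ (sg s) * u = u := by
          rcases hu with rfl | rfl | rfl
          · exact ⟨qs.1.ee, qs.1.ee⟩
          · exact ⟨qs.1.xe, qs.1.ex⟩
          · exact ⟨qs.1.ye, qs.1.ey⟩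
        have v1 : v * e σ (-sg s) = v ∧ e σ (-sg s) * v = v := by
          rcases hv with rfl | rfl | rfl
          · exact ⟨qt.1.ee, qt.1.ee⟩
          · exact ⟨qt.1.xe, qt.1.ex⟩
          · exact ⟨qt.1.ye, qt.1.ey⟩
        have e1 : u * v = 0 := by
          rw [← u1.1, ← v1.2, mul_assoc, ← mul_assoc (e σ (sg s)), qs.2.2.1, zero_mul, mul_zero]
        have e2 : v * u = 0 := by
          rw [← v1.1, ← u1.2, mul_assoc, ← mul_assoc (e σ (-sg s)), qt.2.2.1, zero_mul, mul_zero]
        rw [e1, e2]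
      · exact Small_adj2 hE h u (key _ _ u hu) v (key _ _ v hv)
    · rintro ⟨σ, s⟩
      refine ⟨soS_le σ (mx _ _), soS_le σ (my _ _), ?_⟩
      change x σ (sg s) * y σ (sg s) ∈ soC E c
      rw [(q σ (sg s) (sg1 s)).2.1]
      exact Submodule.smul_mem _ _ (add_mem (soS_le σ (hm σ 0 2 (by decide)))
        (Submodule.smul_mem _ _ (soS_le σ (hm σ 1 3 (by decide)))))
    · refine Small_D hE b hbs _ fun σ i j hij => ?_
      obtain ⟨W, hW⟩ : ∃ W, W = Submodule.span ℂ {z : Module.End ℂ U | ∃ j : Fin k × Bool,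
          z = (fun j : Fin k × Bool => x j.1 (sg j.2)) j ∨
          z = (fun j : Fin k × Bool => y j.1 (sg j.2)) j ∨
          z = (fun j : Fin k × Bool => x j.1 (sg j.2)) j *
            (fun j : Fin k × Bool => y j.1 (sg j.2)) j} := ⟨_, rfl⟩
      rw [← hW]
      have sgt : sg true = 1 := by rw [hsg]; rfl
      have sgf : sg false = -1 := by rw [hsg]; rfl
      have wx : ∀ t, x σ (sg t) ∈ W := fun t => by
        rw [hW]; exact Submodule.subset_span ⟨(σ, t), Or.inl rfl⟩
      have wy : ∀ t, y σ (sg t) ∈ W := fun t => by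
        rw [hW]; exact Submodule.subset_span ⟨(σ, t), Or.inr (Or.inl rfl)⟩
      have wz : ∀ t, x σ (sg t) * y σ (sg t) ∈ W := fun t => by
        rw [hW]; exact Submodule.subset_span ⟨(σ, t), Or.inr (Or.inr rfl)⟩
      have wx1 := wx true
      have wx2 := wx false
      have wy1 := wy true
      have wy2 := wy false
      have wz1 := wz true
      have wz2 := wz false
      rw [(q σ _ (sg1 _)).2.1] at wz1 wz2
      rw [hx] at wx1 wx2
      rw [hy] at wy1 wy2
      rw [sgt] at wx1 wy1 wz1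
      rw [sgf] at wx2 wy2 wz2
      unfold Small_x at wx1 wx2
      unfold Small_y at wy1 wy2
      have m01 : E (b σ 0) * E (b σ 1) ∈ W := by
        have := add_mem wx1 wx2
        have e1 : E (b σ 0) * E (b σ 1) = (2⁻¹ : ℂ) • (E (b σ 0) * E (b σ 1) -
          (1 : ℂ) • (E (b σ 2) * E (b σ 3))) + (2⁻¹ : ℂ) • (E (b σ 0) * E (b σ 1) -
          (-1 : ℂ) • (E (b σ 2) * E (b σ 3))) := by module
        rwa [← e1] at this
      have m23 : E (b σ 2) * E (b σ 3) ∈ W := by
        have := sub_mem wx2 wx1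
        have e1 : E (b σ 2) * E (b σ 3) = (2⁻¹ : ℂ) • (E (b σ 0) * E (b σ 1) -
          (-1 : ℂ) • (E (b σ 2) * E (b σ 3))) - (2⁻¹ : ℂ) • (E (b σ 0) * E (b σ 1) -
          (1 : ℂ) • (E (b σ 2) * E (b σ 3))) := by module
        rwa [← e1] at this
      have m12 : E (b σ 1) * E (b σ 2) ∈ W := by
        have := add_mem wy1 wy2
        have e1 : E (b σ 1) * E (b σ 2) = (2⁻¹ : ℂ) • (E (b σ 1) * E (b σ 2) -
          (1 : ℂ) • (E (b σ 0) * E (b σ 3))) + (2⁻¹ : ℂ) • (E (b σ 1) * E (b σ 2) -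
          (-1 : ℂ) • (E (b σ 0) * E (b σ 3))) := by module
        rwa [← e1] at this
      have m03 : E (b σ 0) * E (b σ 3) ∈ W := by
        have := sub_mem wy2 wy1
        have e1 : E (b σ 0) * E (b σ 3) = (2⁻¹ : ℂ) • (E (b σ 1) * E (b σ 2) -
          (-1 : ℂ) • (E (b σ 0) * E (b σ 3))) - (2⁻¹ : ℂ) • (E (b σ 1) * E (b σ 2) -
          (1 : ℂ) • (E (b σ 0) * E (b σ 3))) := by module
        rwa [← e1] at this
      have m02 : E (b σ 0) * E (b σ 2) ∈ W := by
        have := add_mem wz1 wz2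
        have e1 : E (b σ 0) * E (b σ 2) = (2⁻¹ : ℂ) • (E (b σ 0) * E (b σ 2) +
          (1 : ℂ) • (E (b σ 1) * E (b σ 3))) + (2⁻¹ : ℂ) • (E (b σ 0) * E (b σ 2) +
          (-1 : ℂ) • (E (b σ 1) * E (b σ 3))) := by module
        rwa [← e1] at this
      have m13 : E (b σ 1) * E (b σ 3) ∈ W := by
        have := sub_mem wz1 wz2
        have e1 : E (b σ 1) * E (b σ 3) = (2⁻¹ : ℂ) • (E (b σ 0) * E (b σ 2) +
          (1 : ℂ) • (E (b σ 1) * E (b σ 3))) - (2⁻¹ : ℂ) • (E (b σ 0) * E (b σ 2) +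
          (-1 : ℂ) • (E (b σ 1) * E (b σ 3))) := by module
        rwa [← e1] at this
      fin_cases i <;> fin_cases j
      · exact absurd hij (by decide)
      · exact m01
      · exact m02
      · exact m03
      · exact absurd hij (by decide)
      · exact absurd hij (by decide)
      · exact m12
      · exact m13
      · exact absurd hij (by decide)
      · exact absurd hij (by decide)
      · exact absurd hij (by decide)
      · exact m23
      · exact absurd hij (by decide)
      · exact absurd hij (by decide)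
      · exact absurd hij (by decide)
      · exact absurd hij (by decide)
    · rintro ⟨σ, s⟩ ⟨τ, t⟩ hne
      simp only
      by_cases h : σ = τ
      · right
        subst h
        have hst : s ≠ t := by
          rintro rfl
          exact hne rfl
        have qs := (q σ (sg s) (sg1 s))
        have qt := (q σ (-sg s) (sgn s))
        rw [neg_neg] at qt
        rw [sg2 s t hst]
        refine ⟨e σ (sg s) * E (b σ 3), ?_, ?_, ?_, ?_⟩
        · intro h0
          apply ene σ (sg s) (sg1 s)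
          have h1 : e σ (sg s) = e σ (sg s) * E (b σ 3) * E (b σ 3) := by
            rw [mul_assoc, hE.sq, mul_one]
          rw [h1, h0, zero_mul]
        · rw [← mul_assoc, qs.1.ee]
        · rw [mul_assoc, qt.2.2.2.2, ← mul_assoc, qs.1.ee]
        · rintro ⟨ρ, r⟩ h1 h2 v hv
          simp only at hv
          have hρ : ρ ≠ σ := by
            rintro rfl
            cases s <;> cases t <;> cases r
            · exact hst rfl
            · exact hst rfl
            · exact h1 rfl
            · exact h2 rfl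
            · exact h2 rfl
            · exact h1 rfl
            · exact hst rfl
            · exact hst rfl
          have hv' := key _ _ v hv
          have hl : c (b σ 3) ≠ ρ := by
            rw [hbc]
            exact Ne.symm hρ
          rw [mul_assoc, Small_adj1 hE hl v hv', ← mul_assoc,
            Small_adj2 hE (Ne.symm hρ) _ (me _ _) v hv', mul_assoc]
      · left
        intro h0
        have h1 : e σ (-sg s) * e τ (sg t) = 0 := by
          have hl : c (b σ 0) ≠ τ := by
            rw [hbc]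
            exact h
          rw [← (q σ (sg s) (sg1 s)).2.2.2.1, mul_assoc, Small_adj1 hE hl _ (me τ _), ← mul_assoc,
            mul_assoc (E (b σ 0)), h0, mul_zero, zero_mul]
        apply ene τ (sg t) (sg1 t)
        have h2 := eadd σ (sg s)
        calc e τ (sg t) = (e σ (sg s) + e σ (-sg s)) * e τ (sg t) := by rw [h2, one_mul]
          _ = 0 := by rw [add_mul, h0, h1, add_zero]

/-- The Lie algebra of a coloured Clifford system is perfect. -/
theorem soC_perfect {N k : ℕ} {E : Fin N → Module.End ℂ U} {c : Fin N → Fin k} (hE : CE E)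
    (hc : ∀ i, 3 ≤ (Finset.univ.filter fun j => c j = c i).card) :
    soC E c ≤ Submodule.span ℂ {z | ∃ x ∈ soC E c, ∃ y ∈ soC E c, z = x * y - y * x} := by
  rw [soC, Submodule.span_le]
  rintro _ ⟨i, j, hij, hcij, rfl⟩
  obtain ⟨l, hl, hli, hlj⟩ : ∃ l, c l = c i ∧ l ≠ i ∧ l ≠ j := by
    by_contra hcon
    push Not at hcon
    have h1 : (Finset.univ.filter fun j => c j = c i) ⊆ {i, j} := by
      intro l hl
      rw [Finset.mem_filter] at hl
      rw [Finset.mem_insert, Finset.mem_singleton]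
      by_cases h : l = i
      · exact Or.inl h
      · exact Or.inr (hcon l hl.2 h)
    have h2 := (Finset.card_le_card h1).trans Finset.card_le_two
    have h3 := hc i
    omega
  have m1 : E i * E l ∈ soC E c := Submodule.subset_span ⟨i, l, Ne.symm hli, hl.symm, rfl⟩
  have m2 : E l * E j ∈ soC E c := Submodule.subset_span ⟨l, j, hlj, hl.trans hcij, rfl⟩
  have h1 : E i * E j = (2⁻¹ : ℂ) • (E i * E l * (E l * E j) - E l * E j * (E i * E l)) := by
    have e1 : E i * E l * (E l * E j) = E i * E j := by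
      rw [mul_assoc, ← mul_assoc (E l), hE.sq, one_mul]
    have e2 : E l * E j * (E i * E l) = -(E i * E j) := by
      rw [mul_assoc, ← mul_assoc (E j), ← mul_assoc, ← mul_assoc, hE.anti l j hlj, neg_mul, neg_mul,
        mul_assoc (E j), hE.anti l i hli, mul_neg, neg_mul, neg_neg, mul_assoc, mul_assoc, hE.sq,
        mul_one, hE.anti j i (Ne.symm hij)]
    rw [e1, e2]
    module
  rw [h1]
  exact Submodule.smul_mem _ _ (Submodule.subset_span ⟨_, m1, _, m2, rfl⟩)

end Pool.Agent.Y102.SP
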