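import Pool.Agent.Y102.SP.PlaneE

set_option autoImplicit false

open Module

namespace Pool.Agent.Y102.SP

variable {X : Type} [AddCommGroup X] [Module ℚ X]

/-- The functionals dual to three independent vectors. -/
theorem Triple_dual {a b c : X}
    (hind : ∀ x y z : ℚ, x • a + y • b + z • c = 0 → x = 0 ∧ y = 0 ∧ z = 0) :
    ∃ f : X →ₗ[ℚ] ℚ, f a = 0 ∧ f b = 0 ∧ f c = 1 := by
  obtain ⟨ψ, h1, h2⟩ := avoid (Set.finite_singleton c) (Submodule.span ℚ {a, b})
  have hc : c ∉ Submodule.span ℚ {a, b} := by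
    intro h
    obtain ⟨x, y, h⟩ := Submodule.mem_span_pair.1 h
    have h3 := (hind x y (-1) (by rw [h]; module)).2.2
    norm_num at h3
  have h3 := h2 c (Set.mem_singleton c) hc
  refine ⟨(ψ c)⁻¹ • ψ, ?_, ?_, ?_⟩
  · rw [LinearMap.smul_apply, h1 a (Submodule.subset_span (by simp)), smul_zero]
  · rw [LinearMap.smul_apply, h1 b (Submodule.subset_span (by simp)), smul_zero]
  · rw [LinearMap.smul_apply, smul_eq_mul, inv_mul_cancel₀ h3]

/-- A lexicographic functional adapted to three independent vectors. -/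
theorem Triple_flag {D : Set X} (hD : D.Finite) {a b c : X}
    (hind : ∀ x y z : ℚ, x • a + y • b + z • c = 0 → x = 0 ∧ y = 0 ∧ z = 0) :
    ∃ φ f : X →ₗ[ℚ] ℚ, f a = 0 ∧ f b = 0 ∧ f c = 0 ∧
      (∀ x ∈ D, f x = 0 → ∃ r s t : ℚ, x = r • a + s • b + t • c) ∧
      (∀ x ∈ D, 0 < f x → 0 < φ x) ∧ (∀ x ∈ D, f x < 0 → φ x < 0) ∧
      (∀ x ∈ D, ∀ r s t : ℚ, x = r • a + s • b + t • c → (0 < t → 0 < φ x) ∧
        (t < 0 → φ x < 0) ∧ (t = 0 → (0 < s → 0 < φ x) ∧ (s < 0 → φ x < 0) ∧
          (s = 0 → φ x = r))) := by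
  obtain ⟨f3, a3, b3, c3⟩ := Triple_dual hind
  obtain ⟨f2, a2, c2, b2⟩ := Triple_dual (a := a) (b := c) (c := b) (fun x y z h => by
    obtain ⟨u1, u2, u3⟩ := hind x z y (by rw [← h]; module)
    exact ⟨u1, u3, u2⟩)
  obtain ⟨f1, b1, c1, a1⟩ := Triple_dual (a := b) (b := c) (c := a) (fun x y z h => by
    obtain ⟨u1, u2, u3⟩ := hind z x y (by rw [← h]; module)
    exact ⟨u2, u3, u1⟩)
  obtain ⟨f4, h1, h2⟩ := avoid hD (Submodule.span ℚ {a, b, c})
  obtain ⟨χ2, l1, l2, l3⟩ := lex2 hD f1 f2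
  obtain ⟨χ3, m1, m2, m3⟩ := lex2 hD χ2 f3
  obtain ⟨φ, n1, n2, n3⟩ := lex2 hD χ3 f4
  have ha4 : f4 a = 0 := h1 a (Submodule.subset_span (by simp))
  have hb4 : f4 b = 0 := h1 b (Submodule.subset_span (by simp))
  have hc4 : f4 c = 0 := h1 c (Submodule.subset_span (by simp))
  refine ⟨φ, f4, ha4, hb4, hc4, ?_, n1, n2, ?_⟩
  · intro x hx hfx
    have hmem : x ∈ Submodule.span ℚ {a, b, c} := by
      by_contra hcon
      exact h2 x hx hcon hfx
    obtain ⟨r, s, t, h⟩ := Submodule.mem_span_triple.1 hmem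
    exact ⟨r, s, t, h.symm⟩
  · intro x hx r s t hxe
    have e4 : f4 x = 0 := by
      rw [hxe, map_add, map_add, map_smul, map_smul, map_smul, ha4, hb4, hc4]; simp
    have e3 : f3 x = t := by
      rw [hxe, map_add, map_add, map_smul, map_smul, map_smul, a3, b3, c3]; simp
    have e2 : f2 x = s := by
      rw [hxe, map_add, map_add, map_smul, map_smul, map_smul, a2, b2, c2]; simp
    have e1 : f1 x = r := by
      rw [hxe, map_add, map_add, map_smul, map_smul, map_smul, a1, b1, c1]; simp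
    have e5 := n3 x e4
    refine ⟨fun ht => ?_, fun ht => ?_, fun ht => ?_⟩
    · rw [e5]; exact m1 x hx (by rw [e3]; exact ht)
    · rw [e5]; exact m2 x hx (by rw [e3]; exact ht)
    · have e6 := m3 x (by rw [e3]; exact ht)
      refine ⟨fun hs => ?_, fun hs => ?_, fun hs => ?_⟩
      · rw [e5, e6]; exact l1 x hx (by rw [e2]; exact hs)
      · rw [e5, e6]; exact l2 x hx (by rw [e2]; exact hs)
      · rw [e5, e6, l3 x (by rw [e2]; exact hs), e1]

/-- Two weights of the smallest level are impossible. -/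
theorem Triple_two {R : Root X} {Ω : Set X} (W : Wts R Ω) (h0 : (0 : X) ∉ Ω)
    (h2 : ∀ a ∈ Ω, (2 : ℚ) • a ∉ R.Φ)
    (H2 : ∀ φ, Gen R Ω φ → ∀ a b, First Ω φ a → Next Ω φ a b → b - a ∈ R.Φ ∧ b + a ∈ R.Φ)
    (H3 : ∀ φ a b c d, Quad R Ω φ a b c d → False)
    {a b c d : X} (ha : a ∈ Ω) (hb : b ∈ Ω) (hc : c ∈ Ω) (hd : d ∈ Ω)
    (hind : ∀ x y z : ℚ, x • a + y • b + z • c = 0 → x = 0 ∧ y = 0 ∧ z = 0)
    (hdc : d = c + (b - a))
    (hmin : ∀ w ∈ Ω, ∀ x y z : ℚ, w = x • a + y • b + z • c → 0 < z → 1 ≤ z)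
    (hL : ∀ w ∈ Ω, ∀ x y : ℚ, w = x • a + y • b + c → w = c ∨ w = d) : False := by
  have hba : b ≠ a := by
    intro h
    have h1 := (hind 1 (-1) 0 (by rw [h]; module)).1
    norm_num at h1
  have hba' : b ≠ -a := by
    intro h
    have h1 := (hind 1 1 0 (by rw [h]; module)).1
    norm_num at h1
  have hca : c ≠ a := by
    intro h
    have h1 := (hind 1 0 (-1) (by rw [h]; module)).1
    norm_num at h1
  have hca' : c ≠ -a := by
    intro h
    have h1 := (hind 1 0 1 (by rw [h]; module)).1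
    norm_num at h1
  have hcb : c ≠ b := by
    intro h
    have h1 := (hind 0 1 (-1) (by rw [h]; module)).2.1
    norm_num at h1
  have hcb' : c ≠ -b := by
    intro h
    have h1 := (hind 0 1 1 (by rw [h]; module)).2.1
    norm_num at h1
  obtain ⟨⟨r1, r4⟩, ⟨p1, -, -, p4⟩, pw, -, -⟩ := plane_even W h0 h2 H2 ha hb hba hba'
  obtain ⟨⟨r3, -⟩, ⟨p3, -, -, -⟩, -, -, -⟩ := plane_even W h0 h2 H2 ha hc hca hca'
  obtain ⟨⟨r2, r5⟩, ⟨p2, -, -, -⟩, -, -, -⟩ := plane_even W h0 h2 H2 hb hc hcb hcb'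
  set D : Set X := R.Φ ∪ (Ω ∪ Set.image2 (fun x y => x - y) Ω Ω) with hD
  have hDfin : D.Finite := R.fin.union (W.fin.union (W.fin.image2 _ W.fin))
  obtain ⟨φ, f, fa, fb, fc, k1, k2, k3, k4⟩ := Triple_flag hDfin hind
  have dΩ : ∀ x ∈ Ω, x ∈ D := fun x hx => Or.inr (Or.inl hx)
  have dd : ∀ x ∈ Ω, ∀ y ∈ Ω, x - y ∈ D := fun x hx y hy =>
    Or.inr (Or.inr ⟨x, hx, y, hy, rfl⟩)
  have fd : f d = 0 := by rw [hdc, map_add, map_sub, fa, fb, fc]; simp
  have φa : φ a = 1 := ((k4 a (dΩ a ha) 1 0 0 (by module)).2.2 rfl).2.2 rfl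
  have φba : 0 < φ (b - a) :=
    ((k4 (b - a) (dd b hb a ha) (-1) 1 0 (by module)).2.2 rfl).1 one_pos
  have φcb : 0 < φ (c - b) := (k4 (c - b) (dd c hc b hb) 0 (-1) 1 (by module)).1 one_pos
  have φdc : φ d = φ c + (φ b - φ a) := by rw [hdc, map_add, map_sub]
  rw [map_sub] at φba φcb
  have gen : Gen R Ω φ := by
    have gen0 : ∀ x ∈ D, x ≠ 0 → φ x ≠ 0 := by
      intro x hx hx0 hφ
      rcases lt_trichotomy (f x) 0 with hf | hf | hf
      · exact (k3 x hx hf).ne hφ
      · obtain ⟨r, s, t, hrst⟩ := k1 x hx hf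
        obtain ⟨q1, q2, q3⟩ := k4 x hx r s t hrst
        rcases lt_trichotomy t 0 with ht | ht | ht
        · exact (q2 ht).ne hφ
        · obtain ⟨q4, q5, q6⟩ := q3 ht
          rcases lt_trichotomy s 0 with hs | hs | hs
          · exact (q5 hs).ne hφ
          · have h1 := q6 hs
            apply hx0
            rw [hrst, ht, hs, ← h1, hφ]
            module
          · exact (q4 hs).ne' hφ
        · exact (q1 ht).ne' hφ
      · exact (k2 x hx hf).ne' hφ
    refine ⟨fun α hα => gen0 α (Or.inl hα) (fun h => R.zero (h ▸ hα)), fun χ hχ ψ hψ h => ?_⟩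
    by_contra hne
    exact gen0 (χ - ψ) (dd χ hχ ψ hψ) (sub_ne_zero.2 hne) (by rw [map_sub, h, sub_self])
  have key : ∀ ω ∈ Ω, 0 < φ ω → ω = a ∨ ω = b ∨ ω = c ∨ ω = d ∨ φ d < φ ω := by
    intro ω hω hpos
    have hωD := dΩ ω hω
    have hdiff := dd ω hω d hd
    rcases lt_trichotomy (f ω) 0 with hf | hf | hf
    · exact absurd (k3 ω hωD hf) (not_lt.2 hpos.le)
    · obtain ⟨r, s, t, hrst⟩ := k1 ω hωD hf
      obtain ⟨q1, q2, q3⟩ := k4 ω hωD r s t hrst
      rcases lt_trichotomy t 0 with ht | ht | ht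
      · exact absurd (q2 ht) (not_lt.2 hpos.le)
      · rcases pw ω hω r s (by rw [hrst, ht]; module) with h | h | h | h
        · exact Or.inl h
        · exfalso
          rw [h, map_neg, φa] at hpos
          norm_num at hpos
        · exact Or.inr (Or.inl h)
        · exfalso
          rw [h, map_neg] at hpos
          linarith
      · have ht1 := hmin ω hω r s t hrst ht
        rcases ht1.eq_or_lt with ht1 | ht1
        · rcases hL ω hω r s (by rw [hrst, ← ht1, one_smul]) with h | h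
          · exact Or.inr (Or.inr (Or.inl h))
          · exact Or.inr (Or.inr (Or.inr (Or.inl h)))
        · right; right; right; right
          have h1 := (k4 (ω - d) hdiff (r + 1) (s - 1) (t - 1)
            (by rw [hrst, hdc]; module)).1 (by linarith)
          rw [map_sub] at h1
          linarith
    · right; right; right; right
      have h1 := k2 (ω - d) hdiff (by rw [map_sub, fd, sub_zero]; exact hf)
      rw [map_sub] at h1
      linarith
  refine H3 φ a b c d ⟨gen, ⟨ha, by rw [φa]; norm_num, ?_⟩, ⟨hb, by linarith, ?_⟩,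
    ⟨hc, by linarith, ?_⟩, ⟨hd, by linarith, ?_⟩, by rw [hdc]; abel, hind, r1, r2, r3,
    by rw [add_comm]; exact r4, by rw [add_comm]; exact r5, by rw [p1]; norm_num,
    by rw [p2]; norm_num, by rw [p3]; norm_num, by rw [add_comm a b, p4]; norm_num, ?_, ?_⟩
  · intro ω hω hpos
    rcases key ω hω hpos with h | h | h | h | h
    · rw [h]
    · rw [h]; linarith
    · rw [h]; linarith
    · rw [h]; linarith
    · linarith
  · intro ω hω hpos
    rcases key ω hω (by linarith) with h | h | h | h | h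
    · rw [h] at hpos; exact absurd hpos (lt_irrefl _)
    · rw [h]
    · rw [h]; linarith
    · rw [h]; linarith
    · linarith
  · intro ω hω hpos
    rcases key ω hω (by linarith) with h | h | h | h | h
    · rw [h] at hpos; linarith
    · rw [h] at hpos; exact absurd hpos (lt_irrefl _)
    · rw [h]
    · rw [h]; linarith
    · linarith
  · intro ω hω hpos
    rcases key ω hω (by linarith) with h | h | h | h | h
    · rw [h] at hpos; linarith
    · rw [h] at hpos; linarith
    · rw [h] at hpos; exact absurd hpos (lt_irrefl _)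
    · rw [h]
    · linarith
  · intro h
    rcases hL _ h 1 (-1) (by module) with h' | h'
    · have h1 := (hind 1 (-1) 0 (by
        calc (1 : ℚ) • a + (-1 : ℚ) • b + (0 : ℚ) • c = (c + a - b) - c := by module
          _ = 0 := by rw [h']; exact sub_self c)).1
      norm_num at h1
    · have h1 := (hind 2 (-2) 0 (by
        calc (2 : ℚ) • a + (-2 : ℚ) • b + (0 : ℚ) • c = (c + a - b) - (c + (b - a)) := by module
          _ = 0 := by rw [← hdc, h']; exact sub_self d)).1
      norm_num at h1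
  · intro h
    have h' := W.neg _ h
    rcases hL _ h' (-1) (-1) (by module) with h' | h'
    · have h1 := (hind (-1) (-1) 0 (by
        calc (-1 : ℚ) • a + (-1 : ℚ) • b + (0 : ℚ) • c = -(a + b - c) - c := by module
          _ = 0 := by rw [h']; exact sub_self c)).1
      norm_num at h1
    · have h1 := (hind 0 (-2) 0 (by
        calc (0 : ℚ) • a + (-2 : ℚ) • b + (0 : ℚ) • c = -(a + b - c) - (c + (b - a)) := by
              module
          _ = 0 := by rw [← hdc, h']; exact sub_self d)).2.1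
      norm_num at h1

/-- There is only one weight of positive level. -/
theorem Triple_one {R : Root X} {Ω : Set X} (W : Wts R Ω) (h0 : (0 : X) ∉ Ω)
    (h2 : ∀ a ∈ Ω, (2 : ℚ) • a ∉ R.Φ)
    (H2 : ∀ φ, Gen R Ω φ → ∀ a b, First Ω φ a → Next Ω φ a b → b - a ∈ R.Φ ∧ b + a ∈ R.Φ)
    (H3 : ∀ φ a b c d, Quad R Ω φ a b c d → False)
    {a b w : X} (ha : a ∈ Ω) (hb : b ∈ Ω) (hw : w ∈ Ω)
    (hind : ∀ x y z : ℚ, x • a + y • b + z • w = 0 → x = 0 ∧ y = 0 ∧ z = 0)
    (hmin : ∀ v ∈ Ω, ∀ x y z : ℚ, v = x • a + y • b + z • w → 0 < z → 1 ≤ z) :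
    (R.pr (b - a) w = 0 ∧ R.pr (b + a) w = 0) ∧
      ∀ v ∈ Ω, ∀ x y z : ℚ, v = x • a + y • b + z • w → 0 < z → v = w := by
  have hba : b ≠ a := by
    intro h
    have h1 := (hind 1 (-1) 0 (by rw [h]; module)).1
    norm_num at h1
  have hba' : b ≠ -a := by
    intro h
    have h1 := (hind 1 1 0 (by rw [h]; module)).1
    norm_num at h1
  have hwa : w ≠ a := by
    intro h
    have h1 := (hind 1 0 (-1) (by rw [h]; module)).1
    norm_num at h1
  have hwa' : w ≠ -a := by
    intro h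
    have h1 := (hind 1 0 1 (by rw [h]; module)).1
    norm_num at h1
  obtain ⟨⟨r1, r4⟩, ⟨p1, p1', p4', p4⟩, pw, proot, -⟩ := plane_even W h0 h2 H2 ha hb hba hba'
  obtain ⟨f1, g1, g2, g3⟩ := Triple_dual (a := b) (b := w) (c := a) (fun x y z h => by
    obtain ⟨u1, u2, u3⟩ := hind z x y (by rw [← h]; module)
    exact ⟨u2, u3, u1⟩)
  obtain ⟨f3, a3, b3, w3⟩ := Triple_dual hind
  have hf3 : ∀ x y z : ℚ, f3 (x • a + y • b + z • w) = z := by
    intro x y z
    rw [map_add, map_add, map_smul, map_smul, map_smul, a3, b3, w3]; simp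
  -- differences of two weights of level one
  have hdiff : ∀ v ∈ Ω, ∀ u ∈ Ω, v ≠ u → (∃ x y : ℚ, v = x • a + y • b + w) →
      (∃ x y : ℚ, u = x • a + y • b + w) →
      (v - u = b - a ∨ v - u = -(b - a) ∨ v - u = b + a ∨ v - u = -(b + a)) := by
    rintro v hv u hu hne ⟨x, y, hxy⟩ ⟨x', y', hxy'⟩
    have hne' : v ≠ -u := by
      intro h
      have h1 := hf3 (x + x') (y + y') 2
      have h3 : (x + x') • a + (y + y') • b + (2 : ℚ) • w = v + u := by
        rw [hxy, hxy']; module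
      rw [h3, h, neg_add_cancel, map_zero] at h1
      norm_num at h1
    obtain ⟨⟨hr, -⟩, -⟩ := plane_even W h0 h2 H2 hu hv hne hne'
    exact proot (v - u) hr (x - x') (y - y') (by rw [hxy, hxy']; module)
  have hpar : ∀ β : X, (β = b - a ∨ β = -(b - a) ∨ β = b + a ∨ β = -(b + a)) →
      f1 β = 1 ∨ f1 β = -1 := by
    rintro β (rfl | rfl | rfl | rfl)
    · right; rw [map_sub, g1, g3]; norm_num
    · left; rw [map_neg, map_sub, g1, g3]; norm_num
    · left; rw [map_add, g1, g3]; norm_num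
    · right; rw [map_neg, map_add, g1, g3]; norm_num
  have hw1 : ∃ x y : ℚ, w = x • a + y • b + w := ⟨0, 0, by module⟩
  have hL : ∀ v ∈ Ω, ∀ x y : ℚ, v = x • a + y • b + w → v = w := by
    intro v hv x y hxy
    by_contra hne
    have hL' : ∀ u ∈ Ω, ∀ x y : ℚ, u = x • a + y • b + w → u = w ∨ u = v := by
      intro u hu x' y' hxy'
      by_contra hcon
      push Not at hcon
      have e1 := hpar _ (hdiff u hu w hw hcon.1 ⟨x', y', hxy'⟩ hw1)
      have e2 := hpar _ (hdiff u hu v hv hcon.2 ⟨x', y', hxy'⟩ ⟨x, y, hxy⟩)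
      have e3 := hpar _ (hdiff v hv w hw hne ⟨x, y, hxy⟩ hw1)
      rw [map_sub] at e1 e2 e3
      rcases e1 with e1 | e1 <;> rcases e2 with e2 | e2 <;> rcases e3 with e3 | e3 <;> linarith
    rcases hdiff v hv w hw hne ⟨x, y, hxy⟩ hw1 with h | h | h | h
    · exact Triple_two W h0 h2 H2 H3 ha hb hw hv hind (by rw [← h]; abel) hmin hL'
    · refine Triple_two W h0 h2 H2 H3 hb ha hw hv (fun x y z h => ?_) ?_ ?_ ?_
      · obtain ⟨u1, u2, u3⟩ := hind y x z (by rw [← h]; module)
        exact ⟨u2, u1, u3⟩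
      · calc v = w + (v - w) := by abel
          _ = w + (a - b) := by rw [h]; abel
      · exact fun u hu x y z hu' hz => hmin u hu y x z (by rw [hu']; module) hz
      · exact fun u hu x y hu' => hL' u hu y x (by rw [hu']; module)
    · refine Triple_two W h0 h2 H2 H3 (W.neg a ha) hb hw hv (fun x y z h => ?_) ?_ ?_ ?_
      · obtain ⟨u1, u2, u3⟩ := hind (-x) y z (by rw [← h]; module)
        exact ⟨by linarith, u2, u3⟩
      · calc v = w + (v - w) := by abel
          _ = w + (b - -a) := by rw [h]; abel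
      · exact fun u hu x y z hu' hz => hmin u hu (-x) y z (by rw [hu']; module) hz
      · exact fun u hu x y hu' => hL' u hu (-x) y (by rw [hu']; module)
    · refine Triple_two W h0 h2 H2 H3 ha (W.neg b hb) hw hv (fun x y z h => ?_) ?_ ?_ ?_
      · obtain ⟨u1, u2, u3⟩ := hind x (-y) z (by rw [← h]; module)
        exact ⟨u1, by linarith, u3⟩
      · calc v = w + (v - w) := by abel
          _ = w + (-b - a) := by rw [h]; abel
      · exact fun u hu x y z hu' hz => hmin u hu x (-y) z (by rw [hu']; module) hz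
      · exact fun u hu x y hu' => hL' u hu x (-y) (by rw [hu']; module)
  -- the roots of the plane are orthogonal to `w`
  have hstep : ∀ β ∈ R.Φ, (∃ x y : ℚ, β = x • a + y • b) → ∀ n : ℤ, R.pr β w = n → n ≤ 0 := by
    rintro β hβ ⟨x, y, hxy⟩ n hn
    by_contra hcon
    push Not at hcon
    have h1 : (1 : ℚ) ≤ R.pr β w := by
      rw [hn]; exact_mod_cast hcon
    have h3 := W.str β hβ w hw 1 (by rw [Nat.cast_one]; exact h1)
    have h4 := hL _ h3 (-x) (-y) (by rw [hxy, Nat.cast_one]; module)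
    rw [Nat.cast_one, one_smul, sub_eq_self] at h4
    exact R.zero (h4 ▸ hβ)
  have hzero : ∀ β ∈ R.Φ, (∃ x y : ℚ, β = x • a + y • b) → R.pr β w = 0 := by
    rintro β hβ ⟨x, y, hxy⟩
    obtain ⟨n, hn⟩ := W.int β hβ w hw
    have h1 := hstep β hβ ⟨x, y, hxy⟩ n hn
    have h3 := hstep (-β) (R.neg β hβ) ⟨-x, -y, by rw [hxy]; module⟩ (-n) (by
      rw [R.pneg β hβ, hn]; push_cast; ring)
    have h4 : n = 0 := by omega
    rw [hn, h4]; norm_num
  have q1 : R.pr (b - a) w = 0 := hzero _ r1 ⟨-1, 1, by module⟩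
  have q2 : R.pr (b + a) w = 0 := hzero _ r4 ⟨1, 1, by module⟩
  refine ⟨⟨q1, q2⟩, ?_⟩
  obtain ⟨⟨s1, s2⟩, ⟨t1, t2, t3, t4⟩, -, -, -⟩ := plane_even W h0 h2 H2 ha hw hwa hwa'
  have nz : ∀ x y : ℚ, x • a + y • b + (1 : ℚ) • w ≠ 0 := by
    intro x y h
    have h1 := (hind x y 1 h).2.2
    norm_num at h1
  have e1 : R.pr (w - a) b = 0 := by
    have c1 : R.pr (b + a) (w - a) = -1 := by rw [map_sub, q2, p4]; norm_num
    have c2 : R.pr (b - a) (w - a) = 1 := by rw [map_sub, q1, p1']; norm_num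
    have d1 := R.cox (b + a) r4 (w - a) s1
      (fun h => nz (-2) (-1) (by
        calc (-2 : ℚ) • a + (-1 : ℚ) • b + (1 : ℚ) • w = (w - a) - (b + a) := by module
          _ = 0 := by rw [h]; exact sub_self _))
      (fun h => nz 0 1 (by
        calc (0 : ℚ) • a + (1 : ℚ) • b + (1 : ℚ) • w = (w - a) - -(b + a) := by module
          _ = 0 := by rw [h]; exact sub_self _))
    have d2 := R.cox (b - a) r1 (w - a) s1
      (fun h => nz 0 (-1) (by
        calc (0 : ℚ) • a + (-1 : ℚ) • b + (1 : ℚ) • w = (w - a) - (b - a) := by module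
          _ = 0 := by rw [h]; exact sub_self _))
      (fun h => nz (-2) 1 (by
        calc (-2 : ℚ) • a + (1 : ℚ) • b + (1 : ℚ) • w = (w - a) - -(b - a) := by module
          _ = 0 := by rw [h]; exact sub_self _))
    rw [c1, map_add, t2] at d1
    rw [c2, map_sub, t2] at d2
    rcases d1 with ⟨d1, -⟩ | ⟨d1, -⟩
    · norm_num at d1
    · rcases d2 with ⟨d2, -⟩ | ⟨d2, -⟩
      · norm_num at d2
      · linarith
  have e2 : R.pr (w + a) b = 0 := by
    have c1 : R.pr (b + a) (w + a) = 1 := by rw [map_add, q2, p4]; norm_num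
    have c2 : R.pr (b - a) (w + a) = -1 := by rw [map_add, q1, p1']; norm_num
    have d1 := R.cox (b + a) r4 (w + a) s2
      (fun h => nz 0 (-1) (by
        calc (0 : ℚ) • a + (-1 : ℚ) • b + (1 : ℚ) • w = (w + a) - (b + a) := by module
          _ = 0 := by rw [h]; exact sub_self _))
      (fun h => nz 2 1 (by
        calc (2 : ℚ) • a + (1 : ℚ) • b + (1 : ℚ) • w = (w + a) - -(b + a) := by module
          _ = 0 := by rw [h]; exact sub_self _))
    have d2 := R.cox (b - a) r1 (w + a) s2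
      (fun h => nz 2 (-1) (by
        calc (2 : ℚ) • a + (-1 : ℚ) • b + (1 : ℚ) • w = (w + a) - (b - a) := by module
          _ = 0 := by rw [h]; exact sub_self _))
      (fun h => nz 0 1 (by
        calc (0 : ℚ) • a + (1 : ℚ) • b + (1 : ℚ) • w = (w + a) - -(b - a) := by module
          _ = 0 := by rw [h]; exact sub_self _))
    rw [c1, map_add, t4] at d1
    rw [c2, map_sub, t4] at d2
    rcases d1 with ⟨d1, -⟩ | ⟨d1, -⟩
    · norm_num at d1
    · rcases d2 with ⟨d2, -⟩ | ⟨d2, -⟩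
      · norm_num at d2
      · linarith
  by_contra hcon
  push Not at hcon
  obtain ⟨v', hv', x', y', z', hv1', hz', hne'⟩ := hcon
  set S : Set X := {v | v ∈ Ω ∧ (∃ x y z : ℚ, v = x • a + y • b + z • w ∧ 0 < z) ∧ v ≠ w}
    with hS
  have hSfin : S.Finite := W.fin.subset fun v hv => hv.1
  obtain ⟨v, ⟨hvΩ, ⟨x, y, z, hv, hz⟩, hvw⟩, hvmin⟩ := Set.exists_min_image S f3 hSfin
    ⟨v', hv', ⟨x', y', z', hv1', hz'⟩, hne'⟩
  have hfv : f3 v = z := by rw [hv]; exact hf3 x y z
  have hz1 : 1 < z := by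
    rcases (hmin v hvΩ x y z hv hz).eq_or_lt with h | h
    · exact absurd (hL v hvΩ x y (by rw [hv, ← h, one_smul])) hvw
    · exact h
  have hva : v ≠ a := by
    intro h
    rw [h, a3] at hfv
    linarith
  have hva' : v ≠ -a := by
    intro h
    rw [h, map_neg, a3] at hfv
    linarith
  obtain ⟨⟨u1, u2⟩, -⟩ := plane_even W h0 h2 H2 ha hvΩ hva hva'
  have hdesc : ∀ e : ℚ, (w - e • a ∈ R.Φ) → (v + e • a ∈ R.Φ) → 0 < R.pr (w - e • a) v →
      False := by
    intro e hβ hve hpos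
    obtain ⟨n, hn⟩ := W.int _ hβ v hvΩ
    have hn1 : (1 : ℚ) ≤ R.pr (w - e • a) v := by
      rw [hn] at hpos ⊢
      have h5 : 0 < n := by exact_mod_cast hpos
      exact_mod_cast h5
    have h6 := W.str _ hβ v hvΩ 1 (by rw [Nat.cast_one]; exact hn1)
    rw [Nat.cast_one] at h6
    have h7 : v - (1 : ℚ) • (w - e • a) = (x + e) • a + y • b + (z - 1) • w := by
      rw [hv]; module
    by_cases h8 : v - (1 : ℚ) • (w - e • a) = w
    · apply h2 w hw
      have h9 : v + e • a = (2 : ℚ) • w := by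
        calc v + e • a = (v - (1 : ℚ) • (w - e • a)) + w := by module
          _ = w + w := by rw [h8]
          _ = (2 : ℚ) • w := by module
      rw [← h9]
      exact hve
    · have h9 := hvmin _ ⟨h6, ⟨x + e, y, z - 1, h7, by linarith⟩, h8⟩
      rw [h7, hf3, hfv] at h9
      linarith
  by_cases hx : x < z
  · refine hdesc 1 (by rw [one_smul]; exact s1) (by rw [one_smul]; exact u2) ?_
    rw [one_smul, hv, map_add, map_add, map_smul, map_smul, map_smul, e1, t1, t2]
    simp only [smul_eq_mul]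
    linarith
  · refine hdesc (-1) (by
      have : w - (-1 : ℚ) • a = w + a := by module
      rw [this]; exact s2) (by
      have : v + (-1 : ℚ) • a = v - a := by module
      rw [this]; exact u1) ?_
    have h5 : w - (-1 : ℚ) • a = w + a := by module
    rw [h5, hv, map_add, map_add, map_smul, map_smul, map_smul, e2, t3, t4]
    simp only [smul_eq_mul]
    linarith

/-- Three weights (even case). -/
theorem triple_even {R : Root X} {Ω : Set X} (W : Wts R Ω) (h0 : (0 : X) ∉ Ω)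
    (h2 : ∀ a ∈ Ω, (2 : ℚ) • a ∉ R.Φ)
    (H2 : ∀ φ, Gen R Ω φ → ∀ a b, First Ω φ a → Next Ω φ a b → b - a ∈ R.Φ ∧ b + a ∈ R.Φ)
    (H3 : ∀ φ a b c d, Quad R Ω φ a b c d → False)
    {a b c : X} (ha : a ∈ Ω) (hb : b ∈ Ω) (hc : c ∈ Ω) (h1 : b ≠ a) (h1' : b ≠ -a)
    (h3 : c ≠ a) (h3' : c ≠ -a) (h4 : c ≠ b) (h4' : c ≠ -b) :
    R.pr (b - a) c = 0 ∧ R.pr (b + a) c = 0 := by
  obtain ⟨-, -, pw, -, hind2⟩ := plane_even W h0 h2 H2 ha hb h1 h1'
  have hind : ∀ x y z : ℚ, x • a + y • b + z • c = 0 → x = 0 ∧ y = 0 ∧ z = 0 := by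
    intro x y z h
    have hz : z = 0 := by
      by_contra hz
      have h5 : c = (-(x / z)) • a + (-(y / z)) • b := by
        have h6 : z⁻¹ • (x • a + y • b + z • c) = 0 := by rw [h, smul_zero]
        have h7 : z⁻¹ • (x • a + y • b + z • c) = (x / z) • a + (y / z) • b + c := by
          rw [smul_add, smul_add, smul_smul, smul_smul, smul_smul, inv_mul_cancel₀ hz,
            one_smul, div_eq_inv_mul, div_eq_inv_mul]
        rw [h7] at h6
        calc c = ((x / z) • a + (y / z) • b + c) - ((x / z) • a + (y / z) • b) := by abel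
          _ = (-(x / z)) • a + (-(y / z)) • b := by rw [h6]; module
      rcases pw c hc _ _ h5 with h | h | h | h
      · exact h3 h
      · exact h3' h
      · exact h4 h
      · exact h4' h
    rw [hz, zero_smul, add_zero] at h
    exact ⟨(hind2 x y h).1, (hind2 x y h).2, hz⟩
  obtain ⟨f3, a3, b3, c3⟩ := Triple_dual hind
  have hf3 : ∀ x y z : ℚ, f3 (x • a + y • b + z • c) = z := by
    intro x y z
    rw [map_add, map_add, map_smul, map_smul, map_smul, a3, b3, c3]; simp
  set S : Set X := {v | v ∈ Ω ∧ ∃ x y z : ℚ, v = x • a + y • b + z • c ∧ 0 < z} with hS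
  have hSfin : S.Finite := W.fin.subset fun v hv => hv.1
  obtain ⟨w, ⟨hwΩ, x₀, y₀, m, hw, hm⟩, hwmin⟩ := Set.exists_min_image S f3 hSfin
    ⟨c, hc, 0, 0, 1, by module, one_pos⟩
  have hfw : f3 w = m := by rw [hw]; exact hf3 _ _ _
  obtain ⟨hres, huniq⟩ := Triple_one W h0 h2 H2 H3 ha hb hwΩ
    (fun x y z h => by
      obtain ⟨u1, u2, u3⟩ := hind (x + z * x₀) (y + z * y₀) (z * m) (by
        rw [← h, hw]; module)
      have hz : z = 0 := by
        rcases mul_eq_zero.1 u3 with h | h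
        · exact h
        · exact absurd h hm.ne'
      rw [hz] at u1 u2
      exact ⟨by linarith, by linarith, hz⟩)
    (fun v hv x y z hxyz hz => by
      have h5 : v = (x + z * x₀) • a + (y + z * y₀) • b + (z * m) • c := by
        rw [hxyz, hw]; module
      have h6 := hwmin v ⟨hv, _, _, _, h5, by positivity⟩
      rw [hfw, h5, hf3] at h6
      by_contra hcon
      push Not at hcon
      nlinarith)
  have hcw : c = w := by
    refine huniq c hc (-(x₀ / m)) (-(y₀ / m)) (1 / m) ?_ (by positivity)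
    have h5 : (1 / m) • w = (x₀ / m) • a + (y₀ / m) • b + c := by
      rw [hw, smul_add, smul_add, smul_smul, smul_smul, smul_smul, one_div,
        inv_mul_cancel₀ hm.ne', one_smul, div_eq_inv_mul, div_eq_inv_mul]
    rw [h5]
    module
  rw [hcw]
  exact hres

end Pool.Agent.Y102.SP
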