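import Pool.Agent.Y102.SP.Defs

set_option autoImplicit false
set_option linter.unusedSectionVars false

open Module

namespace Pool.Agent.Y102.SP

attribute [local instance 100] LieRing.ofAssociativeRing

variable {U : Type} [AddCommGroup U] [Module ℂ U] [FiniteDimensional ℂ U] [Nontrivial U]
  {T : Type} [AddCommGroup T] [Module ℂ T] {V 𝔥 : Submodule ℂ (Module.End ℂ U)} (S : Sys V 𝔥 T)

open LieModule in
/-- Every eigenvector of `h` gives a primitive vector. -/
theorem Wt_prim {L M : Type} [LieRing L] [LieAlgebra ℂ L] [AddCommGroup M] [Module ℂ M]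
    [LieRingModule L M] [LieModule ℂ L M] [FiniteDimensional ℂ M] {h e f : L}
    (t : IsSl2Triple h e f) {u : M} (hu : u ≠ 0) {μ : ℂ} (hμ : ⁅h, u⁆ = μ • u) :
    ∃ n k : ℕ, t.HasPrimitiveVectorWith ((toEnd ℂ L M e ^ k) u) (n : ℂ) ∧ μ = n - 2 * k := by
  have hlie : ∀ n : ℕ, ⁅h, ((toEnd ℂ L M e) ^ n) u⁆ =
      (μ + 2 * n) • ((toEnd ℂ L M e) ^ n) u :=
    fun n => t.lie_h_pow_toEnd_e (m := u) (μ := μ) hμ n
  let evals (n : ℕ) : ℂ := μ + 2 * (n : ℂ)
  let e_vecs (n : ℕ) : M := ((toEnd ℂ L M e) ^ n) u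
  have h_exists_zero : ∃ k, e_vecs k = 0 := by
    by_contra! contra
    have h_inj : Function.Injective evals := fun a b hab ↦ by
      simpa [evals, add_right_inj, mul_eq_mul_left_iff, Nat.cast_inj] using hab
    have aux (μ : Set.range evals) : (toEnd ℂ L M h).HasEigenvector μ
        (e_vecs μ.property.choose) := by
      set n := μ.property.choose
      refine ⟨?_, contra n⟩
      rw [Module.End.mem_eigenspace_iff, toEnd_apply_apply, ← μ.property.choose_spec]
      exact hlie n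
    have _i := ((toEnd ℂ L M h).eigenvectors_linearIndependent
      (Set.range evals) _ aux).finite
    exact (Set.infinite_range_of_injective h_inj) (Set.toFinite _)
  obtain ⟨n, hn_ne, hn_zero⟩ := Nat.exists_not_and_succ_of_not_zero_of_exists
    (p := fun k => e_vecs k = 0) hu h_exists_zero
  have hP : t.HasPrimitiveVectorWith (e_vecs n) (evals n) :=
    { ne_zero := hn_ne
      lie_h := hlie n
      lie_e := by rwa [IsSl2Triple.lie_e_pow_toEnd_e n] }
  obtain ⟨m, hm⟩ := hP.exists_nat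
  refine ⟨m, n, by rw [← hm]; exact hP, ?_⟩
  have : evals n = μ + 2 * (n : ℂ) := rfl
  rw [← hm, this]
  ring

namespace Sys

theorem mem_vw {χ : Module.Dual ℂ T} {x : Module.End ℂ U} :
    x ∈ S.vw χ ↔ x ∈ V ∧ ∀ t, S.ι t * x - x * S.ι t = χ t • x := by
  rfl

/-- Root vectors shift the weights. -/
theorem act {α : Module.Dual ℂ T} (hα : α ∈ S.R.Φ) {χ : Module.Dual ℂ T} {x : Module.End ℂ U}
    (hx : x ∈ S.vw χ) : S.e α * x - x * S.e α ∈ S.vw (α + χ) := by
  rw [mem_vw] at hx ⊢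
  refine ⟨S.stab _ (S.emem α hα) x hx.1, fun t => ?_⟩
  have h1 := S.wt α hα t
  have h2 := hx.2 t
  have h3 : S.ι t * (S.e α * x - x * S.e α) - (S.e α * x - x * S.e α) * S.ι t =
      ((S.ι t * S.e α - S.e α * S.ι t) * x - x * (S.ι t * S.e α - S.e α * S.ι t)) +
        (S.e α * (S.ι t * x - x * S.ι t) - (S.ι t * x - x * S.ι t) * S.e α) := by
    noncomm_ring
  rw [h3, h1, h2, LinearMap.add_apply, add_smul, smul_mul_assoc, mul_smul_comm, mul_smul_comm,
    smul_mul_assoc, ← smul_sub, ← smul_sub]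

theorem Wt_two {α : Module.Dual ℂ T} (hα : α ∈ S.R.Φ) : α (S.h α) = 2 := by
  rw [S.prh α hα α (S.rat α hα α hα), S.R.two α hα]
  norm_num

theorem Wt_triple {α : Module.Dual ℂ T} (hα : α ∈ S.R.Φ) :
    IsSl2Triple (S.ι (S.h α)) (S.e α) (S.e (-α)) where
  h_ne_zero := by
    intro h
    have h1 := S.wt α hα (S.h α)
    rw [h, zero_mul, mul_zero, sub_zero, S.Wt_two hα] at h1
    have h2 := smul_eq_zero.1 h1.symm
    rcases h2 with h2 | h2
    · norm_num at h2
    · exact S.ene α hα h2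
  lie_e_f := by
    rw [Ring.lie_def]
    exact S.br α hα
  lie_h_e_nsmul := by
    rw [Ring.lie_def, S.wt α hα, S.Wt_two hα, ← ofNat_smul_eq_nsmul ℂ 2]
  lie_h_f_nsmul := by
    rw [Ring.lie_def, S.wt _ (S.R.neg α hα), LinearMap.neg_apply, S.Wt_two hα, neg_smul,
      ← ofNat_smul_eq_nsmul ℂ 2]

theorem Wt_exists {χ : Module.Dual ℂ T} (hχ : χ ∈ S.Om) : ∃ x, x ∈ S.vw χ ∧ x ≠ 0 :=
  Submodule.exists_mem_ne_zero_of_ne_bot hχ

/-- The weights are integral. -/
theorem wint {α : Module.Dual ℂ T} (hα : α ∈ S.R.Φ) {χ : Module.Dual ℂ T} (hχ : χ ∈ S.Om) :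
    (∃ n : ℤ, S.R.pr α χ = n) ∧ χ (S.h α) = (S.R.pr α χ : ℂ) := by
  obtain ⟨x, hx, hx0⟩ := S.Wt_exists hχ
  have h1 : ⁅S.ι (S.h α), x⁆ = χ (S.h α) • x := by
    rw [Ring.lie_def]
    exact ((S.mem_vw).1 hx).2 _
  obtain ⟨n, k, -, h2⟩ := Wt_prim (S.Wt_triple hα) hx0 h1
  have h3 : χ (S.h α) = (S.R.pr α χ : ℂ) :=
    S.prh α hα χ ⟨(n : ℚ) - 2 * k, by rw [h2]; push_cast; ring⟩
  refine ⟨⟨(n : ℤ) - 2 * k, ?_⟩, h3⟩
  rw [h2] at h3
  have h4 : ((S.R.pr α χ : ℚ) : ℂ) = (((n : ℚ) - 2 * k : ℚ) : ℂ) := by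
    rw [← h3]
    push_cast
    ring
  have h5 := Rat.cast_injective h4
  rw [h5]
  push_cast
  ring

/-- The coroot acts by the pairing. -/
theorem eig {α : Module.Dual ℂ T} (hα : α ∈ S.R.Φ) {χ : Module.Dual ℂ T} {x : Module.End ℂ U}
    (hx : x ∈ S.vw χ) : S.ι (S.h α) * x - x * S.ι (S.h α) = (S.R.pr α χ : ℂ) • x := by
  by_cases hx0 : x = 0
  · subst hx0
    simp
  · have hχ : χ ∈ S.Om := fun h => hx0 (by
      have : x ∈ (⊥ : Submodule ℂ (Module.End ℂ U)) := by rw [← h]; exact hx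
      simpa using this)
    rw [← (S.wint hα hχ).2]
    exact ((S.mem_vw).1 hx).2 _

/-- Root vectors act injectively on negative weights. -/
theorem inj {α : Module.Dual ℂ T} (hα : α ∈ S.R.Φ) {χ : Module.Dual ℂ T} {x : Module.End ℂ U}
    (hx : x ∈ S.vw χ) (hx0 : x ≠ 0) (hp : S.R.pr α χ < 0) : S.e α * x - x * S.e α ≠ 0 := by
  intro h
  have hP : (S.Wt_triple hα).HasPrimitiveVectorWith x ((S.R.pr α χ : ℚ) : ℂ) :=
    { ne_zero := hx0
      lie_h := by
        rw [Ring.lie_def]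
        exact S.eig hα hx
      lie_e := by
        rw [Ring.lie_def]
        exact h }
  obtain ⟨n, hn⟩ := hP.exists_nat
  have h5 : (S.R.pr α χ : ℚ) = (n : ℚ) := by
    have : ((S.R.pr α χ : ℚ) : ℂ) = ((n : ℚ) : ℂ) := by rw [hn]; norm_cast
    exact Rat.cast_injective this
  rw [h5] at hp
  have : (0 : ℚ) ≤ n := Nat.cast_nonneg n
  linarith

/-- The weight spaces are independent. -/
theorem wsp_indep : iSupIndep fun χ : Module.Dual ℂ T => wsp S.ι χ := by
  let ad : T → Module.End ℂ (Module.End ℂ U) := fun t =>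
    LinearMap.mulLeft ℂ (S.ι t) - LinearMap.mulRight ℂ (S.ι t)
  have hcomm : ∀ s t, Commute (ad s) (ad t) := by
    intro s t
    have h := S.comm s t
    apply LinearMap.ext
    intro x
    simp only [ad, Module.End.mul_apply, LinearMap.sub_apply, LinearMap.mulLeft_apply,
      LinearMap.mulRight_apply]
    have h1 : S.ι s * (S.ι t * x - x * S.ι t) - (S.ι t * x - x * S.ι t) * S.ι s =
        (S.ι s * S.ι t) * x - S.ι s * x * S.ι t - S.ι t * x * S.ι s + x * (S.ι t * S.ι s) := by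
      noncomm_ring
    have h2 : S.ι t * (S.ι s * x - x * S.ι s) - (S.ι s * x - x * S.ι s) * S.ι t =
        (S.ι t * S.ι s) * x - S.ι t * x * S.ι s - S.ι s * x * S.ι t + x * (S.ι s * S.ι t) := by
      noncomm_ring
    rw [h1, h2, h]
    abel
  have h1 := Module.End.independent_iInf_maxGenEigenspace_of_forall_mapsTo ad
    (fun i j φ => Module.End.mapsTo_maxGenEigenspace_of_comm (hcomm j i) φ)
  have h2 := h1.comp (f := fun χ : Module.Dual ℂ T => (fun t => χ t)) (fun a b hab => by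
    ext t
    exact congrFun hab t)
  refine h2.mono ?_
  intro χ x hx
  simp only [Function.comp_apply, Submodule.mem_iInf]
  intro t
  refine Module.End.mem_maxGenEigenspace _ _ _ |>.2 ⟨1, ?_⟩
  simp only [pow_one, LinearMap.sub_apply, LinearMap.smul_apply, Module.End.one_apply]
  have := hx t
  simp only [ad, LinearMap.sub_apply, LinearMap.mulLeft_apply, LinearMap.mulRight_apply]
  rw [this, sub_self]

theorem usp_indep : iSupIndep fun χ : Module.Dual ℂ T => usp S.ι χ := by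
  have h1 := Module.End.independent_iInf_maxGenEigenspace_of_forall_mapsTo (fun t => S.ι t)
    (fun i j φ => Module.End.mapsTo_maxGenEigenspace_of_comm (S.comm j i) φ)
  have h2 := h1.comp (f := fun χ : Module.Dual ℂ T => (fun t => χ t)) (fun a b hab => by
    ext t
    exact congrFun hab t)
  refine h2.mono ?_
  intro χ x hx
  simp only [Function.comp_apply, Submodule.mem_iInf]
  intro t
  refine Module.End.mem_maxGenEigenspace _ _ _ |>.2 ⟨1, ?_⟩
  simp only [pow_one, LinearMap.sub_apply, LinearMap.smul_apply, Module.End.one_apply]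
  rw [hx t, sub_self]

theorem om_finite : S.Om.Finite := by
  have h1 : iSupIndep fun χ : Module.Dual ℂ T => S.vw χ :=
    S.wsp_indep.mono (fun χ => inf_le_right)
  exact WellFoundedGT.finite_ne_bot_of_iSupIndep h1

theorem Wt_pow {α : Module.Dual ℂ T} (hα : α ∈ S.R.Φ) {χ : Module.Dual ℂ T}
    {x : Module.End ℂ U} (hx : x ∈ S.vw χ) (k : ℕ) :
    ((LieModule.toEnd ℂ (Module.End ℂ U) (Module.End ℂ U) (S.e α)) ^ k) x ∈
      S.vw (k • α + χ) := by
  induction k with
  | zero => simpa using hx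
  | succ k ih =>
    rw [pow_succ', Module.End.mul_apply, LieModule.toEnd_apply_apply, Ring.lie_def]
    have := S.act hα ih
    rw [← add_assoc] at this
    rwa [succ_nsmul']

/-- The weights of `V`. -/
theorem wts (hneg : ∀ ω ∈ S.Om, -ω ∈ S.Om) : Wts S.R S.Om where
  fin := S.om_finite
  neg := hneg
  int := fun α hα ω hω => (S.wint hα hω).1
  str := by
    intro α hα ω hω j hj
    obtain ⟨x, hx, hx0⟩ := S.Wt_exists hω
    have h1 : ⁅S.ι (S.h α), x⁆ = ((S.R.pr α ω : ℚ) : ℂ) • x := by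
      rw [Ring.lie_def]
      exact S.eig hα hx
    obtain ⟨n, k, hP, h2⟩ := Wt_prim (S.Wt_triple hα) hx0 h1
    have h3 : (S.R.pr α ω : ℚ) = (n : ℚ) - 2 * k := by
      have : ((S.R.pr α ω : ℚ) : ℂ) = (((n : ℚ) - 2 * k : ℚ) : ℂ) := by
        rw [h2]; push_cast; ring
      exact Rat.cast_injective this
    have h4 : k + j ≤ n := by
      have : ((j : ℚ)) + 2 * k ≤ n := by linarith
      have : j + 2 * k ≤ n := by exact_mod_cast this
      omega
    have h5 := hP.pow_toEnd_f_ne_zero_of_eq_nat rfl h4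
    have h6 := S.Wt_pow hα hx k
    have h7 := S.Wt_pow (S.R.neg α hα) h6 (k + j)
    have h8 : (k + j) • (-α) + (k • α + ω) = ω - (j : ℚ) • α := by
      rw [Nat.cast_smul_eq_nsmul, add_smul, smul_neg, smul_neg]
      abel
    rw [h8] at h7
    intro hbot
    rw [hbot] at h7
    exact h5 (by simpa using h7)

end Sys

end Pool.Agent.Y102.SP
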